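import Pool.Agent.Helper79.FX.Br

/-!
# FX-13: the Ahlfors-Schwarz lemma on an annulus

`L = log (r₂ / r₁)`, `x = log (|s - a| / r₁)`, `lam κ a r₁ r₂ s = (π/L)² / (2 κ |s - a|² sin² (π x / L))`.
* `lap_log_lam`: on the annulus `log lam = const - 2 log |s - a| - 2 log (sin (π x / L))`; `log |s - a|` is harmonic with `|∂| = 1 / (2 |s - a|)` (`lap_log_norm`), so by `lap_comp` (with
  `f = fun y => log (sin (π (y - log r₁) / L))`, `f'' = -(π/L)² / sin²`) `Lap log lam = -2 f'' / (4 |s - a|²) = κ lam`.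
* `ahlfors`: let `s₀` be in the annulus, `r₁ < r₁' < |s₀ - a| < r₂' < r₂`, `lam'` for `r₁'`, `r₂'`; it suffices to prove `Mr F s₀ ≤ lam' s₀` (then `r₁' → r₁`, `r₂' → r₂`, `lam'` depends continuously on
  `r₁'`, `r₂'`: `ge_of_tendsto` / `le_of_tendsto`). `Mr F` is continuous on the compact annulus `r₁' ≤ |s - a| ≤ r₂'` (in `Ω`), so bounded by `M`; the function
  `q s = Mr F s * (2 κ |s-a|² sin² (π x'/L')) / (π/L')²` is continuous on the closed annulus and zero on its boundary; let `s*` be a maximum. If `q s* ≤ 1` we are done. Otherwise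
  `q s* > 1 > 0`, so `s*` is an interior point and `Mr F s* > 0`; take `e` with `Mr F s* = e.2.1 s*` (`Mr_eq`). Near `s*` `e.2.1 > 0`, `e.2.1 x / lam' x ≤ q x ≤ q s* = e.2.1 s* / lam' s*`, so
  `log e.2.1 - log lam'` has a local maximum at `s*`: `0 ≥ Lap (log e.2.1) s* - Lap (log lam') s* ≥ κ e.2.1 s* - κ lam' s*` (`lap_nonpos`, `lap_sub`), so `q s* ≤ 1`: contradiction.
* `cusp`: for `0 < |s - a| < R` let `y = log (R / |s - a|)` and take `r₂ = R` and `r₁ > 0` so small that `L = log (R / r₁) ≥ 2 y`. Then `π x / L = π - π y / L` and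
  `sin (π y / L) ≥ 2 y / L` (`Real.mul_le_sin`), so `lam ≤ (π/L)² / (2 κ |s-a|² (2 y / L)²) = π² / (8 κ |s - a|² y²)`.
* `cusp_inf`: the same with `a = 0`, `r₁ = R`, `y = log (|s| / R)`, `r₂ → ∞`.
-/

namespace Pool.Agent.Helper79.FX

open Real

/-- The complete metric of constant curvature on an annulus. -/
noncomputable def lam (κ : ℝ) (a : ℂ) (r₁ r₂ : ℝ) (s : ℂ) : ℝ :=
  (π / log (r₂ / r₁)) ^ 2 / (2 * κ * ‖s - a‖ ^ 2 * sin (π * log (‖s - a‖ / r₁) / log (r₂ / r₁)) ^ 2)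

private theorem an_log {f : ℂ → ℝ} {x : ℂ} (h : AnalyticAt ℝ f x) (h0 : 0 < f x) :
    AnalyticAt ℝ (fun y => log (f y)) x := by
  have h1 : AnalyticAt ℝ (fun y : ℝ => log y) (f x) := AnalyticAt.log (f := fun y : ℝ => y) analyticAt_id h0
  exact AnalyticAt.fun_comp (g := fun y : ℝ => log y) (f := f) h1 h

/-- The angle is in `(0, π)`. -/
private theorem ang {r₁ r₂ t : ℝ} (h₁ : 0 < r₁) (hs : r₁ < t) (hs' : t < r₂) :
    0 < log (r₂ / r₁) ∧ 0 < sin (π * log (t / r₁) / log (r₂ / r₁)) := by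
  have hL : 0 < log (r₂ / r₁) := log_pos ((one_lt_div h₁).2 (hs.trans hs'))
  have hx : 0 < log (t / r₁) := log_pos ((one_lt_div h₁).2 hs)
  have hx' : log (t / r₁) < log (r₂ / r₁) := by
    apply log_lt_log (div_pos (h₁.trans hs) h₁)
    gcongr
  refine ⟨hL, sin_pos_of_pos_of_lt_pi (by positivity) ?_⟩
  rw [div_lt_iff₀ hL]
  exact mul_lt_mul_of_pos_left hx' pi_pos

private theorem lam_pos {κ : ℝ} (hκ : 0 < κ) {a : ℂ} {r₁ r₂ : ℝ} (h₁ : 0 < r₁) {s : ℂ} (hs : r₁ < ‖s - a‖)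
    (hs' : ‖s - a‖ < r₂) : 0 < lam κ a r₁ r₂ s := by
  obtain ⟨hL, hsin⟩ := ang h₁ hs hs'
  have h0 : 0 < ‖s - a‖ := h₁.trans hs
  have := pi_pos
  unfold lam
  positivity

/-- The function of one variable. -/
private noncomputable def ff (c w b : ℝ) (y : ℝ) : ℝ := c - 2 * y - 2 * log (sin (w * (y - b)))

private theorem ff_an {c w b y : ℝ} (h : 0 < sin (w * (y - b))) : AnalyticAt ℝ (ff c w b) y := by
  unfold ff
  have h1 : AnalyticAt ℝ (fun y : ℝ => w * (y - b)) y := by fun_prop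
  have h2 : AnalyticAt ℝ (fun y : ℝ => sin (w * (y - b))) y :=
    AnalyticAt.fun_comp (g := sin) (f := fun y : ℝ => w * (y - b)) (analyticAt_sin (x := w * (y - b))) h1
  have h3 := h2.log h
  fun_prop

private theorem ff_deriv {c w b y : ℝ} (h : 0 < sin (w * (y - b))) :
    HasDerivAt (ff c w b) (-2 - 2 * (w * cos (w * (y - b)) / sin (w * (y - b)))) y := by
  unfold ff
  have h1 : HasDerivAt (fun y : ℝ => w * (y - b)) w y := by
    simpa using ((hasDerivAt_id y).sub_const b).const_mul w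
  have h2 : HasDerivAt (fun y : ℝ => sin (w * (y - b))) (cos (w * (y - b)) * w) y := h1.sin
  have h3 := (h2.log h.ne').const_mul 2
  have h4 : HasDerivAt (fun y : ℝ => c - 2 * y) (-2) y := by
    simpa using ((hasDerivAt_id y).const_mul 2).const_sub c
  have h5 : HasDerivAt (fun y : ℝ => c - 2 * y - 2 * log (sin (w * (y - b))))
      (-2 - 2 * (cos (w * (y - b)) * w / sin (w * (y - b)))) y := h4.sub h3
  rwa [mul_comm (cos (w * (y - b))) w] at h5

private theorem ff_deriv2 {c w b y : ℝ} (h : 0 < sin (w * (y - b))) :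
    deriv (deriv (ff c w b)) y = 2 * w ^ 2 / sin (w * (y - b)) ^ 2 := by
  have h1 : HasDerivAt (fun y : ℝ => w * (y - b)) w y := by
    simpa using ((hasDerivAt_id y).sub_const b).const_mul w
  have hc : ContinuousAt (fun y : ℝ => sin (w * (y - b))) y := by fun_prop
  have hev : deriv (ff c w b) =ᶠ[nhds y]
      fun y => -2 - 2 * (w * cos (w * (y - b)) / sin (w * (y - b))) := by
    filter_upwards [hc.eventually (lt_mem_nhds h)] with z hz
    exact (ff_deriv hz).deriv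
  rw [hev.deriv_eq]
  have h2 : HasDerivAt (fun y : ℝ => sin (w * (y - b))) (cos (w * (y - b)) * w) y := h1.sin
  have h3 : HasDerivAt (fun y : ℝ => cos (w * (y - b))) (-sin (w * (y - b)) * w) y := h1.cos
  have h4 : HasDerivAt (fun y => -2 - 2 * (w * cos (w * (y - b)) / sin (w * (y - b)))) _ y :=
    (((h3.const_mul w).div h2 h.ne').const_mul 2).const_sub (-2)
  rw [HasDerivAt.deriv h4]
  have h5 := sin_sq_add_cos_sq (w * (y - b))
  have h6 := h.ne'
  rw [eq_div_iff (by positivity)]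
  field_simp
  linear_combination (w ^ 2) * h5

private theorem lam_eq {κ : ℝ} (hκ : 0 < κ) {a : ℂ} {r₁ r₂ : ℝ} (h₁ : 0 < r₁) {s : ℂ} (hs : r₁ < ‖s - a‖)
    (hs' : ‖s - a‖ < r₂) : log (lam κ a r₁ r₂ s) =
      ff (log ((π / log (r₂ / r₁)) ^ 2 / (2 * κ))) (π / log (r₂ / r₁)) (log r₁) (log ‖s - a‖) := by
  obtain ⟨hL, hsin⟩ := ang h₁ hs hs'
  have h0 : 0 < ‖s - a‖ := h₁.trans hs
  have := pi_pos
  have e : π / log (r₂ / r₁) * (log ‖s - a‖ - log r₁) = π * log (‖s - a‖ / r₁) / log (r₂ / r₁) := by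
    rw [log_div h0.ne' h₁.ne']; ring
  unfold lam ff
  rw [e]
  have e2 : (π / log (r₂ / r₁)) ^ 2 / (2 * κ * ‖s - a‖ ^ 2 * sin (π * log (‖s - a‖ / r₁) / log (r₂ / r₁)) ^ 2)
      = (π / log (r₂ / r₁)) ^ 2 / (2 * κ) / (‖s - a‖ ^ 2 * sin (π * log (‖s - a‖ / r₁) / log (r₂ / r₁)) ^ 2) := by
    rw [div_div]; ring_nf
  rw [e2, log_div (by positivity) (by positivity), log_mul (by positivity) (by positivity), log_pow, log_pow]
  push_cast
  ring

private theorem annulus_nhds {a : ℂ} {r₁ r₂ : ℝ} {s : ℂ} (hs : r₁ < ‖s - a‖) (hs' : ‖s - a‖ < r₂) :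
    ∀ᶠ x in nhds s, r₁ < ‖x - a‖ ∧ ‖x - a‖ < r₂ := by
  have hc : ContinuousAt (fun x : ℂ => ‖x - a‖) s := by fun_prop
  exact (hc.eventually (lt_mem_nhds hs)).and (hc.eventually (gt_mem_nhds hs'))

theorem lap_log_lam {κ : ℝ} (hκ : 0 < κ) {a : ℂ} {r₁ r₂ : ℝ} (h₁ : 0 < r₁) {s : ℂ} (hs : r₁ < ‖s - a‖)
    (hs' : ‖s - a‖ < r₂) : 0 < lam κ a r₁ r₂ s ∧ AnalyticAt ℝ (lam κ a r₁ r₂) s ∧
      Lap (fun x => log (lam κ a r₁ r₂ x)) s = κ * lam κ a r₁ r₂ s := by
  obtain ⟨hL, hsin⟩ := ang h₁ hs hs'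
  have h0 : 0 < ‖s - a‖ := h₁.trans hs
  have hsa : s ≠ a := by
    rintro rfl
    simp at h0
  have := pi_pos
  set c : ℝ := log ((π / log (r₂ / r₁)) ^ 2 / (2 * κ)) with hc
  set w : ℝ := π / log (r₂ / r₁) with hw
  have e : w * (log ‖s - a‖ - log r₁) = π * log (‖s - a‖ / r₁) / log (r₂ / r₁) := by
    rw [log_div h0.ne' h₁.ne', hw]; ring
  have hsin' : 0 < sin (w * (log ‖s - a‖ - log r₁)) := by rw [e]; exact hsin
  obtain ⟨g1, g2, g3⟩ := lap_log_norm hsa
  have hff : AnalyticAt ℝ (ff c w (log r₁)) (log ‖s - a‖) := ff_an hsin'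
  have hev : (fun x => log (lam κ a r₁ r₂ x)) =ᶠ[nhds s] fun x => ff c w (log r₁) (log ‖x - a‖) := by
    filter_upwards [annulus_nhds hs hs'] with x hx
    exact lam_eq hκ h₁ hx.1 hx.2
  have hcomp : AnalyticAt ℝ (fun x : ℂ => ff c w (log r₁) (log ‖x - a‖)) s :=
    AnalyticAt.fun_comp (g := ff c w (log r₁)) (f := fun x : ℂ => log ‖x - a‖) hff g1
  refine ⟨lam_pos hκ h₁ hs hs', ?_, ?_⟩
  · have h2 : AnalyticAt ℝ (fun x : ℂ => exp (ff c w (log r₁) (log ‖x - a‖))) s := hcomp.rexp'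
    refine h2.congr ?_
    filter_upwards [annulus_nhds hs hs'] with x hx
    have h3 := lam_eq hκ (a := a) h₁ hx.1 hx.2
    rw [← hc, ← hw] at h3
    rw [← h3, exp_log (lam_pos hκ h₁ hx.1 hx.2)]
  · rw [lap_congr hev, lap_comp g1 hff, g2, g3, ff_deriv2 hsin', e]
    unfold lam
    rw [← hw]
    have h4 := hsin.ne'
    have h5 := h0.ne'
    field_simp
    ring

variable {κ C : ℝ} {Ω : Set ℂ} {F : Set (Set ℂ × (ℂ → ℝ) × (ℂ → ℝ))}

private theorem ahlfors_aux (h : Br κ C Ω F) (hΩ : IsOpen Ω) (hκ : 0 < κ) {a : ℂ} {r₁ r₂ : ℝ} (h₁ : 0 < r₁)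
    (hsub : ∀ s, r₁ ≤ ‖s - a‖ → ‖s - a‖ ≤ r₂ → s ∈ Ω) {s : ℂ} (hs : r₁ < ‖s - a‖) (hs' : ‖s - a‖ < r₂) :
    Mr F s ≤ lam κ a r₁ r₂ s := by
  obtain ⟨hL, hsin⟩ := ang h₁ hs hs'
  have hpi := pi_pos
  set L : ℝ := log (r₂ / r₁) with hLdef
  set d : ℂ → ℝ := fun x => 2 * κ * ‖x - a‖ ^ 2 * sin (π * log (‖x - a‖ / r₁) / L) ^ 2 with hd
  have hlam : ∀ x, lam κ a r₁ r₂ x = (π / L) ^ 2 / d x := fun x => rfl
  set q : ℂ → ℝ := fun x => Mr F x * d x / (π / L) ^ 2 with hq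
  set K : Set ℂ := {x | r₁ ≤ ‖x - a‖ ∧ ‖x - a‖ ≤ r₂} with hK
  have hKΩ : K ⊆ Ω := fun x hx => hsub x hx.1 hx.2
  have hKc : IsCompact K := by
    apply (isCompact_closedBall a r₂).of_isClosed_subset
    · have hn : Continuous fun x : ℂ => ‖x - a‖ := by fun_prop
      exact (isClosed_le continuous_const hn).inter (isClosed_le hn continuous_const)
    · intro x hx
      rw [mem_closedBall_iff_norm]
      exact hx.2
  have hcont : ContinuousOn q K := by
    have h1 : ContinuousOn (Mr F) K := (h.continuousOn_Mr hΩ).mono hKΩ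
    have h2 : ContinuousOn (fun x : ℂ => log (‖x - a‖ / r₁)) K := by
      apply ContinuousOn.log
      · fun_prop
      · intro x hx
        have : 0 < ‖x - a‖ := h₁.trans_le hx.1
        positivity
    have h3 : ContinuousOn d K := by
      apply ContinuousOn.mul
      · fun_prop
      · apply ContinuousOn.pow
        apply continuous_sin.comp_continuousOn
        exact (h2.const_smul π).div_const L
    exact (h1.mul h3).div_const _
  obtain ⟨z, hzK, hz⟩ := hKc.exists_isMaxOn ⟨s, hs.le, hs'.le⟩ hcont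
  have hqs : q s ≤ q z := hz (show s ∈ K from ⟨hs.le, hs'.le⟩)
  have hw2 : 0 < (π / L) ^ 2 := by positivity
  have hds : 0 < d s := by
    have : 0 < ‖s - a‖ := h₁.trans hs
    positivity
  suffices hz1 : q z ≤ 1 by
    have h1 : q s ≤ 1 := hqs.trans hz1
    rw [hlam, le_div_iff₀ hds]
    rw [hq] at h1
    simp only at h1
    rwa [div_le_one hw2] at h1
  by_contra hcon
  push Not at hcon
  have hz0 : 0 < ‖z - a‖ := h₁.trans_le hzK.1
  have hz_l : r₁ < ‖z - a‖ := by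
    refine lt_of_le_of_ne hzK.1 fun heq => ?_
    have : q z = 0 := by
      simp only [hq, hd, ← heq]
      rw [div_self h₁.ne']
      simp
    linarith
  have hz_r : ‖z - a‖ < r₂ := by
    refine lt_of_le_of_ne hzK.2 fun heq => ?_
    have : q z = 0 := by
      simp only [hq, hd, heq]
      rw [← hLdef, mul_div_cancel_right₀ _ hL.ne']
      simp
    linarith
  have hdz : 0 < d z := by
    have := (ang h₁ hz_l hz_r).2
    rw [← hLdef] at this
    positivity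
  have hMz : 0 < Mr F z := by
    by_contra hneg
    push Not at hneg
    have : q z ≤ 0 := by
      apply div_nonpos_of_nonpos_of_nonneg _ hw2.le
      exact mul_nonpos_of_nonpos_of_nonneg hneg hdz.le
    linarith
  obtain ⟨e, heF, hze, hMe⟩ := h.Mr_eq (hKΩ hzK)
  have hez : 0 < e.2.1 z := hMe ▸ hMz
  have hlz : 0 < lam κ a r₁ r₂ z := lam_pos hκ h₁ hz_l hz_r
  have hean := h.anr e heF z hze
  obtain ⟨-, hlan, hlap⟩ := lap_log_lam hκ (a := a) h₁ hz_l hz_r
  have hloc : IsLocalMax (fun x => log (e.2.1 x) - log (lam κ a r₁ r₂ x)) z := by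
    filter_upwards [annulus_nhds hz_l hz_r, (h.isOpen e heF).mem_nhds hze,
      hean.continuousAt.eventually (lt_mem_nhds hez)] with x hx hxe hxpos
    have hlx : 0 < lam κ a r₁ r₂ x := lam_pos hκ h₁ hx.1 hx.2
    have hqx : q x ≤ q z := hz (show x ∈ K from ⟨hx.1.le, hx.2.le⟩)
    have hdx : 0 < d x := by
      have h1 := (ang h₁ hx.1 hx.2).2
      rw [← hLdef] at h1
      have : 0 < ‖x - a‖ := h₁.trans hx.1
      positivity
    have h1 : e.2.1 x / lam κ a r₁ r₂ x ≤ e.2.1 z / lam κ a r₁ r₂ z := by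
      have e1 : e.2.1 x / lam κ a r₁ r₂ x = e.2.1 x * d x / (π / L) ^ 2 := by
        rw [hlam, div_div_eq_mul_div]
      have e2 : e.2.1 z / lam κ a r₁ r₂ z = q z := by
        rw [hlam, div_div_eq_mul_div, hq]
        simp only
        rw [hMe]
      rw [e1, e2]
      refine le_trans ?_ hqx
      simp only [hq]
      have := h.le_Mr heF hxe
      gcongr
    rw [← log_div hxpos.ne' hlx.ne', ← log_div hez.ne' hlz.ne']
    exact log_le_log (div_pos hxpos hlx) h1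
  have han1 : AnalyticAt ℝ (fun x => log (e.2.1 x)) z := an_log hean hez
  have han2 : AnalyticAt ℝ (fun x => log (lam κ a r₁ r₂ x)) z := an_log hlan hlz
  have han : AnalyticAt ℝ (fun x => log (e.2.1 x) - log (lam κ a r₁ r₂ x)) z := han1.fun_sub han2
  have hna := lap_nonpos han hloc
  have hsubeq : Lap (fun x => log (e.2.1 x) - log (lam κ a r₁ r₂ x)) z =
      Lap (fun x => log (e.2.1 x)) z - Lap (fun x => log (lam κ a r₁ r₂ x)) z :=
    lap_sub han1 han2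
  have hcurv := h.curv e heF z hze hez
  rw [hsubeq, hlap] at hna
  have h1 : κ * e.2.1 z ≤ κ * lam κ a r₁ r₂ z := by linarith
  have h2 : e.2.1 z ≤ lam κ a r₁ r₂ z := le_of_mul_le_mul_left h1 hκ
  rw [hlam, le_div_iff₀ hdz] at h2
  have h3 : q z ≤ 1 := by
    simp only [hq]
    rw [hMe, div_le_one hw2]
    exact h2
  linarith

theorem Br.ahlfors (h : Br κ C Ω F) (hΩ : IsOpen Ω) (hκ : 0 < κ) {a : ℂ} {r₁ r₂ : ℝ} (h₁ : 0 < r₁)
    (hsub : ∀ s, r₁ < ‖s - a‖ → ‖s - a‖ < r₂ → s ∈ Ω) {s : ℂ} (hs : r₁ < ‖s - a‖) (hs' : ‖s - a‖ < r₂) :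
    Mr F s ≤ lam κ a r₁ r₂ s := by
  obtain ⟨hL, hsin⟩ := ang h₁ hs hs'
  have h0 : 0 < ‖s - a‖ := h₁.trans hs
  have h2 : 0 < r₂ := h0.trans hs'
  have hpi := pi_pos
  have hcont : ContinuousAt (fun t : ℝ => lam κ a (r₁ + t) (r₂ - t) s) 0 := by
    unfold lam
    have c1 : ContinuousAt (fun t : ℝ => (r₂ - t) / (r₁ + t)) 0 := by
      apply ContinuousAt.div (by fun_prop) (by fun_prop)
      simpa using h₁.ne'
    have c2 : ContinuousAt (fun t : ℝ => log ((r₂ - t) / (r₁ + t))) 0 := by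
      apply c1.log
      simp only [sub_zero, add_zero]
      positivity
    have c3 : ContinuousAt (fun t : ℝ => log (‖s - a‖ / (r₁ + t))) 0 := by
      apply ContinuousAt.log
      · apply ContinuousAt.div (by fun_prop) (by fun_prop)
        simpa using h₁.ne'
      · simp only [add_zero]
        positivity
    have hL' : log ((r₂ - 0) / (r₁ + 0)) ≠ 0 := by simpa using hL.ne'
    have c4 : ContinuousAt (fun t : ℝ => sin (π * log (‖s - a‖ / (r₁ + t)) / log ((r₂ - t) / (r₁ + t)))) 0 :=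
      continuous_sin.continuousAt.comp ((continuousAt_const.mul c3).div c2 hL')
    apply ContinuousAt.div ((continuousAt_const.div c2 hL').pow 2) (continuousAt_const.mul (c4.pow 2))
    have e0 : 2 * κ * ‖s - a‖ ^ 2 * sin (π * log (‖s - a‖ / (r₁ + 0)) / log ((r₂ - 0) / (r₁ + 0))) ^ 2 ≠ 0 := by
      rw [add_zero, sub_zero]
      positivity
    exact e0
  have hlim : Filter.Tendsto (fun t : ℝ => lam κ a (r₁ + t) (r₂ - t) s) (nhdsWithin 0 (Set.Ioi 0))
      (nhds (lam κ a r₁ r₂ s)) := by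
    have := hcont.tendsto
    simp only [add_zero, sub_zero] at this
    exact this.mono_left nhdsWithin_le_nhds
  refine ge_of_tendsto hlim ?_
  have e1 : ∀ᶠ t : ℝ in nhds 0, t < ‖s - a‖ - r₁ := gt_mem_nhds (by linarith)
  have e2 : ∀ᶠ t : ℝ in nhds 0, t < r₂ - ‖s - a‖ := gt_mem_nhds (by linarith)
  filter_upwards [nhdsWithin_le_nhds e1, nhdsWithin_le_nhds e2, self_mem_nhdsWithin] with t ht1 ht2 ht0
  have ht0' : 0 < t := ht0
  apply ahlfors_aux h hΩ hκ (by linarith)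
  · intro x hx hx'
    exact hsub x (by linarith) (by linarith)
  · linarith
  · linarith

theorem Br.cusp (h : Br κ C Ω F) (hΩ : IsOpen Ω) (hκ : 0 < κ) {a : ℂ} {R : ℝ} (hR : 0 < R)
    (hsub : ∀ s, 0 < ‖s - a‖ → ‖s - a‖ < R → s ∈ Ω) {s : ℂ} (hs : 0 < ‖s - a‖) (hs' : ‖s - a‖ < R) :
    Mr F s * (‖s - a‖ * log (R / ‖s - a‖)) ^ 2 ≤ π ^ 2 / (8 * κ) := by
  have hpi := pi_pos
  set t : ℝ := ‖s - a‖ with ht
  have hr1 : 0 < t ^ 2 / R := by positivity
  have hlt : t ^ 2 / R < t := by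
    rw [div_lt_iff₀ hR]
    nlinarith
  have h1 := h.ahlfors hΩ hκ (a := a) hr1 (fun x hx hx' => hsub x (hr1.trans hx) hx') (s := s) hlt hs'
  have hy : 0 < log (R / t) := log_pos ((one_lt_div hs).2 hs')
  have e1 : R / (t ^ 2 / R) = (R / t) ^ 2 := by field_simp
  have e2 : t / (t ^ 2 / R) = R / t := by field_simp
  have e3 : lam κ a (t ^ 2 / R) R s = π ^ 2 / (8 * κ) / (t * log (R / t)) ^ 2 := by
    unfold lam
    rw [← ht, e1, e2, log_pow]
    have e4 : π * log (R / t) / (((2 : ℕ) : ℝ) * log (R / t)) = π / 2 := by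
      push_cast
      field_simp
    rw [e4, sin_pi_div_two]
    push_cast
    field_simp
    ring
  rw [e3, le_div_iff₀ (by positivity)] at h1
  exact h1

theorem Br.cusp_inf (h : Br κ C Ω F) (hΩ : IsOpen Ω) (hκ : 0 < κ) {R : ℝ} (hR : 0 < R)
    (hsub : ∀ s : ℂ, R < ‖s‖ → s ∈ Ω) {s : ℂ} (hs : R < ‖s‖) :
    Mr F s * (‖s‖ * log (‖s‖ / R)) ^ 2 ≤ π ^ 2 / (8 * κ) := by
  have hpi := pi_pos
  have hs0 : 0 < ‖s‖ := hR.trans hs
  have hlt : ‖s‖ < ‖s‖ ^ 2 / R := by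
    rw [lt_div_iff₀ hR]
    nlinarith
  have h1 := h.ahlfors hΩ hκ (a := 0) (r₁ := R) (r₂ := ‖s‖ ^ 2 / R) hR
    (fun x hx _ => hsub x (by simpa using hx)) (s := s) (by simpa using hs) (by simpa using hlt)
  have hy : 0 < log (‖s‖ / R) := log_pos ((one_lt_div hR).2 hs)
  have e1 : ‖s‖ ^ 2 / R / R = (‖s‖ / R) ^ 2 := by field_simp
  have e3 : lam κ 0 R (‖s‖ ^ 2 / R) s = π ^ 2 / (8 * κ) / (‖s‖ * log (‖s‖ / R)) ^ 2 := by
    unfold lam
    rw [sub_zero, e1, log_pow]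
    have e4 : π * log (‖s‖ / R) / (((2 : ℕ) : ℝ) * log (‖s‖ / R)) = π / 2 := by
      push_cast
      field_simp
    rw [e4, sin_pi_div_two]
    push_cast
    field_simp
    ring
  rw [e3, le_div_iff₀ (by positivity)] at h1
  exact h1

end Pool.Agent.Helper79.FX
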