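import Pool.Agent.Helper79.FX.Wir

/-!
# FX-12: families of branches over an open set of `ℂ`

An element of the family is `(D, ρ, u)`, `D` open, `ρ` and `u` real functions, analytic on `D`. `Mr F s`, `Mu F s` are the suprema of the values `ρ s`, `u s` of all elements with
`s ∈ D`.
* `Mu_eq`: let `O`, `G` be as in `fin` for the point `s`. All values at `s` are among the values `e'.2.2 s`, `e' ∈ G` (`fin` with `x = s`), and these are values; the set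
  of values is finite and not empty, so the supremum is attained (`Set.Finite.csSup_mem` or `Set.Nonempty.csSup_mem`), by some `e ∈ G`.
* `le_Mu`: `le_csSup` (a finite set is bounded above).
* `continuous_Mu`: near `s` (`x ∈ O`) `Mu F x` is the maximum of the values `e'.2.2 x`, `e' ∈ G`: `Finset.sup'` of continuous functions
  (`ContinuousOn.finset_sup'` or by hand: for `ε > 0` all `e' ∈ G` satisfy `|e'.2.2 x - e'.2.2 s| < ε` near `s`).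
The same for `Mr`. One proof for both: state it for a map `c : (ℂ → ℝ) × (ℂ → ℝ) → ℂ → ℝ` with the properties needed.
-/

namespace Pool.Agent.Helper79.FX

/-- A family of branches over `Ω`: triples `(D, ρ, u)`. -/
structure Br (κ C : ℝ) (Ω : Set ℂ) (F : Set (Set ℂ × (ℂ → ℝ) × (ℂ → ℝ))) : Prop where
  isOpen : ∀ e ∈ F, IsOpen e.1
  sub : ∀ e ∈ F, e.1 ⊆ Ω
  anr : ∀ e ∈ F, ∀ s ∈ e.1, AnalyticAt ℝ e.2.1 s
  anu : ∀ e ∈ F, ∀ s ∈ e.1, AnalyticAt ℝ e.2.2 s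
  nn : ∀ e ∈ F, ∀ s ∈ e.1, 0 ≤ e.2.1 s
  curv : ∀ e ∈ F, ∀ s ∈ e.1, 0 < e.2.1 s → κ * e.2.1 s ≤ Lap (fun x => Real.log (e.2.1 x)) s
  sh : ∀ e ∈ F, ∀ s ∈ e.1, 0 ≤ Lap e.2.2 s
  grad : ∀ e ∈ F, ∀ s ∈ e.1, ‖rdz e.2.2 s‖ ^ 2 ≤ C * e.2.1 s
  ext : ∀ K : Set ℂ, K ⊆ Ω → IsCompact K → Convex ℝ K → ∀ e ∈ F, ∀ s ∈ e.1 ∩ K, ∃ e' ∈ F, K ⊆ e'.1 ∧
    e.2.1 =ᶠ[nhds s] e'.2.1 ∧ e.2.2 =ᶠ[nhds s] e'.2.2
  fin : ∀ s ∈ Ω, ∃ (O : Set ℂ) (G : Set (Set ℂ × (ℂ → ℝ) × (ℂ → ℝ))), IsOpen O ∧ s ∈ O ∧ G.Finite ∧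
    G.Nonempty ∧ G ⊆ F ∧ (∀ e ∈ G, O ⊆ e.1) ∧
    ∀ e ∈ F, ∀ x ∈ O ∩ e.1, ∃ e' ∈ G, e.2.1 x = e'.2.1 x ∧ e.2.2 x = e'.2.2 x

/-- The largest value of `ρ`. -/
noncomputable def Mr (F : Set (Set ℂ × (ℂ → ℝ) × (ℂ → ℝ))) (s : ℂ) : ℝ :=
  sSup {y | ∃ e ∈ F, s ∈ e.1 ∧ y = e.2.1 s}

/-- The largest value of `u`. -/
noncomputable def Mu (F : Set (Set ℂ × (ℂ → ℝ) × (ℂ → ℝ))) (s : ℂ) : ℝ :=
  sSup {y | ∃ e ∈ F, s ∈ e.1 ∧ y = e.2.2 s}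

variable {κ C : ℝ} {Ω : Set ℂ} {F : Set (Set ℂ × (ℂ → ℝ) × (ℂ → ℝ))}

/-- The largest value of `c`. -/
noncomputable def Mgen (c : Set ℂ × (ℂ → ℝ) × (ℂ → ℝ) → ℂ → ℝ)
    (F : Set (Set ℂ × (ℂ → ℝ) × (ℂ → ℝ))) (s : ℂ) : ℝ :=
  sSup {y | ∃ e ∈ F, s ∈ e.1 ∧ y = c e s}

/-- The hypothesis of the general statements. -/
def FinAt (c : Set ℂ × (ℂ → ℝ) × (ℂ → ℝ) → ℂ → ℝ) (F : Set (Set ℂ × (ℂ → ℝ) × (ℂ → ℝ)))
    (s : ℂ) : Prop :=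
  ∃ (O : Set ℂ) (G : Set (Set ℂ × (ℂ → ℝ) × (ℂ → ℝ))), IsOpen O ∧ s ∈ O ∧ G.Finite ∧
    G.Nonempty ∧ G ⊆ F ∧ (∀ e ∈ G, O ⊆ e.1) ∧
    ∀ e ∈ F, ∀ x ∈ O ∩ e.1, ∃ e' ∈ G, c e x = c e' x

section general

variable {c : Set ℂ × (ℂ → ℝ) × (ℂ → ℝ) → ℂ → ℝ} {s : ℂ}

theorem values_eq {O : Set ℂ} {G : Set (Set ℂ × (ℂ → ℝ) × (ℂ → ℝ))} (hGF : G ⊆ F)
    (hO : ∀ e ∈ G, O ⊆ e.1) (h : ∀ e ∈ F, ∀ x ∈ O ∩ e.1, ∃ e' ∈ G, c e x = c e' x)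
    {x : ℂ} (hx : x ∈ O) : {y | ∃ e ∈ F, x ∈ e.1 ∧ y = c e x} = (fun e => c e x) '' G := by
  ext y
  constructor
  · rintro ⟨e, he, hxe, rfl⟩
    obtain ⟨e', he', h'⟩ := h e he x ⟨hx, hxe⟩
    exact ⟨e', he', h'.symm⟩
  · rintro ⟨e, he, rfl⟩
    exact ⟨e, hGF he, hO e he hx, rfl⟩

theorem Mgen_eq (h : FinAt c F s) : ∃ e ∈ F, s ∈ e.1 ∧ Mgen c F s = c e s := by
  obtain ⟨O, G, _, hs, hfin, hne, hGF, hO, hv⟩ := h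
  have h1 := values_eq hGF hO hv hs
  have h2 : Mgen c F s ∈ (fun e => c e s) '' G := by
    unfold Mgen
    rw [h1]
    exact (hne.image _).csSup_mem (hfin.image _)
  obtain ⟨e, he, h3⟩ := h2
  exact ⟨e, hGF he, hO e he hs, h3.symm⟩

theorem le_Mgen (h : FinAt c F s) {e : Set ℂ × (ℂ → ℝ) × (ℂ → ℝ)} (he : e ∈ F) (hs : s ∈ e.1) :
    c e s ≤ Mgen c F s := by
  obtain ⟨O, G, _, hsO, hfin, hne, hGF, hO, hv⟩ := h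
  have h1 := values_eq hGF hO hv hsO
  have h2 : c e s ∈ {y | ∃ e ∈ F, s ∈ e.1 ∧ y = c e s} := ⟨e, he, hs, rfl⟩
  unfold Mgen
  apply le_csSup _ h2
  rw [h1]
  exact (hfin.image _).bddAbove

theorem continuousAt_Mgen (hc : ∀ e ∈ F, ∀ s ∈ e.1, ContinuousAt (c e) s) (h : FinAt c F s) :
    ContinuousAt (Mgen c F) s := by
  obtain ⟨O, G, hOo, hsO, hfin, hne, hGF, hO, hv⟩ := h
  have hne' : hfin.toFinset.Nonempty := by simpa using hne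
  have h1 : ∀ x ∈ O, Mgen c F x = hfin.toFinset.sup' hne' (fun e => c e x) := by
    intro x hx
    unfold Mgen
    rw [values_eq hGF hO hv hx, Finset.sup'_eq_csSup_image]
    simp
  have h2 : Mgen c F =ᶠ[nhds s] fun x => hfin.toFinset.sup' hne' (fun e => c e x) :=
    Filter.eventually_of_mem (hOo.mem_nhds hsO) h1
  rw [continuousAt_congr h2]
  apply ContinuousAt.finset_sup'_apply
  intro e he
  have he' : e ∈ G := by simpa using he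
  exact hc e (hGF he') s (hO e he' hsO)

end general

theorem Br.finAt_r (h : Br κ C Ω F) {s : ℂ} (hs : s ∈ Ω) : FinAt (fun e => e.2.1) F s := by
  obtain ⟨O, G, h1, h2, h3, h4, h5, h6, h7⟩ := h.fin s hs
  refine ⟨O, G, h1, h2, h3, h4, h5, h6, fun e he x hx => ?_⟩
  obtain ⟨e', he', h8, _⟩ := h7 e he x hx
  exact ⟨e', he', h8⟩

theorem Br.finAt_u (h : Br κ C Ω F) {s : ℂ} (hs : s ∈ Ω) : FinAt (fun e => e.2.2) F s := by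
  obtain ⟨O, G, h1, h2, h3, h4, h5, h6, h7⟩ := h.fin s hs
  refine ⟨O, G, h1, h2, h3, h4, h5, h6, fun e he x hx => ?_⟩
  obtain ⟨e', he', _, h8⟩ := h7 e he x hx
  exact ⟨e', he', h8⟩

theorem Br.Mr_eq (h : Br κ C Ω F) {s : ℂ} (hs : s ∈ Ω) : ∃ e ∈ F, s ∈ e.1 ∧ Mr F s = e.2.1 s :=
  Mgen_eq (h.finAt_r hs)

theorem Br.Mu_eq (h : Br κ C Ω F) {s : ℂ} (hs : s ∈ Ω) : ∃ e ∈ F, s ∈ e.1 ∧ Mu F s = e.2.2 s :=
  Mgen_eq (h.finAt_u hs)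

theorem Br.le_Mr (h : Br κ C Ω F) {s : ℂ} {e : Set ℂ × (ℂ → ℝ) × (ℂ → ℝ)} (he : e ∈ F) (hs : s ∈ e.1) :
    e.2.1 s ≤ Mr F s :=
  le_Mgen (h.finAt_r (h.sub e he hs)) he hs

theorem Br.le_Mu (h : Br κ C Ω F) {s : ℂ} {e : Set ℂ × (ℂ → ℝ) × (ℂ → ℝ)} (he : e ∈ F) (hs : s ∈ e.1) :
    e.2.2 s ≤ Mu F s :=
  le_Mgen (h.finAt_u (h.sub e he hs)) he hs

theorem Br.Mr_nonneg (h : Br κ C Ω F) {s : ℂ} (hs : s ∈ Ω) : 0 ≤ Mr F s := by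
  obtain ⟨e, he, hse, h1⟩ := h.Mr_eq hs
  rw [h1]
  exact h.nn e he s hse

theorem Br.continuousOn_Mr (h : Br κ C Ω F) (hΩ : IsOpen Ω) : ContinuousOn (Mr F) Ω := by
  intro s hs
  have h1 : ContinuousAt (Mr F) s :=
    continuousAt_Mgen (fun e he x hx => (h.anr e he x hx).continuousAt) (h.finAt_r hs)
  exact h1.continuousWithinAt

theorem Br.continuousOn_Mu (h : Br κ C Ω F) (hΩ : IsOpen Ω) : ContinuousOn (Mu F) Ω := by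
  intro s hs
  have h1 : ContinuousAt (Mu F) s :=
    continuousAt_Mgen (fun e he x hx => (h.anu e he x hx).continuousAt) (h.finAt_u hs)
  exact h1.continuousWithinAt

end Pool.Agent.Helper79.FX
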