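import Pool.Agent.Helper79.FX.TrForm

/-!
# FX-28: the centre of the Lie algebra commutes with the Hodge circle

`D = Dm lev j ψ P`, `E_u = Em lev j ψ u P`, `C = E_I`, `𝔪 = mspan ℂ (lieS Γ)`, `z ∈ lieS Γ` with `x z = z x` for `x ∈ lieS Γ`, so for `x ∈ 𝔪` (`qc z`).
1. For `u ≠ 0`, `y ∈ 𝔪`: `E_u z E_u⁻¹` is in `𝔪` (`AdStable`) and commutes with `y` (`E_u⁻¹ y E_u = E_(u⁻¹) y E_(u⁻¹)⁻¹ ∈ 𝔪`, `Em_mul`).
2. `T = D z - z D` satisfies `T y = y T` for all `y ∈ 𝔪`. With a basis `Q`, `deg`: `E_u z E_u⁻¹ = ∑_k u ^ (2 k) z_k`, where `z_k` is the part of `z` which maps degree `q` to degree `q + k`, and `T = ∑_k 2 k z_k`; the Laurent polynomial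
   `∑_k u ^ (2 k) (z_k y - y z_k)` vanishes for all `u ≠ 0`, so all its coefficients vanish. Or: differentiate `E_u z E_u⁻¹ y - y E_u z E_u⁻¹ = 0` along `u = exp (i τ)` at `τ = 0`
   (`HJ.hasDerivAt_circ`: the derivative of `E_u` is `I • D`, that of `E_u⁻¹ = E_(u⁻¹)` is `-I • D`).
3. With `H = Hm`: `adjH H z = -C⁻¹ z C` (`adj_skew`, `skew`), `adjH H D = D` (`Hm_adj`), so `adjH H T = (adjH H z) D - D (adjH H z) = C⁻¹ (D z - z D) C = C⁻¹ T C` (`C` commutes with `D`). The matrix `W = C⁻¹ T C` commutes with all `y ∈ 𝔪` (as in 1: `C y C⁻¹ ∈ 𝔪` and 2),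
   in particular with `z`. `nsq H T = trace (T W) = trace (D z W) - trace (z D W) = trace (D (z W - W z)) = 0`. So `T = 0` (`nsq_eq_zero`).
4. `D z = z D` gives `E_u z = z E_u`: in the basis `Q`, `deg` the entries of `Q⁻¹ z Q` outside `deg i = deg k` vanish.
-/

namespace Pool.Agent.Helper79.FX

open Matrix Module Pool.Agent.Helper88.MT Pool.Agent.Helper46.GG Pool.Agent.Helper79.HG Pool.Agent.Helper79.HH
  Pool.Agent.Helper79.HI Pool.Agent.Helper79.HJ
open scoped ComplexOrder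

variable {r : ℕ} {lev : Fin r → ℤ} {j : ℤ} {ψ : Matrix (Fin r) (Fin r) ℚ} {P : Matrix (Fin r) (Fin r) ℂ}
  {Γ : Subgroup (GL (Fin r) ℚ)}

/-- Derivative at `u = 1` of a commutation relation. -/
private theorem comm_deriv (deg : Fin r → ℤ) (a b : Matrix (Fin r) (Fin r) ℂ)
    (h : ∀ u : ℂ, u ≠ 0 →
      (Matrix.of fun i k => u ^ (2 * (deg i - deg k)) * a i k) * b =
        b * Matrix.of fun i k => u ^ (2 * (deg i - deg k)) * a i k) :
    (Matrix.of fun i k => ((2 * (deg i - deg k) : ℤ) : ℂ) * a i k) * b =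
      b * Matrix.of fun i k => ((2 * (deg i - deg k) : ℤ) : ℂ) * a i k := by
  ext i k
  rw [Matrix.mul_apply, Matrix.mul_apply]
  simp only [Matrix.of_apply]
  have hz : ∀ n : ℤ, HasDerivAt (fun u : ℂ => u ^ n) (n : ℂ) 1 := by
    intro n
    have h1 := hasDerivAt_zpow n (1 : ℂ) (Or.inl one_ne_zero)
    rwa [_root_.one_zpow, mul_one] at h1
  have h1 : HasDerivAt (fun u : ℂ => ∑ l, u ^ (2 * (deg i - deg l)) * a i l * b l k)
      (∑ l, ((2 * (deg i - deg l) : ℤ) : ℂ) * a i l * b l k) 1 :=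
    HasDerivAt.fun_sum fun l _ => ((hz _).mul_const _).mul_const _
  have h2 : HasDerivAt (fun u : ℂ => ∑ l, b i l * (u ^ (2 * (deg l - deg k)) * a l k))
      (∑ l, b i l * (((2 * (deg l - deg k) : ℤ) : ℂ) * a l k)) 1 :=
    HasDerivAt.fun_sum fun l _ => ((hz _).mul_const _).const_mul _
  refine h1.unique (h2.congr_of_eventuallyEq ?_)
  have h3 : ∀ᶠ u : ℂ in nhds 1, u ≠ 0 := eventually_ne_nhds one_ne_zero
  filter_upwards [h3] with u hu
  have h4 := congrFun (congrFun (h u hu) i) k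
  rw [Matrix.mul_apply, Matrix.mul_apply] at h4
  simpa only [Matrix.of_apply] using h4

private theorem em_inv (hpol : IsPolarized lev j ψ P) (hP : IsUnit P.det) {u : ℂ} (hu : u ≠ 0) :
    (Em lev j ψ u P)⁻¹ = Em lev j ψ u⁻¹ P := by
  apply Matrix.inv_eq_right_inv
  rw [Em_mul hpol hP hu (inv_ne_zero hu), mul_inv_cancel₀ hu, Em_one hpol hP]

private theorem em_unit (hpol : IsPolarized lev j ψ P) (hP : IsUnit P.det) {u : ℂ} (hu : u ≠ 0) :
    IsUnit (Em lev j ψ u P).det := by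
  rw [Em_det hpol hP hu]
  exact isUnit_one

/-- Conjugation of a commutation relation. -/
private theorem conj_comm {E x y : Matrix (Fin r) (Fin r) ℂ} (hE : IsUnit E.det)
    (h : x * (E⁻¹ * y * E) = (E⁻¹ * y * E) * x) : (E * x * E⁻¹) * y = y * (E * x * E⁻¹) := by
  have h1 : E * (x * (E⁻¹ * y * E)) * E⁻¹ = E * ((E⁻¹ * y * E) * x) * E⁻¹ := by rw [h]
  have h2 : E * (x * (E⁻¹ * y * E)) * E⁻¹ = (E * x * E⁻¹) * y * (E * E⁻¹) := by
    simp only [Matrix.mul_assoc]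
  have h3 : E * ((E⁻¹ * y * E) * x) * E⁻¹ = (E * E⁻¹) * y * (E * x * E⁻¹) := by
    simp only [Matrix.mul_assoc]
  rw [h2, h3, Matrix.mul_nonsing_inv _ hE, Matrix.mul_one, Matrix.one_mul] at h1
  exact h1

theorem center_comm (hpol : IsPolarized lev j ψ P) (hP : IsUnit P.det) (hAd : AdStable lev j ψ P Γ)
    (hiso : ∀ γ ∈ Γ, (γ : Matrix (Fin r) (Fin r) ℚ)ᵀ * ψ * γ = ψ) {z : Matrix (Fin r) (Fin r) ℚ}
    (hz : z ∈ lieS Γ) (hcen : ∀ x ∈ lieS Γ, x * z = z * x) (u : ℂ) (hu : u ≠ 0) :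
    Em lev j ψ u P * qc z = qc z * Em lev j ψ u P := by
  obtain ⟨Q, deg, hQu, hQ⟩ := exists_basis hpol.span
  have hQQ : Q * Q⁻¹ = 1 := Matrix.mul_nonsing_inv _ hQu
  have hQQ' : Q⁻¹ * Q = 1 := Matrix.nonsing_inv_mul _ hQu
  -- `z` commutes with the span
  have hzm : qc z ∈ mspan ℂ (lieS Γ) := map_mem_mspan hz
  have hcom : ∀ y ∈ mspan ℂ (lieS Γ), qc z * y = y * qc z := by
    intro y hy
    unfold mspan at hy
    induction hy using Submodule.span_induction with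
    | mem y hy =>
      obtain ⟨x, hx, rfl⟩ := hy
      have h1 := hcen x hx
      have h2 : qc (x * z) = qc (z * x) := by rw [h1]
      have h3 : qc (x * z) = x.map (algebraMap ℚ ℂ) * qc z := by
        exact Matrix.map_mul (f := algebraMap ℚ ℂ)
      have h4 : qc (z * x) = qc z * x.map (algebraMap ℚ ℂ) := by
        exact Matrix.map_mul (f := algebraMap ℚ ℂ)
      rw [h3, h4] at h2
      exact h2.symm
    | zero => rw [Matrix.mul_zero, Matrix.zero_mul]
    | add x y _ _ hx hy => rw [Matrix.mul_add, Matrix.add_mul, hx, hy]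
    | smul c x _ hx => rw [Matrix.mul_smul, Matrix.smul_mul, hx]
  -- step 1
  have hstep1 : ∀ v : ℂ, v ≠ 0 → ∀ y ∈ mspan ℂ (lieS Γ),
      (Em lev j ψ v P * qc z * (Em lev j ψ v P)⁻¹) * y =
        y * (Em lev j ψ v P * qc z * (Em lev j ψ v P)⁻¹) := by
    intro v hv y hy
    apply conj_comm (em_unit hpol hP hv)
    have h1 := hAd v⁻¹ (inv_ne_zero hv) y hy
    rw [em_inv hpol hP (inv_ne_zero hv), inv_inv, ← em_inv hpol hP hv] at h1
    exact hcom _ h1
  -- coordinates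
  set a : Matrix (Fin r) (Fin r) ℂ := Q⁻¹ * qc z * Q with ha
  have hza : qc z = Q * a * Q⁻¹ := by
    rw [ha]
    calc qc z = (Q * Q⁻¹) * qc z * (Q * Q⁻¹) := by rw [hQQ, Matrix.one_mul, Matrix.mul_one]
      _ = _ := by simp only [Matrix.mul_assoc]
  have hE : ∀ v : ℂ, Em lev j ψ v P = Q * diagonal (fun i => v ^ (2 * deg i - j)) * Q⁻¹ :=
    fun v => Em_eq hpol hP hQu hQ v
  have hD : Dm lev j ψ P = Q * diagonal (fun i => ((2 * deg i - j : ℤ) : ℂ)) * Q⁻¹ :=
    Dm_eq hpol hP hQu hQ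
  have hEa : ∀ v : ℂ, v ≠ 0 → Em lev j ψ v P * qc z * (Em lev j ψ v P)⁻¹ =
      Q * (Matrix.of fun i k => v ^ (2 * (deg i - deg k)) * a i k) * Q⁻¹ := by
    intro v hv
    have h1 : diagonal (fun i => v ^ (2 * deg i - j)) * a * diagonal (fun i => v⁻¹ ^ (2 * deg i - j)) =
        Matrix.of fun i k => v ^ (2 * (deg i - deg k)) * a i k := by
      ext i k
      rw [Matrix.mul_diagonal, Matrix.diagonal_mul, Matrix.of_apply, _root_.inv_zpow', mul_right_comm,
        ← zpow_add₀ hv]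
      congr 2
      ring
    rw [em_inv hpol hP hv, hE v, hE v⁻¹, hza, ← h1]
    calc Q * diagonal (fun i => v ^ (2 * deg i - j)) * Q⁻¹ * (Q * a * Q⁻¹) *
          (Q * diagonal (fun i => v⁻¹ ^ (2 * deg i - j)) * Q⁻¹)
        = Q * diagonal (fun i => v ^ (2 * deg i - j)) * (Q⁻¹ * Q) * a * (Q⁻¹ * Q) *
          diagonal (fun i => v⁻¹ ^ (2 * deg i - j)) * Q⁻¹ := by simp only [Matrix.mul_assoc]
      _ = _ := by rw [hQQ', Matrix.mul_one, Matrix.mul_one]; simp only [Matrix.mul_assoc]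
  -- the commutator
  set T : Matrix (Fin r) (Fin r) ℂ := Dm lev j ψ P * qc z - qc z * Dm lev j ψ P with hT
  have hTa : T = Q * (Matrix.of fun i k => ((2 * (deg i - deg k) : ℤ) : ℂ) * a i k) * Q⁻¹ := by
    have h1 : (diagonal (fun i => ((2 * deg i - j : ℤ) : ℂ)) * a -
        a * diagonal (fun i => ((2 * deg i - j : ℤ) : ℂ))) =
        Matrix.of fun i k => ((2 * (deg i - deg k) : ℤ) : ℂ) * a i k := by
      ext i k
      rw [Matrix.sub_apply, Matrix.mul_diagonal, Matrix.diagonal_mul, Matrix.of_apply]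
      push_cast
      ring
    rw [hT, hD, hza, ← h1, Matrix.mul_sub, Matrix.sub_mul]
    congr 1
    · calc Q * diagonal (fun i => ((2 * deg i - j : ℤ) : ℂ)) * Q⁻¹ * (Q * a * Q⁻¹)
          = Q * diagonal (fun i => ((2 * deg i - j : ℤ) : ℂ)) * (Q⁻¹ * Q) * a * Q⁻¹ := by
            simp only [Matrix.mul_assoc]
        _ = _ := by rw [hQQ', Matrix.mul_one]; simp only [Matrix.mul_assoc]
    · calc Q * a * Q⁻¹ * (Q * diagonal (fun i => ((2 * deg i - j : ℤ) : ℂ)) * Q⁻¹)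
          = Q * a * (Q⁻¹ * Q) * diagonal (fun i => ((2 * deg i - j : ℤ) : ℂ)) * Q⁻¹ := by
            simp only [Matrix.mul_assoc]
        _ = _ := by rw [hQQ', Matrix.mul_one]; simp only [Matrix.mul_assoc]
  -- step 2
  have hstep2 : ∀ y ∈ mspan ℂ (lieS Γ), T * y = y * T := by
    intro y hy
    set b : Matrix (Fin r) (Fin r) ℂ := Q⁻¹ * y * Q with hb
    have hyb : y = Q * b * Q⁻¹ := by
      rw [hb]
      calc y = (Q * Q⁻¹) * y * (Q * Q⁻¹) := by rw [hQQ, Matrix.one_mul, Matrix.mul_one]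
        _ = _ := by simp only [Matrix.mul_assoc]
    have hmul : ∀ x : Matrix (Fin r) (Fin r) ℂ, (Q * x * Q⁻¹) * y = y * (Q * x * Q⁻¹) ↔
        x * b = b * x := by
      intro x
      constructor
      · intro h
        calc x * b = Q⁻¹ * ((Q * x * Q⁻¹) * y) * Q := by
              rw [hb]
              calc x * (Q⁻¹ * y * Q) = (Q⁻¹ * Q) * x * (Q⁻¹ * y * Q) := by
                    rw [hQQ', Matrix.one_mul]
                _ = _ := by simp only [Matrix.mul_assoc]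
          _ = Q⁻¹ * (y * (Q * x * Q⁻¹)) * Q := by rw [h]
          _ = b * x * (Q⁻¹ * Q) := by rw [hb]; simp only [Matrix.mul_assoc]
          _ = b * x := by rw [hQQ', Matrix.mul_one]
      · intro h
        rw [hyb]
        calc Q * x * Q⁻¹ * (Q * b * Q⁻¹) = Q * x * (Q⁻¹ * Q) * b * Q⁻¹ := by
              simp only [Matrix.mul_assoc]
          _ = Q * (x * b) * Q⁻¹ := by rw [hQQ', Matrix.mul_one]; simp only [Matrix.mul_assoc]
          _ = Q * (b * x) * Q⁻¹ := by rw [h]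
          _ = Q * b * (Q⁻¹ * Q) * x * Q⁻¹ := by
              rw [hQQ', Matrix.mul_one]; simp only [Matrix.mul_assoc]
          _ = _ := by simp only [Matrix.mul_assoc]
    rw [hTa, hmul]
    apply comm_deriv
    intro v hv
    rw [← hmul, ← hEa v hv]
    exact hstep1 v hv y hy
  -- step 3
  set C : Matrix (Fin r) (Fin r) ℂ := Em lev j ψ Complex.I P with hC
  have hCu : IsUnit C.det := em_unit hpol hP Complex.I_ne_zero
  have hCC : C * C⁻¹ = 1 := Matrix.mul_nonsing_inv _ hCu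
  have hCC' : C⁻¹ * C = 1 := Matrix.nonsing_inv_mul _ hCu
  have hCD : C * Dm lev j ψ P = Dm lev j ψ P * C := by
    have h1 : C = sc Q deg fun q => Complex.I ^ (2 * q - j) := Em_eq hpol hP hQu hQ Complex.I
    have h2 : Dm lev j ψ P = sc Q deg fun q => ((2 * q - j : ℤ) : ℂ) := Dm_eq hpol hP hQu hQ
    rw [h1, h2, sc_mul hQu, sc_mul hQu]
    congr 1
    funext p
    rw [mul_comm]
  have hHpos := Hm_pos hpol hP
  have hHu : IsUnit (Hm lev j ψ P).det := (Matrix.isUnit_iff_isUnit_det _).1 hHpos.isUnit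
  have hadjD : adjH (Hm lev j ψ P) (Dm lev j ψ P) = Dm lev j ψ P := by
    unfold adjH
    rw [Matrix.mul_assoc, ← Hm_adj hpol hP, ← Matrix.mul_assoc, Matrix.nonsing_inv_mul _ hHu,
      Matrix.one_mul]
  have hadjz : adjH (Hm lev j ψ P) (qc z) = -(C⁻¹ * qc z * C) :=
    adj_skew hpol hP (skew hiso hz)
  have hadjsub : ∀ X Y : Matrix (Fin r) (Fin r) ℂ,
      adjH (Hm lev j ψ P) (X - Y) = adjH (Hm lev j ψ P) X - adjH (Hm lev j ψ P) Y := by
    intro X Y
    unfold adjH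
    rw [Matrix.conjTranspose_sub, Matrix.mul_sub, Matrix.sub_mul]
  have hCiD : C⁻¹ * Dm lev j ψ P = Dm lev j ψ P * C⁻¹ := by
    calc C⁻¹ * Dm lev j ψ P = C⁻¹ * (Dm lev j ψ P * C) * C⁻¹ := by
          rw [Matrix.mul_assoc, Matrix.mul_assoc, hCC, Matrix.mul_one]
      _ = C⁻¹ * (C * Dm lev j ψ P) * C⁻¹ := by rw [hCD]
      _ = _ := by rw [← Matrix.mul_assoc, hCC', Matrix.one_mul]
  have hadjT : adjH (Hm lev j ψ P) T = C⁻¹ * T * C := by
    rw [hT, hadjsub, adjH_mul hHpos, adjH_mul hHpos, hadjD, hadjz, Matrix.mul_sub, Matrix.sub_mul]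
    have h1 : C⁻¹ * (Dm lev j ψ P * qc z) * C = Dm lev j ψ P * (C⁻¹ * qc z * C) := by
      rw [← Matrix.mul_assoc, hCiD]
      simp only [Matrix.mul_assoc]
    have h2 : C⁻¹ * (qc z * Dm lev j ψ P) * C = (C⁻¹ * qc z * C) * Dm lev j ψ P := by
      rw [Matrix.mul_assoc, Matrix.mul_assoc, ← hCD]
      simp only [Matrix.mul_assoc]
    rw [h1, h2, Matrix.neg_mul, Matrix.mul_neg]
    abel
  set W : Matrix (Fin r) (Fin r) ℂ := C⁻¹ * T * C with hW
  have hWz : W * qc z = qc z * W := by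
    have h1 := hstep2 _ (hAd Complex.I Complex.I_ne_zero _ hzm)
    rw [← hC] at h1
    calc W * qc z = C⁻¹ * (T * (C * qc z * C⁻¹)) * C := by
          rw [hW]
          calc C⁻¹ * T * C * qc z = C⁻¹ * T * C * qc z * (C⁻¹ * C) := by
                rw [hCC', Matrix.mul_one]
            _ = _ := by simp only [Matrix.mul_assoc]
      _ = C⁻¹ * ((C * qc z * C⁻¹) * T) * C := by rw [h1]
      _ = (C⁻¹ * C) * qc z * (C⁻¹ * T * C) := by simp only [Matrix.mul_assoc]
      _ = qc z * W := by rw [hCC', Matrix.one_mul]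
  have hT0 : T = 0 := by
    apply nsq_eq_zero hHpos
    unfold nsq
    rw [hadjT]
    have h1 : (T * W).trace = 0 := by
      rw [hT, Matrix.sub_mul, Matrix.trace_sub]
      have h2 : (qc z * Dm lev j ψ P * W).trace = (Dm lev j ψ P * (W * qc z)).trace := by
        rw [Matrix.mul_assoc, Matrix.trace_mul_comm, Matrix.mul_assoc]
      rw [h2, hWz, Matrix.mul_assoc, sub_self]
    rw [h1, Complex.zero_re]
  -- step 4
  have hak : ∀ i k, deg i ≠ deg k → a i k = 0 := by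
    intro i k hik
    have h1 : Q⁻¹ * T * Q = Matrix.of fun i k => ((2 * (deg i - deg k) : ℤ) : ℂ) * a i k := by
      rw [hTa]
      calc Q⁻¹ * (Q * (Matrix.of fun i k => ((2 * (deg i - deg k) : ℤ) : ℂ) * a i k) * Q⁻¹) * Q
          = (Q⁻¹ * Q) * (Matrix.of fun i k => ((2 * (deg i - deg k) : ℤ) : ℂ) * a i k) * (Q⁻¹ * Q) := by
            simp only [Matrix.mul_assoc]
        _ = _ := by rw [hQQ', Matrix.one_mul, Matrix.mul_one]
    rw [hT0, Matrix.mul_zero, Matrix.zero_mul] at h1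
    have h2 := congrFun (congrFun h1 i) k
    rw [Matrix.zero_apply, Matrix.of_apply] at h2
    have h3 : ((2 * (deg i - deg k) : ℤ) : ℂ) ≠ 0 := by
      rw [Ne, Int.cast_eq_zero]
      omega
    exact (mul_eq_zero.1 h2.symm).resolve_left h3
  rw [hE u, hza]
  have h5 : diagonal (fun i => u ^ (2 * deg i - j)) * a = a * diagonal (fun i => u ^ (2 * deg i - j)) := by
    ext i k
    rw [Matrix.mul_diagonal, Matrix.diagonal_mul]
    by_cases hik : deg i = deg k
    · rw [hik, mul_comm]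
    · rw [hak i k hik, mul_zero, zero_mul]
  calc Q * diagonal (fun i => u ^ (2 * deg i - j)) * Q⁻¹ * (Q * a * Q⁻¹)
      = Q * diagonal (fun i => u ^ (2 * deg i - j)) * (Q⁻¹ * Q) * a * Q⁻¹ := by
        simp only [Matrix.mul_assoc]
    _ = Q * (diagonal (fun i => u ^ (2 * deg i - j)) * a) * Q⁻¹ := by
        rw [hQQ', Matrix.mul_one]; simp only [Matrix.mul_assoc]
    _ = Q * (a * diagonal (fun i => u ^ (2 * deg i - j))) * Q⁻¹ := by rw [h5]
    _ = Q * a * (Q⁻¹ * Q) * diagonal (fun i => u ^ (2 * deg i - j)) * Q⁻¹ := by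
        rw [hQQ', Matrix.mul_one]; simp only [Matrix.mul_assoc]
    _ = _ := by simp only [Matrix.mul_assoc]

end Pool.Agent.Helper79.FX
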