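import Pool.Agent.Helper79.FX.Defs
import Pool.Agent.Helper79.HH.Core

/-!
# FX-16: chains of analytic continuations

* `reach_symm`: `Element.Next` is symmetric, and all domains of the chain lie in `S ≠ 0` (`dom` for the first).
* `reach_mul`: `NextIn S b c → NextIn S (b · g) (c · g)` (entries of `P t * g` are sums of products of analytic functions and constants).
* `MM` is closed under products: `(U, w, P) → (U, w, P γ)`, and multiplied by `γ'` on the right: `(U, w, P γ') → (U, w, P γ γ')`; so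
  `P → P γ' → P γ γ'`. Inverse: `(U, w, P) → (U, w, P γ)` multiplied by `γ⁻¹`: `(U, w, P γ⁻¹) → (U, w, P)`, and `reach_symm`-type reversal (all domains of the chain are in `S ≠ 0`).
* `mem_MM`: `a → b`, `a → c`, `c = b · γ` (as functions on the domain; functions equal on the domain give `NextIn` elements): `c → ... `: from `b → a` (reversal) multiplied by `γ`:
  `b · γ → a · γ`; so `a → c → b · γ → a · γ`. (`c` and `b · γ` agree on their common domain: one `NextIn` step, if the domain is not empty.)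
* `mem_Mono`: a chain of `NextIn` is a chain of `Next`.
* `restrict`: one `NextIn` step.
* `reach_ext`: one `NextIn` step: `b.w = w`, `b.P = P` near `t` on an open set contained in both domains (`Filter.Eventually` gives a neighbourhood, intersect with `b.U ∩ D`); `Convex.isPreconnected`.
-/

namespace Pool.Agent.Helper79.FX

open Matrix Pool.Agent.Helper79.BB Pool.Agent.Helper79.HH Pool.Agent.Helper79.HJ
  Pool.Agent.Helper64.Per Pool.Agent.Helper79.DD

variable {m r : ℕ} {S : MvPolynomial (Fin m) ℂ} {a b c : Element m (Fin r)} {lev : Fin r → ℤ} {j : ℤ}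
  {ψ : Matrix (Fin r) (Fin r) ℚ}

/-- The function element `b` with `P` multiplied by `g` on the right. -/
def rmul (b : Element m (Fin r)) (g : Matrix (Fin r) (Fin r) ℂ) : Element m (Fin r) :=
  ⟨b.U, b.w, fun t => b.P t * g⟩

private theorem dom_aux (hd : ∀ t ∈ a.U, MvPolynomial.eval t S ≠ 0) (h : Reach S a b) :
    ∀ t ∈ b.U, MvPolynomial.eval t S ≠ 0 := by
  rcases Relation.ReflTransGen.cases_tail h with h1 | ⟨c, -, h1⟩
  · rw [h1]; exact hd
  · exact h1.2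

private theorem next_symm (h : a.Next b) : b.Next a := by
  obtain ⟨ha, hb, O, hO, hne, hOa, hOb, heq⟩ := h
  exact ⟨hb, ha, O, hO, hne, hOb, hOa, fun t ht => ⟨(heq t ht).1.symm, (heq t ht).2.symm⟩⟩

theorem reach_symm (hd : ∀ t ∈ a.U, MvPolynomial.eval t S ≠ 0) (h : Reach S a b) : Reach S b a := by
  induction h with
  | refl => exact Relation.ReflTransGen.refl
  | tail h1 h2 ih =>
    exact Relation.ReflTransGen.head ⟨next_symm h2.1, dom_aux hd h1⟩ ih

theorem reach_dom (hd : ∀ t ∈ a.U, MvPolynomial.eval t S ≠ 0) (h : Reach S a b) :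
    ∀ t ∈ b.U, MvPolynomial.eval t S ≠ 0 := dom_aux hd h

theorem reach_analytic (ha : a.IsAnalytic) (h : Reach S a b) : b.IsAnalytic := by
  rcases Relation.ReflTransGen.cases_tail h with h1 | ⟨c, -, h1⟩
  · rw [h1]; exact ha
  · exact h1.1.2.1

private theorem rmul_analytic (ha : a.IsAnalytic) (g : Matrix (Fin r) (Fin r) ℂ) :
    (rmul a g).IsAnalytic := by
  obtain ⟨h1, h2, h3, h4⟩ := ha
  refine ⟨h1, h2, h3, fun i k => ?_⟩
  have h5 : (fun t => (rmul a g).P t i k) = fun t => ∑ l, a.P t i l * g l k := by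
    funext t
    simp only [rmul, Matrix.mul_apply]
  rw [h5]
  exact Finset.analyticOnNhd_fun_sum _ fun l _ => (h4 i l).mul analyticOnNhd_const

private theorem rmul_rmul (a : Element m (Fin r)) (g g' : Matrix (Fin r) (Fin r) ℂ) :
    rmul (rmul a g) g' = rmul a (g * g') := by
  simp only [rmul, Matrix.mul_assoc]

private theorem rmul_one (a : Element m (Fin r)) : rmul a 1 = a := by
  simp only [rmul, Matrix.mul_one]

private theorem next_rmul (h : a.Next b) (g : Matrix (Fin r) (Fin r) ℂ) :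
    (rmul a g).Next (rmul b g) := by
  obtain ⟨ha, hb, O, hO, hne, hOa, hOb, heq⟩ := h
  refine ⟨rmul_analytic ha g, rmul_analytic hb g, O, hO, hne, hOa, hOb, fun t ht => ?_⟩
  obtain ⟨e1, e2⟩ := heq t ht
  exact ⟨e1, by simp only [rmul, e2]⟩

theorem reach_mul (h : Reach S a b) (g : Matrix (Fin r) (Fin r) ℂ) : Reach S (rmul a g) (rmul b g) := by
  induction h with
  | refl => exact Relation.ReflTransGen.refl
  | tail _ h2 ih => exact Relation.ReflTransGen.tail ih ⟨next_rmul h2.1 g, h2.2⟩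

private theorem zc_coe_mul (γ γ' : GL (Fin r) ℤ) :
    zc ((γ * γ' : GL (Fin r) ℤ) : Matrix (Fin r) (Fin r) ℤ) =
      zc (γ : Matrix (Fin r) (Fin r) ℤ) * zc (γ' : Matrix (Fin r) (Fin r) ℤ) := by
  rw [Units.val_mul, zc_mul]

private theorem zc_coe_one : zc ((1 : GL (Fin r) ℤ) : Matrix (Fin r) (Fin r) ℤ) = 1 := by
  rw [Units.val_one]
  ext i k
  simp [zc, Matrix.one_apply]

private theorem zc_mul_inv (γ : GL (Fin r) ℤ) :
    zc (γ : Matrix (Fin r) (Fin r) ℤ) * zc ((γ⁻¹ : GL (Fin r) ℤ) : Matrix (Fin r) (Fin r) ℤ) = 1 := by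
  rw [← zc_coe_mul, mul_inv_cancel, zc_coe_one]

/-- The monodromy group. -/
def MM (S : MvPolynomial (Fin m) ℂ) (a : Element m (Fin r)) (ψ : Matrix (Fin r) (Fin r) ℚ)
    (hd : ∀ t ∈ a.U, MvPolynomial.eval t S ≠ 0) : Subgroup (GL (Fin r) ℤ) where
  carrier := {γ | (zc (γ : Matrix (Fin r) (Fin r) ℤ))ᵀ * qc ψ * zc (γ : Matrix (Fin r) (Fin r) ℤ) = qc ψ ∧
    Reach S a (rmul a (zc (γ : Matrix (Fin r) (Fin r) ℤ)))}
  mul_mem' := by
    rintro γ γ' ⟨h1, h2⟩ ⟨h3, h4⟩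
    refine ⟨?_, ?_⟩
    · rw [zc_coe_mul, Matrix.transpose_mul]
      calc _ = (zc (γ' : Matrix (Fin r) (Fin r) ℤ))ᵀ * ((zc (γ : Matrix (Fin r) (Fin r) ℤ))ᵀ * qc ψ *
            zc (γ : Matrix (Fin r) (Fin r) ℤ)) * zc (γ' : Matrix (Fin r) (Fin r) ℤ) := by
              simp only [Matrix.mul_assoc]
        _ = qc ψ := by rw [h1, h3]
    · rw [zc_coe_mul, ← rmul_rmul]
      exact Relation.ReflTransGen.trans h4 (reach_mul h2 _)
  one_mem' := by
    refine ⟨?_, ?_⟩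
    · rw [zc_coe_one, Matrix.transpose_one, Matrix.one_mul, Matrix.mul_one]
    · rw [zc_coe_one, rmul_one]
      exact Relation.ReflTransGen.refl
  inv_mem' := by
    rintro γ ⟨h1, h2⟩
    refine ⟨?_, ?_⟩
    · have h3 := zc_mul_inv γ
      have h4 : (zc ((γ⁻¹ : GL (Fin r) ℤ) : Matrix (Fin r) (Fin r) ℤ))ᵀ *
          (zc (γ : Matrix (Fin r) (Fin r) ℤ))ᵀ = 1 := by
        rw [← Matrix.transpose_mul, h3, Matrix.transpose_one]
      calc _ = (zc ((γ⁻¹ : GL (Fin r) ℤ) : Matrix (Fin r) (Fin r) ℤ))ᵀ *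
            ((zc (γ : Matrix (Fin r) (Fin r) ℤ))ᵀ * qc ψ * zc (γ : Matrix (Fin r) (Fin r) ℤ)) *
            zc ((γ⁻¹ : GL (Fin r) ℤ) : Matrix (Fin r) (Fin r) ℤ) := by rw [h1]
        _ = ((zc ((γ⁻¹ : GL (Fin r) ℤ) : Matrix (Fin r) (Fin r) ℤ))ᵀ *
            (zc (γ : Matrix (Fin r) (Fin r) ℤ))ᵀ) * qc ψ * (zc (γ : Matrix (Fin r) (Fin r) ℤ) *
            zc ((γ⁻¹ : GL (Fin r) ℤ) : Matrix (Fin r) (Fin r) ℤ)) := by
              simp only [Matrix.mul_assoc]
        _ = qc ψ := by rw [h3, h4, Matrix.one_mul, Matrix.mul_one]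
    · have h3 := reach_mul h2 (zc ((γ⁻¹ : GL (Fin r) ℤ) : Matrix (Fin r) (Fin r) ℤ))
      rw [rmul_rmul, zc_mul_inv, rmul_one] at h3
      exact reach_symm (a := rmul a _) hd h3

theorem mem_MM (hd : ∀ t ∈ a.U, MvPolynomial.eval t S ≠ 0) (ha : a.IsAnalytic) (hb : Reach S a b)
    (hc : Reach S a c)
    (hne : b.U.Nonempty) (hU : b.U = c.U) (hw : ∀ t ∈ b.U, b.w t = c.w t) {γ : GL (Fin r) ℤ}
    (hγ : (zc (γ : Matrix (Fin r) (Fin r) ℤ))ᵀ * qc ψ * zc (γ : Matrix (Fin r) (Fin r) ℤ) = qc ψ)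
    (hP : ∀ t ∈ b.U, c.P t = b.P t * zc (γ : Matrix (Fin r) (Fin r) ℤ)) : γ ∈ MM S a ψ hd := by
  refine ⟨hγ, ?_⟩
  have hb' := reach_analytic ha hb
  have hc' := reach_analytic ha hc
  have h1 : NextIn S c (rmul b (zc (γ : Matrix (Fin r) (Fin r) ℤ))) := by
    refine ⟨⟨hc', rmul_analytic hb' _, b.U, hb'.1, hne, hU.le, subset_rfl, fun t ht => ?_⟩,
      fun t ht => reach_dom hd hb t ht⟩
    exact ⟨(hw t ht).symm, hP t ht⟩
  have h2 := reach_mul (reach_symm hd hb) (zc (γ : Matrix (Fin r) (Fin r) ℤ))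
  exact (hc.tail h1).trans h2

theorem mem_Mono (hd : ∀ t ∈ a.U, MvPolynomial.eval t S ≠ 0) {γ : GL (Fin r) ℤ} (h : γ ∈ MM S a ψ hd) :
    (γ : Matrix (Fin r) (Fin r) ℤ).map (Int.cast : ℤ → ℂ) ∈ Mono ψ a.U a.w a.P := by
  obtain ⟨h1, h2⟩ := h
  refine ⟨⟨_, rfl⟩, h1, ?_⟩
  have h4 : ∀ b, Reach S a b → Relation.ReflTransGen Element.Next a b := by
    intro b hb
    induction hb with
    | refl => exact Relation.ReflTransGen.refl
    | tail _ h3 ih => exact Relation.ReflTransGen.tail ih h3.1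
  exact h4 _ h2

theorem restrict (hd : ∀ t ∈ a.U, MvPolynomial.eval t S ≠ 0) (ha : a.IsAnalytic) (h : Reach S a b)
    {D : Set (Fin m → ℂ)} (hD : IsOpen D) (hD' : IsPreconnected D) (hne : D.Nonempty) (hsub : D ⊆ b.U) :
    Reach S a ⟨D, b.w, b.P⟩ := by
  have hb := reach_analytic ha h
  refine h.tail ⟨⟨hb, ⟨hD, hD', hb.2.2.1.mono hsub, fun i k => (hb.2.2.2 i k).mono hsub⟩, D, hD, hne,
    hsub, subset_rfl, fun t _ => ⟨rfl, rfl⟩⟩, fun t ht => reach_dom hd h t (hsub ht)⟩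

/-- Continuation to convex open sets. -/
theorem IsVHS.reach_ext (h : IsVHS S a lev j ψ) (hb : Reach S a b) {D : Set (Fin m → ℂ)} (hD : IsOpen D)
    (hD' : Convex ℝ D) (hDS : ∀ t ∈ D, MvPolynomial.eval t S ≠ 0) {t : Fin m → ℂ} (ht : t ∈ b.U)
    (ht' : t ∈ D) : ∃ c : Element m (Fin r), Reach S a c ∧ c.U = D ∧
      ∀ᶠ s in nhds t, b.w s = c.w s ∧ b.P s = c.P s := by
  obtain ⟨w, P, h1, h2⟩ := h.ext b hb D hD hD' hDS t ⟨ht, ht'⟩
  have hb' := reach_analytic h.analytic hb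
  refine ⟨⟨D, w, P⟩, hb.tail ⟨⟨hb', h1, ?_⟩, hDS⟩, rfl, h2⟩
  obtain ⟨O, hO, hOo, htO⟩ := eventually_nhds_iff.mp h2
  refine ⟨O ∩ (b.U ∩ D), hOo.inter (hb'.1.inter hD), ⟨t, htO, ht, ht'⟩, fun s hs => hs.2.1,
    fun s hs => hs.2.2, fun s hs => hO s hs.1⟩

/-- Multiplication by an element of the monodromy group. -/
theorem reach_rmul (hd : ∀ t ∈ a.U, MvPolynomial.eval t S ≠ 0) {γ : GL (Fin r) ℤ} (h : γ ∈ MM S a ψ hd)
    (hb : Reach S a b) : Reach S a (rmul b (zc (γ : Matrix (Fin r) (Fin r) ℤ))) :=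
  Relation.ReflTransGen.trans h.2 (reach_mul hb _)

end Pool.Agent.Helper79.FX
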