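import Pool.Agent.Helper79.FX.Chain

/-!
# FX-18: there are branches over all convex open sets outside `S = 0`

Let `t₀ ∈ a.U`, `t₁ ∈ D`. The polynomial `z ↦ S (t₀ + z (t₁ - t₀))` in one variable is not zero (its value at `0` is not), so it has finitely many
zeros `Σ ⊆ ℂ`; `0, 1 ∉ Σ`. There is a real `ε` such that the point `z = 1/2 + ε i` has the property that the segments `[0, z]` and `[z, 1]` do not meet `Σ` (each `σ ∈ Σ` excludes at most one `ε` for each
segment). The images of the segments are compact convex subsets `K₁`, `K₂` of the open set `S ≠ 0`; they have convex open neighbourhoods `D₁`, `D₂` in `S ≠ 0` (`IsCompact.exists_thickening_subset_open`,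
`Convex.thickening`). `reach_ext` from `a` at `t₀` to `D₁`, at the image of `z` to `D₂`, at `t₁` to `D`.
-/

namespace Pool.Agent.Helper79.FX

open Matrix Pool.Agent.Helper79.BB Pool.Agent.Helper79.HH Pool.Agent.Helper79.HJ
  Pool.Agent.Helper64.Per Pool.Agent.Helper79.DD

variable {m r : ℕ} {S : MvPolynomial (Fin m) ℂ} {a : Element m (Fin r)} {lev : Fin r → ℤ} {j : ℤ}
  {ψ : Matrix (Fin r) (Fin r) ℚ}

/-- The restriction of a polynomial to a line. -/
private theorem exists_line_poly (S : MvPolynomial (Fin m) ℂ) (t₀ v : Fin m → ℂ) :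
    ∃ q : Polynomial ℂ, ∀ z : ℂ, q.eval z = MvPolynomial.eval (t₀ + z • v) S := by
  refine ⟨MvPolynomial.aeval (fun i => Polynomial.C (t₀ i) + Polynomial.X * Polynomial.C (v i)) S,
    fun z => ?_⟩
  have h : (Polynomial.evalRingHom z).comp
      (MvPolynomial.aeval (R := ℂ)
        (fun i => Polynomial.C (t₀ i) + Polynomial.X * Polynomial.C (v i))).toRingHom =
      MvPolynomial.eval (t₀ + z • v) := by
    apply MvPolynomial.ringHom_ext
    · intro c
      simp
    · intro i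
      simp
      ring
  have := congrArg (fun f : MvPolynomial (Fin m) ℂ →+* ℂ => f S) h
  simpa using this

/-- A finite set of complex numbers without `0` and `1` is avoided by two segments from `0` to `z` and from
`z` to `1`. -/
private theorem exists_mid (F : Finset ℂ) (h0 : (0 : ℂ) ∉ F) (h1 : (1 : ℂ) ∉ F) :
    ∃ z : ℂ, (∀ s : ℝ, 0 ≤ s → s ≤ 1 → (s : ℂ) * z ∉ F) ∧
      ∀ s : ℝ, 0 ≤ s → s ≤ 1 → (1 : ℂ) - (s : ℂ) * (1 - z) ∉ F := by
  obtain ⟨ε, hε⟩ := Infinite.exists_notMem_finset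
    (F.image (fun σ : ℂ => σ.im / (2 * σ.re)) ∪ F.image (fun σ : ℂ => σ.im / (2 * (1 - σ.re))))
  rw [Finset.mem_union, not_or] at hε
  refine ⟨⟨1 / 2, ε⟩, fun s hs0 hs1 hF => ?_, fun s hs0 hs1 hF => ?_⟩
  · by_cases hs : s = 0
    · apply h0
      simpa [hs] using hF
    · apply hε.1
      rw [Finset.mem_image]
      refine ⟨_, hF, ?_⟩
      have hs' : s ≠ 0 := hs
      simp only [Complex.mul_im, Complex.mul_re, Complex.ofReal_re, Complex.ofReal_im]
      rw [show (2 * (s * (1 / 2) - 0 * ε) : ℝ) = s by ring,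
        show (s * ε + 0 * (1 / 2) : ℝ) = s * ε by ring]
      field_simp
  · by_cases hs : s = 0
    · apply h1
      simpa [hs] using hF
    · apply hε.2
      rw [Finset.mem_image]
      refine ⟨_, hF, ?_⟩
      simp only [Complex.mul_im, Complex.mul_re, Complex.ofReal_re, Complex.ofReal_im,
        Complex.sub_re, Complex.sub_im, Complex.one_re, Complex.one_im]
      field_simp
      ring

/-- A segment outside `S = 0` has a convex open neighbourhood outside `S = 0`. -/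
private theorem exists_nhd (S : MvPolynomial (Fin m) ℂ) (x y : Fin m → ℂ)
    (h : ∀ t ∈ segment ℝ x y, MvPolynomial.eval t S ≠ 0) :
    ∃ D : Set (Fin m → ℂ), IsOpen D ∧ Convex ℝ D ∧ (∀ t ∈ D, MvPolynomial.eval t S ≠ 0) ∧
      x ∈ D ∧ y ∈ D := by
  have hO : IsOpen {t : Fin m → ℂ | MvPolynomial.eval t S ≠ 0} :=
    isOpen_ne_fun (MvPolynomial.continuous_eval S) continuous_const
  have hK : IsCompact (segment ℝ x y) := by
    rw [segment_eq_image]
    exact isCompact_Icc.image (by fun_prop)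
  obtain ⟨δ, hδ, hsub⟩ := hK.exists_thickening_subset_open hO (fun t ht => h t ht)
  refine ⟨Metric.thickening δ (segment ℝ x y), Metric.isOpen_thickening,
    (convex_segment x y).thickening δ, fun t ht => hsub ht, ?_, ?_⟩
  · exact Metric.self_subset_thickening hδ _ (left_mem_segment ℝ x y)
  · exact Metric.self_subset_thickening hδ _ (right_mem_segment ℝ x y)

theorem IsVHS.exists_over (h : IsVHS S a lev j ψ) (hne : a.U.Nonempty) {D : Set (Fin m → ℂ)} (hD : IsOpen D)
    (hD' : Convex ℝ D) (hDS : ∀ t ∈ D, MvPolynomial.eval t S ≠ 0) (hDne : D.Nonempty) :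
    ∃ b, Reach S a b ∧ b.U = D := by
  obtain ⟨t₀, ht₀⟩ := hne
  obtain ⟨t₁, ht₁⟩ := hDne
  obtain ⟨q, hq⟩ := exists_line_poly S t₀ (t₁ - t₀)
  have hS0 := h.dom t₀ ht₀
  have hS1 := hDS t₁ ht₁
  have hq0 : q.eval 0 ≠ 0 := by
    rw [hq]
    simpa using hS0
  have hq1 : q.eval 1 ≠ 0 := by
    rw [hq]
    simpa using hS1
  have hqne : q ≠ 0 := by
    rintro rfl
    simp at hq0
  obtain ⟨z, hz1, hz2⟩ := exists_mid q.roots.toFinset
    (by simpa [hqne, Polynomial.IsRoot] using hq0) (by simpa [hqne, Polynomial.IsRoot] using hq1)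
  have hroot : ∀ w : ℂ, w ∉ q.roots.toFinset →
      MvPolynomial.eval (t₀ + w • (t₁ - t₀)) S ≠ 0 := by
    intro w hw h0
    apply hw
    rw [Multiset.mem_toFinset, Polynomial.mem_roots hqne, Polynomial.IsRoot, hq, h0]
  set p : Fin m → ℂ := t₀ + z • (t₁ - t₀) with hp
  obtain ⟨D₁, hD₁, hD₁c, hD₁S, hx₁, hy₁⟩ := exists_nhd S t₀ p (by
    intro t ht
    rw [segment_eq_image'] at ht
    obtain ⟨s, ⟨hs0, hs1⟩, rfl⟩ := ht
    have := hroot _ (hz1 s hs0 hs1)
    have he : t₀ + s • (p - t₀) = t₀ + ((s : ℂ) * z) • (t₁ - t₀) := by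
      ext i
      simp [hp, mul_assoc]
    simpa only [he] using this)
  obtain ⟨D₂, hD₂, hD₂c, hD₂S, hx₂, hy₂⟩ := exists_nhd S t₁ p (by
    intro t ht
    rw [segment_eq_image'] at ht
    obtain ⟨s, ⟨hs0, hs1⟩, rfl⟩ := ht
    have := hroot _ (hz2 s hs0 hs1)
    have he : t₁ + s • (p - t₁) = t₀ + ((1 : ℂ) - (s : ℂ) * (1 - z)) • (t₁ - t₀) := by
      ext i
      simp [hp]
      ring
    simpa only [he] using this)
  obtain ⟨c₁, hc₁, hc₁U, -⟩ := h.reach_ext Relation.ReflTransGen.refl hD₁ hD₁c hD₁S ht₀ hx₁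
  obtain ⟨c₂, hc₂, hc₂U, -⟩ := h.reach_ext hc₁ hD₂ hD₂c hD₂S (t := p) (by rw [hc₁U]; exact hy₁) hy₂
  obtain ⟨b, hb, hbU, -⟩ := h.reach_ext hc₂ hD hD' hDS (t := t₁) (by rw [hc₂U]; exact hx₂) ht₁
  exact ⟨b, hb, hbU⟩

end Pool.Agent.Helper79.FX
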