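import Pool.Agent.Helper79.FX.Glob

/-!
# FX-22: the projection onto a flat subspace is constant, and so are its conjugates by the Hodge circles

`e`, `O`, `c` as in `exists_open_const`, `O` a ball (shrink it). Let `f` be an entry of `t ↦ PiM B (RR n (Hm (e.P t)))` or, for `u ≠ 0`, of `t ↦ RR n (Em u (e.P t)) * PiM .. * (RR n (Em u (e.P t)))⁻¹`; real analytic on `e.U`
(`rat_Hm`, `rat_Em`, `rat_RR`, `rat_inv`, `rat_mul`; `Em_det` and `RR_det`). For `t ∈ O`, `v` in `ℂ^m`: `vh_line` (with `t₀ = t`), `VH.hv`, `VH.he`, `HV.TP`, `HE.TP`, and `HE.const_of_lap` at `s = 0` (`lg` is constant near `0`): `dz` and `dzb` of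
`s ↦ f (t + s v)` vanish at `0`, so `fderiv ℝ f t v = 0` (`fderiv_eq` and the chain rule). So `f` is constant on `O` (`Convex`/`IsOpen.is_const_of_fderiv_eq_zero`..), and on `e.U` by the identity theorem
for real analytic functions on connected open sets (`AnalyticOnNhd.eqOn_of_preconnected_of_eventuallyEq`), and by induction on the chain `e → a → b` (`reach_symm`) on `b.U` for all reached `b`
(consecutive elements agree on a nonempty open set).
-/

namespace Pool.Agent.Helper79.FX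

open Matrix Pool.Agent.Helper79.BB Pool.Agent.Helper79.HH Pool.Agent.Helper79.HJ
  Pool.Agent.Helper64.Per Pool.Agent.Helper79.DD
open scoped ComplexOrder

variable {m r μ : ℕ} {S : MvPolynomial (Fin m) ℂ} {a : Element m (Fin r)} {lev : Fin r → ℤ} {j : ℤ}
  {ψ : Matrix (Fin r) (Fin r) ℚ} {k : Type} [Field k] [Algebra k ℂ]

private lemma fderiv_line {f : (Fin m → ℂ) → ℂ} {t v : Fin m → ℂ} (hf : DifferentiableAt ℝ f t)
    (h1 : dz (fun s : ℂ => f (t + s • v)) 0 = 0) (h2 : dzb (fun s : ℂ => f (t + s • v)) 0 = 0) :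
    fderiv ℝ f t v = 0 := by
  have hl : HasFDerivAt (𝕜 := ℝ) (fun s : ℂ => t + s • v)
      ((ContinuousLinearMap.id ℝ ℂ).smulRight v) 0 :=
    ((hasFDerivAt_id (𝕜 := ℝ) (0 : ℂ)).smul_const v).const_add t
  have hf' : HasFDerivAt (𝕜 := ℝ) f (fderiv ℝ f t) (t + (0 : ℂ) • v) := by
    rw [zero_smul, add_zero]
    exact hf.hasFDerivAt
  have hc := hf'.comp (0 : ℂ) hl
  have h3 : fderiv ℝ (fun s : ℂ => f (t + s • v)) 0 =
      (fderiv ℝ f t).comp ((ContinuousLinearMap.id ℝ ℂ).smulRight v) := hc.fderiv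
  have h4 := fderiv_eq (F := fun s : ℂ => f (t + s • v)) hc.differentiableAt 1
  rw [h1, h2, mul_zero, mul_zero, add_zero, h3] at h4
  simpa using h4

private lemma const_on {X : Type} {F : (Fin m → ℂ) → Matrix X X ℂ} {O : Set (Fin m → ℂ)}
    (hO : IsOpen O) (hOc : IsPreconnected O) (hF : ∀ t ∈ O, RAt F t)
    (h1 : ∀ t ∈ O, ∀ v, dzM (fun s : ℂ => F (t + s • v)) 0 = 0 ∧
      dzbM (fun s : ℂ => F (t + s • v)) 0 = 0) {t t' : Fin m → ℂ} (ht : t ∈ O) (ht' : t' ∈ O) :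
    F t = F t' := by
  ext i k
  refine hO.is_const_of_fderiv_eq_zero (𝕜 := ℝ) hOc (f := fun t => F t i k)
    (fun t ht => ((hF t ht i k).differentiableAt).differentiableWithinAt) (fun t ht => ?_) ht ht'
  ext v
  refine fderiv_line (f := fun t => F t i k) (hF t ht i k).differentiableAt ?_ ?_
  · exact congrFun (congrFun (h1 t ht v).1 i) k
  · exact congrFun (congrFun (h1 t ht v).2 i) k

private lemma spread {X : Type} (h : IsVHS S a lev j ψ)
    {Φ : Matrix (Fin r) (Fin r) ℂ → Matrix X X ℂ}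
    (hΦ : ∀ b, Reach S a b → ∀ t ∈ b.U, RAt (fun t => Φ (b.P t)) t) {e : Element m (Fin r)}
    (he : Reach S a e) {O : Set (Fin m → ℂ)} (hO : IsOpen O) (hOne : O.Nonempty) (hOe : O ⊆ e.U)
    {Pi : Matrix X X ℂ} (hPi : ∀ t ∈ O, Φ (e.P t) = Pi) :
    ∀ b, Reach S a b → ∀ t ∈ b.U, Φ (b.P t) = Pi := by
  have key : ∀ b, Reach S a b → ∀ O : Set (Fin m → ℂ), IsOpen O → O.Nonempty → O ⊆ b.U →
      (∀ t ∈ O, Φ (b.P t) = Pi) → ∀ t ∈ b.U, Φ (b.P t) = Pi := by
    intro b hb O hO hOne hOb hPi t ht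
    obtain ⟨t₀, ht₀⟩ := hOne
    have hba := reach_analytic h.analytic hb
    ext i k
    have h1 : AnalyticOnNhd ℝ (fun t => Φ (b.P t) i k) b.U := fun t ht => hΦ b hb t ht i k
    have h2 := h1.eqOn_of_preconnected_of_eventuallyEq (g := fun _ => Pi i k)
      analyticOnNhd_const hba.2.1 (hOb ht₀) (by
        filter_upwards [hO.mem_nhds ht₀] with s hs
        rw [hPi s hs])
    exact h2 ht
  have heb : ∀ b, Reach S e b → Reach S a b ∧ ∀ t ∈ b.U, Φ (b.P t) = Pi := by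
    intro b hb
    induction hb with
    | refl => exact ⟨he, key e he O hO hOne hOe hPi⟩
    | tail hb hbc ih =>
      obtain ⟨hab, hconst⟩ := ih
      have hac := hab.tail hbc
      refine ⟨hac, ?_⟩
      obtain ⟨⟨_, _, O', hO', hne', h1, h2, h3⟩, _⟩ := hbc
      exact key _ hac O' hO' hne' h2 fun t ht => by
        rw [← (h3 t ht).2]
        exact hconst t (h1 ht)
  intro b hb
  exact (heb b ((reach_symm h.dom he).trans hb)).2

private lemma rat_P (h : IsVHS S a lev j ψ) {b : Element m (Fin r)} (hb : Reach S a b)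
    {t : Fin m → ℂ} (ht : t ∈ b.U) : RAt (fun t => b.P t) t := fun i k =>
  ((reach_analytic h.analytic hb).2.2.2 i k t ht).restrictScalars

private lemma rat_Pi (h : IsVHS S a lev j ψ) {n d : ℕ} {B : Matrix (TP (X2 r) n) (Fin d) ℂ}
    (hB : ∀ v : Fin d → ℂ, B *ᵥ v = 0 → v = 0) {b : Element m (Fin r)} (hb : Reach S a b)
    {t : Fin m → ℂ} (ht : t ∈ b.U) :
    RAt (fun t => PiM B (RR n (Hm lev j ψ (b.P t)))) t := by
  have h1 : RAt (fun t => RR n (Hm lev j ψ (b.P t))) t :=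
    rat_RR n (rat_Hm (rat_P h hb ht) (h.pol b hb t ht) (h.det b hb t ht))
  have h2 : (RR n (Hm lev j ψ (b.P t))).PosDef :=
    posDef_RR n (Hm_pos (h.pol b hb t ht) (h.det b hb t ht))
  have h3 := gram_pos hB h2
  unfold PiM
  exact rat_mul (rat_mul (rat_mul (rat_const B)
    (rat_inv (rat_mul (rat_mul (rat_const Bᴴ) h1) (rat_const B)) ((Matrix.isUnit_iff_isUnit_det _).1 h3.isUnit))) (rat_const Bᴴ)) h1

private lemma Nb_nonneg (lev : Fin r → ℤ) : 0 ≤ Nb lev := by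
  unfold Nb
  have : 0 ≤ ∑ x, |lev x| := Finset.sum_nonneg fun x _ => abs_nonneg _
  omega

theorem exists_proj (h : IsVHS S a lev j ψ) (hne : a.U.Nonempty) (hw : IsBranchM k a.U μ a.w)
    {Γ : Subgroup (GL (Fin r) ℤ)} (hΓ : Γ ≤ MM S a ψ h.dom) (hfin : Γ.relIndex (MM S a ψ h.dom) ≠ 0)
    {n d : ℕ} {B : Matrix (TP (X2 r) n) (Fin d) ℂ} (hB : ∀ v : Fin d → ℂ, B *ᵥ v = 0 → v = 0)
    (hBΓ : ∀ γ ∈ Γ, ∃ β : Matrix (Fin d) (Fin d) ℂ,
      RR n (zc (γ : Matrix (Fin r) (Fin r) ℤ)) * B = B * β ∧ ‖β.det‖ = 1) :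
    ∃ Pi : Matrix (TP (X2 r) n) (TP (X2 r) n) ℂ,
      (∀ b, Reach S a b → ∀ t ∈ b.U, PiM B (RR n (Hm lev j ψ (b.P t))) = Pi) ∧
      ∀ u : ℂ, u ≠ 0 → ∃ A : Matrix (TP (X2 r) n) (TP (X2 r) n) ℂ, ∀ b, Reach S a b → ∀ t ∈ b.U,
        RR n (Em lev j ψ u (b.P t)) * Pi * (RR n (Em lev j ψ u (b.P t)))⁻¹ = A := by
  obtain ⟨e, he, O, hO, hOne, hOe, c, hc⟩ := exists_open_const h hne hw hΓ hfin hB hBΓ
  obtain ⟨t₀, ht₀⟩ := hOne
  obtain ⟨ε, hε, hball⟩ := Metric.isOpen_iff.1 hO t₀ ht₀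
  have hopen : IsOpen (Metric.ball t₀ ε) := Metric.isOpen_ball
  have hconn : IsPreconnected (Metric.ball t₀ ε) := (convex_ball t₀ ε).isPreconnected
  have hmem : t₀ ∈ Metric.ball t₀ ε := Metric.mem_ball_self hε
  have hU : IsOpen e.U := (reach_analytic h.analytic he).1
  have hN : (0 : ℝ) ≤ ((2 * Nb lev + |j| : ℤ) : ℝ) := by
    have h1 := Nb_nonneg lev
    have h2 := abs_nonneg j
    exact_mod_cast (by omega : (0 : ℤ) ≤ 2 * Nb lev + |j|)
  -- the derivatives along the lines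
  have hder : ∀ t ∈ Metric.ball t₀ ε, ∀ (v : Fin m → ℂ) (u : ℂ), u ≠ 0 →
      dzM (fun s : ℂ => PiM B (RR n (Hm lev j ψ (e.P (t + s • v))))) 0 = 0 ∧
      dzbM (fun s : ℂ => PiM B (RR n (Hm lev j ψ (e.P (t + s • v))))) 0 = 0 ∧
      dzM (fun s : ℂ => RR n (Em lev j ψ u (e.P (t + s • v))) *
        PiM B (RR n (Hm lev j ψ (e.P (t + s • v)))) *
        (RR n (Em lev j ψ u (e.P (t + s • v))))⁻¹) 0 = 0 ∧
      dzbM (fun s : ℂ => RR n (Em lev j ψ u (e.P (t + s • v))) *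
        PiM B (RR n (Hm lev j ψ (e.P (t + s • v)))) *
        (RR n (Em lev j ψ u (e.P (t + s • v))))⁻¹) 0 = 0 := by
    intro t ht v u hu
    have hcont : Continuous fun s : ℂ => t + s • v :=
      continuous_const.add (continuous_id.smul continuous_const)
    have hOv : IsOpen {s : ℂ | t + s • v ∈ e.U} := hU.preimage hcont
    have hV := vh_line h he t v
    have hHV := hV.hv hOv
    have h0 : (0 : ℂ) ∈ {s : ℂ | t + s • v ∈ e.U} := by
      change t + (0 : ℂ) • v ∈ e.U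
      rw [zero_smul, add_zero]
      exact hOe (hball ht)
    refine HE.const_of_lap (hHV.TP hN n) ((hV.he hOv hu).TP hHV.anD n) hOv hB h0 ⟨c, ?_⟩
    have h1 : {s : ℂ | t + s • v ∈ Metric.ball t₀ ε} ∈ nhds (0 : ℂ) := by
      refine (hopen.preimage hcont).mem_nhds ?_
      change t + (0 : ℂ) • v ∈ Metric.ball t₀ ε
      rw [zero_smul, add_zero]
      exact ht
    filter_upwards [h1] with s hs
    exact hc _ (hball hs)
  have hsub : Metric.ball t₀ ε ⊆ e.U := hball.trans hOe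
  have hratE : ∀ (u : ℂ), u ≠ 0 → ∀ b, Reach S a b → ∀ t ∈ b.U,
      RAt (fun t => RR n (Em lev j ψ u (b.P t)) * PiM B (RR n (Hm lev j ψ (b.P t))) *
        (RR n (Em lev j ψ u (b.P t)))⁻¹) t := by
    intro u hu b hb t ht
    have h1 : RAt (fun t => RR n (Em lev j ψ u (b.P t))) t :=
      rat_RR n (rat_Em (rat_P h hb ht) (h.pol b hb t ht) (h.det b hb t ht) u)
    have h2 : IsUnit (RR n (Em lev j ψ u (b.P t))).det := RR_det n (by
      rw [Em_det (h.pol b hb t ht) (h.det b hb t ht) hu]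
      exact isUnit_one)
    exact rat_mul (rat_mul h1 (rat_Pi h hB hb ht)) (rat_inv h1 h2)
  have hPi := spread h (Φ := fun P => PiM B (RR n (Hm lev j ψ P)))
    (fun b hb t ht => rat_Pi h hB hb ht) he hopen ⟨t₀, hmem⟩ hsub
    (Pi := PiM B (RR n (Hm lev j ψ (e.P t₀)))) (fun t ht =>
      const_on (F := fun t => PiM B (RR n (Hm lev j ψ (e.P t)))) hopen hconn
        (fun t ht => rat_Pi h hB he (hsub ht))
        (fun t ht v => ⟨(hder t ht v 1 one_ne_zero).1, (hder t ht v 1 one_ne_zero).2.1⟩) ht hmem)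
  refine ⟨PiM B (RR n (Hm lev j ψ (e.P t₀))), hPi, fun u hu => ?_⟩
  have hE := spread h (Φ := fun P => RR n (Em lev j ψ u P) * PiM B (RR n (Hm lev j ψ P)) *
      (RR n (Em lev j ψ u P))⁻¹) (hratE u hu) he hopen ⟨t₀, hmem⟩ hsub
    (Pi := RR n (Em lev j ψ u (e.P t₀)) * PiM B (RR n (Hm lev j ψ (e.P t₀))) *
      (RR n (Em lev j ψ u (e.P t₀)))⁻¹) (fun t ht =>
      const_on (F := fun t => RR n (Em lev j ψ u (e.P t)) * PiM B (RR n (Hm lev j ψ (e.P t))) *
        (RR n (Em lev j ψ u (e.P t)))⁻¹) hopen hconn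
        (fun t ht => hratE u hu e he t (hsub ht))
        (fun t ht v => ⟨(hder t ht v u hu).2.2.1, (hder t ht v u hu).2.2.2⟩) ht hmem)
  refine ⟨RR n (Em lev j ψ u (e.P t₀)) * PiM B (RR n (Hm lev j ψ (e.P t₀))) *
    (RR n (Em lev j ψ u (e.P t₀)))⁻¹, fun b hb t ht => ?_⟩
  have h1 := hE b hb t ht
  rw [hPi b hb t ht] at h1
  exact h1

end Pool.Agent.Helper79.FX
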