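import Pool.Agent.Helper79.HJ.Defs

/-!
# FX: polarised variations of Hodge structure and Hodge generic points: definitions
-/

namespace Pool.Agent.Helper79.FX

open Matrix Pool.Agent.Helper79.BB Pool.Agent.Helper79.HH Pool.Agent.Helper79.HJ
  Pool.Agent.Helper64.Per Pool.Agent.Helper79.DD

variable {m r : ℕ}

/-- The function element `b` is an immediate analytic continuation of `a`, and its domain does not meet the
hypersurface `S = 0`. -/
def NextIn (S : MvPolynomial (Fin m) ℂ) (a b : Element m (Fin r)) : Prop :=
  a.Next b ∧ ∀ t ∈ b.U, MvPolynomial.eval t S ≠ 0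

/-- The function element `b` is obtained from `a` by analytic continuation in the complement of the
hypersurface `S = 0`. -/
def Reach (S : MvPolynomial (Fin m) ℂ) (a b : Element m (Fin r)) : Prop :=
  Relation.ReflTransGen (NextIn S) a b

/-- The function element `a = (U, w, P)` is given by a branch `w` over `U` of a finite étale covering of the complement of the
hypersurface `S = 0` in `ℂ^m`, and the period matrix `P` of a variation of Hodge structure of weight `j` over this
covering, with a lattice and a polarisation `ψ`. `P t` gives the position of the lattice with respect to a basis of the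
Hodge bundle, adapted to the Hodge filtration: the elements of this basis have the levels `lev x`.

* `ext`: all continuations `b` of `a` can be continued to all convex open sets in the complement of `S = 0` which meet the domain of `b`;
* `int`: two continuations with the same domain and the same branch `w` differ by an integral isometry of `ψ`;
* `det`, `pol`: at all points the continued period matrix is invertible and gives a Hodge structure polarised by `ψ`;
* `trans`: the derivatives lower the Hodge filtration by at most one (Griffiths). -/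
structure IsVHS (S : MvPolynomial (Fin m) ℂ) (a : Element m (Fin r)) (lev : Fin r → ℤ) (j : ℤ)
    (ψ : Matrix (Fin r) (Fin r) ℚ) : Prop where
  ne : S ≠ 0
  analytic : a.IsAnalytic
  dom : ∀ t ∈ a.U, MvPolynomial.eval t S ≠ 0
  ext : ∀ b, Reach S a b → ∀ D : Set (Fin m → ℂ), IsOpen D → Convex ℝ D →
    (∀ t ∈ D, MvPolynomial.eval t S ≠ 0) → ∀ t ∈ b.U ∩ D,
      ∃ (w : (Fin m → ℂ) → ℂ) (P : (Fin m → ℂ) → Matrix (Fin r) (Fin r) ℂ),
        (⟨D, w, P⟩ : Element m (Fin r)).IsAnalytic ∧ ∀ᶠ s in nhds t, b.w s = w s ∧ b.P s = P s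
  int : ∀ b c, Reach S a b → Reach S a c → b.U = c.U → (∀ t ∈ b.U, b.w t = c.w t) →
    ∃ γ : GL (Fin r) ℤ, ((γ : Matrix (Fin r) (Fin r) ℤ).map (Int.cast : ℤ → ℚ))ᵀ * ψ *
        (γ : Matrix (Fin r) (Fin r) ℤ).map (Int.cast : ℤ → ℚ) = ψ ∧
      ∀ t ∈ b.U, c.P t = b.P t * (γ : Matrix (Fin r) (Fin r) ℤ).map (Int.cast : ℤ → ℂ)
  det : ∀ b, Reach S a b → ∀ t ∈ b.U, IsUnit (b.P t).det
  pol : ∀ b, Reach S a b → ∀ t ∈ b.U, IsPolarized lev j ψ (b.P t)
  trans : ∀ b, Reach S a b → ∀ t ∈ b.U, ∀ (i : Fin m) (x y : Fin r), lev y + 1 < lev x →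
    ((Matrix.of fun x y => pd i (fun s => b.P s x y) t) * (b.P t)⁻¹) x y = 0

end Pool.Agent.Helper79.FX
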