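import Pool.Agent.Helper79.HJ.Contain

/-!
# FX-26: groups all of whose subgroups of finite index have the same Zariski closure

* `exists_dense`: the ring `GLPoly r ℚ` is noetherian; choose among the subgroups `Γ ≤ G` of finite index (`relIndex ≠ 0`) one for which the ideal `vanGL ℚ (qp Γ)` is maximal. Let `Γ'` have finite index in `qp Γ`. `Γ'' = comap Γ' ⊓ Γ` (comap under
  `Matrix.GeneralLinearGroup.map (Int.castRingHom ℚ)`) has finite index in `Γ` (`Subgroup.relIndex_comap`, as in `HI.relIndex_map_ne_zero`), so in `G` (`Subgroup.relIndex_mul_relIndex`), and `vanGL ℚ (qp Γ'') ≥ vanGL ℚ (qp Γ)`: equal by the choice. `f` vanishes on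
  `qp Γ''`, so on `qp Γ`.
* `det`: the kernel of the determinant in `Γ` has index at most two; the polynomial `det X - 1` vanishes on it (with `Γ' = Γ ⊓ ker det`; the relative index is not zero: `Subgroup.index_ker`, finite range).
* `le_HodgeGroup`: copy the proof of `Pool.Agent.Helper79.HJ.le_HodgeGroup` (`Pool/Agent/Helper79/HJ/Contain.lean`); the only change is the last line, where `van_of_finite hconn hfin` is replaced by `hdense`.
* `comm_of_lie`: `S' = {M | M z = z M}`, a linear subspace of the matrices; `J` the ideal of the polynomials which vanish on `S'`. `1 ∈ S'`. For `x ∈ lieS Γ`, `f ∈ J`, `M ∈ S'`: `M x ∈ S'` (`x z = z x`), so `M + c M x ∈ S'` for all `c ∈ ℚ`, and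
  `evM M (der x f)` is the derivative of the polynomial `c ↦ evM (M + c M x) f = 0` at `0` (`evM (M (1 + ε x)) f = evM M f + ε evM M (der x f)` over the dual numbers, or by induction on `f`; see `Pool/Agent/Helper88/MT/PolyDer.lean`). So `der x f ∈ J` and `HI.relIndex_ne_zero` gives that
  `Γ' = {g | g z = z g}` has finite index in `Γ` (if all `f ∈ J` vanish at `g` then the linear polynomials `(X z - z X) i k ∈ J` vanish at `g`). The polynomials `(X z - z X) i k` vanish on `Γ'`, so on `Γ`.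
-/

namespace Pool.Agent.Helper79.FX

open Matrix Module Pool.Agent.Helper88.MT Pool.Agent.Helper46.GG Pool.Agent.Helper79.HG Pool.Agent.Helper79.HH
  Pool.Agent.Helper79.HI Pool.Agent.Helper79.HJ

variable {r : ℕ}

/-- All subgroups of finite index have the same Zariski closure. -/
def DenseG (Γ : Subgroup (GL (Fin r) ℚ)) : Prop :=
  ∀ Γ' : Subgroup (GL (Fin r) ℚ), Γ'.relIndex Γ ≠ 0 → ∀ f : GLPoly r ℚ,
    (∀ g ∈ Γ', g ∈ Γ → evGL g f = 0) → ∀ g ∈ Γ, evGL g f = 0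

theorem exists_dense (G : Subgroup (GL (Fin r) ℤ)) :
    ∃ Γ : Subgroup (GL (Fin r) ℤ), Γ ≤ G ∧ Γ.relIndex G ≠ 0 ∧ DenseG (qp Γ) := by
  set φ : GL (Fin r) ℤ →* GL (Fin r) ℚ := Matrix.GeneralLinearGroup.map (Int.castRingHom ℚ) with hφ
  obtain ⟨I, ⟨Γ, hΓG, hΓi, hI⟩, hmax⟩ := set_has_maximal_iff_noetherian.2
    (inferInstance : IsNoetherianRing (GLPoly r ℚ))
    {I : Ideal (GLPoly r ℚ) | ∃ Γ : Subgroup (GL (Fin r) ℤ), Γ ≤ G ∧ Γ.relIndex G ≠ 0 ∧
      vanGL ℚ (qp Γ : Set (GL (Fin r) ℚ)) = I}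
    ⟨_, G, le_refl _, by simp, rfl⟩
  refine ⟨Γ, hΓG, hΓi, fun Γ' hΓ' f hf => ?_⟩
  set Γ₂ : Subgroup (GL (Fin r) ℤ) := Γ'.comap φ ⊓ Γ with hΓ₂
  have h1 : Γ₂.relIndex Γ ≠ 0 := by
    rw [hΓ₂, Subgroup.inf_relIndex_right, Subgroup.relIndex_comap]
    exact hΓ'
  have h2 : Γ₂.relIndex G ≠ 0 := by
    rw [← Subgroup.relIndex_mul_relIndex Γ₂ Γ G inf_le_right hΓG]
    exact mul_ne_zero h1 hΓi
  have h3 : vanGL ℚ (qp Γ : Set (GL (Fin r) ℚ)) ≤ vanGL ℚ (qp Γ₂ : Set (GL (Fin r) ℚ)) := by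
    intro p hp g hg
    exact hp g (Subgroup.map_mono (inf_le_right : Γ₂ ≤ Γ) hg)
  have h4 : vanGL ℚ (qp Γ₂ : Set (GL (Fin r) ℚ)) = vanGL ℚ (qp Γ : Set (GL (Fin r) ℚ)) := by
    by_contra hne
    refine hmax _ ⟨Γ₂, inf_le_right.trans hΓG, h2, rfl⟩ ?_
    rw [← hI]
    exact lt_of_le_of_ne h3 (Ne.symm hne)
  have h5 : f ∈ vanGL ℚ (qp Γ₂ : Set (GL (Fin r) ℚ)) := by
    rintro g ⟨h, hh, rfl⟩
    exact hf _ hh.1 ⟨h, hh.2, rfl⟩
  rw [h4] at h5
  exact fun g hg => h5 g hg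

theorem DenseG.det {Γ : Subgroup (GL (Fin r) ℚ)} (h : DenseG Γ)
    (hd : ∀ g ∈ Γ, (g : Matrix (Fin r) (Fin r) ℚ).det = 1 ∨ (g : Matrix (Fin r) (Fin r) ℚ).det = -1) :
    ∀ g ∈ Γ, (g : Matrix (Fin r) (Fin r) ℚ).det = 1 := by
  set D : GL (Fin r) ℚ →* ℚˣ := Matrix.GeneralLinearGroup.det with hD
  have hDv : ∀ g : GL (Fin r) ℚ, ((D g : ℚˣ) : ℚ) = (g : Matrix (Fin r) (Fin r) ℚ).det := fun g => rfl
  have hfin : (D.ker).relIndex Γ ≠ 0 := by
    rw [← MonoidHom.comap_bot, Subgroup.relIndex_comap, Subgroup.relIndex_bot_left]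
    have hsub : ((Γ.map D : Subgroup ℚˣ) : Set ℚˣ) ⊆ {1, -1} := by
      rintro _ ⟨g, hg, rfl⟩
      rcases hd g hg with h1 | h1
      · left
        exact Units.ext (by rw [hDv, h1]; rfl)
      · right
        exact Units.ext (by rw [hDv, h1]; rfl)
    have : Finite (Γ.map D) := Set.Finite.subset (Set.toFinite _) hsub
    exact Nat.card_pos.ne'
  intro g hg
  have h1 := h D.ker hfin (MvPolynomial.rename some (eqDet (Fin r) ℚ)) (fun g hg _ => by
    rw [evGL_rename, evM_eqDet, sub_eq_zero, ← hDv, MonoidHom.mem_ker.1 hg]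
    rfl) g hg
  rw [evGL_rename, evM_eqDet, sub_eq_zero] at h1
  exact h1

theorem DenseG.le_HodgeGroup {lev : Fin r → ℤ} {j : ℤ} {ψ : Matrix (Fin r) (Fin r) ℚ}
    {P : Matrix (Fin r) (Fin r) ℂ} (hpol : IsPolarized lev j ψ P) {Γ : Subgroup (GL (Fin r) ℚ)}
    (hdense : DenseG Γ) (hdet1 : ∀ γ ∈ Γ, (γ : Matrix (Fin r) (Fin r) ℚ).det = 1)
    (hlie : ∀ 𝔤 : Submodule ℚ (Matrix (Fin r) (Fin r) ℚ), (∀ x ∈ 𝔤, ∀ y ∈ 𝔤, x * y - y * x ∈ 𝔤) →
      (∀ D, IsHodgeOp lev j P D → D ∈ mspan ℂ 𝔤) → ∀ x ∈ lieS Γ, x ∈ 𝔤) :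
    ∀ γ ∈ Γ, Matrix.GeneralLinearGroup.map (algebraMap ℚ ℂ) γ ∈ HodgeGroup lev j P := by
  intro γ hγ
  obtain ⟨Q₀, deg, hQu, hQ⟩ := exists_basis hpol.span
  rw [HodgeGroup, Subgroup.mem_sInf]
  rintro S ⟨⟨P, hP⟩, hS⟩
  let S' : Set (Matrix (Fin r) (Fin r) ℂ) :=
    {M | M.det = 1 ∧ ∀ f ∈ P, MvPolynomial.aeval (pt1 M) f = 0}
  have hSS : ∀ b : GL (Fin r) ℂ, (b : Matrix (Fin r) (Fin r) ℂ) ∈ S' → b ∈ S := by
    rintro b ⟨hb1, hb2⟩
    rw [hP]
    intro f hf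
    rw [evGL_of_det hb1]
    exact hb2 f hf
  have hSS' : ∀ b : GL (Fin r) ℂ, b ∈ S → (b : Matrix (Fin r) (Fin r) ℂ).det = 1 →
      (b : Matrix (Fin r) (Fin r) ℂ) ∈ S' := by
    intro b hb hb'
    refine ⟨hb', fun f hf ↦ ?_⟩
    rw [← evGL_of_det hb']
    exact (hP b).mp hb f hf
  have hS1 : (1 : Matrix (Fin r) (Fin r) ℂ) ∈ S' := by
    have h1 : ((1 : GL (Fin r) ℂ) : Matrix (Fin r) (Fin r) ℂ) ∈ S' :=
      hSS' 1 S.one_mem (by simp)
    exact h1
  have hSQ : ∀ M, M ∈ S' ↔ ∀ q ∈ ({eqDet (Fin r) ℚ} ∪ (toLin '' P) :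
      Set (MvPolynomial (Fin r × Fin r) ℚ)), evM M q = 0 := by
    intro M
    constructor
    · rintro ⟨hM1, hM2⟩ q (rfl | ⟨f, hf, rfl⟩)
      · rw [evM_eqDet, hM1, sub_self]
      · rw [evM_toLin]
        exact hM2 f hf
    · intro h
      refine ⟨?_, fun f hf ↦ ?_⟩
      · have h1 := h _ (Or.inl rfl)
        rw [evM_eqDet] at h1
        exact sub_eq_zero.mp h1
      · rw [← evM_toLin]
        exact h _ (Or.inr ⟨f, hf, rfl⟩)
  have hmul : ∀ M ∈ S', ∀ M' ∈ S', M * M' ∈ S' := by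
    intro M hM M' hM'
    have h1 := hSS (ofDet M hM.1) hM
    have h2 := hSS (ofDet M' hM'.1) hM'
    refine hSS' (ofDet M hM.1 * ofDet M' hM'.1) (S.mul_mem h1 h2) ?_
    change (M * M').det = 1
    rw [Matrix.det_mul, hM.1, hM'.1, one_mul]
  have hhod : ∀ θ : ℝ, circ Q₀ deg j θ ∈ S' := by
    intro θ
    have hu : ‖Complex.exp (θ * Complex.I)‖ = 1 := Complex.norm_exp_ofReal_mul_I θ
    have h1 := hS _ _ (isCircleElt_circ hpol hQu hQ hu)
    exact hSS' _ h1 (det_sc hpol hQu hQ (exp_mul_I_ne θ))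
  -- the ideal
  let J : Ideal (MvPolynomial (Fin r × Fin r) ℚ) :=
    { carrier := {f | ∀ M ∈ S', evM (R := ℂ) M f = 0}
      add_mem' := by
        intro f g hf hg M hM
        rw [map_add, hf M hM, hg M hM, add_zero]
      zero_mem' := by intro M _; rw [map_zero]
      smul_mem' := by
        intro c f hf M hM
        rw [smul_eq_mul, map_mul, hf M hM, mul_zero] }
  have hJ : ∀ x ∈ lieS Γ, ∀ f ∈ J, der x f ∈ J := by
    intro x hx f hf
    refine lie_of_der (k := ℚ) (K := ℂ) (D := Complex.I • sc Q₀ deg fun p => ((2 * p - j : ℤ) : ℂ))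
      (𝔪 := (lieS Γ : Set (Matrix (Fin r) (Fin r) ℚ))) ?_ hSQ ?_ hx hf
    · intro 𝔤 h𝔤 hD
      refine hlie 𝔤 h𝔤 fun D' hD' => ?_
      have h1 : D' = sc Q₀ deg fun p => ((2 * p - j : ℤ) : ℂ) := by
        refine eq_of_span hpol fun p v hv => ?_
        rw [hD' p v hv, sc_mulVec hpol hQu hQ _ hv]
      have h2 := Submodule.smul_mem _ (-Complex.I) hD
      rw [smul_smul, neg_mul, Complex.I_mul_I, neg_neg, one_smul, ← h1] at h2
      exact h2
    · intro f hf M hM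
      have h1 := hasDerivAt_evM M (circ_zero hQu deg j) (hasDerivAt_circ Q₀ deg j)
        (MvPolynomial.map (algebraMap ℚ ℂ) f)
      have h2 : (fun θ : ℝ => evM (M * circ Q₀ deg j θ) (MvPolynomial.map (algebraMap ℚ ℂ) f)) =
          fun _ => (0 : ℂ) := by
        funext θ
        rw [evM_mapAlg]
        exact hf _ (hmul M hM _ (hhod θ))
      rw [h2] at h1
      exact h1.unique (hasDerivAt_const _ _)
  have hJ1 : ∀ f ∈ J, evM (1 : Matrix (Fin r) (Fin r) ℚ) f = 0 := by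
    intro f hf
    have h1 : evM (R := ℂ) (1 : Matrix (Fin r) (Fin r) ℂ) f = 0 := hf 1 hS1
    have h2 : evM (F := ℚ) (1 : Matrix (Fin r) (Fin r) ℂ) f =
        algebraMap ℚ ℂ (evM (1 : Matrix (Fin r) (Fin r) ℚ) f) := by
      rw [← evM_map, Matrix.map_one _ (map_zero _) (map_one _), evM_mapAlg]
    rw [h2] at h1
    exact (map_eq_zero _).mp h1
  -- values at rational points
  have hval : ∀ (g : GL (Fin r) ℚ) (f : GLPoly r ℚ),
      evGL (Matrix.GeneralLinearGroup.map (algebraMap ℚ ℂ) g) f = algebraMap ℚ ℂ (evGL g f) :=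
    fun g f ↦ evGL_map (R := ℚ) (Algebra.ofId ℚ ℂ) g f
  have hmemS : ∀ g : GL (Fin r) ℚ, Matrix.GeneralLinearGroup.map (algebraMap ℚ ℂ) g ∈ S ↔
      ∀ f ∈ P, evGL g f = 0 := by
    intro g
    rw [hP]
    refine forall₂_congr fun f _ ↦ ?_
    rw [hval]
    exact map_eq_zero _
  let Γ' : Subgroup (GL (Fin r) ℚ) := S.comap (Matrix.GeneralLinearGroup.map (algebraMap ℚ ℂ))
  have hfin : Γ'.relIndex Γ ≠ 0 := by
    refine relIndex_ne_zero hJ1 hJ fun g hg hgJ ↦ ?_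
    rw [Subgroup.mem_comap, hmemS]
    intro f hf
    have h1 : toLin f ∈ J := fun M hM ↦ (hSQ M).mp hM _ (Or.inr ⟨f, hf, rfl⟩)
    have h2 := hgJ _ h1
    rw [evM_toLin, ← evGL_of_det (hdet1 g hg)] at h2
    exact h2
  rw [hmemS]
  intro f hf
  exact hdense Γ' hfin f (fun g hg _ ↦ (hmemS g).mp hg f hf) γ hγ


/-- The linear polynomials which express that a matrix commutes with `z`. -/
noncomputable def comPoly (z : Matrix (Fin r) (Fin r) ℚ) (i k : Fin r) :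
    MvPolynomial (Fin r × Fin r) ℚ :=
  ∑ l, MvPolynomial.X (i, l) * MvPolynomial.C (z l k) -
    ∑ l, MvPolynomial.C (z i l) * MvPolynomial.X (l, k)

theorem evM_comPoly {R : Type*} [CommRing R] [Algebra ℚ R] (z : Matrix (Fin r) (Fin r) ℚ)
    (i k : Fin r) (M : Matrix (Fin r) (Fin r) R) :
    evM M (comPoly z i k) = (M * z.map (algebraMap ℚ R) - z.map (algebraMap ℚ R) * M) i k := by
  rw [comPoly, map_sub, map_sum, map_sum, Matrix.sub_apply, Matrix.mul_apply, Matrix.mul_apply]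
  simp

theorem DenseG.comm_of_lie {Γ : Subgroup (GL (Fin r) ℚ)} (h : DenseG Γ) {z : Matrix (Fin r) (Fin r) ℚ}
    (hz : ∀ x ∈ lieS Γ, x * z = z * x) : ∀ g ∈ Γ, (g : Matrix (Fin r) (Fin r) ℚ) * z = z * g := by
  let zc : Matrix (Fin r) (Fin r) ℂ := z.map (algebraMap ℚ ℂ)
  let S' : Set (Matrix (Fin r) (Fin r) ℂ) := {M | M * zc = zc * M}
  -- the ideal
  let J : Ideal (MvPolynomial (Fin r × Fin r) ℚ) :=
    { carrier := {f | ∀ M ∈ S', evM (R := ℂ) M f = 0}
      add_mem' := by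
        intro f g hf hg M hM
        rw [map_add, hf M hM, hg M hM, add_zero]
      zero_mem' := by intro M _; rw [map_zero]
      smul_mem' := by
        intro c f hf M hM
        rw [smul_eq_mul, map_mul, hf M hM, mul_zero] }
  have hJ : ∀ x ∈ lieS Γ, ∀ f ∈ J, der x f ∈ J := by
    intro x hx f hf M hM
    let X : Matrix (Fin r) (Fin r) ℂ := x.map (algebraMap ℚ ℂ)
    have hXz : X * zc = zc * X := by
      have h1 := congrArg (fun A : Matrix (Fin r) (Fin r) ℚ => A.map (algebraMap ℚ ℂ)) (hz x hx)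
      simp only [Matrix.map_mul] at h1
      exact h1
    have h1 := hasDerivAt_evM M (c := fun θ : ℝ => 1 + (θ : ℂ) • X) (X := X) (by simp) (by
      intro i k
      have h2 : HasDerivAt (fun θ : ℝ => (θ : ℂ)) 1 (0 : ℝ) := by
        have := (hasDerivAt_id (0 : ℝ)).ofReal_comp
        simpa using this
      have h3 := (h2.mul_const (X i k)).const_add ((1 : Matrix (Fin r) (Fin r) ℂ) i k)
      rw [one_mul] at h3
      exact h3) (MvPolynomial.map (algebraMap ℚ ℂ) f)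
    have h2 : (fun θ : ℝ => evM (M * (1 + (θ : ℂ) • X)) (MvPolynomial.map (algebraMap ℚ ℂ) f)) =
        fun _ => (0 : ℂ) := by
      funext θ
      rw [evM_mapAlg]
      refine hf _ ?_
      have hM' : M * zc = zc * M := hM
      change M * (1 + (θ : ℂ) • X) * zc = zc * (M * (1 + (θ : ℂ) • X))
      rw [Matrix.mul_add, Matrix.mul_one, Matrix.add_mul, Matrix.mul_add, hM', Matrix.mul_smul,
        Matrix.smul_mul, Matrix.mul_smul, Matrix.mul_assoc, hXz, ← Matrix.mul_assoc, hM',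
        Matrix.mul_assoc]
    rw [h2] at h1
    have h4 := h1.unique (hasDerivAt_const _ _)
    rw [der_map, evM_mapAlg] at h4
    exact h4
  have hJ1 : ∀ f ∈ J, evM (1 : Matrix (Fin r) (Fin r) ℚ) f = 0 := by
    intro f hf
    have h1 : evM (R := ℂ) (1 : Matrix (Fin r) (Fin r) ℂ) f = 0 := hf 1 (by
      change 1 * zc = zc * 1
      rw [Matrix.one_mul, Matrix.mul_one])
    have h2 : evM (F := ℚ) (1 : Matrix (Fin r) (Fin r) ℂ) f =
        algebraMap ℚ ℂ (evM (1 : Matrix (Fin r) (Fin r) ℚ) f) := by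
      rw [← evM_map, Matrix.map_one _ (map_zero _) (map_one _), evM_mapAlg]
    rw [h2] at h1
    exact (map_eq_zero _).mp h1
  -- the elements which commute with `z`
  let Γ' : Subgroup (GL (Fin r) ℚ) :=
    { carrier := {g | (g : Matrix (Fin r) (Fin r) ℚ) * z = z * g}
      one_mem' := by
        change ((1 : GL (Fin r) ℚ) : Matrix (Fin r) (Fin r) ℚ) * z = z * ((1 : GL (Fin r) ℚ) : _)
        rw [Units.val_one, one_mul, mul_one]
      mul_mem' := by
        intro a b ha hb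
        change ((a * b : GL (Fin r) ℚ) : Matrix (Fin r) (Fin r) ℚ) * z = z * ((a * b : GL (Fin r) ℚ) : _)
        have ha' : (a : Matrix (Fin r) (Fin r) ℚ) * z = z * a := ha
        have hb' : (b : Matrix (Fin r) (Fin r) ℚ) * z = z * b := hb
        rw [Units.val_mul, mul_assoc, hb', ← mul_assoc, ha', mul_assoc]
      inv_mem' := by
        intro a ha
        change ((a⁻¹ : GL (Fin r) ℚ) : Matrix (Fin r) (Fin r) ℚ) * z = z * ((a⁻¹ : GL (Fin r) ℚ) : _)
        have ha' : (a : Matrix (Fin r) (Fin r) ℚ) * z = z * a := ha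
        calc ((a⁻¹ : GL (Fin r) ℚ) : Matrix (Fin r) (Fin r) ℚ) * z
            = ((a⁻¹ : GL (Fin r) ℚ) : Matrix (Fin r) (Fin r) ℚ) * z *
              ((a : Matrix (Fin r) (Fin r) ℚ) * ((a⁻¹ : GL (Fin r) ℚ) : Matrix (Fin r) (Fin r) ℚ)) := by
              rw [Units.mul_inv, mul_one]
          _ = ((a⁻¹ : GL (Fin r) ℚ) : Matrix (Fin r) (Fin r) ℚ) * (z * (a : Matrix (Fin r) (Fin r) ℚ)) *
              ((a⁻¹ : GL (Fin r) ℚ) : Matrix (Fin r) (Fin r) ℚ) := by simp only [mul_assoc]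
          _ = ((a⁻¹ : GL (Fin r) ℚ) : Matrix (Fin r) (Fin r) ℚ) * ((a : Matrix (Fin r) (Fin r) ℚ) * z) *
              ((a⁻¹ : GL (Fin r) ℚ) : Matrix (Fin r) (Fin r) ℚ) := by rw [ha']
          _ = z * ((a⁻¹ : GL (Fin r) ℚ) : Matrix (Fin r) (Fin r) ℚ) := by
              rw [← mul_assoc, Units.inv_mul, one_mul] }
  have hmem : ∀ g : GL (Fin r) ℚ, g ∈ Γ' ↔ (g : Matrix (Fin r) (Fin r) ℚ) * z = z * g := fun _ => Iff.rfl
  have hid : z.map (algebraMap ℚ ℚ) = z := by ext i j; simp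
  have hcom : ∀ g : Matrix (Fin r) (Fin r) ℚ, (∀ i k, evM g (comPoly z i k) = 0) → g * z = z * g := by
    intro g hg
    ext i k
    have h1 := hg i k
    rw [evM_comPoly, hid, Matrix.sub_apply, sub_eq_zero] at h1
    exact h1
  have hfin : Γ'.relIndex Γ ≠ 0 := by
    refine relIndex_ne_zero hJ1 hJ fun g hg hgJ ↦ ?_
    rw [hmem]
    refine hcom _ fun i k => hgJ _ ?_
    intro M hM
    have hM' : M * zc = zc * M := hM
    rw [evM_comPoly]
    change (M * zc - zc * M) i k = 0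
    rw [hM', sub_self, Matrix.zero_apply]
  intro g hg
  refine hcom _ fun i k => ?_
  have h1 := h Γ' hfin (MvPolynomial.rename some (comPoly z i k)) (fun a ha _ => by
    rw [evGL_rename, evM_comPoly, hid, (hmem a).1 ha, sub_self, Matrix.zero_apply]) g hg
  rw [evGL_rename] at h1
  exact h1

end Pool.Agent.Helper79.FX
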