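import Pool.Agent.Helper79.FX.Chain

/-!
# FX-17: there are finitely many branches `w` over a domain

Let `D` be open and connected (not empty). All `b` with `Reach S a b` satisfy `b.w t ^ μ = ∑ f_l(t) b.w t ^ l` on `b.U` with the same polynomials `f_l` (`hw.eqn` on `a.U`; induction on the
chain, identity theorem for analytic functions on connected open sets, as in `Pool.Agent.Helper79.HH.evP_next`).
Suppose `μ + 1` reached elements `b_0, …, b_μ` over `D` have pairwise different `w` (as functions on `D`). The product over `i < k` of the analytic functions `b_i.w - b_k.w`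
is not identically zero on `D` (one factor after the other: a nonzero analytic function on a connected open set is different from zero on a dense open subset: if it vanished on an
open set it would vanish on `D`, `AnalyticOnNhd.eqOn_zero_of_preconnected_of_eventuallyEq_zero`), so at some `t ∈ D` the `μ + 1` numbers `b_i.w t` are different roots of a monic polynomial of degree `μ`:
contradiction. So there are at most `μ` different functions: take a maximal list of pairwise different ones.
-/

namespace Pool.Agent.Helper79.FX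

open Matrix Pool.Agent.Helper79.BB Pool.Agent.Helper79.HH Pool.Agent.Helper79.HJ
  Pool.Agent.Helper64.Per Pool.Agent.Helper79.DD

variable {m r μ : ℕ} {S : MvPolynomial (Fin m) ℂ} {a : Element m (Fin r)} {k : Type} [Field k]
  [Algebra k ℂ]

omit [Field k] [Algebra k ℂ] in
private theorem fw_mul {D : Set (Fin m → ℂ)} (hc : IsPreconnected D) (ho : IsOpen D)
    {g h : (Fin m → ℂ) → ℂ} (hg : AnalyticOnNhd ℂ g D) (hh : AnalyticOnNhd ℂ h D)
    (hgh : ∀ t ∈ D, g t * h t = 0) : (∀ t ∈ D, g t = 0) ∨ ∀ t ∈ D, h t = 0 := by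
  by_cases h1 : ∀ t ∈ D, g t = 0
  · exact Or.inl h1
  · right
    push Not at h1
    obtain ⟨x, hx, hgx⟩ := h1
    have h2 : Set.EqOn h 0 D := by
      refine hh.eqOn_zero_of_preconnected_of_eventuallyEq_zero hc hx ?_
      filter_upwards [(hg x hx).continuousAt.eventually_ne hgx, ho.mem_nhds hx] with t ht htD
      exact (mul_eq_zero.1 (hgh t htD)).resolve_left ht
    exact fun t ht => h2 ht

omit [Field k] [Algebra k ℂ] in
private theorem fw_prod {D : Set (Fin m → ℂ)} (hc : IsPreconnected D) (ho : IsOpen D)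
    (hD : D.Nonempty) {α : Type*} (s : Finset α) (g : α → (Fin m → ℂ) → ℂ)
    (hg : ∀ i ∈ s, AnalyticOnNhd ℂ (g i) D) (h0 : ∀ i ∈ s, ∃ t ∈ D, g i t ≠ 0) :
    ∃ t ∈ D, ∀ i ∈ s, g i t ≠ 0 := by
  classical
  have key : ∀ s' ⊆ s, ∃ t ∈ D, ∏ i ∈ s', g i t ≠ 0 := by
    intro s'
    induction s' using Finset.induction_on with
    | empty =>
      intro _
      obtain ⟨t, ht⟩ := hD
      exact ⟨t, ht, by simp⟩
    | insert i s' hi ih =>
      intro hs
      obtain ⟨t, ht, ht0⟩ := ih ((Finset.subset_insert i s').trans hs)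
      by_contra hno
      push Not at hno
      have his : i ∈ s := hs (Finset.mem_insert_self i s')
      have h1 : AnalyticOnNhd ℂ (fun t => ∏ j ∈ s', g j t) D := by
        have := Finset.analyticOnNhd_fun_prod s' (f := g) (s := D) (𝕜 := ℂ)
          fun j hj => hg j (hs (Finset.mem_insert_of_mem hj))
        exact this
      rcases fw_mul hc ho (hg i his) h1 (fun t ht => by
        have h3 := hno t ht
        rw [Finset.prod_insert hi] at h3
        exact h3) with h2 | h2
      · obtain ⟨x, hx, hx0⟩ := h0 i his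
        exact hx0 (h2 x hx)
      · exact ht0 (h2 t ht)
  obtain ⟨t, ht, ht0⟩ := key s subset_rfl
  exact ⟨t, ht, fun i hi => Finset.prod_ne_zero_iff.1 ht0 i hi⟩

private theorem fw_eqn (ha : a.IsAnalytic) {f : Fin μ → MvPolynomial (Fin m) k}
    (hf : ∀ t ∈ a.U, a.w t ^ μ = ∑ l : Fin μ, MvPolynomial.aeval t (f l) * a.w t ^ (l : ℕ))
    {b : Element m (Fin r)} (h : Reach S a b) : b.IsAnalytic ∧
      ∀ t ∈ b.U, b.w t ^ μ = ∑ l : Fin μ, MvPolynomial.aeval t (f l) * b.w t ^ (l : ℕ) := by
  induction h with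
  | refl => exact ⟨ha, hf⟩
  | @tail b c _ hbc ih =>
    obtain ⟨⟨hb, hc, O, hO, ⟨x, hx⟩, hOb, hOc, heq⟩, -⟩ := hbc
    refine ⟨hc, ?_⟩
    have h1 : AnalyticOnNhd ℂ (fun t => c.w t ^ μ -
        ∑ l : Fin μ, MvPolynomial.aeval t (f l) * c.w t ^ (l : ℕ)) c.U := by
      refine (hc.2.2.1.pow μ).sub ?_
      have := Finset.analyticOnNhd_fun_sum (Finset.univ : Finset (Fin μ)) (s := c.U) (𝕜 := ℂ)
        (f := fun l t => MvPolynomial.aeval t (f l) * c.w t ^ (l : ℕ)) fun l _ => by
          refine AnalyticOnNhd.mul ?_ (hc.2.2.1.pow l)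
          intro z _
          exact AnalyticAt.aeval_mvPolynomial
            (fun i => (ContinuousLinearMap.proj (R := ℂ) (φ := fun _ : Fin m => ℂ) i).analyticAt z)
            (f l)
      exact this
    have h2 : Set.EqOn (fun t => c.w t ^ μ -
        ∑ l : Fin μ, MvPolynomial.aeval t (f l) * c.w t ^ (l : ℕ)) 0 c.U := by
      refine h1.eqOn_zero_of_preconnected_of_eventuallyEq_zero hc.2.1 (hOc hx) ?_
      filter_upwards [hO.mem_nhds hx] with t ht
      change c.w t ^ μ - ∑ l : Fin μ, MvPolynomial.aeval t (f l) * c.w t ^ (l : ℕ) = 0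
      rw [← (heq t ht).1, sub_eq_zero]
      exact ih.2 t (hOb ht)
    exact fun t ht => sub_eq_zero.1 (h2 ht)

private theorem fw_roots (c : Fin μ → ℂ) (z : Fin (μ + 1) → ℂ) (hz : Function.Injective z)
    (h : ∀ i, z i ^ μ = ∑ l : Fin μ, c l * z i ^ (l : ℕ)) : False := by
  classical
  let q : Polynomial ℂ := ∑ l : Fin μ, Polynomial.C (c l) * Polynomial.X ^ (l : ℕ)
  have hq : q.degree < μ := Polynomial.degree_sum_fin_lt c
  have hm : (Polynomial.X ^ μ - q).Monic := Polynomial.monic_X_pow_sub hq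
  have hd : (Polynomial.X ^ μ - q).degree = (μ : WithBot ℕ) := by
    rw [Polynomial.degree_sub_eq_left_of_degree_lt]
    · exact Polynomial.degree_X_pow μ
    · rw [Polynomial.degree_X_pow]
      exact hq
  have hroot : ∀ i, (Polynomial.X ^ μ - q).IsRoot (z i) := by
    intro i
    rw [Polynomial.IsRoot.def, Polynomial.eval_sub, Polynomial.eval_pow, Polynomial.eval_X, h i,
      Polynomial.eval_finsetSum, sub_eq_zero]
    refine Finset.sum_congr rfl fun l _ => ?_
    simp
  have h1 : (Finset.univ.image z).card ≤ (Polynomial.X ^ μ - q).natDegree := by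
    apply Polynomial.card_le_degree_of_subset_roots
    intro x hx
    rw [Finset.mem_val, Finset.mem_image] at hx
    obtain ⟨i, -, rfl⟩ := hx
    exact (Polynomial.mem_roots hm.ne_zero).2 (hroot i)
  rw [Finset.card_image_of_injective _ hz, Finset.card_univ, Fintype.card_fin,
    Polynomial.natDegree_eq_of_degree_eq_some hd] at h1
  omega

theorem finite_w (hne : a.U.Nonempty) (ha : a.IsAnalytic) (hw : IsBranchM k a.U μ a.w)
    {D : Set (Fin m → ℂ)} (hD : D.Nonempty) :
    ∃ (n : ℕ) (f : Fin n → (Fin m → ℂ) → ℂ), ∀ b, Reach S a b → b.U = D →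
      ∃ i, ∀ t ∈ D, b.w t = f i t := by
  classical
  obtain ⟨f, hf⟩ := hw.eqn
  let Q : ℕ → Prop := fun n => ∃ g : Fin n → (Fin m → ℂ) → ℂ,
    (∀ i, ∃ b, Reach S a b ∧ b.U = D ∧ g i = b.w) ∧ ∀ i j, i ≠ j → ∃ t ∈ D, g i t ≠ g j t
  have hQ0 : Q 0 := ⟨fun i => i.elim0, fun i => i.elim0, fun i => i.elim0⟩
  have hQ1 : ¬ Q (μ + 1) := by
    rintro ⟨g, hg, hne⟩
    choose b hb hbU hgb using hg
    have hDo : IsOpen D := by
      rw [← hbU 0]
      exact (fw_eqn ha hf (hb 0)).1.1
    have hDc : IsPreconnected D := by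
      rw [← hbU 0]
      exact (fw_eqn ha hf (hb 0)).1.2.1
    have han : ∀ i, AnalyticOnNhd ℂ (g i) D := by
      intro i
      rw [hgb, ← hbU i]
      exact (fw_eqn ha hf (hb i)).1.2.2.1
    obtain ⟨t, ht, ht0⟩ := fw_prod hDc hDo hD (Finset.univ : Finset (Fin (μ + 1))).offDiag
      (fun p t => g p.1 t - g p.2 t) (fun p _ => (han p.1).sub (han p.2)) (fun p hp => by
        obtain ⟨t, ht, ht0⟩ := hne p.1 p.2 (Finset.mem_offDiag.1 hp).2.2
        exact ⟨t, ht, sub_ne_zero.2 ht0⟩)
    refine fw_roots (fun l => MvPolynomial.aeval t (f l)) (fun i => g i t) ?_ ?_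
    · intro i j hij
      by_contra hne'
      exact ht0 (i, j) (Finset.mem_offDiag.2 ⟨Finset.mem_univ _, Finset.mem_univ _, hne'⟩)
        (sub_eq_zero.2 hij)
    · intro i
      have := (fw_eqn ha hf (hb i)).2 t (by rw [hbU i]; exact ht)
      simp only [hgb]
      exact this
  have hex : ∃ n, Q n ∧ ¬ Q (n + 1) := by
    by_contra hno
    push Not at hno
    have : ∀ n, Q n := fun n => by
      induction n with
      | zero => exact hQ0
      | succ n ih => exact hno n ih
    exact hQ1 (this _)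
  obtain ⟨n, ⟨g, hg, hne⟩, hn⟩ := hex
  refine ⟨n, g, fun b hb hbD => ?_⟩
  by_contra hno
  push Not at hno
  apply hn
  refine ⟨Fin.cons b.w g, ?_, ?_⟩
  · intro i
    refine Fin.cases ?_ (fun i => ?_) i
    · exact ⟨b, hb, hbD, rfl⟩
    · exact hg i
  · intro i j
    refine Fin.cases ?_ (fun i => ?_) i
    · refine Fin.cases ?_ (fun j => ?_) j
      · exact fun h => absurd rfl h
      · intro _
        exact hno j
    · refine Fin.cases ?_ (fun j => ?_) j
      · intro _
        obtain ⟨t, ht, ht0⟩ := hno i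
        exact ⟨t, ht, Ne.symm ht0⟩
      · intro hij
        exact hne i j fun h => hij (congrArg Fin.succ h)

end Pool.Agent.Helper79.FX
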