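import Pool.Agent.Helper79.FX.PolyStab
import Pool.Agent.Helper79.HI.Defs

/-!
# FX-24: the lattice of integral tensors of `WW`

`L = {x : TP → ℤ | (x : TP → ℚ) ∈ WW n (qp Γ)}` is a submodule of `ℤ^TP`, so it has a finite basis (`Submodule.basisOfPid`); `B` has the basis vectors as columns. The columns are linearly independent over `ℤ`, so over `ℚ` (clear
denominators) and over `ℂ` (a rational matrix with injective `mulVec` has a left inverse, or a nonzero minor). Every `v ∈ WW` has a multiple in `L`, so `v = B c` with rational `c`. For `γ ∈ Γ` `RR n γ` is an integral matrix (`RR_map`) which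
preserves `L` (`WW_stable`), so `RR n γ * B = B * β` with `β` integral; for `γ⁻¹` `RR n γ⁻¹ * B = B * β'`, and `B = B * β * β'`, so `β β' = 1` (the columns of `B` are independent): `IsUnit β.det`.
-/

namespace Pool.Agent.Helper79.FX

open Matrix Pool.Agent.Helper88.MT Pool.Agent.Helper79.HI

variable {r : ℕ}

private theorem lat_clear {κ : Type} [Finite κ] (v : κ → ℚ) :
    ∃ (N : ℤ) (x : κ → ℤ), N ≠ 0 ∧ ∀ i, ((x i : ℤ) : ℚ) = (N : ℚ) * v i := by
  obtain ⟨b, hb⟩ := IsLocalization.exist_integer_multiples_of_finite (nonZeroDivisors ℤ) v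
  choose x hx using hb
  refine ⟨(b : ℤ), x, nonZeroDivisors.coe_ne_zero b, fun i => ?_⟩
  have h := hx i
  rw [zsmul_eq_mul] at h
  simpa using h

private theorem lat_general {T : Type} [Fintype T] [DecidableEq T] (W : Submodule ℚ (T → ℚ)) :
    ∃ (d : ℕ) (B : Matrix T (Fin d) ℤ),
      (∀ v : Fin d → ℚ, B.map (Int.cast : ℤ → ℚ) *ᵥ v = 0 → v = 0) ∧
      (∀ i, (fun I => ((B I i : ℤ) : ℚ)) ∈ W) ∧
      (∀ v ∈ W, ∃ c : Fin d → ℚ, v = B.map (Int.cast : ℤ → ℚ) *ᵥ c) ∧
      (∀ x : T → ℤ, (fun I => ((x I : ℤ) : ℚ)) ∈ W → ∃ b : Fin d → ℤ, x = B *ᵥ b) := by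
  let φ : (T → ℤ) →ₗ[ℤ] (T → ℚ) :=
    { toFun := fun x I => ((x I : ℤ) : ℚ)
      map_add' := fun x y => by
        funext I
        simp
      map_smul' := fun a x => by
        funext I
        simp }
  let L : Submodule ℤ (T → ℤ) := (W.restrictScalars ℤ).comap φ
  have hL : ∀ x : T → ℤ, x ∈ L ↔ (fun I => ((x I : ℤ) : ℚ)) ∈ W := fun x => Iff.rfl
  obtain ⟨d, bs⟩ := Submodule.basisOfPid (Pi.basisFun ℤ T) L
  have hrep : ∀ x : T → ℤ, (fun I => ((x I : ℤ) : ℚ)) ∈ W → ∃ b : Fin d → ℤ,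
      x = (Matrix.of fun I i => (bs i : T → ℤ) I) *ᵥ b := by
    intro x hx
    have hx' : x ∈ L := (hL x).2 hx
    refine ⟨fun i => bs.repr ⟨x, hx'⟩ i, ?_⟩
    have h := bs.sum_repr ⟨x, hx'⟩
    have h2 := congrArg (Subtype.val) h
    funext I
    have h3 := congrFun h2 I
    simp only [Submodule.coe_sum, Submodule.coe_smul, Finset.sum_apply, Pi.smul_apply,
      smul_eq_mul] at h3
    rw [← h3]
    simp only [Matrix.mulVec, dotProduct, Matrix.of_apply]
    exact Finset.sum_congr rfl fun i _ => mul_comm _ _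
  refine ⟨d, Matrix.of fun I i => (bs i : T → ℤ) I, ?_, ?_, ?_, hrep⟩
  · intro v hv
    obtain ⟨N, x, hN, hx⟩ := lat_clear v
    have h0 : ∑ i, x i • bs i = 0 := by
      apply Subtype.ext
      funext I
      simp only [Submodule.coe_sum, Submodule.coe_smul, Finset.sum_apply, Pi.smul_apply,
        smul_eq_mul, Submodule.coe_zero, Pi.zero_apply]
      have h1 := congrFun hv I
      simp only [Matrix.mulVec, dotProduct, Matrix.map_apply, Matrix.of_apply, Pi.zero_apply] at h1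
      have h2 : ((∑ i, x i * (bs i : T → ℤ) I : ℤ) : ℚ) = 0 := by
        push_cast
        have : ∑ i, ((x i : ℤ) : ℚ) * (((bs i : T → ℤ) I : ℤ) : ℚ) =
            (N : ℚ) * ∑ i, (((bs i : T → ℤ) I : ℤ) : ℚ) * v i := by
          rw [Finset.mul_sum]
          refine Finset.sum_congr rfl fun i _ => ?_
          rw [hx i]
          ring
        rw [this, h1, mul_zero]
      exact_mod_cast h2
    have h4 := (Fintype.linearIndependent_iff.1 bs.linearIndependent) x h0
    funext i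
    have h5 := hx i
    rw [h4 i] at h5
    have hNq : (N : ℚ) ≠ 0 := by exact_mod_cast hN
    have : (N : ℚ) * v i = 0 := by
      rw [← h5]
      simp
    exact (mul_eq_zero.1 this).resolve_left hNq
  · intro i
    exact (hL _).1 (bs i).2
  · intro v hv
    obtain ⟨N, x, hN, hx⟩ := lat_clear v
    have hNq : (N : ℚ) ≠ 0 := by exact_mod_cast hN
    have hxW : (fun I => ((x I : ℤ) : ℚ)) ∈ W := by
      have : (fun I => ((x I : ℤ) : ℚ)) = (N : ℚ) • v := by
        funext I
        simp [hx I]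
      rw [this]
      exact W.smul_mem _ hv
    obtain ⟨b, hb⟩ := hrep x hxW
    refine ⟨fun i => (b i : ℚ) / N, ?_⟩
    funext I
    have h1 : ((x I : ℤ) : ℚ) = ∑ i, (((bs i : T → ℤ) I : ℤ) : ℚ) * (b i : ℚ) := by
      have := congrFun hb I
      rw [this]
      simp [Matrix.mulVec, dotProduct]
    have h2 : v I = ((x I : ℤ) : ℚ) / N := by
      rw [hx I]
      field_simp
    rw [h2, h1, Finset.sum_div]
    simp only [Matrix.mulVec, dotProduct, Matrix.map_apply, Matrix.of_apply]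
    exact Finset.sum_congr rfl fun i _ => mul_div_assoc _ _ _

private theorem lat_leftInv {T : Type} [Fintype T] [DecidableEq T] {d : ℕ} (B : Matrix T (Fin d) ℚ)
    (h : ∀ v : Fin d → ℚ, B *ᵥ v = 0 → v = 0) : ∃ C : Matrix (Fin d) T ℚ, C * B = 1 := by
  have hinj : LinearMap.ker (Matrix.mulVecLin B) = ⊥ := by
    rw [LinearMap.ker_eq_bot']
    intro v hv
    exact h v hv
  obtain ⟨g, hg⟩ := LinearMap.exists_leftInverse_of_injective (Matrix.mulVecLin B) hinj
  refine ⟨LinearMap.toMatrix' g, ?_⟩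
  have h1 : LinearMap.toMatrix' (g.comp (Matrix.mulVecLin B)) = 1 := by
    rw [hg]
    exact LinearMap.toMatrix'_id
  rw [LinearMap.toMatrix'_comp] at h1
  have h2 : LinearMap.toMatrix' (Matrix.mulVecLin B) = B := LinearMap.toMatrix'_toLin' B
  rwa [h2] at h1

theorem exists_lattice_basis (n : ℕ) (Γ : Subgroup (GL (Fin r) ℤ)) :
    ∃ (d : ℕ) (B : Matrix (TP (X2 r) n) (Fin d) ℤ),
      (∀ v : Fin d → ℂ, B.map (Int.cast : ℤ → ℂ) *ᵥ v = 0 → v = 0) ∧
      (∀ i, (fun I => ((B I i : ℤ) : ℚ)) ∈ WW n (qp Γ)) ∧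
      (∀ v ∈ WW n (qp Γ), ∃ c : Fin d → ℚ, v = B.map (Int.cast : ℤ → ℚ) *ᵥ c) ∧
      ∀ γ ∈ Γ, ∃ β : Matrix (Fin d) (Fin d) ℤ,
        RR n (γ : Matrix (Fin r) (Fin r) ℤ) * B = B * β ∧ IsUnit β.det := by
  obtain ⟨d, B, h1, h2, h3, h4⟩ := lat_general (WW n (qp Γ))
  obtain ⟨C, hC⟩ := lat_leftInv (B.map (Int.cast : ℤ → ℚ)) h1
  -- cancellation
  have hcanc : ∀ M : Matrix (Fin d) (Fin d) ℤ, B * M = B → M = 1 := by
    intro M hM
    have hMq : B.map (Int.cast : ℤ → ℚ) * M.map (Int.cast : ℤ → ℚ) = B.map (Int.cast : ℤ → ℚ) := by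
      have h5 : (B * M).map (Int.castRingHom ℚ) = B.map (Int.castRingHom ℚ) := by rw [hM]
      rw [Matrix.map_mul] at h5
      exact h5
    have h5 : M.map (Int.cast : ℤ → ℚ) = 1 := by
      calc M.map (Int.cast : ℤ → ℚ) = (C * B.map (Int.cast : ℤ → ℚ)) * M.map (Int.cast : ℤ → ℚ) := by
            rw [hC, Matrix.one_mul]
        _ = 1 := by rw [Matrix.mul_assoc, hMq, hC]
    ext i j
    have h6 := congrFun (congrFun h5 i) j
    rw [Matrix.map_apply] at h6
    rcases eq_or_ne i j with hij | hij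
    · subst hij
      rw [Matrix.one_apply_eq] at h6 ⊢
      exact_mod_cast h6
    · rw [Matrix.one_apply_ne hij] at h6 ⊢
      exact_mod_cast h6
  -- the action
  have hact : ∀ γ ∈ Γ, ∃ β : Matrix (Fin d) (Fin d) ℤ,
      RR n (γ : Matrix (Fin r) (Fin r) ℤ) * B = B * β := by
    intro γ hγ
    have hcol : ∀ i, ∃ b : Fin d → ℤ,
        RR n (γ : Matrix (Fin r) (Fin r) ℤ) *ᵥ (fun I => B I i) = B *ᵥ b := by
      intro i
      apply h4
      have hq : Matrix.GeneralLinearGroup.map (Int.castRingHom ℚ) γ ∈ qp Γ :=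
        Subgroup.mem_map_of_mem _ hγ
      have h7 := WW_stable (n := n) hq (h2 i)
      have h8 : RR n ((Matrix.GeneralLinearGroup.map (Int.castRingHom ℚ) γ : GL (Fin r) ℚ) :
          Matrix (Fin r) (Fin r) ℚ) = (RR n (γ : Matrix (Fin r) (Fin r) ℤ)).map
            (Int.castRingHom ℚ) := by
        rw [← RR_map]
        rfl
      rw [h8] at h7
      convert h7 using 1
      funext I
      simp [Matrix.mulVec, dotProduct]
    choose b hb using hcol
    refine ⟨Matrix.of fun j i => b i j, ?_⟩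
    ext I i
    have := congrFun (hb i) I
    simpa [Matrix.mulVec, dotProduct, Matrix.mul_apply] using this
  refine ⟨d, B, ?_, h2, h3, ?_⟩
  · intro v hv
    have hCc : C.map (algebraMap ℚ ℂ) * B.map (Int.cast : ℤ → ℂ) = 1 := by
      have h9 := congrArg (fun A : Matrix (Fin d) (Fin d) ℚ => A.map (algebraMap ℚ ℂ)) hC
      simp only [Matrix.map_mul] at h9
      have h10 : (B.map (Int.cast : ℤ → ℚ)).map (algebraMap ℚ ℂ) = B.map (Int.cast : ℤ → ℂ) := by
        ext I i
        simp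
      rw [h10] at h9
      rw [h9]
      ext i j
      rcases eq_or_ne i j with hij | hij
      · subst hij
        simp
      · simp [Matrix.one_apply_ne hij]
    calc v = (1 : Matrix (Fin d) (Fin d) ℂ) *ᵥ v := (Matrix.one_mulVec v).symm
      _ = C.map (algebraMap ℚ ℂ) *ᵥ (B.map (Int.cast : ℤ → ℂ) *ᵥ v) := by
          rw [← hCc, Matrix.mulVec_mulVec]
      _ = 0 := by rw [hv, Matrix.mulVec_zero]
  · intro γ hγ
    obtain ⟨β, hβ⟩ := hact γ hγ
    obtain ⟨β', hβ'⟩ := hact γ⁻¹ (Γ.inv_mem hγ)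
    refine ⟨β, hβ, ?_⟩
    have h11 : β * β' = 1 := by
      apply hcanc
      calc B * (β * β') = (B * β) * β' := (Matrix.mul_assoc _ _ _).symm
        _ = RR n (γ : Matrix (Fin r) (Fin r) ℤ) * (B * β') := by
            rw [← hβ, Matrix.mul_assoc]
        _ = (RR n (γ : Matrix (Fin r) (Fin r) ℤ) * RR n ((γ⁻¹ : GL (Fin r) ℤ) :
              Matrix (Fin r) (Fin r) ℤ)) * B := by
            rw [← hβ', Matrix.mul_assoc]
        _ = B := by
            rw [← RR_mul, ← Units.val_mul, mul_inv_cancel, Units.val_one, RR_one, Matrix.one_mul]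
    exact (Matrix.isUnit_iff_isUnit_det β).1 (IsUnit.of_mul_eq_one β' h11)

end Pool.Agent.Helper79.FX
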