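import Pool.Agent.Helper79.FX.Cst
import Pool.Agent.Helper79.FX.Lattice
import Pool.Agent.Helper79.HI.PointB

/-!
# FX-25: the theorem of the fixed part

`n` from `exists_deg` for `qp Γ`, `d`, `B` from `exists_lattice_basis`; `Bc = B.map Int.cast`. Hypotheses of `exists_proj`: `hB`; `hBΓ`: map `RR n γ * B = B * β` to `ℂ` (`RR_map`), `|det β| = 1` as `IsUnit` in `ℤ`. Let `Pi` be as there, and
`A` for `u`. With `R = RR n (Em u (b.P t))`, `R₁ = RR n (Em u (c.P t₁))`: `R Pi R⁻¹ = A = R₁ Pi R₁⁻¹`, so `R⁻¹ R₁` commutes with `Pi`, and `R⁻¹ R₁ = RR n (g⁻¹ g₁)` (`RR_mul`, `RR_inv`). `Pi = PiM B ..` is the identity on the columns of `Bc` (`PiM_B`) and its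
image is in the span of the columns of `Bc` (`PiM = Bc * ..`). For `v ∈ WW`: `v = B c`, `RR n (g⁻¹ g₁) v = RR n (g⁻¹ g₁) Pi v = Pi (RR n (g⁻¹ g₁) v)` is in the span of the columns of `Bc`, which are in `WW`. So `exists_deg` applies to `g⁻¹ * g₁`.
`normal`: `c = rmul b (zc γ)` (`reach_rmul`), `t₁ = t`: `Em u (b.P t * zc γ) = (zc γ)⁻¹ Em u (b.P t) (zc γ)` (`Em_mul_right`), so `g₁ = γ⁻¹ g γ` and `g⁻¹ γ⁻¹ g γ ∈ zar`; `zar` is a group (`zarG`) which contains the image of `γ` (`map_mem_zar`): `g⁻¹ γ⁻¹ g ∈ zar`, and its inverse.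
-/

namespace Pool.Agent.Helper79.FX

open Matrix Pool.Agent.Helper79.BB Pool.Agent.Helper79.HH Pool.Agent.Helper79.HJ Pool.Agent.Helper79.HI
  Pool.Agent.Helper64.Per Pool.Agent.Helper79.DD

variable {m r μ : ℕ} {S : MvPolynomial (Fin m) ℂ} {a : Element m (Fin r)} {lev : Fin r → ℤ} {j : ℤ}
  {ψ : Matrix (Fin r) (Fin r) ℚ} {k : Type} [Field k] [Algebra k ℂ]

private theorem mulVec_mem_span {K : Type} [Fintype K] {d : ℕ} {W : Set (K → ℚ)}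
    (B : Matrix K (Fin d) ℤ) (hB : ∀ i, (fun I => ((B I i : ℤ) : ℚ)) ∈ W) (y : Fin d → ℂ) :
    B.map (Int.cast : ℤ → ℂ) *ᵥ y ∈
      Submodule.span ℂ ((fun (v : K → ℚ) i => ((v i : ℚ) : ℂ)) '' W) := by
  have h1 : B.map (Int.cast : ℤ → ℂ) *ᵥ y =
      ∑ i, y i • (fun I => (((B I i : ℤ) : ℚ) : ℂ)) := by
    funext I
    rw [Matrix.mulVec, dotProduct, Finset.sum_apply]
    refine Finset.sum_congr rfl fun i _ => ?_
    rw [Pi.smul_apply, smul_eq_mul, Matrix.map_apply, mul_comm]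
    push_cast
    rfl
  rw [h1]
  refine Submodule.sum_mem _ fun i _ => Submodule.smul_mem _ _ (Submodule.subset_span ?_)
  exact ⟨_, hB i, rfl⟩

/-- The theorem of the fixed part. -/
theorem fixed_part (h : IsVHS S a lev j ψ) (hne : a.U.Nonempty) (hw : IsBranchM k a.U μ a.w)
    {Γ : Subgroup (GL (Fin r) ℤ)} (hΓ : Γ ≤ MM S a ψ h.dom) (hfin : Γ.relIndex (MM S a ψ h.dom) ≠ 0)
    (hdet : ∀ γ ∈ qp Γ, (γ : Matrix (Fin r) (Fin r) ℚ).det = 1) {b c : Element m (Fin r)}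
    (hb : Reach S a b) (hc : Reach S a c) {t t₁ : Fin m → ℂ} (ht : t ∈ b.U) (ht₁ : t₁ ∈ c.U) {u : ℂ}
    (hu : u ≠ 0) {g g₁ : GL (Fin r) ℂ} (hg : (g : Matrix (Fin r) (Fin r) ℂ) = Em lev j ψ u (b.P t))
    (hg₁ : (g₁ : Matrix (Fin r) (Fin r) ℂ) = Em lev j ψ u (c.P t₁)) :
    g⁻¹ * g₁ ∈ zar ℂ (qp Γ : Set (GL (Fin r) ℚ)) := by
  obtain ⟨n, hn⟩ := exists_deg hdet
  obtain ⟨d, B, hB, hBW, hWB, hBΓ⟩ := exists_lattice_basis n Γ
  have hBΓ' : ∀ γ ∈ Γ, ∃ β : Matrix (Fin d) (Fin d) ℂ,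
      RR n (zc (γ : Matrix (Fin r) (Fin r) ℤ)) * B.map (Int.cast : ℤ → ℂ) =
        B.map (Int.cast : ℤ → ℂ) * β ∧ ‖β.det‖ = 1 := by
    intro γ hγ
    obtain ⟨β, h1, h2⟩ := hBΓ γ hγ
    refine ⟨β.map (Int.castRingHom ℂ), ?_, ?_⟩
    · have e1 : RR n (zc (γ : Matrix (Fin r) (Fin r) ℤ)) =
          (RR n (γ : Matrix (Fin r) (Fin r) ℤ)).map (Int.castRingHom ℂ) :=
        RR_map (Int.castRingHom ℂ) n _
      have e2 : B.map (Int.cast : ℤ → ℂ) = B.map (Int.castRingHom ℂ) := rfl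
      rw [e1, e2, ← Matrix.map_mul, ← Matrix.map_mul, h1]
    · have e3 : (β.map (Int.castRingHom ℂ)).det = (Int.castRingHom ℂ) β.det :=
        (RingHom.map_det (Int.castRingHom ℂ) β).symm
      rw [e3]
      rcases Int.isUnit_iff.1 h2 with h3 | h3 <;> rw [h3] <;> simp
  obtain ⟨Pi, hPi, hA⟩ := exists_proj h hne hw hΓ hfin hB hBΓ'
  obtain ⟨A, hA⟩ := hA u hu
  have hR := hA b hb t ht
  have hR₁ := hA c hc t₁ ht₁
  have hdb : IsUnit (Em lev j ψ u (b.P t)).det := by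
    rw [Em_det (h.pol b hb t ht) (h.det b hb t ht) hu]
    exact isUnit_one
  have hdc : IsUnit (Em lev j ψ u (c.P t₁)).det := by
    rw [Em_det (h.pol c hc t₁ ht₁) (h.det c hc t₁ ht₁) hu]
    exact isUnit_one
  have hub : IsUnit (RR n (Em lev j ψ u (b.P t))).det := RR_det n hdb
  have huc : IsUnit (RR n (Em lev j ψ u (c.P t₁))).det := RR_det n hdc
  have hT : RR n ((g⁻¹ * g₁ : GL (Fin r) ℂ) : Matrix (Fin r) (Fin r) ℂ) =
      (RR n (Em lev j ψ u (b.P t)))⁻¹ * RR n (Em lev j ψ u (c.P t₁)) := by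
    rw [Units.val_mul, Matrix.coe_units_inv, hg, hg₁, RR_mul, RR_inv n hdb]
  have hcomm : RR n ((g⁻¹ * g₁ : GL (Fin r) ℂ) : Matrix (Fin r) (Fin r) ℂ) * Pi =
      Pi * RR n ((g⁻¹ * g₁ : GL (Fin r) ℂ) : Matrix (Fin r) (Fin r) ℂ) := by
    rw [hT]
    generalize RR n (Em lev j ψ u (b.P t)) = R at hR hub ⊢
    generalize RR n (Em lev j ψ u (c.P t₁)) = R₁ at hR₁ huc ⊢
    have e1 : R₁ * Pi = A * R₁ := by
      rw [← hR₁, Matrix.mul_assoc, Matrix.nonsing_inv_mul _ huc, Matrix.mul_one]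
    have e2 : R⁻¹ * A = Pi * R⁻¹ := by
      rw [← hR, Matrix.mul_assoc R, ← Matrix.mul_assoc, Matrix.nonsing_inv_mul _ hub,
        Matrix.one_mul]
    rw [Matrix.mul_assoc, e1, ← Matrix.mul_assoc, e2, Matrix.mul_assoc]
  have hPiB : Pi * B.map (Int.cast : ℤ → ℂ) = B.map (Int.cast : ℤ → ℂ) := by
    rw [← hPi b hb t ht]
    exact PiM_B hB (posDef_RR n (Hm_pos (h.pol b hb t ht) (h.det b hb t ht)))
  refine hn (g⁻¹ * g₁) fun v hv => ?_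
  obtain ⟨x, hx⟩ := hWB v hv
  have hvx : (fun i => ((v i : ℚ) : ℂ)) = B.map (Int.cast : ℤ → ℂ) *ᵥ fun i => ((x i : ℚ) : ℂ) := by
    funext I
    rw [hx, Matrix.mulVec, Matrix.mulVec, dotProduct, dotProduct]
    push_cast
    refine Finset.sum_congr rfl fun i _ => ?_
    simp [Matrix.map_apply]
  have hfin' : RR n ((g⁻¹ * g₁ : GL (Fin r) ℂ) : Matrix (Fin r) (Fin r) ℂ) *ᵥ
      (fun i => ((v i : ℚ) : ℂ)) = B.map (Int.cast : ℤ → ℂ) *ᵥ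
        (((((B.map (Int.cast : ℤ → ℂ))ᴴ * RR n (Hm lev j ψ (b.P t)) * B.map (Int.cast : ℤ → ℂ))⁻¹ *
          (B.map (Int.cast : ℤ → ℂ))ᴴ * RR n (Hm lev j ψ (b.P t))) *
          RR n ((g⁻¹ * g₁ : GL (Fin r) ℂ) : Matrix (Fin r) (Fin r) ℂ) *
            B.map (Int.cast : ℤ → ℂ)) *ᵥ fun i => ((x i : ℚ) : ℂ)) := by
    rw [hvx, Matrix.mulVec_mulVec, Matrix.mulVec_mulVec]
    congr 1
    calc RR n ((g⁻¹ * g₁ : GL (Fin r) ℂ) : Matrix (Fin r) (Fin r) ℂ) * B.map (Int.cast : ℤ → ℂ)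
        = RR n ((g⁻¹ * g₁ : GL (Fin r) ℂ) : Matrix (Fin r) (Fin r) ℂ) *
            (Pi * B.map (Int.cast : ℤ → ℂ)) := by rw [hPiB]
      _ = Pi * RR n ((g⁻¹ * g₁ : GL (Fin r) ℂ) : Matrix (Fin r) (Fin r) ℂ) *
            B.map (Int.cast : ℤ → ℂ) := by rw [← Matrix.mul_assoc, hcomm]
      _ = _ := by
        rw [← hPi b hb t ht, PiM]
        simp only [Matrix.mul_assoc]
  rw [hfin']
  exact mulVec_mem_span B hBW _

/-- The Hodge circles normalise the closure of the monodromy group. -/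
theorem normal (h : IsVHS S a lev j ψ) (hne : a.U.Nonempty) (hw : IsBranchM k a.U μ a.w)
    {Γ : Subgroup (GL (Fin r) ℤ)} (hΓ : Γ ≤ MM S a ψ h.dom) (hfin : Γ.relIndex (MM S a ψ h.dom) ≠ 0)
    (hdet : ∀ γ ∈ qp Γ, (γ : Matrix (Fin r) (Fin r) ℚ).det = 1) {b : Element m (Fin r)}
    (hb : Reach S a b) {t : Fin m → ℂ} (ht : t ∈ b.U) {u : ℂ}
    (hu : u ≠ 0) {g : GL (Fin r) ℂ} (hg : (g : Matrix (Fin r) (Fin r) ℂ) = Em lev j ψ u (b.P t)) :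
    ∀ γ ∈ qp Γ, g⁻¹ * Matrix.GeneralLinearGroup.map (algebraMap ℚ ℂ) γ * g ∈
      zar ℂ (qp Γ : Set (GL (Fin r) ℚ)) := by
  intro γ' hγ'
  have hγz := map_mem_zar (R := ℂ) (S := (qp Γ : Set (GL (Fin r) ℚ))) hγ'
  obtain ⟨γ, hγ, rfl⟩ := hγ'
  have hM : γ ∈ MM S a ψ h.dom := hΓ hγ
  have hreach := reach_rmul h.dom hM hb
  set γC : GL (Fin r) ℂ := Matrix.GeneralLinearGroup.map (algebraMap ℚ ℂ)
    (Matrix.GeneralLinearGroup.map (Int.castRingHom ℚ) γ) with hγC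
  have hcoe : (γC : Matrix (Fin r) (Fin r) ℂ) = zc (γ : Matrix (Fin r) (Fin r) ℤ) := by
    ext x y
    change (algebraMap ℚ ℂ) ((Int.castRingHom ℚ) ((γ : Matrix (Fin r) (Fin r) ℤ) x y)) =
      (((γ : Matrix (Fin r) (Fin r) ℤ) x y : ℤ) : ℂ)
    simp
  have hγu : IsUnit (γ : Matrix (Fin r) (Fin r) ℤ).det :=
    (Matrix.isUnit_iff_isUnit_det _).1 γ.isUnit
  have hiso : (zc (γ : Matrix (Fin r) (Fin r) ℤ))ᵀ * qc ψ * zc (γ : Matrix (Fin r) (Fin r) ℤ) =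
      qc ψ := hM.1
  have hg₁ : ((γC⁻¹ * g * γC : GL (Fin r) ℂ) : Matrix (Fin r) (Fin r) ℂ) =
      Em lev j ψ u ((rmul b (zc (γ : Matrix (Fin r) (Fin r) ℤ))).P t) := by
    rw [Units.val_mul, Units.val_mul, Matrix.coe_units_inv, hcoe, hg]
    exact (Em_mul_right (h.pol b hb t ht) (h.det b hb t ht) hγu hiso u).symm
  have h1 : g⁻¹ * (γC⁻¹ * g * γC) ∈ zarG ℂ (qp Γ) :=
    fixed_part h hne hw hΓ hfin hdet hb hreach ht (t₁ := t) ht hu hg hg₁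
  have h2 : γC ∈ zarG ℂ (qp Γ) := hγz
  have h3 := (zarG ℂ (qp Γ)).inv_mem ((zarG ℂ (qp Γ)).mul_mem h1 ((zarG ℂ (qp Γ)).inv_mem h2))
  have h4 : (g⁻¹ * (γC⁻¹ * g * γC) * γC⁻¹)⁻¹ = g⁻¹ * γC * g := by group
  rw [h4] at h3
  exact h3

end Pool.Agent.Helper79.FX
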