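import Pool.Agent.Helper79.FX.LineBr

/-!
# FX-21: one branch of the Gram determinant is constant on an open set

`MU t` = the supremum of `lg B (RR n (Hm lev j ψ (b.P t)))` over the reached `b` with `t ∈ b.U`. `MU (t₀ + s • v) = Mu (Fam .. t₀ v) s` (the sets are the same).
* For `t, t'` with `S ≠ 0`: `t₀ = t`, `v = t' - t`. The set of `s` with `S (t₀ + s v) = 0` is finite (the zeros of a nonzero polynomial in one variable; its value at `0` is not zero), `br_line`, `Br.const`: `MU t = MU t'`. So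
  `MU = c` on `S ≠ 0`.
* Let `D` be a ball about a point of `a.U` in `a.U`, `G` as in `finite_branches`. For `t ∈ D` every value is one of the values of `e ∈ G` at `t` (as in `br_line`, `fin`), the supremum is attained (`Br.Mu_eq`), so
  `c = lg .. (e.P t)` for some `e ∈ G`. The sets `{t ∈ D | lg .. (e.P t) = c}`, `e ∈ G`, are closed in `D` (continuity: `rat_Hm`, `rat_RR`, `analyticAt_det`, positive determinant) and cover `D`: one of them has interior points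
  (finite union; induction, or: a finite union of closed nowhere dense sets is nowhere dense).
-/

namespace Pool.Agent.Helper79.FX

open Matrix Pool.Agent.Helper79.BB Pool.Agent.Helper79.HH Pool.Agent.Helper79.HJ
  Pool.Agent.Helper64.Per Pool.Agent.Helper79.DD

variable {m r μ : ℕ} {S : MvPolynomial (Fin m) ℂ} {a : Element m (Fin r)} {lev : Fin r → ℤ} {j : ℤ}
  {ψ : Matrix (Fin r) (Fin r) ℚ} {k : Type} [Field k] [Algebra k ℂ]

/-- The values of the Gram determinant at `t`. -/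
private def glVS (S : MvPolynomial (Fin m) ℂ) (a : Element m (Fin r)) (lev : Fin r → ℤ) (j : ℤ)
    (ψ : Matrix (Fin r) (Fin r) ℚ) (n : ℕ) {d : ℕ} (B : Matrix (TP (X2 r) n) (Fin d) ℂ)
    (t : Fin m → ℂ) : Set ℝ :=
  {y | ∃ b, Reach S a b ∧ t ∈ b.U ∧ y = lg B (RR n (Hm lev j ψ (b.P t)))}

private theorem gl_Mu {n d : ℕ} (B : Matrix (TP (X2 r) n) (Fin d) ℂ) (t₀ v : Fin m → ℂ) (s : ℂ) :
    Mu (Fam S a lev j ψ n B t₀ v) s = sSup (glVS S a lev j ψ n B (t₀ + s • v)) := by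
  unfold Mu
  congr 1
  ext y
  constructor
  · rintro ⟨e, ⟨b, hb, rfl⟩, hs, rfl⟩
    exact ⟨b, hb, hs, rfl⟩
  · rintro ⟨b, hb, hs, rfl⟩
    exact ⟨_, ⟨b, hb, rfl⟩, hs, rfl⟩

private theorem gl_roots (S : MvPolynomial (Fin m) ℂ) (t₀ v : Fin m → ℂ)
    (h0 : MvPolynomial.eval t₀ S ≠ 0) :
    ∃ Sg : Finset ℂ, {s : ℂ | MvPolynomial.eval (t₀ + s • v) S ≠ 0} = {s : ℂ | s ∉ Sg} := by
  let p : Polynomial ℂ := MvPolynomial.aeval
    (fun i => Polynomial.C (t₀ i) + Polynomial.X * Polynomial.C (v i)) S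
  have hp : ∀ s : ℂ, Polynomial.eval s p = MvPolynomial.eval (t₀ + s • v) S := by
    intro s
    have h1 : Polynomial.eval s p = (Polynomial.evalRingHom s) p := rfl
    rw [h1]
    show (Polynomial.evalRingHom s) (MvPolynomial.aeval _ S) = _
    rw [MvPolynomial.aeval_def, MvPolynomial.hom_eval₂, MvPolynomial.eval, MvPolynomial.coe_eval₂Hom]
    congr 1
    · ext x
      simp
    · funext i
      simp only [map_add, map_mul, Polynomial.coe_evalRingHom,
        Polynomial.eval_C, Polynomial.eval_X, Pi.add_apply, Pi.smul_apply, smul_eq_mul]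
  have hp0 : p ≠ 0 := by
    intro h
    apply h0
    have := hp 0
    rw [h] at this
    simpa using this.symm
  refine ⟨p.roots.toFinset, ?_⟩
  ext s
  simp only [Set.mem_ofPred_eq, Multiset.mem_toFinset, Polynomial.mem_roots hp0,
    Polynomial.IsRoot.def, hp s, ne_eq]

private theorem gl_cover {X ι : Type*} [TopologicalSpace X] (f : ι → X → ℝ) (c : ℝ) {G : Set ι}
    (hG : G.Finite) : ∀ D : Set X, IsOpen D → D.Nonempty → (∀ e ∈ G, ContinuousOn (f e) D) →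
      (∀ t ∈ D, ∃ e ∈ G, f e t = c) →
      ∃ e ∈ G, ∃ O : Set X, IsOpen O ∧ O.Nonempty ∧ O ⊆ D ∧ ∀ t ∈ O, f e t = c := by
  induction G, hG using Set.Finite.induction_on with
  | empty =>
    intro D _ hne _ h
    obtain ⟨t, ht⟩ := hne
    obtain ⟨e, he, _⟩ := h t ht
    exact absurd he (Set.notMem_empty e)
  | @insert e G _ _ ih =>
    intro D hD hne hc h
    by_cases hall : ∀ t ∈ D, f e t = c
    · exact ⟨e, Set.mem_insert _ _, D, hD, hne, le_rfl, hall⟩
    · push Not at hall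
      obtain ⟨t, ht, hne'⟩ := hall
      have hop : IsOpen (D ∩ f e ⁻¹' {c}ᶜ) :=
        (hc e (Set.mem_insert _ _)).isOpen_inter_preimage hD isOpen_compl_singleton
      obtain ⟨e', he', O, hO, hOne, hOD, hOc⟩ := ih (D ∩ f e ⁻¹' {c}ᶜ) hop ⟨t, ht, hne'⟩
        (fun e' he' => (hc e' (Set.mem_insert_of_mem _ he')).mono Set.inter_subset_left) (by
          intro x hx
          obtain ⟨e', he', hx'⟩ := h x hx.1
          rcases Set.mem_insert_iff.mp he' with rfl | he''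
          · exact absurd hx' hx.2
          · exact ⟨e', he'', hx'⟩)
      exact ⟨e', Set.mem_insert_of_mem _ he', O, hO, hOne, hOD.trans Set.inter_subset_left, hOc⟩

private theorem gl_cont (h : IsVHS S a lev j ψ) {n d : ℕ} {B : Matrix (TP (X2 r) n) (Fin d) ℂ}
    (hB : ∀ v : Fin d → ℂ, B *ᵥ v = 0 → v = 0) {e : Element m (Fin r)} (he : Reach S a e) :
    ContinuousOn (fun t => lg B (RR n (Hm lev j ψ (e.P t)))) e.U := by
  intro t ht
  apply ContinuousAt.continuousWithinAt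
  have han := reach_analytic h.analytic he
  have hF : RAt e.P t := by
    intro i k
    exact (han.2.2.2 i k t ht).restrictScalars
  have h1 : RAt (fun t => Bᴴ * RR n (Hm lev j ψ (e.P t)) * B) t :=
    rat_mul (rat_mul (rat_const _) (rat_RR n (rat_Hm hF (h.pol e he t ht) (h.det e he t ht))))
      (rat_const _)
  have h2 : ContinuousAt (fun t => (Bᴴ * RR n (Hm lev j ψ (e.P t)) * B).det) t :=
    (analyticAt_det h1).continuousAt
  have h3 := (gram_pos hB (posDef_RR n (Hm_pos (h.pol e he t ht) (h.det e he t ht)))).det_pos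
  have h4 : (Bᴴ * RR n (Hm lev j ψ (e.P t)) * B).det.re ≠ 0 := by
    have := (Complex.lt_def.mp h3).1
    simpa using ne_of_gt this
  exact (Complex.continuous_re.continuousAt.comp h2).log h4

private theorem gl_lg (h : IsVHS S a lev j ψ)
    {Γ : Subgroup (GL (Fin r) ℤ)} (hΓ : Γ ≤ MM S a ψ h.dom)
    {n d : ℕ} {B : Matrix (TP (X2 r) n) (Fin d) ℂ}
    (hBΓ : ∀ γ ∈ Γ, ∃ β : Matrix (Fin d) (Fin d) ℂ,
      RR n (zc (γ : Matrix (Fin r) (Fin r) ℤ)) * B = B * β ∧ ‖β.det‖ = 1)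
    {e : Element m (Fin r)} (he : Reach S a e) {t : Fin m → ℂ} (ht : t ∈ e.U) {γ : GL (Fin r) ℤ}
    (hγ : γ ∈ Γ) :
    lg B (RR n (Hm lev j ψ (e.P t * zc (γ : Matrix (Fin r) (Fin r) ℤ)))) =
      lg B (RR n (Hm lev j ψ (e.P t))) := by
  obtain ⟨β, hβ, hβ1⟩ := hBΓ γ hγ
  have hγu : IsUnit (γ : Matrix (Fin r) (Fin r) ℤ).det :=
    (Matrix.isUnit_iff_isUnit_det _).mp γ.isUnit
  rw [Hm_mul_right (h.pol e he t ht) (h.det e he t ht) hγu (hΓ hγ).1, RR_mul, RR_mul,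
    RR_conjTranspose]
  unfold lg
  have h1 : Bᴴ * ((RR n (zc (γ : Matrix (Fin r) (Fin r) ℤ)))ᴴ * RR n (Hm lev j ψ (e.P t)) *
      RR n (zc (γ : Matrix (Fin r) (Fin r) ℤ))) * B =
      βᴴ * (Bᴴ * RR n (Hm lev j ψ (e.P t)) * B) * β := by
    have h2 : Bᴴ * (RR n (zc (γ : Matrix (Fin r) (Fin r) ℤ)))ᴴ = βᴴ * Bᴴ := by
      rw [← Matrix.conjTranspose_mul, hβ, Matrix.conjTranspose_mul]
    calc Bᴴ * ((RR n (zc (γ : Matrix (Fin r) (Fin r) ℤ)))ᴴ * RR n (Hm lev j ψ (e.P t)) *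
        RR n (zc (γ : Matrix (Fin r) (Fin r) ℤ))) * B
        = (Bᴴ * (RR n (zc (γ : Matrix (Fin r) (Fin r) ℤ)))ᴴ) * RR n (Hm lev j ψ (e.P t)) *
          (RR n (zc (γ : Matrix (Fin r) (Fin r) ℤ)) * B) := by
          simp only [Matrix.mul_assoc]
      _ = _ := by
          rw [h2, hβ]
          simp only [Matrix.mul_assoc]
  rw [h1, Matrix.det_mul, Matrix.det_mul, Matrix.det_conjTranspose]
  congr 1
  have h3 : star β.det * (Bᴴ * RR n (Hm lev j ψ (e.P t)) * B).det * β.det =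
      (Bᴴ * RR n (Hm lev j ψ (e.P t)) * B).det * (β.det * star β.det) := by ring
  have h4 : β.det * star β.det = 1 := by
    rw [Complex.star_def, Complex.mul_conj, Complex.normSq_eq_norm_sq, hβ1]
    simp
  rw [h3, h4, mul_one]

theorem exists_open_const (h : IsVHS S a lev j ψ) (hne : a.U.Nonempty) (hw : IsBranchM k a.U μ a.w)
    {Γ : Subgroup (GL (Fin r) ℤ)} (hΓ : Γ ≤ MM S a ψ h.dom) (hfin : Γ.relIndex (MM S a ψ h.dom) ≠ 0)
    {n d : ℕ} {B : Matrix (TP (X2 r) n) (Fin d) ℂ} (hB : ∀ v : Fin d → ℂ, B *ᵥ v = 0 → v = 0)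
    (hBΓ : ∀ γ ∈ Γ, ∃ β : Matrix (Fin d) (Fin d) ℂ,
      RR n (zc (γ : Matrix (Fin r) (Fin r) ℤ)) * B = B * β ∧ ‖β.det‖ = 1) :
    ∃ e, Reach S a e ∧ ∃ O : Set (Fin m → ℂ), IsOpen O ∧ O.Nonempty ∧ O ⊆ e.U ∧
      ∃ c : ℝ, ∀ t ∈ O, lg B (RR n (Hm lev j ψ (e.P t))) = c := by
  classical
  obtain ⟨t₁, ht₁⟩ := hne
  have hne : a.U.Nonempty := ⟨t₁, ht₁⟩
  have hκ : (0 : ℝ) < 4 / (Fintype.card (TP (X2 r) n) * (n * ((2 * Nb lev + |j| : ℤ) : ℝ)) ^ 2 + 1) := by
    positivity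
  -- the supremum is constant
  have hconst : ∀ t t' : Fin m → ℂ, MvPolynomial.eval t S ≠ 0 → MvPolynomial.eval t' S ≠ 0 →
      sSup (glVS S a lev j ψ n B t) = sSup (glVS S a lev j ψ n B t') := by
    intro t t' ht ht'
    obtain ⟨Sg, hSg⟩ := gl_roots S t (t' - t) ht
    have hbr := br_line h hne hw hΓ hfin hB hBΓ t (t' - t)
    rw [hSg] at hbr
    have h0 : (0 : ℂ) ∉ Sg := by
      have : (0 : ℂ) ∈ {s : ℂ | s ∉ Sg} := by
        rw [← hSg]
        simpa using ht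
      exact this
    have h1 : (1 : ℂ) ∉ Sg := by
      have : (1 : ℂ) ∈ {s : ℂ | s ∉ Sg} := by
        rw [← hSg]
        simpa using ht'
      exact this
    have := hbr.const hκ h0 h1
    rw [gl_Mu, gl_Mu] at this
    simpa using this
  obtain ⟨ε, hε, hball⟩ := Metric.isOpen_iff.mp h.analytic.1 t₁ ht₁
  set D : Set (Fin m → ℂ) := Metric.ball t₁ ε with hDdef
  have hDS : ∀ t ∈ D, MvPolynomial.eval t S ≠ 0 := fun t ht => h.dom t (hball ht)
  obtain ⟨G, hGf, _, hGr, hGb⟩ := h.finite_branches hne hw hΓ hfin (D := D) Metric.isOpen_ball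
    (convex_ball t₁ ε) hDS ⟨t₁, Metric.mem_ball_self hε⟩
  have hcov : ∀ t ∈ D, ∃ e ∈ G, lg B (RR n (Hm lev j ψ (e.P t))) =
      sSup (glVS S a lev j ψ n B t₁) := by
    intro t ht
    have hbr := br_line h hne hw hΓ hfin hB hBΓ t (0 : Fin m → ℂ)
    have h0 : (0 : ℂ) ∈ {s : ℂ | MvPolynomial.eval (t + s • (0 : Fin m → ℂ)) S ≠ 0} := by
      simpa using hDS t ht
    obtain ⟨e₀, ⟨b, hb, rfl⟩, hs, hmu⟩ := hbr.Mu_eq h0
    rw [gl_Mu] at hmu
    have hs' : t ∈ b.U := by simpa using hs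
    have hmu' : sSup (glVS S a lev j ψ n B t) = lg B (RR n (Hm lev j ψ (b.P t))) := by
      simpa using hmu
    obtain ⟨e, heG, γ, hγ, hev⟩ := hGb b hb t ⟨ht, hs'⟩
    refine ⟨e, heG, ?_⟩
    rw [hconst t₁ t (hDS t₁ (Metric.mem_ball_self hε)) (hDS t ht), hmu', hev.self_of_nhds]
    exact (gl_lg h hΓ hBΓ (hGr e heG).1 (by rw [(hGr e heG).2]; exact ht) hγ).symm
  obtain ⟨e, heG, O, hO, hOne, hOD, hOc⟩ := gl_cover
    (fun (e : Element m (Fin r)) t => lg B (RR n (Hm lev j ψ (e.P t))))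
    (sSup (glVS S a lev j ψ n B t₁)) hGf D Metric.isOpen_ball ⟨t₁, Metric.mem_ball_self hε⟩
    (fun e he => by
      have := gl_cont (lev := lev) (j := j) (ψ := ψ) h hB (hGr e he).1
      rwa [(hGr e he).2] at this) hcov
  exact ⟨e, (hGr e heG).1, O, hO, hOne, by rw [(hGr e heG).2]; exact hOD, _, hOc⟩

end Pool.Agent.Helper79.FX
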