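import Pool.Agent.Helper79.FX.Ahl

/-!
# FX-14: the growth of the branches of `u` at the punctures

`growth`: let `R` be as in `hsub`. `Mu F` is bounded on the compact circle `|s - a| = R / exp 1` (in `Ω`, `continuousOn_Mu`) by `C₁`. Let `0 < |s - a| ≤ R / exp 1`,
`e` with `Mu F s = e.2.2 s` (`Mu_eq`), `ω = (s - a) / |s - a|`, `s₁ = a + (R / exp 1) ω`. The segment `[s, s₁]` is compact, convex and in `Ω`: take `e'` as in `Br.ext`: `[s, s₁] ⊆ e'.1`, `e'.2.2 s = e.2.2 s`.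
Parametrise by `τ ↦ a + R exp (-τ) ω`, `τ ∈ [1, y]`, `y = log (R / |s - a|)`. `g τ = e'.2.2 (a + R exp (-τ) ω)` has derivative `fderiv ℝ e'.2.2 · (-R exp (-τ) ω)`, of absolute value at most
`2 R exp (-τ) |rdz| ≤ 2 R exp (-τ) sqrt (C * e'.2.1) ≤ 2 sqrt (C * π² / (8 κ)) / τ` (`fderiv_real`, `grad`, `le_Mr`, `cusp`: `log (R / |·|) = τ`, `|·| = R exp (-τ)`). Let `C₂ = 2 sqrt (C π² / (8 κ))` (`C ≥ 0` may be assumed: replace `C` by
`max C 0`). `g τ - C₂ log τ` is antitone on `[1, y]`, so `g y ≤ g 1 + C₂ log y ≤ C₁ + C₂ log (log (R / |s - a|))`.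
`growth_inf`: the same, `R < |s|`, `τ = log (|s| / R)`, `|s| ≥ R exp 1`.
-/

namespace Pool.Agent.Helper79.FX

open Real

variable {κ C : ℝ} {Ω : Set ℂ} {F : Set (Set ℂ × (ℂ → ℝ) × (ℂ → ℝ))}

/-- Integration of the gradient bound along a curve. -/
private theorem along (h : Br κ C Ω F) {B y : ℝ} (hy : 1 ≤ y) {γ γ' : ℝ → ℂ} {K : Set ℂ} (hK : K ⊆ Ω)
    (hKc : IsCompact K) (hKx : Convex ℝ K) (hγK : ∀ t ∈ Set.Icc 1 y, γ t ∈ K)
    (hd : ∀ t, HasDerivAt γ (γ' t) t)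
    (hB : ∀ t ∈ Set.Icc 1 y, Mr F (γ t) * (‖γ' t‖ * t) ^ 2 ≤ B) :
    Mu F (γ y) ≤ Mu F (γ 1) + 2 * √(max C 0 * B) * log y := by
  have hyK := hγK y ⟨hy, le_refl y⟩
  obtain ⟨e, heF, hse, hMe⟩ := h.Mu_eq (hK hyK)
  obtain ⟨e', heF', hKe', -, hu⟩ := h.ext K hK hKc hKx e heF (γ y) ⟨hse, hyK⟩
  have hu' : e.2.2 (γ y) = e'.2.2 (γ y) := hu.eq_of_nhds
  have hda : ∀ t ∈ Set.Icc 1 y, DifferentiableAt ℝ e'.2.2 (γ t) := fun t ht =>
    (h.anu e' heF' (γ t) (hKe' (hγK t ht))).differentiableAt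
  have hder : ∀ t ∈ Set.Icc 1 y, HasDerivAt (fun t => e'.2.2 (γ t) - 2 * √(max C 0 * B) * log t)
      (fderiv ℝ e'.2.2 (γ t) (γ' t) - 2 * √(max C 0 * B) * t⁻¹) t := by
    intro t ht
    have ht0 : t ≠ 0 := by
      have := ht.1
      linarith
    have h1 : HasDerivAt (fun t => e'.2.2 (γ t)) (fderiv ℝ e'.2.2 (γ t) (γ' t)) t :=
      (hda t ht).hasFDerivAt.comp_hasDerivAt t (hd t)
    exact h1.sub ((hasDerivAt_log ht0).const_mul _)
  have hle : ∀ t ∈ Set.Icc 1 y,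
      fderiv ℝ e'.2.2 (γ t) (γ' t) - 2 * √(max C 0 * B) * t⁻¹ ≤ 0 := by
    intro t ht
    have ht0 : 0 < t := by
      have := ht.1
      linarith
    have htK := hKe' (hγK t ht)
    have h1 : fderiv ℝ e'.2.2 (γ t) (γ' t) ≤ 2 * (‖γ' t‖ * ‖rdz e'.2.2 (γ t)‖) := by
      rw [fderiv_real (hda t ht)]
      have := Complex.re_le_norm (γ' t * rdz e'.2.2 (γ t))
      rw [norm_mul] at this
      linarith
    have h2 : ‖rdz e'.2.2 (γ t)‖ ^ 2 ≤ max C 0 * Mr F (γ t) := by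
      have h3 := h.grad e' heF' (γ t) htK
      have h4 := h.le_Mr heF' htK
      have h5 := h.nn e' heF' (γ t) htK
      calc ‖rdz e'.2.2 (γ t)‖ ^ 2 ≤ C * e'.2.1 (γ t) := h3
        _ ≤ max C 0 * e'.2.1 (γ t) := mul_le_mul_of_nonneg_right (le_max_left _ _) h5
        _ ≤ max C 0 * Mr F (γ t) := mul_le_mul_of_nonneg_left h4 (le_max_right _ _)
    have h6 : (‖γ' t‖ * ‖rdz e'.2.2 (γ t)‖ * t) ^ 2 ≤ max C 0 * B := by
      calc (‖γ' t‖ * ‖rdz e'.2.2 (γ t)‖ * t) ^ 2 = ‖rdz e'.2.2 (γ t)‖ ^ 2 * (‖γ' t‖ * t) ^ 2 := by ring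
        _ ≤ (max C 0 * Mr F (γ t)) * (‖γ' t‖ * t) ^ 2 := mul_le_mul_of_nonneg_right h2 (sq_nonneg _)
        _ = max C 0 * (Mr F (γ t) * (‖γ' t‖ * t) ^ 2) := by ring
        _ ≤ max C 0 * B := mul_le_mul_of_nonneg_left (hB t ht) (le_max_right _ _)
    have h7 : ‖γ' t‖ * ‖rdz e'.2.2 (γ t)‖ * t ≤ √(max C 0 * B) := Real.le_sqrt_of_sq_le h6
    have h8 : ‖γ' t‖ * ‖rdz e'.2.2 (γ t)‖ ≤ √(max C 0 * B) * t⁻¹ := by
      rw [← div_eq_mul_inv, le_div_iff₀ ht0]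
      exact h7
    nlinarith
  have hanti : AntitoneOn (fun t => e'.2.2 (γ t) - 2 * √(max C 0 * B) * log t) (Set.Icc 1 y) := by
    apply antitoneOn_of_deriv_nonpos (convex_Icc 1 y)
    · intro t ht
      exact (hder t ht).continuousAt.continuousWithinAt
    · intro t ht
      exact (hder t (interior_subset ht)).differentiableAt.differentiableWithinAt
    · intro t ht
      rw [(hder t (interior_subset ht)).deriv]
      exact hle t (interior_subset ht)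
  have h9 := hanti ⟨le_refl 1, hy⟩ ⟨hy, le_refl y⟩ hy
  simp only [log_one, mul_zero, sub_zero] at h9
  have h10 := h.le_Mu heF' (hKe' (hγK 1 ⟨le_refl 1, hy⟩))
  rw [hMe, hu']
  linarith

private theorem ray_compact (a ω : ℂ) (r r' : ℝ) :
    IsCompact ((fun x : ℝ => a + (x : ℂ) * ω) '' Set.Icc r r') := by
  apply isCompact_Icc.image
  fun_prop

private theorem ray_convex (a ω : ℂ) (r r' : ℝ) :
    Convex ℝ ((fun x : ℝ => a + (x : ℂ) * ω) '' Set.Icc r r') := by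
  have h1 := (convex_Icc r r').affine_image (AffineMap.lineMap (k := ℝ) a (a + ω))
  have h2 : (fun x : ℝ => a + (x : ℂ) * ω) = ⇑(AffineMap.lineMap (k := ℝ) a (a + ω)) := by
    funext x
    simp [AffineMap.lineMap_apply, add_comm]
  rw [h2]
  exact h1

theorem Br.growth (h : Br κ C Ω F) (hΩ : IsOpen Ω) (hκ : 0 < κ) {a : ℂ} {R : ℝ} (hR : 0 < R)
    (hsub : ∀ s, 0 < ‖s - a‖ → ‖s - a‖ < R → s ∈ Ω) :
    ∃ C₁ C₂ : ℝ, ∀ s, 0 < ‖s - a‖ → ‖s - a‖ ≤ R / exp 1 →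
      Mu F s ≤ C₁ + C₂ * log (log (R / ‖s - a‖)) := by
  have he1 : 1 < exp 1 := by
    have := Real.add_one_lt_exp (x := 1) one_ne_zero
    linarith
  have hRe : R / exp 1 < R := div_lt_self hR he1
  have hRe0 : 0 < R / exp 1 := by positivity
  have hcirc : Metric.sphere a (R / exp 1) ⊆ Ω := by
    intro s hs
    rw [mem_sphere_iff_norm] at hs
    exact hsub s (by rw [hs]; exact hRe0) (by rw [hs]; exact hRe)
  obtain ⟨C₁, hC₁⟩ := ((isCompact_sphere a (R / exp 1)).image_of_continuousOn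
    ((h.continuousOn_Mu hΩ).mono hcirc)).bddAbove
  refine ⟨C₁, 2 * √(max C 0 * (π ^ 2 / (8 * κ))), ?_⟩
  intro s hs0 hs
  have hx0 : ‖s - a‖ ≠ 0 := hs0.ne'
  set ω : ℂ := (s - a) / (‖s - a‖ : ℂ) with hω
  have hωn : ‖ω‖ = 1 := by
    rw [hω, norm_div, Complex.norm_real, Real.norm_eq_abs, abs_of_pos hs0, div_self hx0]
  set y : ℝ := log (R / ‖s - a‖) with hy
  have hRs : exp 1 ≤ R / ‖s - a‖ := by
    rw [le_div_iff₀ hs0]
    rw [le_div_iff₀ (exp_pos 1)] at hs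
    linarith
  have hy1 : 1 ≤ y := by
    rw [hy, Real.le_log_iff_exp_le (by positivity)]
    exact hRs
  have hexpy : R * exp (-y) = ‖s - a‖ := by
    rw [hy, exp_neg, exp_log (by positivity)]
    field_simp
  have hr : ∀ t, 0 < R * exp (-t) := fun t => by positivity
  have hnorm : ∀ t, ‖a + ((R * exp (-t) : ℝ) : ℂ) * ω - a‖ = R * exp (-t) := by
    intro t
    rw [add_sub_cancel_left, norm_mul, Complex.norm_real, Real.norm_eq_abs, abs_of_pos (hr t), hωn,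
      mul_one]
  have hγy : a + ((R * exp (-y) : ℝ) : ℂ) * ω = s := by
    rw [hexpy, hω]
    have : (‖s - a‖ : ℂ) ≠ 0 := by exact_mod_cast hx0
    field_simp
    ring
  have hmono : ∀ t ∈ Set.Icc 1 y, R * exp (-t) ∈ Set.Icc ‖s - a‖ (R / exp 1) := by
    intro t ht
    constructor
    · rw [← hexpy]
      exact mul_le_mul_of_nonneg_left (exp_le_exp.mpr (by linarith [ht.2])) hR.le
    · rw [div_eq_mul_inv, ← exp_neg]
      exact mul_le_mul_of_nonneg_left (exp_le_exp.mpr (by linarith [ht.1])) hR.le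
  have hKΩ : (fun x : ℝ => a + (x : ℂ) * ω) '' Set.Icc ‖s - a‖ (R / exp 1) ⊆ Ω := by
    rintro z ⟨x, hx, rfl⟩
    have hx0' : 0 < x := lt_of_lt_of_le hs0 hx.1
    have hn : ‖a + (x : ℂ) * ω - a‖ = x := by
      rw [add_sub_cancel_left, norm_mul, Complex.norm_real, Real.norm_eq_abs, abs_of_pos hx0', hωn,
        mul_one]
    exact hsub _ (by rw [hn]; exact hx0') (by rw [hn]; exact lt_of_le_of_lt hx.2 hRe)
  have key := along h (B := π ^ 2 / (8 * κ)) (y := y) hy1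
    (γ := fun t => a + ((R * exp (-t) : ℝ) : ℂ) * ω)
    (γ' := fun t => ((R * (exp (-t) * -1) : ℝ) : ℂ) * ω) hKΩ (ray_compact a ω _ _) (ray_convex a ω _ _)
    (fun t ht => ⟨R * exp (-t), hmono t ht, rfl⟩)
    (by
      intro t
      have h1 : HasDerivAt (fun t : ℝ => R * exp (-t)) (R * (exp (-t) * -1)) t :=
        ((hasDerivAt_neg t).exp).const_mul R
      exact (h1.ofReal_comp.mul_const ω).const_add a)
    (by
      intro t ht
      have hn := hnorm t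
      have h2 : ‖((R * (exp (-t) * -1) : ℝ) : ℂ) * ω‖ = R * exp (-t) := by
        rw [norm_mul, Complex.norm_real, Real.norm_eq_abs, hωn, mul_one,
          show R * (exp (-t) * -1) = -(R * exp (-t)) by ring, abs_neg, abs_of_pos (hr t)]
      have h3 : log (R / (R * exp (-t))) = t := by
        rw [show R / (R * exp (-t)) = exp t by
          rw [exp_neg]
          field_simp, log_exp]
      have hpos : 0 < ‖a + ((R * exp (-t) : ℝ) : ℂ) * ω - a‖ := by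
        rw [hn]; exact hr t
      have hlt : ‖a + ((R * exp (-t) : ℝ) : ℂ) * ω - a‖ < R := by
        rw [hn]; exact lt_of_le_of_lt (hmono t ht).2 hRe
      have h4 := h.cusp hΩ hκ hR hsub hpos hlt
      rw [hn, h3] at h4
      show Mr F (a + ((R * exp (-t) : ℝ) : ℂ) * ω) * (‖((R * (exp (-t) * -1) : ℝ) : ℂ) * ω‖ * t) ^ 2 ≤ _
      rw [h2]
      exact h4)
  simp only [hγy] at key
  have h1 : Mu F (a + ((R * exp (-1) : ℝ) : ℂ) * ω) ≤ C₁ := by
    apply hC₁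
    refine ⟨_, ?_, rfl⟩
    rw [mem_sphere_iff_norm, hnorm 1, exp_neg, div_eq_mul_inv]
  linarith

theorem Br.growth_inf (h : Br κ C Ω F) (hΩ : IsOpen Ω) (hκ : 0 < κ) {R : ℝ} (hR : 0 < R)
    (hsub : ∀ s : ℂ, R < ‖s‖ → s ∈ Ω) :
    ∃ C₁ C₂ : ℝ, ∀ s : ℂ, R * exp 1 ≤ ‖s‖ → Mu F s ≤ C₁ + C₂ * log (log (‖s‖ / R)) := by
  have he1 : 1 < exp 1 := by
    have := Real.add_one_lt_exp (x := 1) one_ne_zero
    linarith
  have hRe : R < R * exp 1 := by nlinarith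
  have hcirc : Metric.sphere (0 : ℂ) (R * exp 1) ⊆ Ω := by
    intro s hs
    rw [mem_sphere_iff_norm, sub_zero] at hs
    exact hsub s (by rw [hs]; exact hRe)
  obtain ⟨C₁, hC₁⟩ := ((isCompact_sphere (0 : ℂ) (R * exp 1)).image_of_continuousOn
    ((h.continuousOn_Mu hΩ).mono hcirc)).bddAbove
  refine ⟨C₁, 2 * √(max C 0 * (π ^ 2 / (8 * κ))), ?_⟩
  intro s hs
  have hs0 : 0 < ‖s‖ := by linarith
  have hx0 : ‖s‖ ≠ 0 := hs0.ne'
  set ω : ℂ := s / (‖s‖ : ℂ) with hω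
  have hωn : ‖ω‖ = 1 := by
    rw [hω, norm_div, Complex.norm_real, Real.norm_eq_abs, abs_of_pos hs0, div_self hx0]
  set y : ℝ := log (‖s‖ / R) with hy
  have hRs : exp 1 ≤ ‖s‖ / R := by
    rw [le_div_iff₀ hR]
    linarith
  have hy1 : 1 ≤ y := by
    rw [hy, Real.le_log_iff_exp_le (by positivity)]
    exact hRs
  have hexpy : R * exp y = ‖s‖ := by
    rw [hy, exp_log (by positivity)]
    field_simp
  have hr : ∀ t, 0 < R * exp t := fun t => by positivity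
  have hnorm : ∀ t, ‖0 + ((R * exp t : ℝ) : ℂ) * ω‖ = R * exp t := by
    intro t
    rw [zero_add, norm_mul, Complex.norm_real, Real.norm_eq_abs, abs_of_pos (hr t), hωn, mul_one]
  have hγy : 0 + ((R * exp y : ℝ) : ℂ) * ω = s := by
    rw [hexpy, hω]
    have : (‖s‖ : ℂ) ≠ 0 := by exact_mod_cast hx0
    field_simp
    ring
  have hmono : ∀ t ∈ Set.Icc 1 y, R * exp t ∈ Set.Icc (R * exp 1) ‖s‖ := by
    intro t ht
    constructor
    · exact mul_le_mul_of_nonneg_left (exp_le_exp.mpr ht.1) hR.le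
    · rw [← hexpy]
      exact mul_le_mul_of_nonneg_left (exp_le_exp.mpr ht.2) hR.le
  have hKΩ : (fun x : ℝ => (0 : ℂ) + (x : ℂ) * ω) '' Set.Icc (R * exp 1) ‖s‖ ⊆ Ω := by
    rintro z ⟨x, hx, rfl⟩
    have hx0' : R < x := lt_of_lt_of_le hRe hx.1
    have hn : ‖0 + (x : ℂ) * ω‖ = x := by
      rw [zero_add, norm_mul, Complex.norm_real, Real.norm_eq_abs, abs_of_pos (hR.trans hx0'), hωn,
        mul_one]
    exact hsub _ (by rw [hn]; exact hx0')
  have key := along h (B := π ^ 2 / (8 * κ)) (y := y) hy1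
    (γ := fun t => 0 + ((R * exp t : ℝ) : ℂ) * ω)
    (γ' := fun t => ((R * exp t : ℝ) : ℂ) * ω) hKΩ (ray_compact 0 ω _ _) (ray_convex 0 ω _ _)
    (fun t ht => ⟨R * exp t, hmono t ht, rfl⟩)
    (by
      intro t
      have h1 : HasDerivAt (fun t : ℝ => R * exp t) (R * exp t) t :=
        (Real.hasDerivAt_exp t).const_mul R
      exact (h1.ofReal_comp.mul_const ω).const_add 0)
    (by
      intro t ht
      have hn := hnorm t
      have h2 : ‖((R * exp t : ℝ) : ℂ) * ω‖ = R * exp t := by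
        rw [norm_mul, Complex.norm_real, Real.norm_eq_abs, abs_of_pos (hr t), hωn, mul_one]
      have h3 : log (R * exp t / R) = t := by
        rw [mul_div_cancel_left₀ _ hR.ne', log_exp]
      have hlt : R < ‖0 + ((R * exp t : ℝ) : ℂ) * ω‖ := by
        rw [hn]; exact lt_of_lt_of_le hRe (hmono t ht).1
      have h4 := h.cusp_inf hΩ hκ hR hsub hlt
      rw [hn, h3] at h4
      show Mr F (0 + ((R * exp t : ℝ) : ℂ) * ω) * (‖((R * exp t : ℝ) : ℂ) * ω‖ * t) ^ 2 ≤ _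
      rw [h2]
      exact h4)
  simp only [hγy] at key
  have h1 : Mu F (0 + ((R * exp 1 : ℝ) : ℂ) * ω) ≤ C₁ := by
    apply hC₁
    refine ⟨_, ?_, rfl⟩
    rw [mem_sphere_iff_norm, sub_zero, hnorm 1]
  linarith

end Pool.Agent.Helper79.FX
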