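import Pool.Agent.Helper79.FX.MWir

/-!
# FX-03: the adjoint for a Hermitian metric

`H = Bᴴ B` with `B` invertible (`Pool.Agent.Helper79.HH.posDef_factor`; copy its proof if its file is not imported). For `S = B X B⁻¹` one has
`Sᴴ = B (adjH H X) B⁻¹`, so `trace (X * adjH H X) = trace (S * Sᴴ) = ∑ |S i k|²`.
* `cauchy`: with `S = B X B⁻¹`, `T = B Y B⁻¹`: `trace (X Y) = trace (S T) = ∑ S i k T k i`, Cauchy-Schwarz
  (`inner_mul_le_norm_mul_norm` for `EuclideanSpace`, or `Finset.sum_mul_sq_le_sq_mul_sq` for the absolute values); `trace (Y * adjH H Y) = ∑ |T|²`.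
* `cauchy_proj`: `Y = Π` with `adjH H Π = Π`, `Π² = Π`: `trace (Π * adjH H Π) = trace Π`.
-/

namespace Pool.Agent.Helper79.FX

open Matrix

variable {K : Type} [Fintype K] [DecidableEq K] {H X Y : Matrix K K ℂ}

/-- The adjoint of `X` for the Hermitian metric with matrix `H`. -/
noncomputable def adjH (H X : Matrix K K ℂ) : Matrix K K ℂ := H⁻¹ * Xᴴ * H

open scoped ComplexOrder MatrixOrder in
private theorem fac_aux (hH : H.PosDef) : ∃ B : Matrix K K ℂ, IsUnit B.det ∧ H = Bᴴ * B := by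
  obtain ⟨B, hB⟩ := CStarAlgebra.nonneg_iff_eq_star_mul_self.mp hH.posSemidef.nonneg
  refine ⟨B, ?_, hB⟩
  have h1 := hH.isUnit
  rw [hB, Matrix.isUnit_iff_isUnit_det, Matrix.det_mul] at h1
  exact isUnit_of_mul_isUnit_right h1

private theorem conj_adjH {B : Matrix K K ℂ} (hB : IsUnit B.det) (hHB : H = Bᴴ * B)
    (X : Matrix K K ℂ) : B * adjH H X * B⁻¹ = (B * X * B⁻¹)ᴴ := by
  have hBH : IsUnit (Bᴴ).det := by
    rw [Matrix.det_conjTranspose]; exact hB.star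
  have h2 : (Bᴴ * B)⁻¹ = B⁻¹ * (Bᴴ)⁻¹ := Matrix.mul_inv_rev _ _
  have h3 : (B * X * B⁻¹)ᴴ = (Bᴴ)⁻¹ * Xᴴ * Bᴴ := by
    rw [Matrix.conjTranspose_mul, Matrix.conjTranspose_mul, Matrix.conjTranspose_nonsing_inv,
      Matrix.mul_assoc]
  rw [h3, adjH, hHB, h2]
  calc B * (B⁻¹ * (Bᴴ)⁻¹ * Xᴴ * (Bᴴ * B)) * B⁻¹
      = (B * B⁻¹) * ((Bᴴ)⁻¹ * Xᴴ * Bᴴ) * (B * B⁻¹) := by simp only [Matrix.mul_assoc]
    _ = _ := by rw [Matrix.mul_nonsing_inv _ hB, Matrix.one_mul, Matrix.mul_one]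

private theorem trace_conj_aux {B : Matrix K K ℂ} (hB : IsUnit B.det) (X : Matrix K K ℂ) :
    (B * X * B⁻¹).trace = X.trace := by
  rw [Matrix.mul_assoc, Matrix.trace_mul_comm, Matrix.mul_assoc, Matrix.nonsing_inv_mul _ hB,
    Matrix.mul_one]

private theorem conj_mul_aux {B : Matrix K K ℂ} (hB : IsUnit B.det) (X Y : Matrix K K ℂ) :
    B * (X * Y) * B⁻¹ = (B * X * B⁻¹) * (B * Y * B⁻¹) := by
  calc B * (X * Y) * B⁻¹ = B * X * 1 * Y * B⁻¹ := by simp only [Matrix.mul_assoc, Matrix.one_mul]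
    _ = B * X * (B⁻¹ * B) * Y * B⁻¹ := by rw [Matrix.nonsing_inv_mul _ hB]
    _ = _ := by simp only [Matrix.mul_assoc]

private theorem trace_aux {B : Matrix K K ℂ} (hB : IsUnit B.det) (hHB : H = Bᴴ * B)
    (X : Matrix K K ℂ) : (X * adjH H X).trace =
      ((∑ i, ∑ k, ‖(B * X * B⁻¹) i k‖ ^ 2 : ℝ) : ℂ) := by
  rw [← trace_conj_aux hB, conj_mul_aux hB, conj_adjH hB hHB, Matrix.trace]
  push_cast
  apply Finset.sum_congr rfl
  intro i _
  rw [Matrix.diag_apply, Matrix.mul_apply]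
  apply Finset.sum_congr rfl
  intro k _
  rw [Matrix.conjTranspose_apply, ← Complex.mul_conj']
  rfl

open scoped ComplexOrder in
theorem adjH_adjH (hH : H.PosDef) : adjH H (adjH H X) = X := by
  have h1 : Hᴴ = H := hH.isHermitian
  have h2 : IsUnit H.det := (Matrix.isUnit_iff_isUnit_det _).1 hH.isUnit
  rw [adjH, adjH, Matrix.conjTranspose_mul, Matrix.conjTranspose_mul,
    Matrix.conjTranspose_conjTranspose, Matrix.conjTranspose_nonsing_inv, h1]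
  calc H⁻¹ * (H * (X * H⁻¹)) * H = (H⁻¹ * H) * X * (H⁻¹ * H) := by simp only [Matrix.mul_assoc]
    _ = X := by rw [Matrix.nonsing_inv_mul _ h2, Matrix.one_mul, Matrix.mul_one]

open scoped ComplexOrder in
theorem adjH_mul (hH : H.PosDef) : adjH H (X * Y) = adjH H Y * adjH H X := by
  have h2 : IsUnit H.det := (Matrix.isUnit_iff_isUnit_det _).1 hH.isUnit
  rw [adjH, adjH, adjH, Matrix.conjTranspose_mul]
  calc H⁻¹ * (Yᴴ * Xᴴ) * H = H⁻¹ * Yᴴ * 1 * Xᴴ * H := by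
        simp only [Matrix.mul_assoc, Matrix.one_mul]
    _ = H⁻¹ * Yᴴ * (H * H⁻¹) * Xᴴ * H := by rw [Matrix.mul_nonsing_inv _ h2]
    _ = _ := by simp only [Matrix.mul_assoc]

/-- The square of the norm. -/
noncomputable def nsq (H X : Matrix K K ℂ) : ℝ := (X * adjH H X).trace.re

open scoped ComplexOrder in
theorem nsq_coe (hH : H.PosDef) : (X * adjH H X).trace = (nsq H X : ℂ) := by
  obtain ⟨B, hB, hHB⟩ := fac_aux hH
  rw [nsq, trace_aux hB hHB, Complex.ofReal_re]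

open scoped ComplexOrder in
theorem nsq_nonneg (hH : H.PosDef) : 0 ≤ nsq H X := by
  obtain ⟨B, hB, hHB⟩ := fac_aux hH
  rw [nsq, trace_aux hB hHB, Complex.ofReal_re]
  positivity

open scoped ComplexOrder in
theorem nsq_eq_zero (hH : H.PosDef) (h : nsq H X = 0) : X = 0 := by
  obtain ⟨B, hB, hHB⟩ := fac_aux hH
  rw [nsq, trace_aux hB hHB, Complex.ofReal_re] at h
  have h1 : B * X * B⁻¹ = 0 := by
    ext i k
    rw [Finset.sum_eq_zero_iff_of_nonneg fun _ _ => Finset.sum_nonneg fun _ _ => by positivity] at h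
    have h2 := h i (Finset.mem_univ _)
    rw [Finset.sum_eq_zero_iff_of_nonneg fun _ _ => by positivity] at h2
    have h3 := h2 k (Finset.mem_univ _)
    rw [Matrix.zero_apply]
    exact norm_eq_zero.1 (pow_eq_zero_iff (two_ne_zero) |>.1 h3)
  calc X = (B⁻¹ * B) * X * (B⁻¹ * B) := by
        rw [Matrix.nonsing_inv_mul _ hB, Matrix.one_mul, Matrix.mul_one]
    _ = B⁻¹ * (B * X * B⁻¹) * B := by simp only [Matrix.mul_assoc]
    _ = 0 := by rw [h1, Matrix.mul_zero, Matrix.zero_mul]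

open scoped ComplexOrder in
theorem nsq_adjH (hH : H.PosDef) : nsq H (adjH H X) = nsq H X := by
  rw [nsq, adjH_adjH hH, Matrix.trace_mul_comm, nsq]

open scoped ComplexOrder in
theorem cauchy (hH : H.PosDef) : ‖(X * Y).trace‖ ^ 2 ≤ nsq H X * nsq H Y := by
  obtain ⟨B, hB, hHB⟩ := fac_aux hH
  rw [nsq, nsq, trace_aux hB hHB, trace_aux hB hHB, Complex.ofReal_re, Complex.ofReal_re,
    ← trace_conj_aux hB, conj_mul_aux hB]
  set S := B * X * B⁻¹ with hS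
  set R := B * Y * B⁻¹ with hR
  have h1 : ‖(S * R).trace‖ ≤ ∑ x : K × K, ‖S x.1 x.2‖ * ‖R x.2 x.1‖ := by
    rw [Matrix.trace, Fintype.sum_prod_type]
    refine (norm_sum_le _ _).trans (Finset.sum_le_sum fun i _ => ?_)
    rw [Matrix.diag_apply, Matrix.mul_apply]
    refine (norm_sum_le _ _).trans (Finset.sum_le_sum fun k _ => ?_)
    rw [norm_mul]
  have h2 : ∑ i, ∑ k, ‖S i k‖ ^ 2 = ∑ x : K × K, ‖S x.1 x.2‖ ^ 2 := by
    rw [Fintype.sum_prod_type]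
  have h3 : ∑ i, ∑ k, ‖R i k‖ ^ 2 = ∑ x : K × K, ‖R x.2 x.1‖ ^ 2 := by
    rw [Finset.sum_comm, Fintype.sum_prod_type]
  rw [h2, h3]
  calc ‖(S * R).trace‖ ^ 2 ≤ (∑ x : K × K, ‖S x.1 x.2‖ * ‖R x.2 x.1‖) ^ 2 :=
        pow_le_pow_left₀ (norm_nonneg _) h1 2
    _ ≤ _ := Finset.sum_mul_sq_le_sq_mul_sq _ _ _

end Pool.Agent.Helper79.FX
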