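import Pool.Agent.Helper79.FX.HVGram

/-!
# FX-07: the elements of the Hodge circle, and the case of equality

`const_of_lap`: near `s` the function `lg B (H x)` is constant, so `Lap = 0` at `s` and `comm_of_lap` applies. So
`∂Π = -2 Π θ (1 - Π) = -2 θ Π (1 - Π) = 0` and `∂̄Π = 0`. `∂(E Π E⁻¹) = (∂E) Π E⁻¹ + E (∂Π) E⁻¹ - E Π E⁻¹ (∂E) E⁻¹ = c E (θ Π - Π θ) E⁻¹ = 0`, `c = u⁻² - 1`
(`dzM_mul`, `dzM_inv`), the same for `∂̄`.
-/

namespace Pool.Agent.Helper79.FX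

open Matrix
open scoped ComplexOrder

variable {K : Type} [Fintype K] [DecidableEq K] {N : ℝ} {O : Set ℂ} {D H E : ℂ → Matrix K K ℂ} {s : ℂ}
  {k : ℕ} {B : Matrix K (Fin k) ℂ} {u : ℂ}

/-- `E` is the operator `u ^ D`: its derivatives are those of the element of the Hodge circle. -/
structure HE (u : ℂ) (O : Set ℂ) (D E : ℂ → Matrix K K ℂ) : Prop where
  an : ∀ s ∈ O, RAt E s
  unit : ∀ s ∈ O, IsUnit (E s).det
  dE : ∀ s ∈ O, dzM E s = ((u⁻¹) ^ 2 - 1) • (E s * th D s)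
  dE' : ∀ s ∈ O, dzbM E s = (u ^ 2 - 1) • (E s * et D s)

private theorem two_zero (P t : Matrix K K ℂ) (hP : P * P = P) (hc : P * t = t * P) :
    -((2 : ℂ) • (P * t * (1 - P))) = 0 := by
  have h1 : P * t * (1 - P) = 0 := by
    rw [hc, mul_sub, mul_one, mul_assoc, hP, sub_self]
  rw [h1, smul_zero, neg_zero]

private theorem conj_zero (c : ℂ) (F P t : Matrix K K ℂ) (hF : IsUnit F.det) (hc : P * t = t * P) :
    ((c • (F * t)) * P + F * 0) * F⁻¹ + F * P * (-(F⁻¹ * (c • (F * t)) * F⁻¹)) = 0 := by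
  have h1 : F⁻¹ * (c • (F * t)) = c • t := by
    rw [mul_smul_comm, ← mul_assoc, Matrix.nonsing_inv_mul _ hF, one_mul]
  rw [h1, mul_zero, add_zero, mul_neg, ← sub_eq_add_neg, sub_eq_zero]
  rw [smul_mul_assoc, smul_mul_assoc, smul_mul_assoc, mul_smul_comm]
  congr 1
  rw [mul_assoc F t P, ← hc]
  simp only [mul_assoc]

theorem HE.const_of_lap (h : HV N O D H) (hE : HE u O D E) (hO : IsOpen O)
    (hB : ∀ v : Fin k → ℂ, B *ᵥ v = 0 → v = 0) (hs : s ∈ O)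
    (hc : ∃ c : ℝ, ∀ᶠ x in nhds s, lg B (H x) = c) :
    dzM (fun x => PiM B (H x)) s = 0 ∧ dzbM (fun x => PiM B (H x)) s = 0 ∧
      dzM (fun x => E x * PiM B (H x) * (E x)⁻¹) s = 0 ∧
      dzbM (fun x => E x * PiM B (H x) * (E x)⁻¹) s = 0 := by
  obtain ⟨c, hc⟩ := hc
  have h0 : Lap (fun x => lg B (H x)) s = 0 := by
    have e1 : Lap (fun x => lg B (H x)) s = Lap (fun _ => c) s := lap_congr hc
    rw [e1, lap_const]
  obtain ⟨hth, het⟩ := h.comm_of_lap hO hB hs h0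
  have hid : PiM B (H s) * PiM B (H s) = PiM B (H s) := PiM_idem hB (h.pos s hs)
  have hd : dzM (fun x => PiM B (H x)) s = 0 := by
    rw [h.dzM_PiM hB hs]
    exact two_zero _ _ hid hth
  have hd' : dzbM (fun x => PiM B (H x)) s = 0 := by
    rw [h.dzbM_PiM hB hs]
    exact two_zero _ _ hid het
  have hP := h.rat_PiM hB hs
  have hEa := hE.an s hs
  have hEu := hE.unit s hs
  refine ⟨hd, hd', ?_, ?_⟩
  · rw [dzM_mul (rat_mul hEa hP) (rat_inv hEa hEu), dzM_mul hEa hP, dzM_inv hEa hEu, hd, hE.dE s hs]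
    exact conj_zero _ _ _ _ hEu hth
  · rw [dzbM_mul (rat_mul hEa hP) (rat_inv hEa hEu), dzbM_mul hEa hP, dzbM_inv hEa hEu, hd', hE.dE' s hs]
    exact conj_zero _ _ _ _ hEu het

end Pool.Agent.Helper79.FX
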