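import Pool.Agent.Helper79.FX.HAdj

/-!
# FX-04: Hodge operators and Hodge metrics over a complex curve: definition and first identities

Write `θ = th D s = -(1/2) ∂D`, `η = et D s = (1/2) ∂̄D`. The structure says `[D, θ] = 2 θ`, `[D, η] = -2 η`, `∂H = -2 H θ`, `∂̄H = -2 H η`.
* `th_adj`: `Hᴴ = H` on `O`, so `(∂H)ᴴ = ∂̄(Hᴴ) = ∂̄H` (`dzbM_conjTranspose`): `(-2 H θ)ᴴ = -2 H η`, so `θᴴ H = H η`, `η = H⁻¹ θᴴ H = adjH H θ`.
* `dzbM_th`, `dzM_et`: put `X = ∂̄θ = -(1/2) ∂̄∂D`; by `dzM_dzbM` `∂η = (1/2) ∂∂̄D = -X`. Apply `∂̄` to `D θ - θ D = 2 θ` (near `s`, `O` is open; `∂̄D = 2 η`):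
  `2 (η θ - θ η) + (D X - X D) = 2 X`. Apply `∂` to `D η - η D = -2 η` (`∂D = -2 θ`): `-2 (θ η - η θ) - (D X - X D) = 2 X`.
  The sum is `4 (η θ - θ η) = 4 X`.
* `dzbM_et`: `η = H⁻¹ θᴴ H` near `s` (`th_adj`): `∂̄η = -H⁻¹ (∂̄H) H⁻¹ θᴴ H + H⁻¹ (∂θ)ᴴ H + H⁻¹ θᴴ ∂̄H = 2 η η + adjH H (∂θ) - 2 η η`.
-/

namespace Pool.Agent.Helper79.FX

open Matrix
open scoped ComplexOrder

variable {K : Type} [Fintype K] [DecidableEq K]

/-- `D` is the Hodge operator and `H` the Hodge metric of a variation of Hodge structure over the open set `O` of `ℂ`, in a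
flat frame: `D` is self-adjoint with real eigenvalues of absolute value at most `N`, and the derivatives satisfy
`[D, ∂D] = 2 ∂D`, `[D, ∂̄D] = -2 ∂̄D`, `∂H = H ∂D`, `∂̄H = -H ∂̄D`. -/
structure HV (N : ℝ) (O : Set ℂ) (D H : ℂ → Matrix K K ℂ) : Prop where
  anD : ∀ s ∈ O, RAt D s
  anH : ∀ s ∈ O, RAt H s
  pos : ∀ s ∈ O, (H s).PosDef
  adj : ∀ s ∈ O, H s * D s = (D s)ᴴ * H s
  spec : ∀ s ∈ O, ∃ (Q : Matrix K K ℂ) (d : K → ℝ), IsUnit Q.det ∧
    D s = Q * diagonal (fun i => (d i : ℂ)) * Q⁻¹ ∧ ∀ i, |d i| ≤ N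
  brk : ∀ s ∈ O, D s * dzM D s - dzM D s * D s = (2 : ℂ) • dzM D s
  brk' : ∀ s ∈ O, D s * dzbM D s - dzbM D s * D s = -((2 : ℂ) • dzbM D s)
  dH : ∀ s ∈ O, dzM H s = H s * dzM D s
  dH' : ∀ s ∈ O, dzbM H s = -(H s * dzbM D s)

/-- The Higgs field. -/
noncomputable def th (D : ℂ → Matrix K K ℂ) (s : ℂ) : Matrix K K ℂ := -((1 / 2 : ℂ) • dzM D s)

/-- The adjoint of the Higgs field. -/
noncomputable def et (D : ℂ → Matrix K K ℂ) (s : ℂ) : Matrix K K ℂ := (1 / 2 : ℂ) • dzbM D s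

namespace HV

variable {N : ℝ} {O : Set ℂ} {D H : ℂ → Matrix K K ℂ} {s : ℂ}

theorem rat_th (h : HV N O D H) (hs : s ∈ O) : RAt (th D) s :=
  rat_neg (rat_smul _ (rat_dzM (h.anD s hs)))

theorem rat_et (h : HV N O D H) (hs : s ∈ O) : RAt (et D) s :=
  rat_smul _ (rat_dzbM (h.anD s hs))

omit [Fintype K] [DecidableEq K] in
private theorem dzM_eq_th (D : ℂ → Matrix K K ℂ) (s : ℂ) : dzM D s = -((2 : ℂ) • th D s) := by
  rw [th, smul_neg, neg_neg, smul_smul]
  norm_num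

omit [Fintype K] [DecidableEq K] in
private theorem dzbM_eq_et (D : ℂ → Matrix K K ℂ) (s : ℂ) : dzbM D s = (2 : ℂ) • et D s := by
  rw [et, smul_smul]
  norm_num

private theorem isUnit_det (h : HV N O D H) (hs : s ∈ O) : IsUnit (H s).det :=
  (Matrix.isUnit_iff_isUnit_det _).mp (h.pos s hs).isUnit

theorem brk_th (h : HV N O D H) (hs : s ∈ O) : D s * th D s - th D s * D s = (2 : ℂ) • th D s := by
  have h1 := h.brk s hs
  have h2 : D s * th D s - th D s * D s =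
      -((1 / 2 : ℂ) • (D s * dzM D s - dzM D s * D s)) := by
    rw [th, mul_neg, neg_mul, mul_smul_comm, smul_mul_assoc, smul_sub]
    abel
  rw [h2, h1, th, smul_neg, smul_comm]

theorem brk_et (h : HV N O D H) (hs : s ∈ O) : D s * et D s - et D s * D s = -((2 : ℂ) • et D s) := by
  have h1 := h.brk' s hs
  have h2 : D s * et D s - et D s * D s =
      (1 / 2 : ℂ) • (D s * dzbM D s - dzbM D s * D s) := by
    rw [et, mul_smul_comm, smul_mul_assoc, smul_sub]
  rw [h2, h1, et, smul_neg, smul_comm]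

theorem dzM_H (h : HV N O D H) (hs : s ∈ O) : dzM H s = -((2 : ℂ) • (H s * th D s)) := by
  rw [h.dH s hs, dzM_eq_th, mul_neg, mul_smul_comm]

theorem dzbM_H (h : HV N O D H) (hs : s ∈ O) : dzbM H s = -((2 : ℂ) • (H s * et D s)) := by
  rw [h.dH' s hs, dzbM_eq_et, mul_smul_comm]

theorem th_adj (h : HV N O D H) (hO : IsOpen O) (hs : s ∈ O) : et D s = adjH (H s) (th D s) := by
  have hu := h.isUnit_det hs
  have h1 : dzbM H s = (dzM H s)ᴴ := by
    rw [← dzbM_conjTranspose]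
    refine dzbM_congr ?_
    filter_upwards [hO.mem_nhds hs] with x hx
    exact (h.pos x hx).isHermitian.eq.symm
  have hH : (H s)ᴴ = H s := (h.pos s hs).isHermitian.eq
  rw [h.dzM_H hs, h.dzbM_H hs, conjTranspose_neg, neg_inj, conjTranspose_smul,
    conjTranspose_mul, hH] at h1
  have h2 : star (2 : ℂ) = 2 := by simp
  rw [h2] at h1
  have h3 : H s * et D s = (th D s)ᴴ * H s := by
    have h4 := congrArg (fun M => (1 / 2 : ℂ) • M) h1
    simp only [smul_smul] at h4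
    norm_num at h4
    exact h4
  rw [adjH, mul_assoc, ← h3, ← mul_assoc, Matrix.nonsing_inv_mul _ hu, one_mul]

private theorem dzM_et_neg (h : HV N O D H) (hs : s ∈ O) : dzM (et D) s = -dzbM (th D) s := by
  have h1 : dzM (et D) s = (1 / 2 : ℂ) • dzM (dzbM D) s := dzM_smul _ (rat_dzbM (h.anD s hs))
  have h2 : dzbM (th D) s = -((1 / 2 : ℂ) • dzbM (dzM D) s) := by
    have h3 : dzbM (th D) s = -dzbM (fun x => (1 / 2 : ℂ) • dzM D x) s :=
      dzbM_neg (rat_smul _ (rat_dzM (h.anD s hs)))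
    rw [h3, dzbM_smul _ (rat_dzM (h.anD s hs))]
  rw [h1, h2, dzM_dzbM (h.anD s hs), neg_neg]

theorem dzbM_th (h : HV N O D H) (hO : IsOpen O) (hs : s ∈ O) :
    dzbM (th D) s = et D s * th D s - th D s * et D s := by
  have hD := h.anD s hs
  have hth := h.rat_th hs
  have het := h.rat_et hs
  set X := dzbM (th D) s with hX
  have hmem := hO.mem_nhds hs
  have e1 : dzbM (fun x => D x * th D x - th D x * D x) s = dzbM (fun x => (2 : ℂ) • th D x) s := by
    refine dzbM_congr ?_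
    filter_upwards [hmem] with x hx
    exact h.brk_th hx
  rw [dzbM_sub (rat_mul hD hth) (rat_mul hth hD), dzbM_mul hD hth, dzbM_mul hth hD,
    dzbM_smul _ hth, dzbM_eq_et] at e1
  have e2 : dzM (fun x => D x * et D x - et D x * D x) s =
      dzM (fun x => -((2 : ℂ) • et D x)) s := by
    refine dzM_congr ?_
    filter_upwards [hmem] with x hx
    exact h.brk_et hx
  rw [dzM_sub (rat_mul hD het) (rat_mul het hD), dzM_mul hD het, dzM_mul het hD,
    dzM_neg (rat_smul _ het), dzM_smul _ het, h.dzM_et_neg hs, dzM_eq_th] at e2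
  rw [← hX] at e1 e2
  have e3 : (4 : ℂ) • X = (4 : ℂ) • (et D s * th D s - th D s * et D s) := by
    have e4 : (2 : ℂ) • X + (2 : ℂ) • X =
        ((2 : ℂ) • et D s * th D s + D s * X - (X * D s + th D s * ((2 : ℂ) • et D s))) +
        (-((2 : ℂ) • th D s) * et D s + D s * -X - (-X * D s + et D s * -((2 : ℂ) • th D s))) := by
      rw [e1, e2, smul_neg, neg_neg]
    have e5 : (4 : ℂ) • X = (2 : ℂ) • X + (2 : ℂ) • X := by
      rw [← add_smul]
      norm_num
    rw [e5, e4]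
    simp only [smul_mul_assoc, mul_smul_comm, neg_mul, mul_neg, smul_sub]
    have e6 : ∀ M : Matrix K K ℂ, (4 : ℂ) • M = (2 : ℂ) • M + (2 : ℂ) • M := by
      intro M
      rw [← add_smul]
      norm_num
    rw [e6, e6]
    abel
  have e7 := congrArg (fun M => (1 / 4 : ℂ) • M) e3
  simp only [smul_smul] at e7
  norm_num at e7
  exact e7

theorem dzM_et (h : HV N O D H) (hO : IsOpen O) (hs : s ∈ O) :
    dzM (et D) s = th D s * et D s - et D s * th D s := by
  rw [h.dzM_et_neg hs, h.dzbM_th hO hs, neg_sub]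

theorem dzbM_et (h : HV N O D H) (hO : IsOpen O) (hs : s ∈ O) :
    dzbM (et D) s = adjH (H s) (dzM (th D) s) := by
  have hu := h.isUnit_det hs
  have hH := h.anH s hs
  have hth := h.rat_th hs
  have e1 : dzbM (et D) s = dzbM (fun x => (H x)⁻¹ * (th D x)ᴴ * H x) s := by
    refine dzbM_congr ?_
    filter_upwards [hO.mem_nhds hs] with x hx
    exact h.th_adj hO hx
  have e2 : et D s = (H s)⁻¹ * (th D s)ᴴ * H s := h.th_adj hO hs
  have hc : RAt (fun x => (th D x)ᴴ) s := rat_conjTranspose hth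
  rw [e1, dzbM_mul (rat_mul (rat_inv hH hu) hc) hH, dzbM_mul (rat_inv hH hu) hc,
    dzbM_inv hH hu, dzbM_conjTranspose, h.dzbM_H hs]
  have e3 : (H s)⁻¹ * -((2 : ℂ) • (H s * et D s)) * (H s)⁻¹ = -((2 : ℂ) • (et D s * (H s)⁻¹)) := by
    rw [mul_neg, mul_smul_comm, ← mul_assoc, Matrix.nonsing_inv_mul _ hu, one_mul, neg_mul,
      smul_mul_assoc]
  rw [e3, neg_neg, add_mul, smul_mul_assoc, smul_mul_assoc, mul_neg, mul_smul_comm, adjH]
  have e4 : et D s * (H s)⁻¹ * (th D s)ᴴ * H s = et D s * et D s := by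
    calc et D s * (H s)⁻¹ * (th D s)ᴴ * H s = et D s * ((H s)⁻¹ * (th D s)ᴴ * H s) := by
          simp only [mul_assoc]
      _ = et D s * et D s := by rw [← e2]
  have e5 : (H s)⁻¹ * (th D s)ᴴ * (H s * et D s) = et D s * et D s := by
    rw [← mul_assoc, ← e2]
  rw [e4, e5]
  abel

/-- `trace D²` is bounded. -/
theorem nsq_D (h : HV N O D H) (hs : s ∈ O) : nsq (H s) (D s) ≤ Fintype.card K * N ^ 2 := by
  have hu := h.isUnit_det hs
  have h1 : adjH (H s) (D s) = D s := by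
    rw [adjH, mul_assoc, ← h.adj s hs, ← mul_assoc, Matrix.nonsing_inv_mul _ hu, one_mul]
  obtain ⟨Q, d, hQ, hD, hd⟩ := h.spec s hs
  have h2 : D s * D s = Q * (diagonal fun i => ((d i) ^ 2 : ℂ)) * Q⁻¹ := by
    have h3 : (diagonal fun i => ((d i) ^ 2 : ℂ)) =
        diagonal (fun i => (d i : ℂ)) * diagonal (fun i => (d i : ℂ)) := by
      rw [diagonal_mul_diagonal]
      congr 1
      funext i
      ring
    rw [hD, h3]
    calc Q * diagonal (fun i => (d i : ℂ)) * Q⁻¹ * (Q * diagonal (fun i => (d i : ℂ)) * Q⁻¹)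
        = Q * diagonal (fun i => (d i : ℂ)) * (Q⁻¹ * Q) * diagonal (fun i => (d i : ℂ)) * Q⁻¹ := by
          simp only [mul_assoc]
      _ = _ := by
          rw [Matrix.nonsing_inv_mul _ hQ, mul_one]
          simp only [mul_assoc]
  have h3 : (D s * D s).trace = ((∑ i, (d i) ^ 2 : ℝ) : ℂ) := by
    rw [h2, trace_mul_comm, ← mul_assoc, Matrix.nonsing_inv_mul _ hQ, one_mul, trace_diagonal]
    push_cast
    rfl
  rw [nsq, h1, h3, Complex.ofReal_re]
  calc ∑ i, (d i) ^ 2 ≤ ∑ _i : K, N ^ 2 := by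
        refine Finset.sum_le_sum fun i _ => ?_
        rw [← sq_abs]
        exact pow_le_pow_left₀ (abs_nonneg _) (hd i) 2
    _ = Fintype.card K * N ^ 2 := by
        rw [Finset.sum_const, Finset.card_univ, nsmul_eq_mul]

end HV

end Pool.Agent.Helper79.FX
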