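import Pool.Agent.Helper79.FX.HVRho

/-!
# FX-06: the Gram determinant of a flat subspace

`G = Bᴴ H B` (positive definite: `hB` and `PosDef`), `u = log det G`, `Π = B G⁻¹ Bᴴ H`: `Π Π = Π`, `adjH H Π = Π`, `Π B = B`, `trace Π = k`.
* `rdz_ug`: `dz det G = det G trace (G⁻¹ Bᴴ (∂H) B)` (`dz_det`), `det G` is real and positive, `∂H = -2 H θ`: `∂u = -2 trace (θ Π)`.
* `|∂u|² ≤ 4 nsq θ nsq Π = 4 ρ k` (`cauchy`; `nsq H Π = trace (Π Π) = trace Π = k`).
* `dzM_PiM`: `∂G = Bᴴ ∂H B = -2 Bᴴ H θ B`; `∂(B G⁻¹ Bᴴ H) = -B G⁻¹ (∂G) G⁻¹ Bᴴ H + B G⁻¹ Bᴴ ∂H = 2 Π θ Π - 2 Π θ`. The same for `∂̄`.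
* `lap_ug`: `∂̄(-2 trace (θ Π)) = -2 trace ((η θ - θ η) Π) - 2 trace (θ ∂̄Π)`, `∂̄Π = -2 Π η (1 - Π)`. With `Π' = 1 - Π`, `a = nsq (Π θ Π')`,
  `b = nsq (Π' θ Π)`, `c = nsq (Π θ Π)`: `trace (θ η Π) = trace (Π θ η Π) = nsq (Π θ) = c + a`, `trace (η θ Π) = nsq (η Π)ᴬ...`: `trace (Π η θ Π) = nsq (θ Π) = c + b`
  (`adjH (Π θ) = η Π`, `adjH (θ Π) = Π η`), `trace (θ Π η Π') = trace (Π' θ Π η Π') = nsq (Π' θ Π) = b`. So
  `∂̄∂u = -2 (c + b) + 2 (c + a) + 4 b = 2 a + 2 b`.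
* `comm_of_lap`: `a = b = 0`, so `Π θ Π' = 0`, `Π' θ Π = 0` (`nsq_eq_zero`), so `Π θ = Π θ Π = θ Π`; the same for `η = adjH θ` (take adjoints).
-/

namespace Pool.Agent.Helper79.FX

open Matrix
open scoped ComplexOrder

variable {K : Type} [Fintype K] [DecidableEq K] {N : ℝ} {O : Set ℂ} {D H : ℂ → Matrix K K ℂ} {s : ℂ}
  {k : ℕ} {B : Matrix K (Fin k) ℂ}

/-- The logarithm of the Gram determinant of the columns of `B` for the metric `H`. -/
noncomputable def lg (B : Matrix K (Fin k) ℂ) (H : Matrix K K ℂ) : ℝ := Real.log (Bᴴ * H * B).det.re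

/-- The orthogonal projection onto the span of the columns of `B` for the metric `H`. -/
noncomputable def PiM (B : Matrix K (Fin k) ℂ) (H : Matrix K K ℂ) : Matrix K K ℂ :=
  B * (Bᴴ * H * B)⁻¹ * Bᴴ * H

theorem gram_pos (hB : ∀ v : Fin k → ℂ, B *ᵥ v = 0 → v = 0) {H : Matrix K K ℂ} (hH : H.PosDef) :
    (Bᴴ * H * B).PosDef := by
  refine hH.conjTranspose_mul_mul_same ?_
  intro x y hxy
  have h1 : B *ᵥ (x - y) = 0 := by
    rw [Matrix.mulVec_sub]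
    exact sub_eq_zero.mpr hxy
  exact sub_eq_zero.mp (hB _ h1)

private theorem gram_unit (hB : ∀ v : Fin k → ℂ, B *ᵥ v = 0 → v = 0) {H : Matrix K K ℂ}
    (hH : H.PosDef) : IsUnit (Bᴴ * H * B).det :=
  (Matrix.isUnit_iff_isUnit_det _).mp (gram_pos hB hH).isUnit

private theorem gram_det (hB : ∀ v : Fin k → ℂ, B *ᵥ v = 0 → v = 0) {H : Matrix K K ℂ}
    (hH : H.PosDef) : 0 < (Bᴴ * H * B).det.re ∧
      (((Bᴴ * H * B).det.re : ℝ) : ℂ) = (Bᴴ * H * B).det := by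
  have h1 := (gram_pos hB hH).det_pos
  rw [Complex.lt_def] at h1
  refine ⟨h1.1, ?_⟩
  apply Complex.ext
  · simp
  · rw [Complex.ofReal_im]
    exact h1.2

theorem PiM_idem (hB : ∀ v : Fin k → ℂ, B *ᵥ v = 0 → v = 0) {H : Matrix K K ℂ} (hH : H.PosDef) :
    PiM B H * PiM B H = PiM B H := by
  have hu := gram_unit hB hH
  calc PiM B H * PiM B H
      = B * ((Bᴴ * H * B)⁻¹ * (Bᴴ * H * B)) * (Bᴴ * H * B)⁻¹ * Bᴴ * H := by
        simp only [PiM, Matrix.mul_assoc]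
    _ = PiM B H := by
        rw [Matrix.nonsing_inv_mul _ hu, Matrix.mul_one]
        rfl

theorem PiM_adj (hB : ∀ v : Fin k → ℂ, B *ᵥ v = 0 → v = 0) {H : Matrix K K ℂ} (hH : H.PosDef) :
    adjH H (PiM B H) = PiM B H := by
  have hG : (Bᴴ * H * B)ᴴ = Bᴴ * H * B := (gram_pos hB hH).isHermitian.eq
  have hHH : Hᴴ = H := hH.isHermitian.eq
  have hu : IsUnit H.det := (Matrix.isUnit_iff_isUnit_det _).mp hH.isUnit
  have h1 : (PiM B H)ᴴ = H * (B * (Bᴴ * H * B)⁻¹ * Bᴴ) := by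
    rw [PiM, Matrix.conjTranspose_mul, Matrix.conjTranspose_mul, Matrix.conjTranspose_mul,
      Matrix.conjTranspose_conjTranspose, Matrix.conjTranspose_nonsing_inv, hG, hHH]
    simp only [Matrix.mul_assoc]
  rw [adjH, h1, ← Matrix.mul_assoc, Matrix.nonsing_inv_mul _ hu, Matrix.one_mul]
  rfl

theorem PiM_B (hB : ∀ v : Fin k → ℂ, B *ᵥ v = 0 → v = 0) {H : Matrix K K ℂ} (hH : H.PosDef) :
    PiM B H * B = B := by
  have hu := gram_unit hB hH
  calc PiM B H * B = B * ((Bᴴ * H * B)⁻¹ * (Bᴴ * H * B)) := by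
        simp only [PiM, Matrix.mul_assoc]
    _ = B := by rw [Matrix.nonsing_inv_mul _ hu, Matrix.mul_one]

private theorem PiM_trace (hB : ∀ v : Fin k → ℂ, B *ᵥ v = 0 → v = 0) {H : Matrix K K ℂ}
    (hH : H.PosDef) : (PiM B H).trace = k := by
  have hu := gram_unit hB hH
  have h1 : PiM B H = B * ((Bᴴ * H * B)⁻¹ * Bᴴ * H) := by
    simp only [PiM, Matrix.mul_assoc]
  have h2 : (Bᴴ * H * B)⁻¹ * Bᴴ * H * B = (Bᴴ * H * B)⁻¹ * (Bᴴ * H * B) := by
    simp only [Matrix.mul_assoc]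
  rw [h1, Matrix.trace_mul_comm, h2, Matrix.nonsing_inv_mul _ hu, Matrix.trace_one,
    Fintype.card_fin]

private theorem HV.rat_G (h : HV N O D H) (B : Matrix K (Fin k) ℂ) (hs : s ∈ O) :
    RAt (fun x => Bᴴ * H x * B) s :=
  rat_mul (rat_mul (rat_const _) (h.anH s hs)) (rat_const _)

private theorem HV.g_an (h : HV N O D H) (B : Matrix K (Fin k) ℂ) (hs : s ∈ O) :
    AnalyticAt ℝ (fun x => (Bᴴ * H x * B).det.re) s :=
  (Complex.reCLM.analyticAt _).comp (analyticAt_det (h.rat_G B hs))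

theorem HV.ug_an (h : HV N O D H) (hB : ∀ v : Fin k → ℂ, B *ᵥ v = 0 → v = 0) (hs : s ∈ O) :
    AnalyticAt ℝ (fun x => lg B (H x)) s :=
  AnalyticAt.comp (g := Real.log) (f := fun x => (Bᴴ * H x * B).det.re)
    (analyticAt_log (gram_det hB (h.pos s hs)).1) (h.g_an B hs)

theorem HV.rat_PiM (h : HV N O D H) (hB : ∀ v : Fin k → ℂ, B *ᵥ v = 0 → v = 0) (hs : s ∈ O) :
    RAt (fun x => PiM B (H x)) s :=
  rat_mul (rat_mul (rat_mul (rat_const _) (rat_inv (h.rat_G B hs) (gram_unit hB (h.pos s hs))))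
    (rat_const _)) (h.anH s hs)

private theorem HV.dzM_G (h : HV N O D H) (B : Matrix K (Fin k) ℂ) (hs : s ∈ O) :
    dzM (fun x => Bᴴ * H x * B) s = -((2 : ℂ) • (Bᴴ * H s * th D s * B)) := by
  have h1 := h.anH s hs
  rw [dzM_mul (rat_mul (rat_const _) h1) (rat_const _), dzM_mul (rat_const _) h1, dzM_const,
    dzM_const, h.dzM_H hs, Matrix.zero_mul, zero_add, Matrix.mul_zero, add_zero, Matrix.mul_neg,
    Matrix.neg_mul, Matrix.mul_smul, Matrix.smul_mul]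
  simp only [Matrix.mul_assoc]

private theorem HV.dzbM_G (h : HV N O D H) (B : Matrix K (Fin k) ℂ) (hs : s ∈ O) :
    dzbM (fun x => Bᴴ * H x * B) s = -((2 : ℂ) • (Bᴴ * H s * et D s * B)) := by
  have h1 := h.anH s hs
  rw [dzbM_mul (rat_mul (rat_const _) h1) (rat_const _), dzbM_mul (rat_const _) h1, dzbM_const,
    dzbM_const, h.dzbM_H hs, Matrix.zero_mul, zero_add, Matrix.mul_zero, add_zero, Matrix.mul_neg,
    Matrix.neg_mul, Matrix.mul_smul, Matrix.smul_mul]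
  simp only [Matrix.mul_assoc]

theorem HV.rdz_ug (h : HV N O D H) (hO : IsOpen O) (hB : ∀ v : Fin k → ℂ, B *ᵥ v = 0 → v = 0)
    (hs : s ∈ O) :
    rdz (fun x => lg B (H x)) s = -2 * (th D s * PiM B (H s)).trace := by
  obtain ⟨hpos, hre⟩ := gram_det hB (h.pos s hs)
  have hu := gram_unit hB (h.pos s hs)
  have h1 : rdz (fun x => lg B (H x)) s =
      rdz (fun x => (Bᴴ * H x * B).det.re) s / ((Bᴴ * H s * B).det.re : ℝ) :=
    rdz_log (h.g_an B hs) hpos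
  have h2 : (fun x => (((Bᴴ * H x * B).det.re : ℝ) : ℂ)) =ᶠ[nhds s]
      fun x => (Bᴴ * H x * B).det := by
    filter_upwards [hO.mem_nhds hs] with x hx
    exact (gram_det hB (h.pos x hx)).2
  have h3 : ((Bᴴ * H s * B)⁻¹ * (Bᴴ * H s * th D s * B)).trace = (th D s * PiM B (H s)).trace := by
    have e1 : (Bᴴ * H s * B)⁻¹ * (Bᴴ * H s * th D s * B) =
        ((Bᴴ * H s * B)⁻¹ * Bᴴ * H s * th D s) * B := by
      simp only [Matrix.mul_assoc]
    have e2 : B * ((Bᴴ * H s * B)⁻¹ * Bᴴ * H s * th D s) = PiM B (H s) * th D s := by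
      simp only [PiM, Matrix.mul_assoc]
    rw [e1, Matrix.trace_mul_comm, e2, Matrix.trace_mul_comm]
  rw [h1, rdz, dz_congr h2, dz_det (h.rat_G B hs) hu, h.dzM_G B hs, hre, Matrix.mul_neg,
    Matrix.mul_smul, Matrix.trace_neg, Matrix.trace_smul, h3, smul_eq_mul]
  have h4 := hu.ne_zero
  field_simp

private theorem HV.nsq_PiM (h : HV N O D H) (hB : ∀ v : Fin k → ℂ, B *ᵥ v = 0 → v = 0)
    (hs : s ∈ O) : nsq (H s) (PiM B (H s)) = k := by
  rw [nsq, PiM_adj hB (h.pos s hs), PiM_idem hB (h.pos s hs), PiM_trace hB (h.pos s hs)]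
  simp

theorem HV.grad_ug (h : HV N O D H) (hO : IsOpen O) (hB : ∀ v : Fin k → ℂ, B *ᵥ v = 0 → v = 0)
    (hs : s ∈ O) : ‖rdz (fun x => lg B (H x)) s‖ ^ 2 ≤ 4 * k * rho D s := by
  have h1 := cauchy (X := th D s) (Y := PiM B (H s)) (h.pos s hs)
  rw [h.nsq_PiM hB hs, ← h.rho_eq hO hs] at h1
  rw [h.rdz_ug hO hB hs, norm_mul, mul_pow]
  have h2 : ‖(-2 : ℂ)‖ ^ 2 = 4 := by
    rw [norm_neg, Complex.norm_ofNat]
    norm_num
  rw [h2]
  linarith

theorem HV.dzM_PiM (h : HV N O D H) (hB : ∀ v : Fin k → ℂ, B *ᵥ v = 0 → v = 0) (hs : s ∈ O) :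
    dzM (fun x => PiM B (H x)) s = -((2 : ℂ) • (PiM B (H s) * th D s * (1 - PiM B (H s)))) := by
  have hu := gram_unit hB (h.pos s hs)
  have hG := h.rat_G B hs
  have hi := rat_inv hG hu
  have hH := h.anH s hs
  have h1 : dzM (fun x => PiM B (H x)) s =
      B * -((Bᴴ * H s * B)⁻¹ * -((2 : ℂ) • (Bᴴ * H s * th D s * B)) * (Bᴴ * H s * B)⁻¹) * Bᴴ * H s +
        B * (Bᴴ * H s * B)⁻¹ * Bᴴ * -((2 : ℂ) • (H s * th D s)) := by
    have e1 : dzM (fun x => PiM B (H x)) s =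
        dzM (fun x => B * (Bᴴ * H x * B)⁻¹ * Bᴴ * H x) s := rfl
    rw [e1, dzM_mul (rat_mul (rat_mul (rat_const _) hi) (rat_const _)) hH,
      dzM_mul (rat_mul (rat_const _) hi) (rat_const _), dzM_mul (rat_const _) hi, dzM_const,
      dzM_const, dzM_inv hG hu, h.dzM_G B hs, h.dzM_H hs, Matrix.zero_mul, zero_add,
      Matrix.mul_zero, add_zero]
  have h2 : PiM B (H s) * th D s * PiM B (H s) =
      B * ((Bᴴ * H s * B)⁻¹ * (Bᴴ * H s * th D s * B) * (Bᴴ * H s * B)⁻¹) * Bᴴ * H s := by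
    simp only [PiM, Matrix.mul_assoc]
  have h3 : PiM B (H s) * th D s = B * (Bᴴ * H s * B)⁻¹ * Bᴴ * (H s * th D s) := by
    simp only [PiM, Matrix.mul_assoc]
  rw [h1, Matrix.mul_sub, Matrix.mul_one, h2, h3]
  simp only [Matrix.mul_neg, Matrix.neg_mul, neg_neg, Matrix.mul_smul, Matrix.smul_mul, smul_sub,
    neg_sub]
  abel

theorem HV.dzbM_PiM (h : HV N O D H) (hB : ∀ v : Fin k → ℂ, B *ᵥ v = 0 → v = 0) (hs : s ∈ O) :
    dzbM (fun x => PiM B (H x)) s = -((2 : ℂ) • (PiM B (H s) * et D s * (1 - PiM B (H s)))) := by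
  have hu := gram_unit hB (h.pos s hs)
  have hG := h.rat_G B hs
  have hi := rat_inv hG hu
  have hH := h.anH s hs
  have h1 : dzbM (fun x => PiM B (H x)) s =
      B * -((Bᴴ * H s * B)⁻¹ * -((2 : ℂ) • (Bᴴ * H s * et D s * B)) * (Bᴴ * H s * B)⁻¹) * Bᴴ * H s +
        B * (Bᴴ * H s * B)⁻¹ * Bᴴ * -((2 : ℂ) • (H s * et D s)) := by
    have e1 : dzbM (fun x => PiM B (H x)) s =
        dzbM (fun x => B * (Bᴴ * H x * B)⁻¹ * Bᴴ * H x) s := rfl
    rw [e1, dzbM_mul (rat_mul (rat_mul (rat_const _) hi) (rat_const _)) hH,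
      dzbM_mul (rat_mul (rat_const _) hi) (rat_const _), dzbM_mul (rat_const _) hi, dzbM_const,
      dzbM_const, dzbM_inv hG hu, h.dzbM_G B hs, h.dzbM_H hs, Matrix.zero_mul, zero_add,
      Matrix.mul_zero, add_zero]
  have h2 : PiM B (H s) * et D s * PiM B (H s) =
      B * ((Bᴴ * H s * B)⁻¹ * (Bᴴ * H s * et D s * B) * (Bᴴ * H s * B)⁻¹) * Bᴴ * H s := by
    simp only [PiM, Matrix.mul_assoc]
  have h3 : PiM B (H s) * et D s = B * (Bᴴ * H s * B)⁻¹ * Bᴴ * (H s * et D s) := by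
    simp only [PiM, Matrix.mul_assoc]
  rw [h1, Matrix.mul_sub, Matrix.mul_one, h2, h3]
  simp only [Matrix.mul_neg, Matrix.neg_mul, neg_neg, Matrix.mul_smul, Matrix.smul_mul, smul_sub,
    neg_sub]
  abel

private theorem nsq_formula {Hm Pm T E : Matrix K K ℂ} (hH : Hm.PosDef) (hP : Pm * Pm = Pm)
    (hPa : adjH Hm Pm = Pm) (hT : adjH Hm T = E) (hE : adjH Hm E = T) :
    (-2 : ℂ) * ((E * T - T * E) * Pm + T * -((2 : ℂ) • (Pm * E * (1 - Pm)))).trace =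
      ((2 * nsq Hm (Pm * T * (1 - Pm)) + 2 * nsq Hm ((1 - Pm) * T * Pm) : ℝ) : ℂ) := by
  have hu : IsUnit Hm.det := (Matrix.isUnit_iff_isUnit_det _).mp hH.isUnit
  have hsub : ∀ X Y : Matrix K K ℂ, adjH Hm (X - Y) = adjH Hm X - adjH Hm Y := by
    intro X Y
    unfold adjH
    rw [Matrix.conjTranspose_sub, mul_sub, sub_mul]
  have hone : adjH Hm (1 : Matrix K K ℂ) = 1 := by
    unfold adjH
    rw [Matrix.conjTranspose_one, Matrix.mul_one, Matrix.nonsing_inv_mul _ hu]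
  have hQa : adjH Hm (1 - Pm) = 1 - Pm := by rw [hsub, hone, hPa]
  have hQ : (1 - Pm) * (1 - Pm) = 1 - Pm := by
    rw [mul_sub, mul_one, sub_mul, one_mul, hP, sub_self, sub_zero]
  have ha : ((nsq Hm (Pm * T * (1 - Pm)) : ℝ) : ℂ) = (T * E * Pm).trace - (T * Pm * E * Pm).trace := by
    rw [← nsq_coe hH, adjH_mul hH, adjH_mul hH, hQa, hPa, hT]
    have e1 : Pm * T * (1 - Pm) * ((1 - Pm) * (E * Pm)) =
        Pm * (T * ((1 - Pm) * (1 - Pm)) * E * Pm) := by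
      simp only [Matrix.mul_assoc]
    have e2 : T * (1 - Pm) * E * Pm * Pm = T * E * Pm - T * Pm * E * Pm := by
      rw [Matrix.mul_assoc _ Pm Pm, hP, mul_sub, mul_one, sub_mul, sub_mul]
    rw [e1, hQ, Matrix.trace_mul_comm, e2, Matrix.trace_sub]
  have hb : ((nsq Hm ((1 - Pm) * T * Pm) : ℝ) : ℂ) = (T * Pm * E).trace - (T * Pm * E * Pm).trace := by
    rw [← nsq_coe hH, adjH_mul hH, adjH_mul hH, hQa, hPa, hT]
    have e1 : (1 - Pm) * T * Pm * (Pm * (E * (1 - Pm))) =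
        (1 - Pm) * (T * (Pm * Pm) * E * (1 - Pm)) := by
      simp only [Matrix.mul_assoc]
    have e2 : T * Pm * E * (1 - Pm) * (1 - Pm) = T * Pm * E - T * Pm * E * Pm := by
      rw [Matrix.mul_assoc _ (1 - Pm) (1 - Pm), hQ, mul_sub, mul_one]
    rw [e1, hP, Matrix.trace_mul_comm, e2, Matrix.trace_sub]
  have hc : (E * T * Pm).trace = (T * Pm * E).trace := by
    rw [Matrix.mul_assoc, Matrix.trace_mul_comm]
  have hd : (T * (Pm * E * (1 - Pm))).trace = (T * Pm * E).trace - (T * Pm * E * Pm).trace := by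
    rw [← Matrix.trace_sub]
    congr 1
    rw [mul_sub, mul_one, mul_sub]
    simp only [Matrix.mul_assoc]
  push_cast
  rw [ha, hb, sub_mul, Matrix.mul_neg, Matrix.mul_smul, Matrix.trace_add, Matrix.trace_sub,
    Matrix.trace_neg, Matrix.trace_smul, smul_eq_mul, hc, hd]
  ring

theorem HV.lap_ug (h : HV N O D H) (hO : IsOpen O) (hB : ∀ v : Fin k → ℂ, B *ᵥ v = 0 → v = 0)
    (hs : s ∈ O) : Lap (fun x => lg B (H x)) s =
      2 * nsq (H s) (PiM B (H s) * th D s * (1 - PiM B (H s))) +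
        2 * nsq (H s) ((1 - PiM B (H s)) * th D s * PiM B (H s)) := by
  have hp := h.pos s hs
  have rt := h.rat_th hs
  have rP := h.rat_PiM hB hs
  have h1 : rdz (fun x => lg B (H x)) =ᶠ[nhds s]
      fun x => -2 * (th D x * PiM B (H x)).trace := by
    filter_upwards [hO.mem_nhds hs] with x hx
    exact h.rdz_ug hO hB hx
  have hT := h.th_adj hO hs
  have hE : adjH (H s) (et D s) = th D s := by rw [hT, adjH_adjH hp]
  have h2 := nsq_formula hp (PiM_idem hB hp) (PiM_adj hB hp) hT.symm hE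
  have h3 : dzb (rdz (fun x => lg B (H x))) s =
      ((2 * nsq (H s) (PiM B (H s) * th D s * (1 - PiM B (H s))) +
        2 * nsq (H s) ((1 - PiM B (H s)) * th D s * PiM B (H s)) : ℝ) : ℂ) := by
    rw [← h2, dzb_congr h1, dzb_mul (differentiableAt_const _)
      (analyticAt_trace (rat_mul rt rP)).differentiableAt, dzb_const, zero_mul, zero_add,
      dzb_trace (rat_mul rt rP), dzbM_mul rt rP, h.dzbM_th hO hs, h.dzbM_PiM hB hs]
  rw [Lap, h3, Complex.ofReal_re]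

private theorem comm_aux {Pm T : Matrix K K ℂ} (h1 : Pm * T * (1 - Pm) = 0)
    (h2 : (1 - Pm) * T * Pm = 0) : Pm * T = T * Pm := by
  rw [mul_sub, mul_one, sub_eq_zero] at h1
  rw [sub_mul, one_mul, sub_mul, sub_eq_zero] at h2
  rw [h1, h2]

theorem HV.comm_of_lap (h : HV N O D H) (hO : IsOpen O) (hB : ∀ v : Fin k → ℂ, B *ᵥ v = 0 → v = 0)
    (hs : s ∈ O) (h0 : Lap (fun x => lg B (H x)) s = 0) :
    PiM B (H s) * th D s = th D s * PiM B (H s) ∧ PiM B (H s) * et D s = et D s * PiM B (H s) := by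
  have hp := h.pos s hs
  rw [h.lap_ug hO hB hs] at h0
  have ha := nsq_nonneg (X := PiM B (H s) * th D s * (1 - PiM B (H s))) hp
  have hb := nsq_nonneg (X := (1 - PiM B (H s)) * th D s * PiM B (H s)) hp
  have h1 := nsq_eq_zero hp (X := PiM B (H s) * th D s * (1 - PiM B (H s))) (by linarith)
  have h2 := nsq_eq_zero hp (X := (1 - PiM B (H s)) * th D s * PiM B (H s)) (by linarith)
  have h3 := comm_aux h1 h2
  refine ⟨h3, ?_⟩
  have h4 := congrArg (adjH (H s)) h3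
  rw [adjH_mul hp, adjH_mul hp, PiM_adj hB hp, ← h.th_adj hO hs] at h4
  exact h4.symm

end Pool.Agent.Helper79.FX
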