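import Pool.Agent.Helper79.FX.HV

/-!
# FX-05: the curvature of the energy density

`ρ = trace (θ η) = nsq H θ` (`th_adj`). With `X = η θ - θ η`:
* `∂ρ = trace (∂θ η) + trace (θ ∂η) = trace (∂θ η)`, since `trace (θ (θ η - η θ)) = 0`.
* `∂̄∂ρ = trace ((∂̄∂θ) η) + trace (∂θ ∂̄η)`; `∂̄∂θ = ∂∂̄θ` (`dzM_dzbM` for `th D`) `= ∂(η θ - θ η) = [∂η, θ] + [η, ∂θ]`, `∂η = θ η - η θ = -X`,
  `trace ((-X θ + θ X) η) = trace (X (η θ - θ η)) = trace (X X)` and `trace ([η, ∂θ] η) = 0`. `∂̄η = adjH H (∂θ)` (`dzbM_et`).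
  So `∂̄∂ρ = trace (X X) + nsq H (∂θ)`, and `adjH H X = X`, so `trace (X X) = nsq H X`.
* `|∂ρ|² ≤ nsq (∂θ) nsq η = nsq (∂θ) ρ` (`cauchy`, `nsq_adjH`).
* `trace (D X) = trace (D η θ) - trace (D θ η) = -trace ((D θ - θ D) η) = -2 ρ`, so `4 ρ² ≤ nsq D nsq X ≤ card K N² nsq X` (`cauchy`, `nsq_D`).
* `lap_log`: `Lap log ρ = (∂̄∂ρ)/ρ - |∂ρ|²/ρ² ≥ nsq X / ρ`, and `4 ρ ≤ card K N² (nsq X / ρ)`.
-/

namespace Pool.Agent.Helper79.FX

open Matrix
open scoped ComplexOrder

variable {K : Type} [Fintype K] [DecidableEq K] {N : ℝ} {O : Set ℂ} {D H : ℂ → Matrix K K ℂ} {s : ℂ}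

/-- The energy density. -/
noncomputable def rho (D : ℂ → Matrix K K ℂ) (s : ℂ) : ℝ := (th D s * et D s).trace.re

theorem HV.rho_an (h : HV N O D H) (hs : s ∈ O) : AnalyticAt ℝ (rho D) s := by
  have h1 : AnalyticAt ℝ (fun x => (th D x * et D x).trace) s :=
    analyticAt_trace (rat_mul (h.rat_th hs) (h.rat_et hs))
  exact (Complex.reCLM.analyticAt _).comp h1

theorem HV.rho_eq (h : HV N O D H) (hO : IsOpen O) (hs : s ∈ O) : rho D s = nsq (H s) (th D s) := by
  unfold rho nsq
  rw [← h.th_adj hO hs]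

theorem HV.rho_nonneg (h : HV N O D H) (hO : IsOpen O) (hs : s ∈ O) : 0 ≤ rho D s := by
  rw [h.rho_eq hO hs]
  exact nsq_nonneg (h.pos s hs)

private theorem HV.rho_coe (h : HV N O D H) (hO : IsOpen O) (hs : s ∈ O) :
    ((rho D s : ℝ) : ℂ) = (th D s * et D s).trace := by
  have h1 := nsq_coe (X := th D s) (h.pos s hs)
  rw [h.rho_eq hO hs, ← h1, ← h.th_adj hO hs]

private theorem HV.rdz_rho (h : HV N O D H) (hO : IsOpen O) (hs : s ∈ O) :
    rdz (rho D) s = (dzM (th D) s * et D s).trace := by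
  have h1 : (fun x => ((rho D x : ℝ) : ℂ)) =ᶠ[nhds s] fun x => (th D x * et D x).trace := by
    filter_upwards [hO.mem_nhds hs] with x hx
    exact h.rho_coe hO hx
  unfold rdz
  rw [dz_congr h1, dz_trace (rat_mul (h.rat_th hs) (h.rat_et hs)),
    dzM_mul (h.rat_th hs) (h.rat_et hs), h.dzM_et hO hs, Matrix.trace_add]
  have h2 : (th D s * (th D s * et D s - et D s * th D s)).trace = 0 := by
    rw [mul_sub, Matrix.trace_sub, ← mul_assoc, ← mul_assoc,
      Matrix.trace_mul_comm (th D s * et D s) (th D s), mul_assoc, sub_self]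
  rw [h2, add_zero]

private theorem HV.lap_rho_eq (h : HV N O D H) (hO : IsOpen O) (hs : s ∈ O) :
    Lap (rho D) s = nsq (H s) (et D s * th D s - th D s * et D s) +
      nsq (H s) (dzM (th D) s) := by
  have hp := h.pos s hs
  have h1 : rdz (rho D) =ᶠ[nhds s] fun x => (dzM (th D) x * et D x).trace := by
    filter_upwards [hO.mem_nhds hs] with x hx
    exact h.rdz_rho hO hx
  have h2 : dzbM (th D) =ᶠ[nhds s] fun x => et D x * th D x - th D x * et D x := by
    filter_upwards [hO.mem_nhds hs] with x hx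
    exact h.dzbM_th hO hx
  have rt := h.rat_th hs
  have re := h.rat_et hs
  have h3 : dzbM (dzM (th D)) s = (dzM (et D) s * th D s + et D s * dzM (th D) s) -
      (dzM (th D) s * et D s + th D s * dzM (et D) s) := by
    rw [← dzM_dzbM rt, dzM_congr h2, dzM_sub (rat_mul re rt) (rat_mul rt re), dzM_mul re rt,
      dzM_mul rt re]
  set θ := th D s with hθ
  set η := et D s with hη
  set T := dzM (th D) s with hT
  have hea : η = adjH (H s) θ := h.th_adj hO hs
  have hta : adjH (H s) η = θ := by rw [hea, adjH_adjH hp]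
  have hX : adjH (H s) (η * θ - θ * η) = η * θ - θ * η := by
    have e1 : adjH (H s) (η * θ) = η * θ := by
      rw [adjH_mul hp, hta, ← hea]
    have e2 : adjH (H s) (θ * η) = θ * η := by
      rw [adjH_mul hp, hta, ← hea]
    have e3 : adjH (H s) (η * θ - θ * η) = adjH (H s) (η * θ) - adjH (H s) (θ * η) := by
      unfold adjH
      rw [Matrix.conjTranspose_sub, mul_sub, sub_mul]
    rw [e3, e1, e2]
  have h4 : dzb (rdz (rho D)) s =
      ((nsq (H s) (η * θ - θ * η) + nsq (H s) T : ℝ) : ℂ) := by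
    rw [dzb_congr h1, dzb_trace (rat_mul (rat_dzM rt) re), dzbM_mul (rat_dzM rt) re, h3,
      h.dzM_et hO hs, h.dzbM_et hO hs, Matrix.trace_add]
    push_cast
    rw [← nsq_coe hp, ← nsq_coe hp, hX]
    congr 1
    have c1 : (η * T * η).trace = (T * η * η).trace := by
      rw [mul_assoc, Matrix.trace_mul_comm]
    have c2 : (θ * (θ * η - η * θ) * η).trace = ((θ * η - η * θ) * (η * θ)).trace := by
      rw [mul_assoc, Matrix.trace_mul_comm, mul_assoc]
    have c3 : ((θ * η - η * θ) * θ * η).trace = ((θ * η - η * θ) * (θ * η)).trace := by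
      rw [mul_assoc]
    rw [sub_mul, add_mul, add_mul, Matrix.trace_sub, Matrix.trace_add, Matrix.trace_add, c1, c2, c3]
    have c4 : (η * θ - θ * η) * (η * θ - θ * η) =
        (θ * η - η * θ) * (θ * η) - (θ * η - η * θ) * (η * θ) := by
      rw [← mul_sub, ← neg_sub (θ * η) (η * θ), neg_mul_neg]
    rw [c4, Matrix.trace_sub]
    ring
  unfold Lap
  rw [h4, Complex.ofReal_re]

/-- The curvature of the energy density. -/
theorem HV.lap_rho (h : HV N O D H) (hO : IsOpen O) (hs : s ∈ O) (hpos : 0 < rho D s) :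
    4 / (Fintype.card K * N ^ 2 + 1) * rho D s ≤ Lap (fun x => Real.log (rho D x)) s := by
  have hp := h.pos s hs
  rw [lap_log (h.rho_an hs) hpos, h.lap_rho_eq hO hs, h.rdz_rho hO hs]
  have hcoe := h.rho_coe hO hs
  have hea : et D s = adjH (H s) (th D s) := h.th_adj hO hs
  have hre := h.rho_eq hO hs
  have h1 : ‖(dzM (th D) s * et D s).trace‖ ^ 2 ≤ nsq (H s) (dzM (th D) s) * rho D s := by
    have h2 := cauchy (X := dzM (th D) s) (Y := et D s) hp
    have h3 : nsq (H s) (et D s) = rho D s := by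
      rw [hea, nsq_adjH hp, ← hre]
    rwa [h3] at h2
  have h5 : (D s * (et D s * th D s - th D s * et D s)).trace = -(2 * (rho D s : ℂ)) := by
    have b := h.brk_th hs
    have b2 : (D s * th D s * et D s).trace - (th D s * D s * et D s).trace =
        2 * (th D s * et D s).trace := by
      rw [← Matrix.trace_sub, ← sub_mul, b, smul_mul_assoc, Matrix.trace_smul, smul_eq_mul]
    have b3 : (th D s * D s * et D s).trace = (D s * et D s * th D s).trace := by
      rw [mul_assoc, Matrix.trace_mul_comm]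
    rw [hcoe, mul_sub, Matrix.trace_sub, ← mul_assoc, ← mul_assoc, ← b3]
    linear_combination -b2
  have h6 := cauchy (X := D s) (Y := et D s * th D s - th D s * et D s) hp
  rw [h5, norm_neg, norm_mul, Complex.norm_real, Complex.norm_ofNat, Real.norm_eq_abs,
    abs_of_pos hpos] at h6
  have h7 := h.nsq_D hs
  set X := nsq (H s) (et D s * th D s - th D s * et D s) with hX
  set T := nsq (H s) (dzM (th D) s) with hT
  set r := rho D s with hr
  have hX0 : 0 ≤ X := nsq_nonneg hp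
  have h8 : 4 * r ^ 2 ≤ (Fintype.card K * N ^ 2 + 1) * X := by
    have := mul_le_mul_of_nonneg_right h7 hX0
    nlinarith
  have hc : (0 : ℝ) < Fintype.card K * N ^ 2 + 1 := by positivity
  have h9 : ‖(dzM (th D) s * et D s).trace‖ ^ 2 / r ^ 2 ≤ T / r := by
    rw [div_le_div_iff₀ (by positivity) hpos]
    nlinarith
  have h10 : 4 / (Fintype.card K * N ^ 2 + 1) * r ≤ X / r := by
    rw [div_mul_eq_mul_div, div_le_div_iff₀ hc hpos]
    nlinarith
  have h11 : (X + T) / r = X / r + T / r := add_div _ _ _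
  rw [h11]
  linarith

end Pool.Agent.Helper79.FX
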