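import Pool.Agent.Helper79.FX.HodgePt

/-!
# FX-11: variations of Hodge structure over a curve give `HV` and `HE`

`A = colsA lev p (P s)` is holomorphic (`P` is), `∂A = A'`, `∂̄A = 0`, `∂(Aᴴ) = 0`, `∂̄(Aᴴ) = A'ᴴ`; `G = Aᴴ Ψ A`, `Q = Qp`.
* `dzM_Qp`: `∂Q = A' G⁻¹ Aᴴ Ψ - A G⁻¹ (Aᴴ Ψ A') G⁻¹ Aᴴ Ψ = (1 - Q) A' G⁻¹ Aᴴ Ψ`, so `(1 - Q) ∂Q = ∂Q` and `∂Q * Q = ∂Q` (`Aᴴ Ψ Q = Aᴴ Ψ`).
* `dzbM_Qp`: `∂̄Q = A G⁻¹ A'ᴴ Ψ (1 - Q)`: `Q ∂̄Q = ∂̄Q`, `∂̄Q * Q = 0`.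
* Griffiths: `P (A' c)_x`: from `P A = ι` (the columns `lev ≤ p` of the identity) `P' A + P A' = 0`, so `P A' = -(P' P⁻¹) ι`: the entry `(x, y)` is `-(P' P⁻¹) x y`,
  zero if `lev y < lev x - 1`, so for `lev x > p + 1` (`lev y ≤ p`). So the columns of `A'` are in `N_(p+1)`: `Q_(p+1) A' = A'`.
  So `Q_(p+1) ∂Q_p = Q_(p+1) A' (..) - Q_(p+1) Q_p A' (..) = ∂Q_p` (`Q_(p+1) Q_p = Q_p`).
* `∂Q_p * Q_(p-1) = 0`: differentiate `Q_p Q_(p-1) = Q_(p-1)`: `∂Q_p Q_(p-1) + Q_p ∂Q_(p-1) = ∂Q_(p-1)` and `Q_p ∂Q_(p-1) = ∂Q_(p-1)` (the previous line for `p - 1`).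
  So `∂Q_p = π_(p+1) ∂Q_p π_p` with `π_q = Q_q - Q_(q-1)`.
* For `∂̄`: `∂̄Q_p = (Ψᴴ)⁻¹ (∂Q_p)ᴴ Ψᴴ`, or the same arguments with the adjoints: `∂̄Q_p = π_p ∂̄Q_p π_(p+1)`.
* With a basis `Q`, `deg` at the point `s`: `π_q = sc Q deg (if · = q)`, `D π_q = π_q D = (2 q - j) π_q`, `E π_q = π_q E = u ^ (2 q - j) π_q`. So
  `D ∂Q_p - ∂Q_p D = 2 ∂Q_p`, `E ∂Q_p = u ^ (2 p + 2 - j) ∂Q_p`, `E ∂̄Q_p = u ^ (2 p - j) ∂̄Q_p`, and
  `∂D = -2 ∑ ∂Q_p`, `θ = ∑ ∂Q_p`, `η = -∑ ∂̄Q_p`, `∂E = ∑ (u^(2p-j) - u^(2p+2-j)) ∂Q_p = (u⁻² - 1) E θ`,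
  `∂̄E = ∑ (u^(2p-j) - u^(2p+2-j)) ∂̄Q_p = (1 - u²) ∑ E ∂̄Q_p = (u² - 1) E η`. For `u = I`: `∂H = Ψ ∂E = -2 H θ = H ∂D`, `∂̄H = -2 H η = -H ∂̄D`.
(Checked numerically.)
-/

namespace Pool.Agent.Helper79.FX

open Matrix Pool.Agent.Helper79.HH Pool.Agent.Helper79.HJ
open scoped ComplexOrder

variable {r : ℕ}

/-- The period matrix `P` over the open set `O` of `ℂ` is that of a polarised variation of Hodge structure: `P` is holomorphic
and invertible, the Hodge structures are polarised, and `P' P⁻¹` lowers the Hodge filtration by at most one. -/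
structure VH (lev : Fin r → ℤ) (j : ℤ) (ψ : Matrix (Fin r) (Fin r) ℚ) (O : Set ℂ)
    (P : ℂ → Matrix (Fin r) (Fin r) ℂ) : Prop where
  hol : ∀ s ∈ O, ∀ x y, AnalyticAt ℂ (fun z => P z x y) s
  unit : ∀ s ∈ O, IsUnit (P s).det
  pol : ∀ s ∈ O, IsPolarized lev j ψ (P s)
  trans : ∀ s ∈ O, ∀ x y, lev y + 1 < lev x →
    ((Matrix.of fun x y => deriv (fun z => P z x y) s) * (P s)⁻¹) x y = 0

variable {lev : Fin r → ℤ} {j : ℤ} {ψ : Matrix (Fin r) (Fin r) ℚ} {O : Set ℂ}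
  {P : ℂ → Matrix (Fin r) (Fin r) ℂ}

private abbrev pi1 (p : ℤ) : ℤ → ℂ := fun q => if q ≤ p then 1 else 0

private theorem rat_P (h : VH lev j ψ O P) {s : ℂ} (hs : s ∈ O) : RAt P s :=
  rat_of_hol fun i k => h.hol s hs i k

private theorem rat_A (h : VH lev j ψ O P) {s : ℂ} (hs : s ∈ O) (p : ℤ) :
    RAt (fun z => colsA lev p (P z)) s :=
  rat_submatrix (rat_inv (rat_P h hs) (h.unit s hs)) id Subtype.val

private theorem dzbM_A (h : VH lev j ψ O P) {s : ℂ} (hs : s ∈ O) (p : ℤ) :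
    dzbM (fun z => colsA lev p (P z)) s = 0 := by
  have h1 : dzbM (fun z => colsA lev p (P z)) s =
      (dzbM (fun z => (P z)⁻¹) s).submatrix id Subtype.val := dzbM_submatrix (F := fun z => (P z)⁻¹) id Subtype.val
  have h2 : dzbM P s = 0 := dzbM_hol fun i k => (h.hol s hs i k).differentiableAt
  rw [h1, dzbM_inv (rat_P h hs) (h.unit s hs), h2, Matrix.mul_zero, Matrix.zero_mul, neg_zero]
  rfl

private theorem P_mul_dzM_A (h : VH lev j ψ O P) {s : ℂ} (hs : s ∈ O) (p : ℤ) (x : Fin r)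
    (hx : p + 1 < lev x) (y : {x : Fin r // lev x ≤ p}) :
    (P s * dzM (fun z => colsA lev p (P z)) s) x y = 0 := by
  have h1 : dzM (fun z => colsA lev p (P z)) s =
      (dzM (fun z => (P z)⁻¹) s).submatrix id Subtype.val := dzM_submatrix (F := fun z => (P z)⁻¹) id Subtype.val
  have h2 : dzM P s = Matrix.of fun x y => deriv (fun z => P z x y) s :=
    dzM_hol fun i k => (h.hol s hs i k).differentiableAt
  have h3 := h.trans s hs x y.1 (by have := y.2; omega)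
  rw [← h2] at h3
  have h4 : P s * (-((P s)⁻¹ * dzM P s * (P s)⁻¹)) = -(dzM P s * (P s)⁻¹) := by
    rw [Matrix.mul_neg, ← Matrix.mul_assoc, ← Matrix.mul_assoc, Matrix.mul_nonsing_inv _ (h.unit s hs),
      Matrix.one_mul]
  rw [h1, dzM_inv (rat_P h hs) (h.unit s hs)]
  have h5 : P s * ((-((P s)⁻¹ * dzM P s * (P s)⁻¹)).submatrix id Subtype.val :
      Matrix (Fin r) {x : Fin r // lev x ≤ p} ℂ) =
      (P s * (-((P s)⁻¹ * dzM P s * (P s)⁻¹))).submatrix id Subtype.val := by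
    ext a b
    simp only [Matrix.mul_apply, Matrix.submatrix_apply, id]
  rw [h5, h4, Matrix.submatrix_apply, Matrix.neg_apply, id, h3, neg_zero]

/-- The projection fixes the vectors of its part of the filtration. -/
private theorem Qp_fix {L : Type} [Fintype L] {P0 Q : Matrix (Fin r) (Fin r) ℂ} {deg : Fin r → ℤ}
    (hpol : IsPolarized lev j ψ P0) (hP : IsUnit P0.det) (hQu : IsUnit Q.det)
    (hQ : ∀ i, (fun x => Q x i) ∈ hodgePart lev j P0 (deg i)) (p : ℤ) (B : Matrix (Fin r) L ℂ)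
    (hB : ∀ x, p < lev x → ∀ y, (P0 * B) x y = 0) : Qp lev ψ p P0 * B = B := by
  rw [Qp_eq hpol hP hQu hQ]
  have h1 : diagonal (fun i => if deg i ≤ p then (1 : ℂ) else 0) * (Q⁻¹ * B) = Q⁻¹ * B := by
    ext i y
    rw [Matrix.diagonal_mul]
    by_cases hi : deg i ≤ p
    · rw [if_pos hi, one_mul]
    · rw [if_neg hi, zero_mul]
      have h2 := coord_of_filtration hpol hQu hQ (p := p) (v := fun x => B x y)
        (fun x hx => hB x hx y) i (by omega)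
      exact h2.symm
  unfold sc
  rw [Matrix.mul_assoc, Matrix.mul_assoc, h1, ← Matrix.mul_assoc, Matrix.mul_nonsing_inv _ hQu, Matrix.one_mul]

/-- The projections are self-adjoint for the Hermitian form. -/
private theorem Qp_adj {P0 Q : Matrix (Fin r) (Fin r) ℂ} {deg : Fin r → ℤ}
    (hpol : IsPolarized lev j ψ P0) (hP : IsUnit P0.det) (hQu : IsUnit Q.det)
    (hQ : ∀ i, (fun x => Q x i) ∈ hodgePart lev j P0 (deg i)) (p : ℤ) :
    (qc ψ)ᵀ * Qp lev ψ p P0 = (Qp lev ψ p P0)ᴴ * (qc ψ)ᵀ := by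
  rw [Qp_eq hpol hP hQu hQ]
  obtain ⟨E, hE⟩ : ∃ E : Matrix (Fin r) (Fin r) ℂ, E = diagonal (fun i => if deg i ≤ p then (1 : ℂ) else 0) :=
    ⟨_, rfl⟩
  have hEE : Eᴴ = E := by
    rw [hE, Matrix.diagonal_conjTranspose]
    congr 1
    funext i
    by_cases hi : deg i ≤ p
    · simp [hi]
    · simp [hi]
  have hG := homo_gram hpol hQ
  have h1 : Qᴴ * (qc ψ)ᵀ * Q = (Qᵀ * qc ψ * cj Q)ᵀ := by
    rw [Matrix.transpose_mul, Matrix.transpose_mul, Matrix.transpose_transpose, ← Matrix.mul_assoc]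
    rfl
  have h2 : Qᴴ * (qc ψ)ᵀ * Q * E = E * (Qᴴ * (qc ψ)ᵀ * Q) := by
    rw [h1, hE]
    ext i k
    rw [Matrix.mul_diagonal, Matrix.diagonal_mul, Matrix.transpose_apply]
    by_cases hik : deg k = deg i
    · rw [hik, mul_comm]
    · rw [hG k i hik, zero_mul, mul_zero]
  have hQ1 : Q * Q⁻¹ = 1 := Matrix.mul_nonsing_inv _ hQu
  have hQ2 : (Q⁻¹)ᴴ * Qᴴ = 1 := by
    rw [← Matrix.conjTranspose_mul, hQ1, Matrix.conjTranspose_one]
  have h3 : sc Q deg (fun q => if q ≤ p then (1 : ℂ) else 0) = Q * E * Q⁻¹ := by rw [hE]; rfl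
  rw [h3, Matrix.conjTranspose_mul, Matrix.conjTranspose_mul, hEE]
  calc (qc ψ)ᵀ * (Q * E * Q⁻¹) = ((Q⁻¹)ᴴ * Qᴴ) * ((qc ψ)ᵀ * (Q * E * Q⁻¹)) := by rw [hQ2, Matrix.one_mul]
    _ = (Q⁻¹)ᴴ * (Qᴴ * (qc ψ)ᵀ * Q * E) * Q⁻¹ := by simp only [Matrix.mul_assoc]
    _ = (Q⁻¹)ᴴ * (E * (Qᴴ * (qc ψ)ᵀ * Q)) * Q⁻¹ := by rw [h2]
    _ = (Q⁻¹)ᴴ * (E * Qᴴ) * (qc ψ)ᵀ * (Q * Q⁻¹) := by simp only [Matrix.mul_assoc]
    _ = (Q⁻¹)ᴴ * (E * Qᴴ) * (qc ψ)ᵀ := by rw [hQ1, Matrix.mul_one]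

private theorem P_mul_colsA {P0 : Matrix (Fin r) (Fin r) ℂ} (hP : IsUnit P0.det) (p : ℤ) (x : Fin r)
    (hx : p < lev x) (y : {x : Fin r // lev x ≤ p}) : (P0 * colsA lev p P0) x y = 0 := by
  have h5 : P0 * colsA lev p P0 = (P0 * P0⁻¹).submatrix id Subtype.val := by
    ext a b
    simp only [Matrix.mul_apply, Matrix.submatrix_apply, id, colsA]
  rw [h5, Matrix.mul_nonsing_inv _ hP, Matrix.submatrix_apply, id, Matrix.one_apply_ne]
  intro h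
  have := y.2
  rw [← h] at this
  omega

private theorem Qp_mul_le {P0 Q : Matrix (Fin r) (Fin r) ℂ} {deg : Fin r → ℤ}
    (hpol : IsPolarized lev j ψ P0) (hP : IsUnit P0.det) (hQu : IsUnit Q.det)
    (hQ : ∀ i, (fun x => Q x i) ∈ hodgePart lev j P0 (deg i)) {p q : ℤ} (hpq : p ≤ q) :
    Qp lev ψ q P0 * Qp lev ψ p P0 = Qp lev ψ p P0 ∧ Qp lev ψ p P0 * Qp lev ψ q P0 = Qp lev ψ p P0 := by
  rw [Qp_eq hpol hP hQu hQ p, Qp_eq hpol hP hQu hQ q, sc_mul hQu, sc_mul hQu]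
  constructor
  · congr 1
    funext x
    by_cases h1 : x ≤ p
    · rw [if_pos h1, if_pos (h1.trans hpq), one_mul]
    · rw [if_neg h1, mul_zero]
  · congr 1
    funext x
    by_cases h1 : x ≤ p
    · rw [if_pos h1, if_pos (h1.trans hpq), one_mul]
    · rw [if_neg h1, zero_mul]

/-- The derivatives of the projections: `∂Q = (1 - Q) W`, `∂̄Q = V (1 - Q)`. -/
private theorem dQ (h : VH lev j ψ O P) {s : ℂ} (hs : s ∈ O) (p : ℤ) :
    ∃ W V : Matrix (Fin r) (Fin r) ℂ,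
      dzM (fun z => Qp lev ψ p (P z)) s = W - Qp lev ψ p (P s) * W ∧
      dzbM (fun z => Qp lev ψ p (P z)) s = V - V * Qp lev ψ p (P s) ∧
      W * Qp lev ψ p (P s) = W ∧ Qp lev ψ p (P s) * V = V ∧
      Qp lev ψ (p + 1) (P s) * W = W ∧ V * Qp lev ψ (p + 1) (P s) = V := by
  obtain ⟨Q, deg, hQu, hQ⟩ := exists_basis (h.pol s hs).span
  obtain ⟨A, hA⟩ : ∃ A : ℂ → Matrix (Fin r) {x : Fin r // lev x ≤ p} ℂ, A = fun z => colsA lev p (P z) := ⟨_, rfl⟩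
  obtain ⟨Ψ, hΨ⟩ : ∃ Ψ : Matrix (Fin r) (Fin r) ℂ, Ψ = (qc ψ)ᵀ := ⟨_, rfl⟩
  have hrA : RAt A s := hA ▸ rat_A h hs p
  have hbA : dzbM A s = 0 := hA ▸ dzbM_A h hs p
  obtain ⟨A', hA'⟩ : ∃ A' : Matrix (Fin r) {x : Fin r // lev x ≤ p} ℂ, A' = dzM A s := ⟨_, rfl⟩
  have hG : IsUnit ((A s)ᴴ * Ψ * A s).det := by
    rw [hA, hΨ]
    exact gram_unit (h.pol s hs) (h.unit s hs) p
  have hrΨ : RAt (fun _ : ℂ => Ψ) s := rat_const Ψ
  have hrAh : RAt (fun z => (A z)ᴴ) s := rat_conjTranspose hrA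
  have hrAhΨ : RAt (fun z => (A z)ᴴ * Ψ) s := rat_mul hrAh hrΨ
  have hrG : RAt (fun z => (A z)ᴴ * Ψ * A z) s := rat_mul hrAhΨ hrA
  have hrGi : RAt (fun z => ((A z)ᴴ * Ψ * A z)⁻¹) s := rat_inv hrG hG
  have hrAG : RAt (fun z => A z * ((A z)ᴴ * Ψ * A z)⁻¹) s := rat_mul hrA hrGi
  have hrAGA : RAt (fun z => A z * ((A z)ᴴ * Ψ * A z)⁻¹ * (A z)ᴴ) s := rat_mul hrAG hrAh
  have dAh : dzM (fun z => (A z)ᴴ) s = 0 := by rw [dzM_conjTranspose, hbA, Matrix.conjTranspose_zero]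
  have dbAh : dzbM (fun z => (A z)ᴴ) s = A'ᴴ := by rw [dzbM_conjTranspose, hA']
  have dAhΨ : dzM (fun z => (A z)ᴴ * Ψ) s = 0 := by
    rw [dzM_mul hrAh hrΨ, dAh, dzM_const, Matrix.zero_mul, Matrix.mul_zero, add_zero]
  have dbAhΨ : dzbM (fun z => (A z)ᴴ * Ψ) s = A'ᴴ * Ψ := by
    rw [dzbM_mul hrAh hrΨ, dbAh, dzbM_const, Matrix.mul_zero, add_zero]
  have dG : dzM (fun z => (A z)ᴴ * Ψ * A z) s = (A s)ᴴ * Ψ * A' := by
    rw [dzM_mul hrAhΨ hrA, dAhΨ, ← hA', Matrix.zero_mul, zero_add]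
  have dbG : dzbM (fun z => (A z)ᴴ * Ψ * A z) s = A'ᴴ * Ψ * A s := by
    rw [dzbM_mul hrAhΨ hrA, dbAhΨ, hbA, Matrix.mul_zero, add_zero]
  have dGi := dzM_inv hrG hG
  have dbGi := dzbM_inv hrG hG
  rw [dG] at dGi
  rw [dbG] at dbGi
  have hQp : (fun z => Qp lev ψ p (P z)) = fun z => A z * ((A z)ᴴ * Ψ * A z)⁻¹ * (A z)ᴴ * Ψ := by
    rw [hA, hΨ]
    rfl
  have hQs : Qp lev ψ p (P s) = A s * ((A s)ᴴ * Ψ * A s)⁻¹ * (A s)ᴴ * Ψ := congrFun hQp s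
  obtain ⟨G, hGd⟩ : ∃ G : Matrix {x : Fin r // lev x ≤ p} {x : Fin r // lev x ≤ p} ℂ,
    G = (A s)ᴴ * Ψ * A s := ⟨_, rfl⟩
  rw [← hGd] at dGi dbGi hQs hG
  have e1 : (A s)ᴴ * Ψ * Qp lev ψ p (P s) = (A s)ᴴ * Ψ := by
    calc (A s)ᴴ * Ψ * Qp lev ψ p (P s) = ((A s)ᴴ * Ψ * A s) * G⁻¹ * ((A s)ᴴ * Ψ) := by
          rw [hQs]; simp only [Matrix.mul_assoc]
      _ = (A s)ᴴ * Ψ := by rw [← hGd, Matrix.mul_nonsing_inv _ hG, Matrix.one_mul]
  have e2 : Qp lev ψ p (P s) * A s = A s := by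
    calc Qp lev ψ p (P s) * A s = A s * (G⁻¹ * ((A s)ᴴ * Ψ * A s)) := by
          rw [hQs]; simp only [Matrix.mul_assoc]
      _ = A s := by rw [← hGd, Matrix.nonsing_inv_mul _ hG, Matrix.mul_one]
  have e3 : Qp lev ψ (p + 1) (P s) * A' = A' := by
    refine Qp_fix (h.pol s hs) (h.unit s hs) hQu hQ (p + 1) A' fun x hx y => ?_
    rw [hA', hA]
    exact P_mul_dzM_A h hs p x hx y
  have e4 : A'ᴴ * Ψ * Qp lev ψ (p + 1) (P s) = A'ᴴ * Ψ := by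
    rw [Matrix.mul_assoc, hΨ, Qp_adj (h.pol s hs) (h.unit s hs) hQu hQ (p + 1), ← Matrix.mul_assoc,
      ← Matrix.conjTranspose_mul, e3]
  refine ⟨A' * G⁻¹ * ((A s)ᴴ * Ψ), A s * G⁻¹ * (A'ᴴ * Ψ), ?_, ?_, ?_, ?_, ?_, ?_⟩
  · rw [hQp, dzM_mul hrAGA hrΨ, dzM_mul hrAG hrAh, dzM_mul hrA hrGi, dGi, dAh, dzM_const, ← hA', hQs, ← hGd]
    simp only [Matrix.mul_zero, add_zero, Matrix.add_mul, Matrix.mul_neg, Matrix.neg_mul, Matrix.mul_assoc,
      sub_eq_add_neg]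
  · rw [hQp, dzbM_mul hrAGA hrΨ, dzbM_mul hrAG hrAh, dzbM_mul hrA hrGi, dbGi, dbAh, dzbM_const, hbA, hQs, ← hGd]
    simp only [Matrix.mul_zero, Matrix.zero_mul, zero_add, add_zero, Matrix.add_mul, Matrix.mul_neg,
      Matrix.neg_mul, Matrix.mul_assoc, sub_eq_add_neg]
    rw [add_comm]
  · rw [Matrix.mul_assoc, e1]
  · calc Qp lev ψ p (P s) * (A s * G⁻¹ * (A'ᴴ * Ψ)) = Qp lev ψ p (P s) * A s * G⁻¹ * (A'ᴴ * Ψ) := by
          simp only [Matrix.mul_assoc]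
      _ = _ := by rw [e2]
  · calc Qp lev ψ (p + 1) (P s) * (A' * G⁻¹ * ((A s)ᴴ * Ψ)) =
          Qp lev ψ (p + 1) (P s) * A' * G⁻¹ * ((A s)ᴴ * Ψ) := by simp only [Matrix.mul_assoc]
      _ = _ := by rw [e3]
  · rw [Matrix.mul_assoc, e4]

/-- The derivatives of the projections map parts of the Hodge decomposition to the adjacent ones. -/
private theorem dQ_shift (h : VH lev j ψ O P) (hO : IsOpen O) {s : ℂ} (hs : s ∈ O) (p : ℤ) :
    (Qp lev ψ (p + 1) (P s) - Qp lev ψ p (P s)) * dzM (fun z => Qp lev ψ p (P z)) s =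
        dzM (fun z => Qp lev ψ p (P z)) s ∧
      dzM (fun z => Qp lev ψ p (P z)) s * (Qp lev ψ p (P s) - Qp lev ψ (p - 1) (P s)) =
        dzM (fun z => Qp lev ψ p (P z)) s ∧
      (Qp lev ψ p (P s) - Qp lev ψ (p - 1) (P s)) * dzbM (fun z => Qp lev ψ p (P z)) s =
        dzbM (fun z => Qp lev ψ p (P z)) s ∧
      dzbM (fun z => Qp lev ψ p (P z)) s * (Qp lev ψ (p + 1) (P s) - Qp lev ψ p (P s)) =
        dzbM (fun z => Qp lev ψ p (P z)) s := by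
  obtain ⟨Q, deg, hQu, hQ⟩ := exists_basis (h.pol s hs).span
  have hidem := (Qp_mul_le (h.pol s hs) (h.unit s hs) hQu hQ (le_refl p)).1
  have hup := Qp_mul_le (h.pol s hs) (h.unit s hs) hQu hQ (show p ≤ p + 1 by omega)
  have hlow := Qp_mul_le (h.pol s hs) (h.unit s hs) hQu hQ (show p - 1 ≤ p by omega)
  have hidem' := (Qp_mul_le (h.pol s hs) (h.unit s hs) hQu hQ (le_refl (p - 1))).1
  have hr : ∀ q, RAt (fun z => Qp lev ψ q (P z)) s := fun q => rat_Qp (rat_P h hs) (h.pol s hs) (h.unit s hs) q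
  have hev : ∀ᶠ z in nhds s, Qp lev ψ p (P z) * Qp lev ψ (p - 1) (P z) = Qp lev ψ (p - 1) (P z) ∧
      Qp lev ψ (p - 1) (P z) * Qp lev ψ p (P z) = Qp lev ψ (p - 1) (P z) := by
    filter_upwards [hO.mem_nhds hs] with z hz
    obtain ⟨Q', deg', hQu', hQ'⟩ := exists_basis (h.pol z hz).span
    exact Qp_mul_le (h.pol z hz) (h.unit z hz) hQu' hQ' (show p - 1 ≤ p by omega)
  have d1 := dzM_mul (hr p) (hr (p - 1))
  have d2 := dzbM_mul (hr (p - 1)) (hr p)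
  rw [dzM_congr (hev.mono fun z hz => hz.1)] at d1
  rw [dzbM_congr (hev.mono fun z hz => hz.2)] at d2
  obtain ⟨W, V, hW, hV, hW1, hV1, hW2, hV2⟩ := dQ h hs p
  obtain ⟨W', V', hW', hV', hW1', hV1', hW2', hV2'⟩ := dQ h hs (p - 1)
  rw [sub_add_cancel] at hW2' hV2'
  rw [hW'] at d1
  rw [hV'] at d2
  obtain ⟨R1, hR1⟩ : ∃ R, R = Qp lev ψ (p + 1) (P s) := ⟨_, rfl⟩
  obtain ⟨R, hR⟩ : ∃ R, R = Qp lev ψ p (P s) := ⟨_, rfl⟩
  obtain ⟨R0, hR0⟩ : ∃ R, R = Qp lev ψ (p - 1) (P s) := ⟨_, rfl⟩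
  obtain ⟨dR, hdR⟩ : ∃ R, R = dzM (fun z => Qp lev ψ p (P z)) s := ⟨_, rfl⟩
  obtain ⟨dbR, hdbR⟩ : ∃ R, R = dzbM (fun z => Qp lev ψ p (P z)) s := ⟨_, rfl⟩
  rw [← hdR] at d1 hW
  rw [← hdbR] at d2 hV
  simp only [← hR1, ← hR, ← hR0, ← hdR, ← hdbR] at *
  have c1 : dR * R0 = 0 := by
    have h3 : R * (W' - R0 * W') = W' - R0 * W' := by
      rw [Matrix.mul_sub, ← Matrix.mul_assoc, hlow.1, hW2']
    rw [h3] at d1
    have h4 := d1
    rw [eq_comm, add_eq_right] at h4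
    exact h4
  have c2 : R0 * dbR = 0 := by
    have h3 : (V' - V' * R0) * R = V' - V' * R0 := by
      rw [Matrix.sub_mul, Matrix.mul_assoc, hlow.2, hV2']
    rw [h3, eq_comm, add_eq_left] at d2
    exact d2
  refine ⟨?_, ?_, ?_, ?_⟩
  · rw [hW, Matrix.sub_mul, Matrix.mul_sub, Matrix.mul_sub, ← Matrix.mul_assoc, ← Matrix.mul_assoc, hW2, hup.1,
      hidem, sub_self, sub_zero]
  · rw [Matrix.mul_sub, c1, sub_zero, hW, Matrix.sub_mul, Matrix.mul_assoc, hW1]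
  · rw [Matrix.sub_mul, c2, sub_zero, hV, Matrix.mul_sub, ← Matrix.mul_assoc, hV1]
  · rw [hV, Matrix.mul_sub, Matrix.sub_mul, Matrix.sub_mul, Matrix.mul_assoc, Matrix.mul_assoc, hV2, hup.2,
      hidem, sub_self, sub_zero]

/-- The Hodge operators act by scalars on the derivatives of the projections. -/
private theorem sc_dQ (h : VH lev j ψ O P) (hO : IsOpen O) {s : ℂ} (hs : s ∈ O)
    {Q : Matrix (Fin r) (Fin r) ℂ} {deg : Fin r → ℤ} (hQu : IsUnit Q.det)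
    (hQ : ∀ i, (fun x => Q x i) ∈ hodgePart lev j (P s) (deg i)) (f : ℤ → ℂ) (p : ℤ) :
    sc Q deg f * dzM (fun z => Qp lev ψ p (P z)) s = f (p + 1) • dzM (fun z => Qp lev ψ p (P z)) s ∧
      dzM (fun z => Qp lev ψ p (P z)) s * sc Q deg f = f p • dzM (fun z => Qp lev ψ p (P z)) s ∧
      sc Q deg f * dzbM (fun z => Qp lev ψ p (P z)) s = f p • dzbM (fun z => Qp lev ψ p (P z)) s ∧
      dzbM (fun z => Qp lev ψ p (P z)) s * sc Q deg f = f (p + 1) • dzbM (fun z => Qp lev ψ p (P z)) s := by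
  obtain ⟨h1, h2, h3, h4⟩ := dQ_shift h hO hs p
  have key : ∀ q : ℤ, sc Q deg f * (Qp lev ψ q (P s) - Qp lev ψ (q - 1) (P s)) =
      f q • (Qp lev ψ q (P s) - Qp lev ψ (q - 1) (P s)) ∧
      (Qp lev ψ q (P s) - Qp lev ψ (q - 1) (P s)) * sc Q deg f =
      f q • (Qp lev ψ q (P s) - Qp lev ψ (q - 1) (P s)) := by
    intro q
    have e1 : Qp lev ψ q (P s) - Qp lev ψ (q - 1) (P s) = sc Q deg fun x => if x = q then 1 else 0 := by
      rw [Qp_eq (h.pol s hs) (h.unit s hs) hQu hQ, Qp_eq (h.pol s hs) (h.unit s hs) hQu hQ]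
      unfold sc
      rw [← Matrix.sub_mul, ← Matrix.mul_sub, Matrix.diagonal_sub]
      congr 3
      funext i
      change (if deg i ≤ q then (1 : ℂ) else 0) - (if deg i ≤ q - 1 then (1 : ℂ) else 0) =
        if deg i = q then (1 : ℂ) else 0
      rcases lt_trichotomy (deg i) q with hi | hi | hi
      · rw [if_pos (by omega), if_pos (by omega), if_neg (by omega), sub_self]
      · rw [if_pos (by omega), if_neg (by omega), if_pos hi, sub_zero]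
      · rw [if_neg (by omega), if_neg (by omega), if_neg (by omega), sub_self]
    have e2 : f q • sc Q deg (fun x => if x = q then (1 : ℂ) else 0) =
        sc Q deg fun x => f x * if x = q then (1 : ℂ) else 0 := by
      unfold sc
      rw [← Matrix.smul_mul, ← Matrix.mul_smul, ← Matrix.diagonal_smul]
      congr 3
      funext i
      change f q * (if deg i = q then (1 : ℂ) else 0) = f (deg i) * if deg i = q then (1 : ℂ) else 0
      by_cases hi : deg i = q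
      · rw [hi]
      · rw [if_neg hi, mul_zero, mul_zero]
    rw [e1, sc_mul hQu, sc_mul hQu, e2]
    refine ⟨rfl, ?_⟩
    congr 1
    funext x
    rw [mul_comm]
  have k1 := (key (p + 1))
  rw [add_sub_cancel_right] at k1
  have k2 := key p
  refine ⟨?_, ?_, ?_, ?_⟩
  · conv_lhs => rw [← h1, ← Matrix.mul_assoc, k1.1, Matrix.smul_mul, h1]
  · conv_lhs => rw [← h2, Matrix.mul_assoc, k2.2, Matrix.mul_smul, h2]
  · conv_lhs => rw [← h3, ← Matrix.mul_assoc, k2.1, Matrix.smul_mul, h3]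
  · conv_lhs => rw [← h4, Matrix.mul_assoc, k1.2, Matrix.mul_smul, h4]

private theorem dzM_Em (h : VH lev j ψ O P) {s : ℂ} (hs : s ∈ O) (u : ℂ) :
    dzM (fun z => Em lev j ψ u (P z)) s = ∑ p ∈ Finset.Ico (-Nb lev) (Nb lev),
      (u ^ (2 * p - j) - u ^ (2 * p + 2 - j)) • dzM (fun z => Qp lev ψ p (P z)) s := by
  have hr : ∀ q, RAt (fun z => Qp lev ψ q (P z)) s := fun q => rat_Qp (rat_P h hs) (h.pol s hs) (h.unit s hs) q
  have hc : RAt (fun _ : ℂ => u ^ (2 * Nb lev - j) • (1 : Matrix (Fin r) (Fin r) ℂ)) s := rat_const _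
  unfold Em
  rw [dzM_add hc (rat_sum fun p _ => rat_smul _ (hr p)), dzM_const, zero_add,
    dzM_sum (F := fun p z => (u ^ (2 * p - j) - u ^ (2 * p + 2 - j)) • Qp lev ψ p (P z))
      fun p _ => rat_smul _ (hr p)]
  exact Finset.sum_congr rfl fun p _ => dzM_smul _ (hr p)

private theorem dzbM_Em (h : VH lev j ψ O P) {s : ℂ} (hs : s ∈ O) (u : ℂ) :
    dzbM (fun z => Em lev j ψ u (P z)) s = ∑ p ∈ Finset.Ico (-Nb lev) (Nb lev),
      (u ^ (2 * p - j) - u ^ (2 * p + 2 - j)) • dzbM (fun z => Qp lev ψ p (P z)) s := by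
  have hr : ∀ q, RAt (fun z => Qp lev ψ q (P z)) s := fun q => rat_Qp (rat_P h hs) (h.pol s hs) (h.unit s hs) q
  have hc : RAt (fun _ : ℂ => u ^ (2 * Nb lev - j) • (1 : Matrix (Fin r) (Fin r) ℂ)) s := rat_const _
  unfold Em
  rw [dzbM_add hc (rat_sum fun p _ => rat_smul _ (hr p)), dzbM_const, zero_add,
    dzbM_sum (F := fun p z => (u ^ (2 * p - j) - u ^ (2 * p + 2 - j)) • Qp lev ψ p (P z))
      fun p _ => rat_smul _ (hr p)]
  exact Finset.sum_congr rfl fun p _ => dzbM_smul _ (hr p)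

private theorem dzM_Dm (h : VH lev j ψ O P) {s : ℂ} (hs : s ∈ O) :
    dzM (fun z => Dm lev j ψ (P z)) s =
      -((2 : ℂ) • ∑ p ∈ Finset.Ico (-Nb lev) (Nb lev), dzM (fun z => Qp lev ψ p (P z)) s) := by
  have hr : ∀ q, RAt (fun z => Qp lev ψ q (P z)) s := fun q => rat_Qp (rat_P h hs) (h.pol s hs) (h.unit s hs) q
  have hc : RAt (fun _ : ℂ => ((2 * Nb lev - j : ℤ) : ℂ) • (1 : Matrix (Fin r) (Fin r) ℂ)) s := rat_const _
  have hS : RAt (fun z => ∑ p ∈ Finset.Ico (-Nb lev) (Nb lev), Qp lev ψ p (P z)) s :=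
    rat_sum (F := fun p z => Qp lev ψ p (P z)) fun p _ => hr p
  unfold Dm
  rw [dzM_sub hc (rat_smul _ hS), dzM_const, zero_sub, dzM_smul _ hS,
    dzM_sum (F := fun p z => Qp lev ψ p (P z)) fun p _ => hr p]

private theorem dzbM_Dm (h : VH lev j ψ O P) {s : ℂ} (hs : s ∈ O) :
    dzbM (fun z => Dm lev j ψ (P z)) s =
      -((2 : ℂ) • ∑ p ∈ Finset.Ico (-Nb lev) (Nb lev), dzbM (fun z => Qp lev ψ p (P z)) s) := by
  have hr : ∀ q, RAt (fun z => Qp lev ψ q (P z)) s := fun q => rat_Qp (rat_P h hs) (h.pol s hs) (h.unit s hs) q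
  have hc : RAt (fun _ : ℂ => ((2 * Nb lev - j : ℤ) : ℂ) • (1 : Matrix (Fin r) (Fin r) ℂ)) s := rat_const _
  have hS : RAt (fun z => ∑ p ∈ Finset.Ico (-Nb lev) (Nb lev), Qp lev ψ p (P z)) s :=
    rat_sum (F := fun p z => Qp lev ψ p (P z)) fun p _ => hr p
  unfold Dm
  rw [dzbM_sub hc (rat_smul _ hS), dzbM_const, zero_sub, dzbM_smul _ hS,
    dzbM_sum (F := fun p z => Qp lev ψ p (P z)) fun p _ => hr p]

private theorem th_Dm (h : VH lev j ψ O P) {s : ℂ} (hs : s ∈ O) :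
    th (fun z => Dm lev j ψ (P z)) s =
      ∑ p ∈ Finset.Ico (-Nb lev) (Nb lev), dzM (fun z => Qp lev ψ p (P z)) s := by
  unfold th
  rw [dzM_Dm h hs, smul_neg, neg_neg, smul_smul]
  norm_num

private theorem et_Dm (h : VH lev j ψ O P) {s : ℂ} (hs : s ∈ O) :
    et (fun z => Dm lev j ψ (P z)) s =
      -∑ p ∈ Finset.Ico (-Nb lev) (Nb lev), dzbM (fun z => Qp lev ψ p (P z)) s := by
  unfold et
  rw [dzbM_Dm h hs, smul_neg, smul_smul]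
  norm_num

private theorem dE_aux (h : VH lev j ψ O P) (hO : IsOpen O) {u : ℂ} (hu : u ≠ 0) {s : ℂ} (hs : s ∈ O) :
    dzM (fun s => Em lev j ψ u (P s)) s =
      ((u⁻¹) ^ 2 - 1) • (Em lev j ψ u (P s) * th (fun s => Dm lev j ψ (P s)) s) := by
  obtain ⟨Q, deg, hQu, hQ⟩ := exists_basis (h.pol s hs).span
  rw [dzM_Em h hs, th_Dm h hs, Em_eq (h.pol s hs) (h.unit s hs) hQu hQ, Finset.mul_sum, Finset.smul_sum]
  refine Finset.sum_congr rfl fun p _ => ?_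
  rw [(sc_dQ h hO hs hQu hQ _ p).1, smul_smul]
  congr 1
  have h1 : u ^ (2 * (p + 1) - j) = u ^ (2 * p - j) * u ^ 2 := by
    rw [show 2 * (p + 1) - j = (2 * p - j) + (2 : ℕ) by push_cast; ring, zpow_add₀ hu, zpow_natCast]
  have h2 : u ^ (2 * p + 2 - j) = u ^ (2 * p - j) * u ^ 2 := by
    rw [show 2 * p + 2 - j = (2 * p - j) + (2 : ℕ) by push_cast; ring, zpow_add₀ hu, zpow_natCast]
  rw [h1, h2]
  field_simp

private theorem dE_aux' (h : VH lev j ψ O P) (hO : IsOpen O) {u : ℂ} (hu : u ≠ 0) {s : ℂ} (hs : s ∈ O) :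
    dzbM (fun s => Em lev j ψ u (P s)) s =
      (u ^ 2 - 1) • (Em lev j ψ u (P s) * et (fun s => Dm lev j ψ (P s)) s) := by
  obtain ⟨Q, deg, hQu, hQ⟩ := exists_basis (h.pol s hs).span
  rw [dzbM_Em h hs, et_Dm h hs, Em_eq (h.pol s hs) (h.unit s hs) hQu hQ, Matrix.mul_neg, Finset.mul_sum,
    smul_neg, Finset.smul_sum, ← Finset.sum_neg_distrib]
  refine Finset.sum_congr rfl fun p _ => ?_
  rw [(sc_dQ h hO hs hQu hQ _ p).2.2.1, smul_smul, ← neg_smul]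
  congr 1
  have h2 : u ^ (2 * p + 2 - j) = u ^ (2 * p - j) * u ^ 2 := by
    rw [show 2 * p + 2 - j = (2 * p - j) + (2 : ℕ) by push_cast; ring, zpow_add₀ hu, zpow_natCast]
  rw [h2]
  ring

private theorem brk_aux (h : VH lev j ψ O P) (hO : IsOpen O) {s : ℂ} (hs : s ∈ O) :
    Dm lev j ψ (P s) * (∑ p ∈ Finset.Ico (-Nb lev) (Nb lev), dzM (fun z => Qp lev ψ p (P z)) s) -
        (∑ p ∈ Finset.Ico (-Nb lev) (Nb lev), dzM (fun z => Qp lev ψ p (P z)) s) * Dm lev j ψ (P s) =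
      (2 : ℂ) • ∑ p ∈ Finset.Ico (-Nb lev) (Nb lev), dzM (fun z => Qp lev ψ p (P z)) s := by
  obtain ⟨Q, deg, hQu, hQ⟩ := exists_basis (h.pol s hs).span
  rw [Dm_eq (h.pol s hs) (h.unit s hs) hQu hQ, Finset.mul_sum, Finset.sum_mul, ← Finset.sum_sub_distrib,
    Finset.smul_sum]
  refine Finset.sum_congr rfl fun p _ => ?_
  rw [(sc_dQ h hO hs hQu hQ _ p).1, (sc_dQ h hO hs hQu hQ _ p).2.1, ← sub_smul]
  congr 1
  push_cast
  ring

private theorem brk_aux' (h : VH lev j ψ O P) (hO : IsOpen O) {s : ℂ} (hs : s ∈ O) :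
    Dm lev j ψ (P s) * (∑ p ∈ Finset.Ico (-Nb lev) (Nb lev), dzbM (fun z => Qp lev ψ p (P z)) s) -
        (∑ p ∈ Finset.Ico (-Nb lev) (Nb lev), dzbM (fun z => Qp lev ψ p (P z)) s) * Dm lev j ψ (P s) =
      -((2 : ℂ) • ∑ p ∈ Finset.Ico (-Nb lev) (Nb lev), dzbM (fun z => Qp lev ψ p (P z)) s) := by
  obtain ⟨Q, deg, hQu, hQ⟩ := exists_basis (h.pol s hs).span
  rw [Dm_eq (h.pol s hs) (h.unit s hs) hQu hQ, Finset.mul_sum, Finset.sum_mul, ← Finset.sum_sub_distrib,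
    Finset.smul_sum, ← Finset.sum_neg_distrib]
  refine Finset.sum_congr rfl fun p _ => ?_
  rw [(sc_dQ h hO hs hQu hQ _ p).2.2.1, (sc_dQ h hO hs hQu hQ _ p).2.2.2, ← sub_smul, ← neg_smul]
  congr 1
  push_cast
  ring

theorem VH.hv (h : VH lev j ψ O P) (hO : IsOpen O) :
    HV ((2 * Nb lev + |j| : ℤ) : ℝ) O (fun s => Dm lev j ψ (P s)) (fun s => Hm lev j ψ (P s)) := by
  have hI : (Complex.I : ℂ) ≠ 0 := Complex.I_ne_zero
  have hr : ∀ s ∈ O, RAt P s := fun s hs => rat_P h hs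
  have e2 : ∀ s, (2 : ℂ) • th (fun s => Dm lev j ψ (P s)) s = -dzM (fun s => Dm lev j ψ (P s)) s := by
    intro s
    unfold th
    rw [smul_neg, smul_smul]
    norm_num
  have e3 : ∀ s, (2 : ℂ) • et (fun s => Dm lev j ψ (P s)) s = dzbM (fun s => Dm lev j ψ (P s)) s := by
    intro s
    unfold et
    rw [smul_smul]
    norm_num
  have hI2 : (Complex.I⁻¹ : ℂ) ^ 2 - 1 = -2 := by
    rw [Complex.inv_I, neg_sq, Complex.I_sq]
    norm_num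
  have hI2' : (Complex.I : ℂ) ^ 2 - 1 = -2 := by
    rw [Complex.I_sq]
    norm_num
  refine ⟨fun s hs => rat_Dm (hr s hs) (h.pol s hs) (h.unit s hs),
    fun s hs => rat_Hm (hr s hs) (h.pol s hs) (h.unit s hs), fun s hs => Hm_pos (h.pol s hs) (h.unit s hs),
    fun s hs => Hm_adj (h.pol s hs) (h.unit s hs), fun s hs => Dm_spec (h.pol s hs) (h.unit s hs),
    fun s hs => ?_, fun s hs => ?_, fun s hs => ?_, fun s hs => ?_⟩
  · have h1 := brk_aux h hO hs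
    rw [dzM_Dm h hs]
    obtain ⟨S, hS⟩ : ∃ S, S = ∑ p ∈ Finset.Ico (-Nb lev) (Nb lev), dzM (fun z => Qp lev ψ p (P z)) s := ⟨_, rfl⟩
    rw [← hS] at h1 ⊢
    calc Dm lev j ψ (P s) * -((2 : ℂ) • S) - -((2 : ℂ) • S) * Dm lev j ψ (P s) =
          -((2 : ℂ) • (Dm lev j ψ (P s) * S - S * Dm lev j ψ (P s))) := by
          rw [Matrix.mul_neg, Matrix.neg_mul, Matrix.mul_smul, Matrix.smul_mul, smul_sub]
          abel
      _ = (2 : ℂ) • -((2 : ℂ) • S) := by rw [h1, smul_neg]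
  · have h1 := brk_aux' h hO hs
    rw [dzbM_Dm h hs]
    obtain ⟨S, hS⟩ : ∃ S, S = ∑ p ∈ Finset.Ico (-Nb lev) (Nb lev), dzbM (fun z => Qp lev ψ p (P z)) s := ⟨_, rfl⟩
    rw [← hS] at h1 ⊢
    calc Dm lev j ψ (P s) * -((2 : ℂ) • S) - -((2 : ℂ) • S) * Dm lev j ψ (P s) =
          -((2 : ℂ) • (Dm lev j ψ (P s) * S - S * Dm lev j ψ (P s))) := by
          rw [Matrix.mul_neg, Matrix.neg_mul, Matrix.mul_smul, Matrix.smul_mul, smul_sub]
          abel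
      _ = -((2 : ℂ) • -((2 : ℂ) • S)) := by rw [h1]
  · have h1 : dzM (fun s => Hm lev j ψ (P s)) s = (qc ψ)ᵀ * dzM (fun s => Em lev j ψ Complex.I (P s)) s := by
      unfold Hm
      rw [dzM_mul (rat_const _) (rat_Em (hr s hs) (h.pol s hs) (h.unit s hs) _), dzM_const, Matrix.zero_mul,
        zero_add]
    rw [h1, dE_aux h hO hI hs, hI2, neg_smul, ← Matrix.mul_smul, e2, Matrix.mul_neg, Matrix.mul_neg, Matrix.mul_neg, neg_neg]
    unfold Hm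
    rw [Matrix.mul_assoc]
  · have h1 : dzbM (fun s => Hm lev j ψ (P s)) s = (qc ψ)ᵀ * dzbM (fun s => Em lev j ψ Complex.I (P s)) s := by
      unfold Hm
      rw [dzbM_mul (rat_const _) (rat_Em (hr s hs) (h.pol s hs) (h.unit s hs) _), dzbM_const, Matrix.zero_mul,
        zero_add]
    rw [h1, dE_aux' h hO hI hs, hI2', neg_smul, ← Matrix.mul_smul, e3, Matrix.mul_neg]
    unfold Hm
    rw [Matrix.mul_assoc]

theorem VH.he (h : VH lev j ψ O P) (hO : IsOpen O) {u : ℂ} (hu : u ≠ 0) :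
    HE u O (fun s => Dm lev j ψ (P s)) (fun s => Em lev j ψ u (P s)) := by
  refine ⟨fun s hs => rat_Em (rat_P h hs) (h.pol s hs) (h.unit s hs) u, fun s hs => ?_,
    fun s hs => dE_aux h hO hu hs, fun s hs => dE_aux' h hO hu hs⟩
  rw [Em_det (h.pol s hs) (h.unit s hs) hu]
  exact isUnit_one

end Pool.Agent.Helper79.FX
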