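import Pool.Agent.Helper79.FX.TP
import Pool.Agent.Helper79.HJ.Contain

/-!
# FX-10: the Hodge operators at a point as functions of the period matrix

Let `N_p = {v : (P v)_x = 0 for lev x > p}`, the span of the columns `x`, `lev x ≤ p`, of `P⁻¹` (`colsA`), and `Ψ = (qc ψ)ᵀ` (so `form ψ u (star v) = star v ⬝ᵥ (Ψ *ᵥ u)`). `Qp` is the
orthogonal projection onto `N_p` for this Hermitian form. Fix a basis `Q`, `deg` of `ℂ^r` adapted to the Hodge decomposition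
(`HH.exists_basis`), and let `R_p = sc Q deg (fun q => if q ≤ p then 1 else 0)` (`HJ.sc`).
* `Qp_eq`: `R_p A = A` (`HH.coord_of_filtration`: the coordinates of a vector of `N_p` in the basis `Q` vanish for `deg i > p`); `R_pᴴ Ψ = Ψ R_p` (`HH.homo_gram`,
  or `IsPolarized.orth`); `R_p = A T`, `T = (P R_p)` restricted to the rows `lev x ≤ p` (the columns of `R_p` are in `N_p` and `v = P⁻¹ (P v)`). `G = Aᴴ Ψ A` is invertible: if `G c = 0`,
  then `w = A c` is in `N_p` and orthogonal to `N_p`; its components `w^q` (in `hodgePart q`, `q ≤ p`, so in `N_p`) satisfy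
  `0 = h(w, w^q) = h(w^q, w^q)`, so `w^q = 0` by `pos`, `w = 0`, `c = 0`. So `Qp R_p = A G⁻¹ (R_p A)ᴴ Ψ = Qp` and `Qp R_p = A G⁻¹ (Aᴴ Ψ A) T = R_p`.
* `deg_mem`: `deg i` is one of the numbers `lev x` (otherwise `hodgePart (deg i)` is in `N_(deg i - 1)`, whose coordinates of degree `deg i` vanish), so `-Nb ≤ deg i ≤ Nb`.
* `Em_eq`, `Dm_eq`: telescoping sums. All other statements follow by `HJ.sc_mul`, `HJ.sc_one`, `HJ.det_sc`, `HJ.sc_isom`, `HH.PolFrame.posM`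
  (`HH.polFrame hpol hQu hQ`; `weilInv` there) or directly.
* `hodgePart_mul`: `v ∈ hodgePart lev j (P * γ) p ↔ γ *ᵥ v ∈ hodgePart lev j P p` (`γ` real). `Em_mul_right` etc.: `HJ.eq_of_span`.
* `rat_Qp`: `rat_inv`, `rat_mul`, ...; `Em` is a linear combination of the `Qp` with constant coefficients.
-/

namespace Pool.Agent.Helper79.FX

open Matrix Pool.Agent.Helper79.HH Pool.Agent.Helper79.HJ Pool.Agent.Helper88.MT
open scoped ComplexOrder

variable {r : ℕ}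

/-- A bound for the levels. -/
def Nb (lev : Fin r → ℤ) : ℤ := ∑ x, |lev x| + 1

/-- The columns `x`, `lev x ≤ p`, of `P⁻¹`. -/
noncomputable def colsA (lev : Fin r → ℤ) (p : ℤ) (P : Matrix (Fin r) (Fin r) ℂ) :
    Matrix (Fin r) {x : Fin r // lev x ≤ p} ℂ := P⁻¹.submatrix id Subtype.val

/-- The projection onto the part `p` of the Hodge filtration. -/
noncomputable def Qp (lev : Fin r → ℤ) (ψ : Matrix (Fin r) (Fin r) ℚ) (p : ℤ)
    (P : Matrix (Fin r) (Fin r) ℂ) : Matrix (Fin r) (Fin r) ℂ :=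
  colsA lev p P * ((colsA lev p P)ᴴ * (qc ψ)ᵀ * colsA lev p P)⁻¹ * (colsA lev p P)ᴴ * (qc ψ)ᵀ

/-- The element of the Hodge circle: `u ^ (2 q - j)` on `hodgePart q`. -/
noncomputable def Em (lev : Fin r → ℤ) (j : ℤ) (ψ : Matrix (Fin r) (Fin r) ℚ) (u : ℂ)
    (P : Matrix (Fin r) (Fin r) ℂ) : Matrix (Fin r) (Fin r) ℂ :=
  u ^ (2 * Nb lev - j) • (1 : Matrix (Fin r) (Fin r) ℂ) +
    ∑ p ∈ Finset.Ico (-Nb lev) (Nb lev), (u ^ (2 * p - j) - u ^ (2 * p + 2 - j)) • Qp lev ψ p P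

/-- The Hodge operator: `2 q - j` on `hodgePart q`. -/
noncomputable def Dm (lev : Fin r → ℤ) (j : ℤ) (ψ : Matrix (Fin r) (Fin r) ℚ)
    (P : Matrix (Fin r) (Fin r) ℂ) : Matrix (Fin r) (Fin r) ℂ :=
  ((2 * Nb lev - j : ℤ) : ℂ) • (1 : Matrix (Fin r) (Fin r) ℂ) -
    (2 : ℂ) • ∑ p ∈ Finset.Ico (-Nb lev) (Nb lev), Qp lev ψ p P

/-- The Hodge metric. -/
noncomputable def Hm (lev : Fin r → ℤ) (j : ℤ) (ψ : Matrix (Fin r) (Fin r) ℚ)
    (P : Matrix (Fin r) (Fin r) ℂ) : Matrix (Fin r) (Fin r) ℂ :=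
  (qc ψ)ᵀ * Em lev j ψ Complex.I P

variable {lev : Fin r → ℤ} {j : ℤ} {ψ : Matrix (Fin r) (Fin r) ℚ} {P Q : Matrix (Fin r) (Fin r) ℂ}
  {deg : Fin r → ℤ}

private theorem sc_congr' (Q : Matrix (Fin r) (Fin r) ℂ) (deg : Fin r → ℤ) {s s' : ℤ → ℂ}
    (h : ∀ i, s (deg i) = s' (deg i)) : sc Q deg s = sc Q deg s' := by
  unfold sc
  congr 2
  exact congrArg diagonal (funext h)

private theorem sc_add' (Q : Matrix (Fin r) (Fin r) ℂ) (deg : Fin r → ℤ) (s s' : ℤ → ℂ) :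
    sc Q deg s + sc Q deg s' = sc Q deg fun q => s q + s' q := by
  unfold sc
  rw [← Matrix.diagonal_add (fun i => s (deg i)) (fun i => s' (deg i)), Matrix.mul_add,
    Matrix.add_mul]

private theorem sc_smul' (Q : Matrix (Fin r) (Fin r) ℂ) (deg : Fin r → ℤ) (c : ℂ) (s : ℤ → ℂ) :
    c • sc Q deg s = sc Q deg fun q => c * s q := by
  unfold sc
  have h1 : (diagonal fun i => c * s (deg i)) = c • diagonal fun i => s (deg i) := by
    rw [← Matrix.diagonal_smul]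
    rfl
  rw [h1, Matrix.mul_smul, Matrix.smul_mul]

private theorem sc_sum' (Q : Matrix (Fin r) (Fin r) ℂ) (deg : Fin r → ℤ) {J : Type} (u : Finset J)
    (f : J → ℤ → ℂ) : ∑ p ∈ u, sc Q deg (f p) = sc Q deg fun q => ∑ p ∈ u, f p q := by
  classical
  induction u using Finset.induction_on with
  | empty =>
    rw [Finset.sum_empty]
    unfold sc
    simp
  | insert p u hp ih =>
    rw [Finset.sum_insert hp, ih, sc_add']
    congr 1
    funext q
    rw [Finset.sum_insert hp]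

/-- The sum of the differences. -/
private theorem tele_Ico (g : ℤ → ℂ) {q N : ℤ} (h : q ≤ N) :
    ∑ p ∈ Finset.Ico q N, (g p - g (p + 1)) = g q - g N := by
  induction N, h using Int.le_induction with
  | base => simp
  | succ N hN ih =>
    have h1 : Finset.Ico q (N + 1) = insert N (Finset.Ico q N) := by
      ext p
      simp only [Finset.mem_Ico, Finset.mem_insert]
      omega
    rw [h1, Finset.sum_insert (by simp), ih]
    ring

private theorem tele_if (g : ℤ → ℂ) {q N : ℤ} (h : q ≤ N) (h' : -N ≤ q) :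
    g N + ∑ p ∈ Finset.Ico (-N) N, (g p - g (p + 1)) * (if q ≤ p then 1 else 0) = g q := by
  have h1 : ∑ p ∈ Finset.Ico (-N) N, (g p - g (p + 1)) * (if q ≤ p then (1 : ℂ) else 0) =
      ∑ p ∈ Finset.Ico q N, (g p - g (p + 1)) := by
    simp only [mul_ite, mul_one, mul_zero]
    rw [← Finset.sum_filter]
    congr 1
    ext p
    simp only [Finset.mem_filter, Finset.mem_Ico]
    omega
  rw [h1, tele_Ico g h]
  ring

private theorem abs_le_Nb (x : Fin r) : |lev x| ≤ Nb lev := by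
  unfold Nb
  have : |lev x| ≤ ∑ x, |lev x| := Finset.single_le_sum (f := fun x => |lev x|)
    (fun x _ => abs_nonneg (lev x)) (Finset.mem_univ x)
  linarith

private theorem qct_gram (hpol : IsPolarized lev j ψ P)
    (hQ : ∀ i, (fun x => Q x i) ∈ hodgePart lev j P (deg i)) :
    Homo deg deg (Qᴴ * (qc ψ)ᵀ * Q) := by
  have h1 := (homo_gram hpol hQ).transpose
  have h2 : (Qᵀ * qc ψ * cj Q)ᵀ = Qᴴ * (qc ψ)ᵀ * Q := by
    rw [Matrix.transpose_mul, Matrix.transpose_mul, Matrix.transpose_transpose, Matrix.mul_assoc]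
    rfl
  rwa [h2] at h1

private theorem mul_inv' {Q : Matrix (Fin r) (Fin r) ℂ} (hQu : IsUnit Q.det) : Q * Q⁻¹ = 1 :=
  Matrix.mul_nonsing_inv _ hQu

/-- The operators with real eigenvalues are self-adjoint. -/
private theorem sc_adj' (hpol : IsPolarized lev j ψ P) (hQu : IsUnit Q.det)
    (hQ : ∀ i, (fun x => Q x i) ∈ hodgePart lev j P (deg i)) {s : ℤ → ℂ}
    (hs : ∀ q, star (s q) = s q) :
    (sc Q deg s)ᴴ * (qc ψ)ᵀ = (qc ψ)ᵀ * sc Q deg s := by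
  set G := Qᴴ * (qc ψ)ᵀ * Q with hG
  have hGh : Homo deg deg G := qct_gram hpol hQ
  have h1 : diagonal (fun i => s (deg i)) * G = G * diagonal (fun i => s (deg i)) := by
    ext i k
    rw [Matrix.diagonal_mul, Matrix.mul_diagonal]
    by_cases h2 : deg i = deg k
    · rw [h2, mul_comm]
    · rw [hGh i k h2, mul_zero, zero_mul]
  have h3 : (Q⁻¹)ᴴ * Qᴴ = 1 := by
    rw [← Matrix.conjTranspose_mul, mul_inv' hQu, Matrix.conjTranspose_one]
  have h4 : (diagonal fun i => s (deg i))ᴴ = diagonal fun i => s (deg i) := by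
    rw [Matrix.diagonal_conjTranspose]
    congr 1
    funext i
    exact hs (deg i)
  unfold sc
  rw [Matrix.conjTranspose_mul, Matrix.conjTranspose_mul, h4]
  calc (Q⁻¹)ᴴ * (diagonal (fun i => s (deg i)) * Qᴴ) * (qc ψ)ᵀ
      = (Q⁻¹)ᴴ * (diagonal (fun i => s (deg i)) * Qᴴ) * (qc ψ)ᵀ * (Q * Q⁻¹) := by
        rw [mul_inv' hQu, Matrix.mul_one]
    _ = (Q⁻¹)ᴴ * (diagonal (fun i => s (deg i)) * G) * Q⁻¹ := by
        rw [hG]
        simp only [Matrix.mul_assoc]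
    _ = (Q⁻¹)ᴴ * (G * diagonal (fun i => s (deg i))) * Q⁻¹ := by rw [h1]
    _ = ((Q⁻¹)ᴴ * Qᴴ) * (qc ψ)ᵀ * (Q * diagonal (fun i => s (deg i)) * Q⁻¹) := by
        rw [hG]
        simp only [Matrix.mul_assoc]
    _ = (qc ψ)ᵀ * (Q * diagonal (fun i => s (deg i)) * Q⁻¹) := by rw [h3, Matrix.one_mul]

/-- The indicator of `q ≤ p`. -/
private noncomputable def ind (p : ℤ) (q : ℤ) : ℂ := if q ≤ p then 1 else 0

private theorem ind_mul (p q : ℤ) : ind p q * ind p q = ind p q := by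
  unfold ind
  split_ifs <;> simp

private theorem star_ind (p q : ℤ) : star (ind p q) = ind p q := by
  unfold ind
  split_ifs <;> simp

private theorem R_mul_A (hpol : IsPolarized lev j ψ P) (hP : IsUnit P.det) (hQu : IsUnit Q.det)
    (hQ : ∀ i, (fun x => Q x i) ∈ hodgePart lev j P (deg i)) (p : ℤ) :
    sc Q deg (ind p) * colsA lev p P = colsA lev p P := by
  have h1 : diagonal (fun i => ind p (deg i)) * (Q⁻¹ * colsA lev p P) = Q⁻¹ * colsA lev p P := by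
    ext i x
    rw [Matrix.diagonal_mul]
    by_cases hi : deg i ≤ p
    · unfold ind
      rw [if_pos hi, one_mul]
    · have h2 : (Q⁻¹ * colsA lev p P) i x = (P * Q)⁻¹ i x.1 := by
        rw [Matrix.mul_inv_rev]
        rfl
      have h3 : (P * Q)⁻¹ i x.1 = 0 := by
        refine low_PQ_inv hpol hQu hQ hP i x.1 ?_
        have := x.2
        omega
      rw [h2, h3, mul_zero]
  unfold sc
  rw [Matrix.mul_assoc, Matrix.mul_assoc, h1, ← Matrix.mul_assoc, mul_inv' hQu, Matrix.one_mul]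

private theorem A_mul_T (hpol : IsPolarized lev j ψ P) (hP : IsUnit P.det)
    (hQ : ∀ i, (fun x => Q x i) ∈ hodgePart lev j P (deg i)) (p : ℤ) :
    colsA lev p P * (P * sc Q deg (ind p)).submatrix
      (Subtype.val : {x : Fin r // lev x ≤ p} → Fin r) id = sc Q deg (ind p) := by
  have h1 : ∀ x, p < lev x → ∀ k, (P * sc Q deg (ind p)) x k = 0 := by
    intro x hx k
    have h2 : P * sc Q deg (ind p) = (P * Q) * diagonal (fun i => ind p (deg i)) * Q⁻¹ := by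
      unfold sc
      simp only [Matrix.mul_assoc]
    rw [h2, Matrix.mul_apply]
    refine Finset.sum_eq_zero fun i _ => ?_
    rw [Matrix.mul_diagonal]
    by_cases hi : deg i ≤ p
    · rw [low_PQ hQ x i (by omega), zero_mul, zero_mul]
    · unfold ind
      rw [if_neg hi, mul_zero, zero_mul]
  ext i k
  rw [Matrix.mul_apply]
  have h3 : sc Q deg (ind p) = P⁻¹ * (P * sc Q deg (ind p)) := by
    rw [← Matrix.mul_assoc, Matrix.nonsing_inv_mul _ hP, Matrix.one_mul]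
  have h4 : sc Q deg (ind p) i k = ∑ x, P⁻¹ i x * (P * sc Q deg (ind p)) x k := by
    conv_lhs => rw [h3, Matrix.mul_apply]
  rw [h4, ← Fintype.sum_subtype_add_sum_subtype (fun x => lev x ≤ p)
    (fun x => P⁻¹ i x * (P * sc Q deg (ind p)) x k)]
  have h5 : ∑ x : {x // ¬ lev x ≤ p}, P⁻¹ i x.1 * (P * sc Q deg (ind p)) x.1 k = 0 := by
    refine Finset.sum_eq_zero fun x _ => ?_
    rw [h1 x.1 (not_le.1 x.2) k, mul_zero]
  rw [h5, add_zero]
  rfl

private theorem colsA_inj (hP : IsUnit P.det) (p : ℤ) :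
    Function.Injective (colsA lev p P).mulVec := by
  intro c d hcd
  have h1 : (P * colsA lev p P) *ᵥ c = (P * colsA lev p P) *ᵥ d := by
    rw [← Matrix.mulVec_mulVec, ← Matrix.mulVec_mulVec]
    exact congrArg (fun v => P *ᵥ v) hcd
  have h2 : P * colsA lev p P = (1 : Matrix (Fin r) (Fin r) ℂ).submatrix id Subtype.val := by
    have h3 : P * colsA lev p P = (P * P⁻¹).submatrix id Subtype.val := rfl
    rw [h3, mul_inv' hP]
  rw [h2] at h1
  have h4 : ∀ c : {x : Fin r // lev x ≤ p} → ℂ, ∀ x : {x : Fin r // lev x ≤ p},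
      ((1 : Matrix (Fin r) (Fin r) ℂ).submatrix id Subtype.val *ᵥ c) x.1 = c x := by
    intro c x
    rw [Matrix.mulVec, dotProduct, Finset.sum_eq_single x]
    · rw [Matrix.submatrix_apply, id, Matrix.one_apply_eq, one_mul]
    · intro y _ hy
      rw [Matrix.submatrix_apply, id, Matrix.one_apply_ne (fun h => hy (Subtype.ext h.symm)),
        zero_mul]
    · intro h
      exact absurd (Finset.mem_univ x) h
  funext x
  rw [← h4 c x, ← h4 d x, h1]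

theorem gram_unit (hpol : IsPolarized lev j ψ P) (hP : IsUnit P.det) (p : ℤ) :
    IsUnit ((colsA lev p P)ᴴ * (qc ψ)ᵀ * colsA lev p P).det := by
  obtain ⟨Q, deg, hQu, hQ⟩ := exists_basis hpol.span
  set A := colsA lev p P with hA
  set C' := weilInv j Q deg with hC'
  have hM : ((qc ψ)ᵀ * C').PosDef := (polFrame hpol hQu hQ).posM
  have hC2 : C' = sc Q deg fun q => Complex.I ^ (2 * q - j) := rfl
  set T := (P * sc Q deg (ind p)).submatrix (Subtype.val : {x : Fin r // lev x ≤ p} → Fin r) id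
    with hT
  have hRA : sc Q deg (ind p) * A = A := R_mul_A hpol hP hQu hQ p
  have hAT : A * T = sc Q deg (ind p) := A_mul_T hpol hP hQ p
  have hcomm : C' * sc Q deg (ind p) = sc Q deg (ind p) * C' := by
    rw [hC2, sc_mul hQu, sc_mul hQu]
    congr 1
    funext q
    rw [mul_comm]
  have hCA : C' * A = A * (T * C' * A) := by
    calc C' * A = C' * (sc Q deg (ind p) * A) := by rw [hRA]
      _ = (C' * sc Q deg (ind p)) * A := by rw [Matrix.mul_assoc]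
      _ = (sc Q deg (ind p) * C') * A := by rw [hcomm]
      _ = (A * T * C') * A := by rw [hAT]
      _ = A * (T * C' * A) := by simp only [Matrix.mul_assoc]
  have hpos : (Aᴴ * ((qc ψ)ᵀ * C') * A).PosDef :=
    hM.conjTranspose_mul_mul_same (colsA_inj hP p)
  have h1 : Aᴴ * ((qc ψ)ᵀ * C') * A = (Aᴴ * (qc ψ)ᵀ * A) * (T * C' * A) := by
    calc Aᴴ * ((qc ψ)ᵀ * C') * A = Aᴴ * (qc ψ)ᵀ * (C' * A) := by simp only [Matrix.mul_assoc]
      _ = Aᴴ * (qc ψ)ᵀ * (A * (T * C' * A)) := by rw [hCA]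
      _ = _ := by simp only [Matrix.mul_assoc]
  have h2 := hpos.isUnit
  rw [h1, Matrix.isUnit_iff_isUnit_det, Matrix.det_mul] at h2
  exact isUnit_of_mul_isUnit_left h2

theorem Qp_eq (hpol : IsPolarized lev j ψ P) (hP : IsUnit P.det) (hQu : IsUnit Q.det)
    (hQ : ∀ i, (fun x => Q x i) ∈ hodgePart lev j P (deg i)) (p : ℤ) :
    Qp lev ψ p P = sc Q deg fun q => if q ≤ p then 1 else 0 := by
  have hgoal : (sc Q deg fun q => if q ≤ p then (1 : ℂ) else 0) = sc Q deg (ind p) := rfl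
  rw [hgoal]
  set A := colsA lev p P with hA
  set R := sc Q deg (ind p) with hR
  set T := (P * R).submatrix (Subtype.val : {x : Fin r // lev x ≤ p} → Fin r) id with hT
  have hRA : R * A = A := R_mul_A hpol hP hQu hQ p
  have hAT : A * T = R := A_mul_T hpol hP hQ p
  have hadj : Rᴴ * (qc ψ)ᵀ = (qc ψ)ᵀ * R := sc_adj' hpol hQu hQ (star_ind p)
  have hG := gram_unit hpol hP p
  rw [← hA] at hG
  have e1 : Qp lev ψ p P * R = Qp lev ψ p P := by
    unfold Qp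
    rw [← hA]
    calc A * (Aᴴ * (qc ψ)ᵀ * A)⁻¹ * Aᴴ * (qc ψ)ᵀ * R
        = A * (Aᴴ * (qc ψ)ᵀ * A)⁻¹ * Aᴴ * ((qc ψ)ᵀ * R) := by rw [Matrix.mul_assoc _ _ R]
      _ = A * (Aᴴ * (qc ψ)ᵀ * A)⁻¹ * Aᴴ * (Rᴴ * (qc ψ)ᵀ) := by rw [hadj]
      _ = A * (Aᴴ * (qc ψ)ᵀ * A)⁻¹ * (Aᴴ * Rᴴ) * (qc ψ)ᵀ := by simp only [Matrix.mul_assoc]
      _ = A * (Aᴴ * (qc ψ)ᵀ * A)⁻¹ * Aᴴ * (qc ψ)ᵀ := by
          rw [← Matrix.conjTranspose_mul, hRA]
  have e2 : Qp lev ψ p P * R = R := by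
    unfold Qp
    rw [← hA]
    calc A * (Aᴴ * (qc ψ)ᵀ * A)⁻¹ * Aᴴ * (qc ψ)ᵀ * R
        = A * (Aᴴ * (qc ψ)ᵀ * A)⁻¹ * Aᴴ * (qc ψ)ᵀ * (A * T) := by rw [hAT]
      _ = A * ((Aᴴ * (qc ψ)ᵀ * A)⁻¹ * (Aᴴ * (qc ψ)ᵀ * A)) * T := by
          simp only [Matrix.mul_assoc]
      _ = A * T := by rw [Matrix.nonsing_inv_mul _ hG, Matrix.mul_one]
      _ = R := hAT
  rw [← e1, e2]

theorem deg_mem (hpol : IsPolarized lev j ψ P) (hP : IsUnit P.det) (hQu : IsUnit Q.det)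
    (hQ : ∀ i, (fun x => Q x i) ∈ hodgePart lev j P (deg i)) (i : Fin r) : ∃ x, lev x = deg i := by
  by_contra hcon
  push Not at hcon
  have hu : IsUnit (P * Q).det := by
    rw [Matrix.det_mul]
    exact hP.mul hQu
  have h1 : ((P * Q)⁻¹ * (P * Q)) i i = 1 := by
    rw [Matrix.nonsing_inv_mul _ hu, Matrix.one_apply_eq]
  rw [Matrix.mul_apply] at h1
  have h2 : ∑ x, (P * Q)⁻¹ i x * (P * Q) x i = 0 := by
    refine Finset.sum_eq_zero fun x _ => ?_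
    rcases lt_or_gt_of_ne (hcon x) with h3 | h3
    · rw [low_PQ_inv hpol hQu hQ hP i x h3, zero_mul]
    · rw [low_PQ hQ x i h3, mul_zero]
  rw [h2] at h1
  exact zero_ne_one h1

/-- The telescoping sum. -/
private theorem tele_eq (hpol : IsPolarized lev j ψ P) (hP : IsUnit P.det) (hQu : IsUnit Q.det)
    (hQ : ∀ i, (fun x => Q x i) ∈ hodgePart lev j P (deg i)) (g : ℤ → ℂ) :
    g (Nb lev) • (1 : Matrix (Fin r) (Fin r) ℂ) +
      ∑ p ∈ Finset.Ico (-Nb lev) (Nb lev), (g p - g (p + 1)) • Qp lev ψ p P = sc Q deg g := by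
  have h1 : ∀ p ∈ Finset.Ico (-Nb lev) (Nb lev), (g p - g (p + 1)) • Qp lev ψ p P =
      sc Q deg fun q => (g p - g (p + 1)) * (if q ≤ p then 1 else 0) := by
    intro p _
    rw [Qp_eq hpol hP hQu hQ p, sc_smul']
  rw [Finset.sum_congr rfl h1, sc_sum' Q deg _ fun p q => (g p - g (p + 1)) * (if q ≤ p then 1 else 0),
    ← sc_one hQu deg, sc_smul', sc_add']
  refine sc_congr' Q deg fun i => ?_
  obtain ⟨x, hx⟩ := deg_mem hpol hP hQu hQ i
  have h2 := abs_le.1 (abs_le_Nb (lev := lev) x)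
  rw [hx] at h2
  simp only [mul_one]
  exact tele_if g h2.2 h2.1

theorem Em_eq (hpol : IsPolarized lev j ψ P) (hP : IsUnit P.det) (hQu : IsUnit Q.det)
    (hQ : ∀ i, (fun x => Q x i) ∈ hodgePart lev j P (deg i)) (u : ℂ) :
    Em lev j ψ u P = sc Q deg fun q => u ^ (2 * q - j) := by
  rw [← tele_eq hpol hP hQu hQ fun q => u ^ (2 * q - j)]
  unfold Em
  congr 1
  refine Finset.sum_congr rfl fun p _ => ?_
  have h1 : 2 * (p + 1) - j = 2 * p + 2 - j := by ring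
  simp only [h1]

theorem Dm_eq (hpol : IsPolarized lev j ψ P) (hP : IsUnit P.det) (hQu : IsUnit Q.det)
    (hQ : ∀ i, (fun x => Q x i) ∈ hodgePart lev j P (deg i)) :
    Dm lev j ψ P = sc Q deg fun q => ((2 * q - j : ℤ) : ℂ) := by
  rw [← tele_eq hpol hP hQu hQ fun q => ((2 * q - j : ℤ) : ℂ)]
  unfold Dm
  rw [sub_eq_add_neg, ← neg_smul, Finset.smul_sum]
  congr 1
  refine Finset.sum_congr rfl fun p _ => ?_
  congr 1
  push_cast
  ring

theorem Hm_pos (hpol : IsPolarized lev j ψ P) (hP : IsUnit P.det) : (Hm lev j ψ P).PosDef := by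
  obtain ⟨Q, deg, hQu, hQ⟩ := exists_basis hpol.span
  unfold Hm
  rw [Em_eq hpol hP hQu hQ]
  exact (polFrame hpol hQu hQ).posM

theorem Hm_adj (hpol : IsPolarized lev j ψ P) (hP : IsUnit P.det) :
    Hm lev j ψ P * Dm lev j ψ P = (Dm lev j ψ P)ᴴ * Hm lev j ψ P := by
  obtain ⟨Q, deg, hQu, hQ⟩ := exists_basis hpol.span
  unfold Hm
  rw [Em_eq hpol hP hQu hQ, Dm_eq hpol hP hQu hQ]
  have hadj := sc_adj' hpol hQu hQ (s := fun q => ((2 * q - j : ℤ) : ℂ)) (by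
    intro q
    simp)
  rw [← Matrix.mul_assoc (sc Q deg fun q => ((2 * q - j : ℤ) : ℂ))ᴴ, hadj, Matrix.mul_assoc,
    Matrix.mul_assoc, sc_mul hQu, sc_mul hQu]
  congr 2
  funext q
  rw [mul_comm]

theorem Dm_spec (hpol : IsPolarized lev j ψ P) (hP : IsUnit P.det) :
    ∃ (Q : Matrix (Fin r) (Fin r) ℂ) (d : Fin r → ℝ), IsUnit Q.det ∧
      Dm lev j ψ P = Q * diagonal (fun i => (d i : ℂ)) * Q⁻¹ ∧ ∀ i, |d i| ≤ ((2 * Nb lev + |j| : ℤ) : ℝ) := by
  obtain ⟨Q, deg, hQu, hQ⟩ := exists_basis hpol.span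
  refine ⟨Q, fun i => ((2 * deg i - j : ℤ) : ℝ), hQu, ?_, ?_⟩
  · rw [Dm_eq hpol hP hQu hQ]
    unfold sc
    congr 2
  · intro i
    obtain ⟨x, hx⟩ := deg_mem hpol hP hQu hQ i
    have h2 := abs_le_Nb (lev := lev) x
    rw [hx] at h2
    have h3 : |2 * deg i - j| ≤ 2 * Nb lev + |j| := by
      calc |2 * deg i - j| ≤ |2 * deg i| + |j| := abs_sub _ _
        _ = 2 * |deg i| + |j| := by rw [abs_mul, abs_two]
        _ ≤ _ := by linarith
    rw [← Int.cast_abs]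
    exact_mod_cast h3

theorem Em_det (hpol : IsPolarized lev j ψ P) (hP : IsUnit P.det) {u : ℂ} (hu : u ≠ 0) :
    (Em lev j ψ u P).det = 1 := by
  obtain ⟨Q, deg, hQu, hQ⟩ := exists_basis hpol.span
  rw [Em_eq hpol hP hQu hQ]
  exact det_sc hpol hQu hQ hu

theorem Em_mul (hpol : IsPolarized lev j ψ P) (hP : IsUnit P.det) {u u' : ℂ} (hu : u ≠ 0) (hu' : u' ≠ 0) :
    Em lev j ψ u P * Em lev j ψ u' P = Em lev j ψ (u * u') P := by
  obtain ⟨Q, deg, hQu, hQ⟩ := exists_basis hpol.span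
  rw [Em_eq hpol hP hQu hQ, Em_eq hpol hP hQu hQ, Em_eq hpol hP hQu hQ, sc_mul hQu]
  congr 1
  funext q
  rw [mul_zpow]

theorem Em_one (hpol : IsPolarized lev j ψ P) (hP : IsUnit P.det) : Em lev j ψ 1 P = 1 := by
  obtain ⟨Q, deg, hQu, hQ⟩ := exists_basis hpol.span
  rw [Em_eq hpol hP hQu hQ, ← sc_one hQu deg]
  congr 1
  funext q
  rw [_root_.one_zpow]

theorem Em_isom (hpol : IsPolarized lev j ψ P) (hP : IsUnit P.det) {u : ℂ} (hu : u ≠ 0) :
    (Em lev j ψ u P)ᵀ * qc ψ * Em lev j ψ u P = qc ψ := by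
  obtain ⟨Q, deg, hQu, hQ⟩ := exists_basis hpol.span
  rw [Em_eq hpol hP hQu hQ]
  refine sc_isom hpol hQu hQ fun p => ?_
  rw [← zpow_add₀ hu]
  have : 2 * p - j + (2 * (j - p) - j) = 0 := by ring
  rw [this, zpow_zero]

/-- The elements of the Hodge circle. -/
theorem circle_iff (hpol : IsPolarized lev j ψ P) (hP : IsUnit P.det) {u : ℂ} (hu : ‖u‖ = 1)
    (a : GL (Fin r) ℂ) : IsCircleElt lev j P u a ↔ (a : Matrix (Fin r) (Fin r) ℂ) = Em lev j ψ u P := by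
  obtain ⟨Q, deg, hQu, hQ⟩ := exists_basis hpol.span
  rw [Em_eq hpol hP hQu hQ]
  constructor
  · intro h
    refine eq_of_span hpol fun p v hv => ?_
    rw [h.2 p v hv, sc_mulVec hpol hQu hQ _ hv]
  · intro h
    refine ⟨hu, fun p v hv => ?_⟩
    rw [h, sc_mulVec hpol hQu hQ _ hv]

private theorem zc_unit {γ : Matrix (Fin r) (Fin r) ℤ} (hγ : IsUnit γ.det) :
    IsUnit (zc γ).det := by
  have h1 : (zc γ).det = ((γ.det : ℤ) : ℂ) := by
    have h2 : zc γ = (Int.castRingHom ℂ).mapMatrix γ := rfl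
    rw [h2, ← RingHom.map_det]
    rfl
  rw [h1]
  exact hγ.map (Int.castRingHom ℂ)

private theorem star_zc_mulVec (γ : Matrix (Fin r) (Fin r) ℤ) (v : Fin r → ℂ) :
    star (zc γ *ᵥ v) = zc γ *ᵥ star v := by
  funext i
  rw [Pi.star_apply, Matrix.mulVec, Matrix.mulVec, dotProduct, dotProduct, star_sum]
  refine Finset.sum_congr rfl fun k _ => ?_
  rw [star_mul', Pi.star_apply]
  congr 1
  change star ((γ i k : ℤ) : ℂ) = ((γ i k : ℤ) : ℂ)
  simp

private theorem hodgePart_mul (γ : Matrix (Fin r) (Fin r) ℤ) (p : ℤ) (v : Fin r → ℂ) :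
    v ∈ hodgePart lev j (P * zc γ) p ↔ zc γ *ᵥ v ∈ hodgePart lev j P p := by
  have h1 : ∀ w : Fin r → ℂ, (P * zc γ) *ᵥ w = P *ᵥ (zc γ *ᵥ w) := fun w => by
    rw [Matrix.mulVec_mulVec]
  constructor
  · intro h x
    refine ⟨fun hx => ?_, fun hx => ?_⟩
    · rw [← h1]
      exact (h x).1 hx
    · rw [star_zc_mulVec, ← h1]
      exact (h x).2 hx
  · intro h x
    refine ⟨fun hx => ?_, fun hx => ?_⟩
    · rw [h1]
      exact (h x).1 hx
    · rw [h1, ← star_zc_mulVec]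
      exact (h x).2 hx

private theorem form_mul {γ : Matrix (Fin r) (Fin r) ℤ} (hiso : (zc γ)ᵀ * qc ψ * zc γ = qc ψ)
    (u v : Fin r → ℂ) : form ψ (zc γ *ᵥ u) (zc γ *ᵥ v) = form ψ u v := by
  have h1 : form ψ (zc γ *ᵥ u) (zc γ *ᵥ v) = u ⬝ᵥ (((zc γ)ᵀ * qc ψ * zc γ) *ᵥ v) := by
    rw [form, ← Matrix.mulVec_mulVec, ← Matrix.mulVec_mulVec, Matrix.dotProduct_mulVec u,
      Matrix.vecMul_transpose]
  rw [h1, hiso]
  rfl

theorem isPolarized_mul (hpol : IsPolarized lev j ψ P) {γ : Matrix (Fin r) (Fin r) ℤ} (hγ : IsUnit γ.det)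
    (hiso : (zc γ)ᵀ * qc ψ * zc γ = qc ψ) : IsPolarized lev j ψ (P * zc γ) := by
  have hu := zc_unit hγ
  have hinv : ∀ v : Fin r → ℂ, (zc γ)⁻¹ *ᵥ (zc γ *ᵥ v) = v := fun v => by
    rw [Matrix.mulVec_mulVec, Matrix.nonsing_inv_mul _ hu, Matrix.one_mulVec]
  have hinv' : ∀ v : Fin r → ℂ, zc γ *ᵥ ((zc γ)⁻¹ *ᵥ v) = v := fun v => by
    rw [Matrix.mulVec_mulVec, Matrix.mul_nonsing_inv _ hu, Matrix.one_mulVec]
  refine ⟨?_, ?_, ?_⟩
  · rw [eq_top_iff]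
    intro v _
    have hv : zc γ *ᵥ v ∈ ⨆ p, hodgePart lev j P p := by
      rw [hpol.span]
      exact Submodule.mem_top
    have key : ∀ w ∈ ⨆ p, hodgePart lev j P p,
        (zc γ)⁻¹ *ᵥ w ∈ ⨆ p, hodgePart lev j (P * zc γ) p := by
      intro w hw
      refine Submodule.iSup_induction _
        (motive := fun w => (zc γ)⁻¹ *ᵥ w ∈ ⨆ p, hodgePart lev j (P * zc γ) p) hw ?_ ?_ ?_
      · intro p w hw
        refine Submodule.mem_iSup_of_mem p ?_
        rw [hodgePart_mul, hinv']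
        exact hw
      · rw [Matrix.mulVec_zero]
        exact Submodule.zero_mem _
      · intro x y hx hy
        rw [Matrix.mulVec_add]
        exact Submodule.add_mem _ hx hy
    have h1 := key _ hv
    rwa [hinv] at h1
  · intro p q hpq u hu' v hv'
    rw [hodgePart_mul] at hu' hv'
    have h1 := hpol.orth p q hpq _ hu' _ hv'
    rwa [star_zc_mulVec, form_mul hiso] at h1
  · intro p v hv hv0
    rw [hodgePart_mul] at hv
    have hne : zc γ *ᵥ v ≠ 0 := by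
      intro h0
      apply hv0
      rw [← hinv v, h0, Matrix.mulVec_zero]
    obtain ⟨c, hc, h1⟩ := hpol.pos p _ hv hne
    rw [star_zc_mulVec, form_mul hiso] at h1
    exact ⟨c, hc, h1⟩

private theorem conj_zc (γ : Matrix (Fin r) (Fin r) ℤ) : (zc γ)ᴴ = (zc γ)ᵀ := by
  ext i k
  rw [Matrix.conjTranspose_apply, Matrix.transpose_apply]
  change star ((γ k i : ℤ) : ℂ) = ((γ k i : ℤ) : ℂ)
  simp

private theorem iso_T {γ : Matrix (Fin r) (Fin r) ℤ} (hγ : IsUnit γ.det)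
    (hiso : (zc γ)ᵀ * qc ψ * zc γ = qc ψ) : (zc γ)ᴴ * (qc ψ)ᵀ = (qc ψ)ᵀ * (zc γ)⁻¹ := by
  have h1 := congrArg Matrix.transpose hiso
  rw [Matrix.transpose_mul, Matrix.transpose_mul, Matrix.transpose_transpose] at h1
  rw [conj_zc]
  calc (zc γ)ᵀ * (qc ψ)ᵀ = (zc γ)ᵀ * (qc ψ)ᵀ * (zc γ * (zc γ)⁻¹) := by
        rw [mul_inv' (zc_unit hγ), Matrix.mul_one]
    _ = (zc γ)ᵀ * ((qc ψ)ᵀ * zc γ) * (zc γ)⁻¹ := by simp only [Matrix.mul_assoc]
    _ = _ := by rw [h1]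

private theorem Qp_mul_right {γ : Matrix (Fin r) (Fin r) ℤ} (hγ : IsUnit γ.det)
    (hiso : (zc γ)ᵀ * qc ψ * zc γ = qc ψ) (p : ℤ) :
    Qp lev ψ p (P * zc γ) = (zc γ)⁻¹ * Qp lev ψ p P * zc γ := by
  have hu := zc_unit hγ
  have hA : colsA lev p (P * zc γ) = (zc γ)⁻¹ * colsA lev p P := by
    unfold colsA
    rw [Matrix.mul_inv_rev]
    rfl
  have hT := iso_T hγ hiso
  have h3 : ((zc γ)⁻¹)ᴴ * (zc γ)ᴴ = 1 := by
    rw [← Matrix.conjTranspose_mul, mul_inv' hu, Matrix.conjTranspose_one]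
  have hT2 : ((zc γ)⁻¹)ᴴ * (qc ψ)ᵀ = (qc ψ)ᵀ * zc γ := by
    calc ((zc γ)⁻¹)ᴴ * (qc ψ)ᵀ = ((zc γ)⁻¹)ᴴ * ((qc ψ)ᵀ * (zc γ)⁻¹) * zc γ := by
          rw [Matrix.mul_assoc, Matrix.mul_assoc (qc ψ)ᵀ, Matrix.nonsing_inv_mul _ hu,
            Matrix.mul_one]
      _ = ((zc γ)⁻¹)ᴴ * ((zc γ)ᴴ * (qc ψ)ᵀ) * zc γ := by rw [hT]
      _ = (((zc γ)⁻¹)ᴴ * (zc γ)ᴴ) * (qc ψ)ᵀ * zc γ := by simp only [Matrix.mul_assoc]
      _ = _ := by rw [h3, Matrix.one_mul]
  have hG : ((zc γ)⁻¹ * colsA lev p P)ᴴ * (qc ψ)ᵀ * ((zc γ)⁻¹ * colsA lev p P) =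
      (colsA lev p P)ᴴ * (qc ψ)ᵀ * colsA lev p P := by
    rw [Matrix.conjTranspose_mul]
    calc (colsA lev p P)ᴴ * ((zc γ)⁻¹)ᴴ * (qc ψ)ᵀ * ((zc γ)⁻¹ * colsA lev p P)
        = (colsA lev p P)ᴴ * (((zc γ)⁻¹)ᴴ * (qc ψ)ᵀ) * (zc γ)⁻¹ * colsA lev p P := by
          simp only [Matrix.mul_assoc]
      _ = (colsA lev p P)ᴴ * ((qc ψ)ᵀ * zc γ) * (zc γ)⁻¹ * colsA lev p P := by rw [hT2]
      _ = (colsA lev p P)ᴴ * (qc ψ)ᵀ * (zc γ * (zc γ)⁻¹) * colsA lev p P := by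
          simp only [Matrix.mul_assoc]
      _ = _ := by rw [mul_inv' hu, Matrix.mul_one]
  unfold Qp
  rw [hA, hG, Matrix.conjTranspose_mul]
  calc (zc γ)⁻¹ * colsA lev p P * ((colsA lev p P)ᴴ * (qc ψ)ᵀ * colsA lev p P)⁻¹ *
        ((colsA lev p P)ᴴ * ((zc γ)⁻¹)ᴴ) * (qc ψ)ᵀ
      = (zc γ)⁻¹ * (colsA lev p P * ((colsA lev p P)ᴴ * (qc ψ)ᵀ * colsA lev p P)⁻¹ *
        (colsA lev p P)ᴴ * (((zc γ)⁻¹)ᴴ * (qc ψ)ᵀ)) := by simp only [Matrix.mul_assoc]
    _ = (zc γ)⁻¹ * (colsA lev p P * ((colsA lev p P)ᴴ * (qc ψ)ᵀ * colsA lev p P)⁻¹ *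
        (colsA lev p P)ᴴ * ((qc ψ)ᵀ * zc γ)) := by rw [hT2]
    _ = _ := by simp only [Matrix.mul_assoc]

private theorem conj_smul_one {γ : Matrix (Fin r) (Fin r) ℤ} (hγ : IsUnit γ.det) (c : ℂ) :
    (zc γ)⁻¹ * (c • (1 : Matrix (Fin r) (Fin r) ℂ)) * zc γ = c • 1 := by
  rw [Matrix.mul_smul, Matrix.mul_one, Matrix.smul_mul, Matrix.nonsing_inv_mul _ (zc_unit hγ)]

private theorem conj_sum {γ : Matrix (Fin r) (Fin r) ℤ} (hγ : IsUnit γ.det)
    (hiso : (zc γ)ᵀ * qc ψ * zc γ = qc ψ) (s : Finset ℤ) (c : ℤ → ℂ) :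
    ∑ p ∈ s, c p • Qp lev ψ p (P * zc γ) =
      (zc γ)⁻¹ * (∑ p ∈ s, c p • Qp lev ψ p P) * zc γ := by
  rw [Matrix.mul_sum, Matrix.sum_mul]
  refine Finset.sum_congr rfl fun p _ => ?_
  rw [Qp_mul_right hγ hiso, Matrix.mul_smul, Matrix.smul_mul]

theorem Em_mul_right (hpol : IsPolarized lev j ψ P) (hP : IsUnit P.det) {γ : Matrix (Fin r) (Fin r) ℤ}
    (hγ : IsUnit γ.det) (hiso : (zc γ)ᵀ * qc ψ * zc γ = qc ψ) (u : ℂ) :
    Em lev j ψ u (P * zc γ) = (zc γ)⁻¹ * Em lev j ψ u P * zc γ := by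
  unfold Em
  rw [Matrix.mul_add, Matrix.add_mul, conj_smul_one hγ,
    conj_sum hγ hiso _ fun p => u ^ (2 * p - j) - u ^ (2 * p + 2 - j)]

theorem Dm_mul_right (hpol : IsPolarized lev j ψ P) (hP : IsUnit P.det) {γ : Matrix (Fin r) (Fin r) ℤ}
    (hγ : IsUnit γ.det) (hiso : (zc γ)ᵀ * qc ψ * zc γ = qc ψ) :
    Dm lev j ψ (P * zc γ) = (zc γ)⁻¹ * Dm lev j ψ P * zc γ := by
  unfold Dm
  have h1 : ∑ p ∈ Finset.Ico (-Nb lev) (Nb lev), Qp lev ψ p (P * zc γ) =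
      (zc γ)⁻¹ * (∑ p ∈ Finset.Ico (-Nb lev) (Nb lev), Qp lev ψ p P) * zc γ := by
    have h2 := conj_sum (lev := lev) (P := P) hγ hiso (Finset.Ico (-Nb lev) (Nb lev))
      fun _ => (1 : ℂ)
    simpa only [one_smul] using h2
  rw [Matrix.mul_sub, Matrix.sub_mul, conj_smul_one hγ, h1, Matrix.mul_smul, Matrix.smul_mul]

theorem Hm_mul_right (hpol : IsPolarized lev j ψ P) (hP : IsUnit P.det) {γ : Matrix (Fin r) (Fin r) ℤ}
    (hγ : IsUnit γ.det) (hiso : (zc γ)ᵀ * qc ψ * zc γ = qc ψ) :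
    Hm lev j ψ (P * zc γ) = (zc γ)ᴴ * Hm lev j ψ P * zc γ := by
  unfold Hm
  rw [Em_mul_right hpol hP hγ hiso, ← Matrix.mul_assoc, ← Matrix.mul_assoc,
    ← iso_T hγ hiso]
  simp only [Matrix.mul_assoc]

section Analytic

variable {E : Type} [NormedAddCommGroup E] [NormedSpace ℝ E] {F : E → Matrix (Fin r) (Fin r) ℂ} {x : E}

theorem rat_Qp (hF : RAt F x) (hpol : IsPolarized lev j ψ (F x)) (hP : IsUnit (F x).det) (p : ℤ) :
    RAt (fun y => Qp lev ψ p (F y)) x := by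
  have hA : RAt (fun y => colsA lev p (F y)) x := rat_submatrix (rat_inv hF hP) _ _
  have hAH : RAt (fun y => (colsA lev p (F y))ᴴ) x := rat_conjTranspose hA
  have hG : RAt (fun y => (colsA lev p (F y))ᴴ * (qc ψ)ᵀ * colsA lev p (F y)) x :=
    rat_mul (rat_mul hAH (rat_const _)) hA
  have hGi := rat_inv hG (gram_unit hpol hP p)
  exact rat_mul (rat_mul (rat_mul hA hGi) hAH) (rat_const _)

theorem rat_Em (hF : RAt F x) (hpol : IsPolarized lev j ψ (F x)) (hP : IsUnit (F x).det) (u : ℂ) :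
    RAt (fun y => Em lev j ψ u (F y)) x :=
  rat_add (rat_const _) (rat_sum fun p _ => rat_smul _ (rat_Qp hF hpol hP p))

theorem rat_Dm (hF : RAt F x) (hpol : IsPolarized lev j ψ (F x)) (hP : IsUnit (F x).det) :
    RAt (fun y => Dm lev j ψ (F y)) x :=
  rat_sub (rat_const _) (rat_smul _ (rat_sum fun p _ => rat_Qp hF hpol hP p))

theorem rat_Hm (hF : RAt F x) (hpol : IsPolarized lev j ψ (F x)) (hP : IsUnit (F x).det) :
    RAt (fun y => Hm lev j ψ (F y)) x :=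
  rat_mul (rat_const _) (rat_Em hF hpol hP _)

end Analytic

end Pool.Agent.Helper79.FX
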