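import Mathlib

/-!
# FX-29: idempotents which commute with integral matrices

`e` idempotent in the matrices over a field `K` of characteristic zero, `γ` commutes with `e`: `dd e γ = det (1 - e + γ e)`.
* `dd_mul`: `(1 - e + γ e) (1 - e + γ' e) = 1 - e + γ γ' e`.
* `dd_integral`: in the commutative ring `ℤ[e, γ]` (`Algebra.adjoin`; or: `IsIntegral` is stable under sums and products of commuting elements) `e` is integral (`e² = e`) and `γ = A.map Int.cast` is integral (Cayley-Hamilton for `A`, `Matrix.aeval_self_charpoly`), so `M = 1 - e + γ e` is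
  integral: `p(M) = 0` with `p` monic over `ℤ`. Every eigenvalue of `M` in an algebraic closure is a root of `p`, so integral, and the determinant is the product of the roots of the characteristic polynomial
  (`Matrix.det_eq_prod_roots_charpoly`), so integral over `ℤ` in the algebraic closure, and in `K`.
* `pow_eq_one`: `K` a number field, `G` a set of integral matrices closed under multiplication, commuting with `e`, with `‖φ (dd e γ)‖ = 1` for all embeddings `φ : K →+* ℂ`: the numbers `dd e γ`, `γ ∈ G`, are in the finite set `NumberField.Embeddings.finite_of_norm_le`, and each is a root of unity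
  (`NumberField.Embeddings.pow_eq_one_of_norm_eq_one`); `n` = the product of the orders of all roots of unity in this finite set.
* `trace_ne_zero`: the trace of a nonzero idempotent is its rank (`LinearMap.IsIdempotentElem...`, `LinearMap.trace_eq..`, or: `e` is similar to a diagonal matrix with entries `0`, `1`).
* `exists_idem`: `f = minpoly ℚ z` squarefree, so over `K`, for a root `lam ∈ K`, `f = (X - lam) g`, `g(lam) ≠ 0` (separable: characteristic zero), `e = g(lam)⁻¹ g(z)`: `z e = lam e`, so `p(z) e = p(lam) e` for all `p`, and `e e = e`; `e ≠ 0` since `g(z) ≠ 0` (the minimal polynomial of `z` over `K` is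
  `f`, of larger degree than `g`: `minpoly` of a matrix does not change under field extensions; or: `f(z) = 0` and if `g(z) = 0` then all the conjugates...; or take `g` over `K` and use `Matrix.minpoly`-`map`).
-/

namespace Pool.Agent.Helper79.FX

open Matrix

variable {r : ℕ} {K : Type} [Field K] [CharZero K]

/-- The determinant of `γ` on the image of the idempotent `e`. -/
noncomputable def dd (e γ : Matrix (Fin r) (Fin r) K) : K := (1 - e + γ * e).det

theorem dd_mul {e γ γ' : Matrix (Fin r) (Fin r) K} (he : e * e = e) (h : γ * e = e * γ)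
    (h' : γ' * e = e * γ') : dd e (γ * γ') = dd e γ * dd e γ' := by
  unfold dd
  rw [← Matrix.det_mul]
  congr 1
  have h1 : γ * e * e = γ * e := by rw [mul_assoc, he]
  have h2 : e * (γ' * e) = γ' * e := by rw [h', ← mul_assoc, he]
  have h3 : γ * e * (γ' * e) = γ * γ' * e := by rw [mul_assoc, h2, mul_assoc]
  have h4 : (1 - e + γ * e) * (1 - e + γ' * e)
      = 1 - e - e + e * e + (γ * e - γ * e * e) + (γ' * e - e * (γ' * e)) + γ * e * (γ' * e) := by
    noncomm_ring
  rw [h4, he, h1, h2, h3]
  abel

/-- A polynomial of a matrix at an eigenvector. -/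
private theorem aeval_mulVec_of_eigen {L : Type*} [Field L] {R : Type*} [CommRing R] [Algebra R L]
    {M : Matrix (Fin r) (Fin r) L} {v : Fin r → L} {μ : L} (h : M *ᵥ v = μ • v)
    (p : Polynomial R) : (Polynomial.aeval M p) *ᵥ v = (Polynomial.aeval μ p) • v := by
  have hpow : ∀ n : ℕ, (M ^ n) *ᵥ v = μ ^ n • v := by
    intro n
    induction n with
    | zero => simp
    | succ n ih => rw [pow_succ, ← Matrix.mulVec_mulVec, h, Matrix.mulVec_smul, ih, smul_smul,
        pow_succ, mul_comm]
  induction p using Polynomial.induction_on' with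
  | add p q hp hq => rw [map_add, map_add, Matrix.add_mulVec, hp, hq, add_smul]
  | monomial n a =>
    rw [Polynomial.aeval_monomial, Polynomial.aeval_monomial, ← Matrix.mulVec_mulVec, hpow]
    have : ((algebraMap R (Matrix (Fin r) (Fin r) L)) a) = (algebraMap R L a) • (1 : Matrix (Fin r) (Fin r) L) := by
      rw [Algebra.algebraMap_eq_smul_one, algebraMap_smul]
    rw [this, Matrix.smul_mulVec, Matrix.one_mulVec, smul_smul]

private theorem exists_eigen {L : Type*} [Field L] {M : Matrix (Fin r) (Fin r) L} {μ : L}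
    (h : M.charpoly.IsRoot μ) : ∃ v : Fin r → L, v ≠ 0 ∧ M *ᵥ v = μ • v := by
  have h1 : (μ • (1 : Matrix (Fin r) (Fin r) L) - M).det = 0 := by
    have h2 := h
    rw [Polynomial.IsRoot.def, Matrix.eval_charpoly] at h2
    rw [← h2]
    congr 1
    rw [Matrix.smul_one_eq_diagonal]
    rfl
  obtain ⟨v, hv, hMv⟩ := Matrix.exists_mulVec_eq_zero_iff.mpr h1
  refine ⟨v, hv, ?_⟩
  rw [Matrix.sub_mulVec, Matrix.smul_mulVec, Matrix.one_mulVec, sub_eq_zero] at hMv
  exact hMv.symm

theorem dd_integral {e : Matrix (Fin r) (Fin r) K} (he : e * e = e) {A : Matrix (Fin r) (Fin r) ℤ}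
    (h : A.map (Int.cast : ℤ → K) * e = e * A.map (Int.cast : ℤ → K)) :
    IsIntegral ℤ (dd e (A.map (Int.cast : ℤ → K))) := by
  set γ : Matrix (Fin r) (Fin r) K := A.map (Int.cast : ℤ → K) with hγ
  set L := AlgebraicClosure K
  have hinj : Function.Injective (algebraMap K L) := (algebraMap K L).injective
  rw [← isIntegral_algebraMap_iff hinj]
  set M : Matrix (Fin r) (Fin r) L := (algebraMap K L).mapMatrix (1 - e + γ * e) with hM
  have h0 : algebraMap K L (dd e γ) = M.det := by
    rw [dd, hM, RingHom.map_det]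
  rw [h0, Matrix.det_eq_prod_roots_charpoly]
  apply IsIntegral.multiset_prod
  intro μ hμ
  have hroot : M.charpoly.IsRoot μ := Polynomial.isRoot_of_mem_roots hμ
  obtain ⟨v, hv, hMv⟩ := exists_eigen hroot
  set e' : Matrix (Fin r) (Fin r) L := (algebraMap K L).mapMatrix e with he'
  set g' : Matrix (Fin r) (Fin r) L := (algebraMap K L).mapMatrix γ with hg'
  have hM' : M = 1 - e' + g' * e' := by
    rw [hM, map_add, map_sub, map_mul, map_one]
  have hee : e' * e' = e' := by rw [he', ← map_mul, he]
  have hge : g' * e' = e' * g' := by rw [he', hg', ← map_mul, ← map_mul, h]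
  by_cases hev : e' *ᵥ v = 0
  · have h1 : M *ᵥ v = v := by
      rw [hM', Matrix.add_mulVec, Matrix.sub_mulVec, Matrix.one_mulVec, hev,
        ← Matrix.mulVec_mulVec, hev, Matrix.mulVec_zero]
      simp
    have h2 : (μ - 1) • v = 0 := by
      rw [sub_smul, one_smul, ← hMv, h1, sub_self]
    have h3 : μ = 1 := by
      rcases smul_eq_zero.mp h2 with h3 | h3
      · exact sub_eq_zero.mp h3
      · exact absurd h3 hv
    rw [h3]
    exact isIntegral_one
  · set w := e' *ᵥ v with hw
    have h1 : M * e' = g' * e' := by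
      rw [hM', add_mul, sub_mul, one_mul, hee, sub_self, zero_add, mul_assoc, hee]
    have h2 : e' * M = M * e' := by
      rw [h1, hM', mul_add, mul_sub, mul_one, hee, sub_self, zero_add, ← mul_assoc, ← hge,
        mul_assoc, hee]
    have h3 : g' *ᵥ w = μ • w := by
      have h4 : g' *ᵥ w = (g' * e') *ᵥ v := by rw [hw, Matrix.mulVec_mulVec]
      rw [h4, ← h1, ← h2, ← Matrix.mulVec_mulVec, hMv, Matrix.mulVec_smul]
    have h5 := aeval_mulVec_of_eigen (R := ℤ) h3 A.charpoly
    have h6 : g' = A.map (algebraMap ℤ L) := by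
      ext i j
      simp [hg', hγ]
    have h7 : Polynomial.aeval g' A.charpoly = 0 := by
      have h8 := Matrix.aeval_self_charpoly A
      have h9 : g' = (Algebra.ofId ℤ L).mapMatrix A := by
        rw [h6]; rfl
      rw [h9, Polynomial.aeval_algHom_apply, h8, map_zero]
    rw [h7, Matrix.zero_mulVec] at h5
    rcases smul_eq_zero.mp h5.symm with h10 | h10
    · exact ⟨A.charpoly, A.charpoly_monic, by rwa [Polynomial.aeval_def] at h10⟩
    · exact absurd h10 hev

theorem trace_ne_zero {e : Matrix (Fin r) (Fin r) K} (he : e * e = e) (h0 : e ≠ 0) : e.trace ≠ 0 := by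
  intro ht
  apply h0
  have h1 : IsIdempotentElem (Matrix.toLin' e) := by
    unfold IsIdempotentElem
    rw [Module.End.mul_eq_comp, ← Matrix.toLin'_mul, he]
  have h2 : LinearMap.trace K (Fin r → K) (Matrix.toLin' e) = 0 := by
    rw [Matrix.trace_toLin'_eq, ht]
  have h3 := (LinearMap.IsIdempotentElem.trace_eq_zero_iff h1).mp h2
  exact Matrix.toLin'.map_eq_zero_iff.mp h3

theorem exists_pow_eq_one [NumberField K] {e : Matrix (Fin r) (Fin r) K} (he : e * e = e)
    {G : Set (Matrix (Fin r) (Fin r) ℤ)}
    (h : ∀ A ∈ G, A.map (Int.cast : ℤ → K) * e = e * A.map (Int.cast : ℤ → K))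
    (hn : ∀ A ∈ G, ∀ φ : K →+* ℂ, ‖φ (dd e (A.map (Int.cast : ℤ → K)))‖ = 1) :
    ∃ n : ℕ, 0 < n ∧ ∀ A ∈ G, dd e (A.map (Int.cast : ℤ → K)) ^ n = 1 := by
  have hfin := NumberField.Embeddings.finite_of_norm_le K ℂ 1
  set S : Set K := {x : K | IsIntegral ℤ x ∧ ∀ φ : K →+* ℂ, ‖φ x‖ ≤ 1}
  have hex : ∀ x : K, ∃ n : ℕ, 0 < n ∧ ((IsIntegral ℤ x ∧ ∀ φ : K →+* ℂ, ‖φ x‖ = 1) → x ^ n = 1) := by
    intro x
    by_cases hx : IsIntegral ℤ x ∧ ∀ φ : K →+* ℂ, ‖φ x‖ = 1
    · obtain ⟨n, hn0, hn1⟩ := NumberField.Embeddings.pow_eq_one_of_norm_eq_one K ℂ hx.1 hx.2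
      exact ⟨n, hn0, fun _ => hn1⟩
    · exact ⟨1, one_pos, fun h' => absurd h' hx⟩
  choose f hf0 hf1 using hex
  refine ⟨∏ x ∈ hfin.toFinset, f x, Finset.prod_pos fun x _ => hf0 x, ?_⟩
  intro A hA
  have hint := dd_integral he (h A hA)
  have hnorm := hn A hA
  have hmem : dd e (A.map (Int.cast : ℤ → K)) ∈ hfin.toFinset := by
    rw [Set.Finite.mem_toFinset]
    exact ⟨hint, fun φ => (hnorm φ).le⟩
  obtain ⟨c, hc⟩ := Finset.dvd_prod_of_mem f hmem
  rw [hc, pow_mul, hf1 _ ⟨hint, hnorm⟩, one_pow]

/-- If `z ≠ 0` is a rational matrix whose rational polynomials are not nilpotent, there are a number field `K`, an eigenvalue `lam ≠ 0` in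
`K` and the projection onto the eigenspace, a polynomial in `z`. -/
theorem exists_idem {z : Matrix (Fin r) (Fin r) ℚ} (h0 : z ≠ 0)
    (hred : ∀ p : Polynomial ℚ, IsNilpotent (Polynomial.aeval z p) → Polynomial.aeval z p = 0) :
    ∃ (K : Type) (_ : Field K) (_ : NumberField K) (lam : K) (q : Polynomial K),
      lam ≠ 0 ∧ Polynomial.aeval (z.map (algebraMap ℚ K)) q ≠ 0 ∧
      Polynomial.aeval (z.map (algebraMap ℚ K)) q * Polynomial.aeval (z.map (algebraMap ℚ K)) q =
        Polynomial.aeval (z.map (algebraMap ℚ K)) q ∧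
      z.map (algebraMap ℚ K) * Polynomial.aeval (z.map (algebraMap ℚ K)) q =
        lam • Polynomial.aeval (z.map (algebraMap ℚ K)) q := by
  classical
  set f : Polynomial ℚ := minpoly ℚ z with hf
  have hzint : IsIntegral ℚ z := Matrix.isIntegral z
  have hf0 : f ≠ 0 := minpoly.ne_zero hzint
  have hfz : Polynomial.aeval z f = 0 := minpoly.aeval ℚ z
  -- `f` is squarefree
  have hsq : Squarefree f := by
    intro p hp
    by_contra hpu
    obtain ⟨c, hc⟩ := hp
    have hp0 : p ≠ 0 := by
      rintro rfl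
      apply hf0
      rw [hc]; simp
    have hc0 : c ≠ 0 := by
      rintro rfl
      apply hf0
      rw [hc]; simp
    have hnil : Polynomial.aeval z (p * c) = 0 := by
      apply hred
      refine ⟨2, ?_⟩
      rw [← map_pow]
      have : (p * c) ^ 2 = f * c := by rw [hc]; ring
      rw [this, map_mul, hfz, zero_mul]
    have hdvd : f ∣ p * c := minpoly.dvd ℚ z hnil
    have hdeg := Polynomial.natDegree_le_of_dvd hdvd (mul_ne_zero hp0 hc0)
    rw [hc, Polynomial.natDegree_mul (mul_ne_zero hp0 hp0) hc0, Polynomial.natDegree_mul hp0 hp0,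
      Polynomial.natDegree_mul hp0 hc0] at hdeg
    have hpd : p.natDegree = 0 := by omega
    apply hpu
    rw [Polynomial.eq_C_of_natDegree_eq_zero hpd]
    apply Polynomial.isUnit_C.mpr
    rw [isUnit_iff_ne_zero]
    intro h1
    apply hp0
    rw [Polynomial.eq_C_of_natDegree_eq_zero hpd, h1, Polynomial.C_0]
  -- an irreducible factor different from `X`
  obtain ⟨g, hgirr, hgf, hgX⟩ : ∃ g : Polynomial ℚ, Irreducible g ∧ g ∣ f ∧ ¬ Polynomial.X ∣ g := by
    by_contra hcon
    push Not at hcon
    have hfX : f ∣ Polynomial.X := by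
      by_cases hfu : IsUnit f
      · exact hfu.dvd
      · by_cases hXf : Polynomial.X ∣ f
        · obtain ⟨k, hk⟩ := hXf
          have hku : IsUnit k := by
            by_contra hku
            have hk0 : k ≠ 0 := by
              rintro rfl
              apply hf0
              rw [hk]; simp
            obtain ⟨g, hg, hgk⟩ := WfDvdMonoid.exists_irreducible_factor hku hk0
            have h1 := hcon g hg (hgk.trans ⟨Polynomial.X, by rw [hk, mul_comm]⟩)
            have h2 : Polynomial.X * Polynomial.X ∣ f := by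
              rw [hk]
              exact mul_dvd_mul_left _ (h1.trans hgk)
            exact Polynomial.not_isUnit_X (hsq _ h2)
          rw [hk]
          exact (hku.mul_right_dvd).mpr dvd_rfl
        · obtain ⟨g, hg, hgk⟩ := WfDvdMonoid.exists_irreducible_factor hfu hf0
          exact absurd ((hcon g hg hgk).trans hgk) hXf
    obtain ⟨k, hk⟩ := hfX
    apply h0
    have h1 : Polynomial.aeval z (Polynomial.X : Polynomial ℚ) = 0 := by
      rw [hk, map_mul, hfz, zero_mul]
    rwa [Polynomial.aeval_X] at h1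
  obtain ⟨K, instF, instN, lam, hlam⟩ : ∃ (K : Type) (_ : Field K) (_ : NumberField K) (lam : K),
      Polynomial.eval₂ (algebraMap ℚ K) lam g = 0 := by
    have hfact : Fact (Irreducible g) := ⟨hgirr⟩
    refine ⟨AdjoinRoot g, inferInstance, inferInstance, AdjoinRoot.root g, ?_⟩
    have h1 := AdjoinRoot.eval₂_root g
    have h2 : (algebraMap ℚ (AdjoinRoot g)) = AdjoinRoot.of g := Subsingleton.elim _ _
    rw [h2]; exact h1
  set Z : Matrix (Fin r) (Fin r) K := z.map (algebraMap ℚ K) with hZ
  -- `lam ≠ 0`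
  have hlam0 : lam ≠ 0 := by
    rintro rfl
    apply hgX
    rw [Polynomial.X_dvd_iff]
    have h1 : Polynomial.eval₂ (algebraMap ℚ K) 0 g = algebraMap ℚ K (g.coeff 0) := by
      rw [Polynomial.eval₂_at_zero]
    rw [h1] at hlam
    exact (map_eq_zero _).mp hlam
  have hfF : (f.map (algebraMap ℚ K)).IsRoot lam := by
    obtain ⟨k, hk⟩ := hgf
    rw [Polynomial.IsRoot.def, Polynomial.eval_map, hk, Polynomial.eval₂_mul, hlam, zero_mul]
  obtain ⟨h, hh⟩ := Polynomial.dvd_iff_isRoot.mpr hfF
  have hsep : (f.map (algebraMap ℚ K)).Separable :=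
    (PerfectField.separable_iff_squarefree.mpr hsq).map
  have hhlam : h.eval lam ≠ 0 := by
    intro h1
    obtain ⟨k, hk⟩ := Polynomial.dvd_iff_isRoot.mpr (Polynomial.IsRoot.def.mpr h1)
    have h2 : (Polynomial.X - Polynomial.C lam) * (Polynomial.X - Polynomial.C lam) ∣
        f.map (algebraMap ℚ K) := by
      rw [hh, hk]
      exact ⟨k, by ring⟩
    exact Polynomial.not_isUnit_X_sub_C lam (hsep.squarefree _ h2)
  -- `f(Z) = 0`
  have hfZ : Polynomial.aeval Z (f.map (algebraMap ℚ K)) = 0 := by
    have h1 : Polynomial.aeval Z (f.map (algebraMap ℚ K)) = Polynomial.aeval Z f := by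
      rw [Polynomial.aeval_map_algebraMap]
    rw [h1]
    have h2 : Z = (Algebra.ofId ℚ K).mapMatrix z := by
      rw [hZ]; rfl
    rw [h2, Polynomial.aeval_algHom_apply, hfz, map_zero]
  have hZh : Z * Polynomial.aeval Z h = lam • Polynomial.aeval Z h := by
    rw [hh, map_mul, map_sub, Polynomial.aeval_X, Polynomial.aeval_C, sub_mul,
      Algebra.algebraMap_eq_smul_one, smul_mul_assoc, one_mul, sub_eq_zero] at hfZ
    exact hfZ
  set q : Polynomial K := Polynomial.C (h.eval lam)⁻¹ * h with hq
  have hqZ : Polynomial.aeval Z q = (h.eval lam)⁻¹ • Polynomial.aeval Z h := by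
    rw [hq, map_mul, Polynomial.aeval_C, Algebra.algebraMap_eq_smul_one, smul_mul_assoc, one_mul]
  have hZq : Z * Polynomial.aeval Z q = lam • Polynomial.aeval Z q := by
    rw [hqZ, mul_smul_comm, hZh, smul_comm]
  have hqlam : q.eval lam = 1 := by
    rw [hq, Polynomial.eval_mul, Polynomial.eval_C, inv_mul_cancel₀ hhlam]
  -- polynomials of `Z` on `q(Z)`
  have hpoly : ∀ p : Polynomial K, Polynomial.aeval Z p * Polynomial.aeval Z q =
      p.eval lam • Polynomial.aeval Z q := by
    intro p
    have hpow : ∀ n : ℕ, Z ^ n * Polynomial.aeval Z q = lam ^ n • Polynomial.aeval Z q := by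
      intro n
      induction n with
      | zero => simp
      | succ n ih => rw [pow_succ, mul_assoc, hZq, mul_smul_comm, ih, smul_smul, pow_succ, mul_comm]
    induction p using Polynomial.induction_on' with
    | add p q hp hq => rw [map_add, add_mul, hp, hq, Polynomial.eval_add, add_smul]
    | monomial n a =>
      rw [Polynomial.aeval_monomial, Algebra.algebraMap_eq_smul_one, smul_mul_assoc, one_mul,
        smul_mul_assoc, hpow, smul_smul, Polynomial.eval_monomial]
  refine ⟨K, instF, instN, lam, q, hlam0, ?_, ?_, hZq⟩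
  · -- an eigenvector
    have hroot : Z.charpoly.IsRoot lam := by
      have h1 : Z.charpoly = z.charpoly.map (algebraMap ℚ K) := by
        rw [hZ, Matrix.charpoly_map]
      obtain ⟨k, hk⟩ := hgf.trans (Matrix.minpoly_dvd_charpoly z)
      rw [h1, Polynomial.IsRoot.def, Polynomial.eval_map, hk, Polynomial.eval₂_mul, hlam, zero_mul]
    obtain ⟨v, hv, hZv⟩ := exists_eigen hroot
    intro h1
    have h2 := aeval_mulVec_of_eigen (R := K) hZv q
    rw [Polynomial.coe_aeval_eq_eval, hqlam, one_smul] at h2
    change (Polynomial.aeval Z q) *ᵥ v = v at h2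
    rw [h1, Matrix.zero_mulVec] at h2
    exact hv h2.symm
  · rw [hpoly q, hqlam, one_smul]

end Pool.Agent.Helper79.FX
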