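import Pool.Agent.Helper79.FX.Center
import Pool.Agent.Helper79.FX.Idem

/-!
# FX-30: the centre of the Lie algebra of the monodromy group is zero

Let `z ∈ lieS (qp Γ)` commute with `lieS (qp Γ)`, `C = Em I P`, `H = Hm P = Ψ C`, `Ψ = (qc ψ)ᵀ`.
1. `qc z` commutes with `C` (`center_comm`), so `adjH H (qc z) = -qc z` (`adj_skew`, `skew`), and `(qc z)ᴴ Ψ = -Ψ qc z`.
2. `hred` of `exists_idem`: `n = aeval z p` nilpotent; `adjH H (qc n) = aeval (-qc z) p` (induction on `p`, `adjH_mul`) commutes with `qc n`, so `qc n * adjH H (qc n)` is nilpotent, its trace is `0` (`Matrix.isNilpotent_trace_of_isNilpotent`), `nsq H (qc n) = 0`, `n = 0`.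
3. Suppose `z ≠ 0`; `K`, `lam`, `q`, `e = aeval z q` as in `exists_idem`. `Γ` commutes with `z` (`DenseG.comm_of_lie`), so with `e`.
4. For `φ : K →+* ℂ` let `e' = e.map φ`, a polynomial in `qc z` with complex coefficients, `μ = φ lam`; `qc z e' = μ e'`. `e' ≠ 0`: an eigenvector `v ≠ 0` of `qc z` with eigenvalue `μ`; `adjH H (qc z) = -qc z` gives `star v ⬝ᵥ H (qc z v) = μ (v, v)` and `= -conj μ (v, v)`, so `conj μ = -μ`.
   `e'ᴴ Ψ = Ψ e'`: `e' = q'(qc z)`, `q' = q.map φ`, `e'ᴴ Ψ = Ψ e''` with `e'' = (conj q')(-qc z)`. `e' e'' = e'' ` and `= e'`: `qc z e' = μ e'` gives `e'' e' = (conj q')(-μ) e' = conj (q'(-conj μ)) e' = conj (q'(μ)) e' = e'` (`q'(μ) = 1` since `e' e' = q'(μ) e' = e'`); and `qc z e'' = μ e''`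
   (adjoint of `qc z e' = μ e'`: `e'ᴴ zᴴ = conj μ e'ᴴ`, times `Ψ`: `e'ᴴ (-Ψ qc z) = -Ψ e'' qc z = conj μ Ψ e''`, so `e'' qc z = -conj μ e'' = μ e''`), so `e' e'' = q'(μ) e'' = e''`; `e'`, `e''` commute: `e' = e''`.
5. For `A = γ`, `γ ∈ Γ`: `M = 1 - e' + (zc γ) e'` satisfies `Mᴴ Ψ M = Ψ` (`(zc γ)ᴴ Ψ zc γ = Ψ`, `e'ᴴ Ψ = Ψ e'`, `e' (1 - e') = 0`), so `‖det M‖ = 1` (`det Ψ ≠ 0`: `HJ.det_qc_ne`). `det M = φ (dd e A)`. So `exists_pow_eq_one` with `G` = the matrices of `Γ`: `dd e γ ^ n = 1` on `Γ`.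
6. `F` = the polynomial over `K` in the entries with `evM M F = det (1 - e + M e) ^ n - 1`. It vanishes on `qp Γ` mapped to `K`; `z.map ∈ lieS` of this group (`HI.lieS_map`, `map_mem_mspan`), so the derivative at `1` in the direction `z` vanishes: `n * trace (z e) = 0` (dual numbers: `det (1 + ε z e) = 1 + ε trace (z e)`,
   `Matrix.det_one_add_smul`). `trace (z e) = lam * trace e ≠ 0` (`trace_ne_zero`): contradiction.
-/

namespace Pool.Agent.Helper79.FX

open Matrix Module Pool.Agent.Helper88.MT Pool.Agent.Helper46.GG Pool.Agent.Helper79.HG Pool.Agent.Helper79.HH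
  Pool.Agent.Helper79.HI Pool.Agent.Helper79.HJ
open scoped ComplexOrder

variable {r : ℕ} {lev : Fin r → ℤ} {j : ℤ} {ψ : Matrix (Fin r) (Fin r) ℚ} {P : Matrix (Fin r) (Fin r) ℂ}
  {Γ : Subgroup (GL (Fin r) ℤ)}

/-- The matrices on which a polynomial of `M` is a scalar. -/
private theorem k30_smul {L : Type*} [Field L] {M e : Matrix (Fin r) (Fin r) L} {ν : L}
    (h : M * e = ν • e) (p : Polynomial L) :
    Polynomial.aeval M p * e = p.eval ν • e := by
  have hpow : ∀ n : ℕ, M ^ n * e = ν ^ n • e := by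
    intro n
    induction n with
    | zero => simp
    | succ n ih => rw [pow_succ, mul_assoc, h, mul_smul_comm, ih, smul_smul, pow_succ, mul_comm]
  induction p using Polynomial.induction_on' with
  | add p q hp hq => rw [map_add, add_mul, hp, hq, Polynomial.eval_add, add_smul]
  | monomial n a =>
    rw [Polynomial.aeval_monomial, Algebra.algebraMap_eq_smul_one, smul_mul_assoc, one_mul,
      smul_mul_assoc, hpow, smul_smul, Polynomial.eval_monomial]

private theorem k30_comm {L : Type*} [Field L] {M Z : Matrix (Fin r) (Fin r) L}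
    (h : M * Z = Z * M) (p : Polynomial L) :
    M * Polynomial.aeval Z p = Polynomial.aeval Z p * M := by
  have hc : Commute M Z := h
  induction p using Polynomial.induction_on' with
  | add p q hp hq => rw [map_add, mul_add, add_mul, hp, hq]
  | monomial n a =>
    rw [Polynomial.aeval_monomial, Algebra.algebraMap_eq_smul_one, smul_mul_assoc, one_mul,
      mul_smul_comm, smul_mul_assoc, (hc.pow_right n).eq]

private theorem k30_map {K L : Type*} [Field K] [Field L] (φ : K →+* L)
    (Z : Matrix (Fin r) (Fin r) K) (q : Polynomial K) :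
    (Polynomial.aeval Z q).map φ = Polynomial.aeval (Z.map φ) (q.map φ) := by
  have h := Polynomial.map_aeval_eq_aeval_map (φ := φ) (ψ := φ.mapMatrix (m := Fin r)) (by
    ext a i k
    simp [Matrix.algebraMap_matrix_apply, apply_ite φ]) q Z
  exact h

private theorem k30_add (H X Y : Matrix (Fin r) (Fin r) ℂ) :
    adjH H (X + Y) = adjH H X + adjH H Y := by
  rw [adjH, adjH, adjH, conjTranspose_add, mul_add, add_mul]

private theorem k30_smulH (H X : Matrix (Fin r) (Fin r) ℂ) (c : ℂ) :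
    adjH H (c • X) = (starRingEnd ℂ c) • adjH H X := by
  rw [adjH, adjH, conjTranspose_smul, mul_smul_comm, smul_mul_assoc]
  rfl

private theorem k30_one {H : Matrix (Fin r) (Fin r) ℂ} (hH : H.PosDef) : adjH H 1 = 1 := by
  have h2 : IsUnit H.det := (Matrix.isUnit_iff_isUnit_det _).1 hH.isUnit
  rw [adjH, conjTranspose_one, mul_one, nonsing_inv_mul _ h2]

private theorem k30_aeval {H Z : Matrix (Fin r) (Fin r) ℂ} (hH : H.PosDef) (q : Polynomial ℂ) :
    adjH H (Polynomial.aeval Z q) = Polynomial.aeval (adjH H Z) (q.map (starRingEnd ℂ)) := by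
  have hpow : ∀ n : ℕ, adjH H (Z ^ n) = adjH H Z ^ n := by
    intro n
    induction n with
    | zero => rw [pow_zero, pow_zero, k30_one hH]
    | succ n ih => rw [pow_succ, adjH_mul hH, ih, pow_succ']
  induction q using Polynomial.induction_on' with
  | add p q hp hq => rw [map_add, k30_add, hp, hq, Polynomial.map_add, map_add]
  | monomial n a =>
    rw [Polynomial.map_monomial, Polynomial.aeval_monomial, Polynomial.aeval_monomial,
      Algebra.algebraMap_eq_smul_one, Algebra.algebraMap_eq_smul_one, smul_mul_assoc, one_mul,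
      smul_mul_assoc, one_mul, k30_smulH, hpow]

private theorem k30_unit (hpol : IsPolarized lev j ψ P) (hP : IsUnit P.det) :
    IsUnit (Em lev j ψ Complex.I P).det := by
  rw [Em_det hpol hP Complex.I_ne_zero]
  exact isUnit_one

private theorem k30_adj (hpol : IsPolarized lev j ψ P) (hP : IsUnit P.det)
    {z : Matrix (Fin r) (Fin r) ℚ} (hz : zᵀ * ψ + ψ * z = 0)
    (hC : Em lev j ψ Complex.I P * qc z = qc z * Em lev j ψ Complex.I P) :
    adjH (Hm lev j ψ P) (qc z) = -qc z := by
  rw [adj_skew hpol hP hz, Matrix.mul_assoc, ← hC, ← Matrix.mul_assoc,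
    Matrix.nonsing_inv_mul _ (k30_unit hpol hP), Matrix.one_mul]

private theorem k30_qc (z : Matrix (Fin r) (Fin r) ℚ) : z.map (algebraMap ℚ ℂ) = qc z := by
  ext i k
  simp

/-- Polynomials of `z` commute with the adjoints of polynomials of `z`. -/
private theorem k30_commAdj {H Z : Matrix (Fin r) (Fin r) ℂ} (hH : H.PosDef)
    (hZ : adjH H Z = -Z) (q : Polynomial ℂ) :
    Polynomial.aeval Z q * adjH H (Polynomial.aeval Z q) =
      adjH H (Polynomial.aeval Z q) * Polynomial.aeval Z q := by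
  rw [k30_aeval hH, hZ]
  apply k30_comm
  rw [mul_neg, neg_mul, k30_comm rfl]

/-- Steps 1 and 2. -/
theorem red_of_center (hpol : IsPolarized lev j ψ P) (hP : IsUnit P.det)
    {z : Matrix (Fin r) (Fin r) ℚ} (hz : zᵀ * ψ + ψ * z = 0)
    (hC : Em lev j ψ Complex.I P * qc z = qc z * Em lev j ψ Complex.I P) (p : Polynomial ℚ)
    (hp : IsNilpotent (Polynomial.aeval z p)) : Polynomial.aeval z p = 0 := by
  have hH := Hm_pos hpol hP
  have hadj := k30_adj hpol hP hz hC
  have h1 : qc (Polynomial.aeval z p) = Polynomial.aeval (qc z) (p.map (algebraMap ℚ ℂ)) := by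
    rw [← k30_qc, k30_map, k30_qc]
  have hcomm : Commute (qc (Polynomial.aeval z p))
      (adjH (Hm lev j ψ P) (qc (Polynomial.aeval z p))) := by
    rw [h1]
    exact k30_commAdj hH hadj _
  have hnil : IsNilpotent (qc (Polynomial.aeval z p)) := by
    have h2 := hp.map ((algebraMap ℚ ℂ).mapMatrix (m := Fin r))
    rw [RingHom.mapMatrix_apply, k30_qc] at h2
    exact h2
  have h3 := hcomm.isNilpotent_mul_right hnil
  have h4 := (Matrix.isNilpotent_trace_of_isNilpotent h3).eq_zero
  have h5 : nsq (Hm lev j ψ P) (qc (Polynomial.aeval z p)) = 0 := by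
    rw [nsq, h4, Complex.zero_re]
  have h6 := nsq_eq_zero hH h5
  ext i k
  have h7 : ((Polynomial.aeval z p i k : ℚ) : ℂ) = 0 := congrFun (congrFun h6 i) k
  rw [Matrix.zero_apply]
  exact_mod_cast h7

/-- Steps 4 and 5. -/
theorem norm_dd (hpol : IsPolarized lev j ψ P) (hP : IsUnit P.det)
    {z : Matrix (Fin r) (Fin r) ℚ} (hz : zᵀ * ψ + ψ * z = 0)
    (hC : Em lev j ψ Complex.I P * qc z = qc z * Em lev j ψ Complex.I P) {K : Type} [Field K]
    [NumberField K] {lam : K} {q : Polynomial K}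
    (h0 : Polynomial.aeval (z.map (algebraMap ℚ K)) q ≠ 0)
    (hid : Polynomial.aeval (z.map (algebraMap ℚ K)) q * Polynomial.aeval (z.map (algebraMap ℚ K)) q =
      Polynomial.aeval (z.map (algebraMap ℚ K)) q)
    (hlam : z.map (algebraMap ℚ K) * Polynomial.aeval (z.map (algebraMap ℚ K)) q =
      lam • Polynomial.aeval (z.map (algebraMap ℚ K)) q) {A : Matrix (Fin r) (Fin r) ℤ}
    (hA : (zc A)ᵀ * qc ψ * zc A = qc ψ) (hAz : zc A * qc z = qc z * zc A) (φ : K →+* ℂ) :
    ‖φ (dd (Polynomial.aeval (z.map (algebraMap ℚ K)) q) (A.map (Int.cast : ℤ → K)))‖ = 1 := by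
  have hH := Hm_pos hpol hP
  have hadj := k30_adj hpol hP hz hC
  have hCu := k30_unit hpol hP
  set Z : Matrix (Fin r) (Fin r) ℂ := qc z with hZdef
  set E : Matrix (Fin r) (Fin r) ℂ := Polynomial.aeval Z (q.map φ) with hE
  have hzφ : (z.map (algebraMap ℚ K)).map φ = Z := by
    ext i k
    simp [hZdef]
  have hmap : (Polynomial.aeval (z.map (algebraMap ℚ K)) q).map φ = E := by
    rw [k30_map, hzφ]
  have hE0 : E ≠ 0 := by
    intro h
    apply h0
    rw [← hmap] at h
    ext i k
    have h1 := congrFun (congrFun h i) k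
    rw [Matrix.map_apply, Matrix.zero_apply, map_eq_zero] at h1
    exact h1
  have hEE : E * E = E := by
    rw [← hmap, ← Matrix.map_mul, hid]
  have hZE : Z * E = φ lam • E := by
    rw [← hmap, ← hzφ, ← Matrix.map_mul, hlam]
    ext i k
    simp
  -- the adjoint of `E`
  set H := Hm lev j ψ P with hHdef
  set E' := adjH H E with hE'
  have hcomm : E * E' = E' * E := k30_commAdj hH hadj _
  obtain ⟨c, hc⟩ : ∃ c : ℂ, E' * E = c • E := by
    have h1 := k30_smul (M := -Z) (e := E) (ν := -φ lam) (by rw [neg_mul, hZE, neg_smul])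
      ((q.map φ).map (starRingEnd ℂ))
    rw [← hadj, ← k30_aeval hH] at h1
    exact ⟨_, h1⟩
  have hE'E' : E' * E' = E' := by
    rw [hE', ← adjH_mul hH, hEE]
  have hc' : E' * E = starRingEnd ℂ c • E' := by
    have h1 := congrArg (adjH H) hc
    rw [adjH_mul hH, k30_smulH, hE', adjH_adjH hH, ← hE'] at h1
    exact h1
  have hne : E' * E ≠ 0 := by
    intro h
    apply hE0
    apply nsq_eq_zero hH
    rw [nsq, ← hE', hcomm, h, Matrix.trace_zero, Complex.zero_re]
  have hc0 : c ≠ 0 := by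
    rintro rfl
    apply hne
    rw [hc, zero_smul]
  have hEE' : E' = E := by
    have h1 : c • E = starRingEnd ℂ c • E' := by rw [← hc, hc']
    have h2 : E' * (E' * E) = c • (c • E) := by rw [hc, mul_smul_comm, hc]
    rw [← mul_assoc, hE'E', hc] at h2
    have h3 : E = c • E := by
      have h4 := congrArg (fun X => c⁻¹ • X) h2
      simp only [smul_smul] at h4
      rw [inv_mul_cancel₀ hc0, one_smul, ← mul_assoc, inv_mul_cancel₀ hc0, one_mul] at h4
      exact h4
    have h5 : E' * E = E := by rw [hc, ← h3]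
    have h6 := congrArg (adjH H) h5
    rw [adjH_mul hH, hE', adjH_adjH hH, ← hE', h5] at h6
    exact h6.symm
  -- `Eᴴ Ψ = Ψ E`
  have hHu : IsUnit H.det := (Matrix.isUnit_iff_isUnit_det _).1 hH.isUnit
  have hCE : Em lev j ψ Complex.I P * E = E * Em lev j ψ Complex.I P := by
    rw [hE]
    exact k30_comm hC _
  have hT : Eᴴ * (qc ψ)ᵀ = (qc ψ)ᵀ * E := by
    have h1 : Eᴴ * H = H * E := by
      have h2 : H * E' = Eᴴ * H := by
        rw [hE', adjH, ← mul_assoc, ← mul_assoc, Matrix.mul_nonsing_inv _ hHu, one_mul]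
      rw [← h2, hEE']
    rw [hHdef, Hm, ← mul_assoc, mul_assoc, mul_assoc, hCE, ← mul_assoc, ← mul_assoc] at h1
    have h3 := congrArg (fun X => X * (Em lev j ψ Complex.I P)⁻¹) h1
    simp only [mul_assoc] at h3
    rw [Matrix.mul_nonsing_inv _ hCu, mul_one, mul_one] at h3
    exact h3
  -- the matrix `M`
  set G : Matrix (Fin r) (Fin r) ℂ := zc A with hG
  have hGH : Gᴴ = Gᵀ := by
    ext i k
    simp [hG, Matrix.conjTranspose_apply]
  have hGE : G * E = E * G := by
    rw [hE]
    exact k30_comm hAz _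
  have hST : Eᴴ * Gᴴ = Gᴴ * Eᴴ := by
    rw [← conjTranspose_mul, hGE, conjTranspose_mul]
  have hSG : Gᴴ * (qc ψ)ᵀ * G = (qc ψ)ᵀ := by
    have h1 := congrArg Matrix.transpose hA
    rw [transpose_mul, transpose_mul, transpose_transpose, ← mul_assoc] at h1
    rw [hGH]
    exact h1
  have hM : (1 - E + G * E)ᴴ * (qc ψ)ᵀ * (1 - E + G * E) = (qc ψ)ᵀ := by
    rw [conjTranspose_add, conjTranspose_sub, conjTranspose_one, conjTranspose_mul, hST]
    set Ψ := (qc ψ)ᵀ with hΨ
    set S := Gᴴ with hS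
    set T := Eᴴ with hTd
    have e1 : S * T * Ψ = S * Ψ * E := by rw [mul_assoc, hT, mul_assoc]
    have e2 : (1 - T + S * T) * Ψ = Ψ - Ψ * E + S * Ψ * E := by
      rw [add_mul, sub_mul, one_mul, e1, hT]
    have e3 : E * (1 - E + G * E) = G * E := by
      rw [mul_add, mul_sub, mul_one, hEE, sub_self, zero_add, ← mul_assoc, ← hGE, mul_assoc, hEE]
    have e4 : S * Ψ * E * (1 - E + G * E) = Ψ * E := by
      rw [mul_assoc (S * Ψ), e3, ← mul_assoc, hSG]
    have e5 : Ψ * E * (1 - E + G * E) = Ψ * (G * E) := by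
      rw [mul_assoc, e3]
    rw [e2, add_mul, sub_mul, e4, e5, mul_add, mul_sub, mul_one]
    abel
  have hdet : φ (dd (Polynomial.aeval (z.map (algebraMap ℚ K)) q) (A.map (Int.cast : ℤ → K))) =
      (1 - E + G * E).det := by
    rw [dd, RingHom.map_det]
    congr 1
    rw [map_add, map_sub, map_mul, map_one, RingHom.mapMatrix_apply, RingHom.mapMatrix_apply, hmap]
    congr 2
    ext i k
    simp [hG]
  rw [hdet]
  have h1 := congrArg Matrix.det hM
  have h2 : (qc ψ)ᵀ.det ≠ 0 := by
    rw [Matrix.det_transpose]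
    exact HJ.det_qc_ne hpol
  rw [Matrix.det_mul, Matrix.det_mul, Matrix.det_conjTranspose] at h1
  have h3 : star (1 - E + G * E).det * (1 - E + G * E).det = 1 := by
    apply mul_right_cancel₀ h2
    linear_combination h1
  have h4 : ‖(1 - E + G * E).det‖ * ‖(1 - E + G * E).det‖ = 1 := by
    have h5 := congrArg norm h3
    rw [norm_mul, norm_star, norm_one] at h5
    exact h5
  nlinarith [norm_nonneg (1 - E + G * E).det]

/-- Step 6. -/
theorem trace_of_pow {Γ : Subgroup (GL (Fin r) ℚ)} {z : Matrix (Fin r) (Fin r) ℚ} (hz : z ∈ lieS Γ)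
    {K : Type} [Field K] [Algebra ℚ K] {e : Matrix (Fin r) (Fin r) K} (he : e * e = e) {n : ℕ} (hn : 0 < n)
    (h : ∀ γ ∈ Γ, dd e ((γ : Matrix (Fin r) (Fin r) ℚ).map (algebraMap ℚ K)) ^ n = 1) :
    (z.map (algebraMap ℚ K) * e).trace = 0 := by
  have : CharZero K := algebraRat.charZero K
  set x : Matrix (Fin r) (Fin r) K := z.map (algebraMap ℚ K) with hx
  have hx1 : x ∈ lieS (Γ.map (Matrix.GeneralLinearGroup.map (algebraMap ℚ K))) := by
    rw [lieS_map]
    exact map_mem_mspan hz
  -- the generic matrix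
  set X : Matrix (Fin r) (Fin r) (MvPolynomial (Fin r × Fin r) K) :=
    Matrix.of fun i k => MvPolynomial.X (i, k) with hX
  set F : MvPolynomial (Fin r × Fin r) K :=
    (1 - e.map MvPolynomial.C + X * e.map MvPolynomial.C).det ^ n - 1 with hF
  have hev : ∀ {R : Type} [CommRing R] [Algebra K R] (M : Matrix (Fin r) (Fin r) R),
      evM M F = (1 - e.map (algebraMap K R) + M * e.map (algebraMap K R)).det ^ n - 1 := by
    intro R _ _ M
    rw [hF, map_sub, map_pow, map_one]
    congr 2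
    change (evM M : MvPolynomial (Fin r × Fin r) K →ₐ[K] R).toRingHom _ = _
    rw [RingHom.map_det]
    congr 1
    rw [map_add, map_sub, map_mul, map_one]
    have e1 : (evM M : MvPolynomial (Fin r × Fin r) K →ₐ[K] R).toRingHom.mapMatrix
        (e.map MvPolynomial.C) = e.map (algebraMap K R) := by
      ext i k
      simp [evM]
    have e2 : (evM M : MvPolynomial (Fin r × Fin r) K →ₐ[K] R).toRingHom.mapMatrix X = M := by
      ext i k
      simp [hX, evM]
    rw [e1, e2]
  have hid : e.map (algebraMap K K) = e := by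
    ext i k
    simp
  have hFv : F ∈ van K (mats (Γ.map (Matrix.GeneralLinearGroup.map (algebraMap ℚ K)))) := by
    rw [mem_van_self]
    rintro _ ⟨_, ⟨γ, hγ, rfl⟩, rfl⟩
    rw [hev, hid]
    have h1 := h γ hγ
    rw [dd] at h1
    rw [sub_eq_zero]
    exact h1
  have h1 := mem_van_self.mp (mem_lieS.mp hx1 F hFv) 1 ⟨1, Subgroup.one_mem _, rfl⟩
  have h2 := mem_van_self.mp hFv 1 ⟨1, Subgroup.one_mem _, rfl⟩
  have h3 := evM_dualM 1 x F
  rw [h1, h2, TrivSqZeroExt.inl_zero, TrivSqZeroExt.inr_zero, add_zero, hev] at h3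
  -- the determinant over the dual numbers
  have h4 : (1 - e.map (algebraMap K (DualNumber K)) + dualM 1 x * e.map (algebraMap K (DualNumber K))) =
      1 + (DualNumber.eps : DualNumber K) • (x * e).map (algebraMap K (DualNumber K)) := by
    have h5 : dualM 1 x = 1 + (DualNumber.eps : DualNumber K) • x.map (algebraMap K (DualNumber K)) := by
      ext1 i k
      rw [dualM, Matrix.one_mul, Matrix.add_apply, Matrix.smul_apply, Matrix.map_apply]
      congr 1
      · rw [Matrix.one_apply, Matrix.one_apply]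
        split_ifs
        · exact TrivSqZeroExt.inl_one K
        · exact TrivSqZeroExt.inl_zero K
      · change _ = (DualNumber.eps : DualNumber K) * TrivSqZeroExt.inl (x i k)
        rw [DualNumber.eps, TrivSqZeroExt.inr_mul_inl]
        congr 1
        simp
    rw [h5, Matrix.map_mul, add_mul, one_mul, smul_mul_assoc]
    abel
  rw [h4, Matrix.det_one_add_smul, pow_two (DualNumber.eps : DualNumber K), DualNumber.eps_mul_eps,
    mul_zero, add_zero] at h3
  have h6 : ((x * e).map (algebraMap K (DualNumber K))).trace = algebraMap K (DualNumber K) (x * e).trace := by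
    rw [Matrix.trace, Matrix.trace, map_sum]
    rfl
  rw [h6] at h3
  have h7 : ∀ (a : K) (n : ℕ), (1 + algebraMap K (DualNumber K) a * DualNumber.eps) ^ n =
      1 + algebraMap K (DualNumber K) ((n : K) * a) * DualNumber.eps := by
    intro a n
    induction n with
    | zero => simp
    | succ n ih =>
      have h8 : (DualNumber.eps : DualNumber K) * DualNumber.eps = 0 := DualNumber.eps_mul_eps
      have h9 : algebraMap K (DualNumber K) (((n + 1 : ℕ) : K) * a) =
          algebraMap K (DualNumber K) (n : K) * algebraMap K (DualNumber K) a +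
            algebraMap K (DualNumber K) a := by
        rw [Nat.cast_succ, add_mul, one_mul, map_add, map_mul]
      rw [pow_succ, ih, h9, map_mul]
      linear_combination (algebraMap K (DualNumber K) (n : K) * algebraMap K (DualNumber K) a *
        algebraMap K (DualNumber K) a) * h8
  rw [h7, add_sub_cancel_left] at h3
  have h9 := congrArg TrivSqZeroExt.snd h3
  have h10 : ∀ a : K, TrivSqZeroExt.snd (algebraMap K (DualNumber K) a * DualNumber.eps) = a := by
    intro a
    change TrivSqZeroExt.snd ((TrivSqZeroExt.inl a : DualNumber K) * DualNumber.eps) = a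
    rw [DualNumber.eps, TrivSqZeroExt.inl_mul_inr]
    simp
  rw [h10, TrivSqZeroExt.snd_zero] at h9
  rcases mul_eq_zero.mp h9 with h11 | h11
  · exact absurd (Nat.cast_eq_zero.mp h11) hn.ne'
  · exact h11

/-- The centre is zero. -/
theorem center_zero (hpol : IsPolarized lev j ψ P) (hP : IsUnit P.det)
    (hAd : AdStable lev j ψ P (qp Γ)) (hdense : DenseG (qp Γ))
    (hiso : ∀ γ ∈ qp Γ, (γ : Matrix (Fin r) (Fin r) ℚ)ᵀ * ψ * γ = ψ) {z : Matrix (Fin r) (Fin r) ℚ}
    (hz : z ∈ lieS (qp Γ)) (hcen : ∀ x ∈ lieS (qp Γ), x * z = z * x) : z = 0 := by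
  by_contra h0
  have hzs := skew hiso hz
  have hC := center_comm hpol hP hAd hiso hz hcen Complex.I Complex.I_ne_zero
  obtain ⟨K, instF, instN, lam, q, hlam0, he0, hee, hze⟩ :=
    exists_idem h0 fun p hp => red_of_center hpol hP hzs hC p hp
  have hcz := hdense.comm_of_lie hcen
  set e := Polynomial.aeval (z.map (algebraMap ℚ K)) q with he
  set S : Set (Matrix (Fin r) (Fin r) ℤ) := {A | ∃ γ ∈ Γ, (γ : Matrix (Fin r) (Fin r) ℤ) = A} with hS
  have hmem : ∀ γ ∈ Γ, Matrix.GeneralLinearGroup.map (Int.castRingHom ℚ) γ ∈ qp Γ :=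
    fun γ hγ => ⟨γ, hγ, rfl⟩
  have hcoe : ∀ γ : GL (Fin r) ℤ, ((Matrix.GeneralLinearGroup.map (Int.castRingHom ℚ) γ : GL (Fin r) ℚ) :
      Matrix (Fin r) (Fin r) ℚ) = (γ : Matrix (Fin r) (Fin r) ℤ).map (Int.cast : ℤ → ℚ) := by
    intro γ
    rfl
  have hcK : ∀ A ∈ S, A.map (Int.cast : ℤ → K) * z.map (algebraMap ℚ K) =
      z.map (algebraMap ℚ K) * A.map (Int.cast : ℤ → K) := by
    rintro A ⟨γ, hγ, rfl⟩
    have h1 := hcz _ (hmem γ hγ)
    rw [hcoe] at h1
    have h2 := congrArg (fun M => M.map (algebraMap ℚ K)) h1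
    simp only [Matrix.map_mul] at h2
    have h3 : ((γ : Matrix (Fin r) (Fin r) ℤ).map (Int.cast : ℤ → ℚ)).map (algebraMap ℚ K) =
        (γ : Matrix (Fin r) (Fin r) ℤ).map (Int.cast : ℤ → K) := by
      ext i k
      simp
    rw [h3] at h2
    exact h2
  have hce : ∀ A ∈ S, A.map (Int.cast : ℤ → K) * e = e * A.map (Int.cast : ℤ → K) :=
    fun A hA => k30_comm (hcK A hA) q
  have hnorm : ∀ A ∈ S, ∀ φ : K →+* ℂ, ‖φ (dd e (A.map (Int.cast : ℤ → K)))‖ = 1 := by
    rintro A ⟨γ, hγ, rfl⟩ φ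
    refine norm_dd hpol hP hzs hC he0 hee hze ?_ ?_ φ
    · have h1 := hiso _ (hmem γ hγ)
      rw [hcoe] at h1
      have h2 := congrArg (fun M => M.map (Rat.castHom ℂ)) h1
      simp only [Matrix.map_mul] at h2
      have h3 : ((γ : Matrix (Fin r) (Fin r) ℤ).map (Int.cast : ℤ → ℚ)).map (Rat.castHom ℂ) =
          zc (γ : Matrix (Fin r) (Fin r) ℤ) := by
        ext i k
        simp
      rw [← Matrix.transpose_map, h3] at h2
      exact h2
    · have h1 := hcz _ (hmem γ hγ)
      rw [hcoe] at h1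
      have h2 := congrArg (fun M => M.map (Rat.castHom ℂ)) h1
      simp only [Matrix.map_mul] at h2
      have h3 : ((γ : Matrix (Fin r) (Fin r) ℤ).map (Int.cast : ℤ → ℚ)).map (Rat.castHom ℂ) =
          zc (γ : Matrix (Fin r) (Fin r) ℤ) := by
        ext i k
        simp
      rw [h3] at h2
      exact h2
  obtain ⟨n, hn, hpow⟩ := exists_pow_eq_one hee hce hnorm
  have htr := trace_of_pow (Γ := qp Γ) hz hee hn (by
    rintro _ ⟨γ, hγ, rfl⟩
    have h1 := hpow _ ⟨γ, hγ, rfl⟩
    have h3 : ((γ : Matrix (Fin r) (Fin r) ℤ).map (Int.cast : ℤ → ℚ)).map (algebraMap ℚ K) =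
        (γ : Matrix (Fin r) (Fin r) ℤ).map (Int.cast : ℤ → K) := by
      ext i k
      simp
    change dd e (((γ : Matrix (Fin r) (Fin r) ℤ).map (Int.cast : ℤ → ℚ)).map (algebraMap ℚ K)) ^ n = 1
    rw [h3]
    exact h1)
  rw [hze, Matrix.trace_smul, smul_eq_mul] at htr
  rcases mul_eq_zero.mp htr with h1 | h1
  · exact hlam0 h1
  · exact trace_ne_zero hee he0 h1

end Pool.Agent.Helper79.FX
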