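import Pool.Agent.Helper79.FX.HE

/-!
# FX-08: tensor products and sums

`HV.kron`: `D = D₁ ⊗ 1 + 1 ⊗ D₂`, `H = H₁ ⊗ H₂`: all identities from `Matrix.mul_kronecker_mul`, `dzM_kron`. `spec`: `Q = Q₁ ⊗ Q₂`,
`d (i, k) = d₁ i + d₂ k` (`Matrix.inv_kronecker`, `diagonal_kronecker_diagonal`). Positive definite: `Matrix.PosDef.kronecker` if it is there, or `H₁ = B₁ᴴ B₁`, `H₂ = B₂ᴴ B₂`
(`Pool.Agent.Helper79.HH.posDef_factor`). `HE.kron`: `E = E₁ ⊗ E₂`.
`HV.sum`: block diagonal matrices (`Matrix.fromBlocks_multiply`, `PosDef`: `Matrix.PosDef.fromBlocks..` or by hand on `Sum.elim v w`).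
`HV.triv`: `D = 0`, `H = 1`, `E = 1`.
-/

set_option linter.unusedSectionVars false

namespace Pool.Agent.Helper79.FX

open Matrix
open scoped ComplexOrder Kronecker

variable {K K' : Type} [Fintype K] [DecidableEq K] [Fintype K'] [DecidableEq K'] {N N' : ℝ} {O : Set ℂ}
  {D H E : ℂ → Matrix K K ℂ} {D' H' E' : ℂ → Matrix K' K' ℂ} {u : ℂ}

private theorem kr_comm (A B : Matrix K K ℂ) (A' B' : Matrix K' K' ℂ) :
    (A ⊗ₖ (1 : Matrix K' K' ℂ) + (1 : Matrix K K ℂ) ⊗ₖ A') *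
        (B ⊗ₖ (1 : Matrix K' K' ℂ) + (1 : Matrix K K ℂ) ⊗ₖ B') -
      (B ⊗ₖ (1 : Matrix K' K' ℂ) + (1 : Matrix K K ℂ) ⊗ₖ B') *
        (A ⊗ₖ (1 : Matrix K' K' ℂ) + (1 : Matrix K K ℂ) ⊗ₖ A') =
    (A * B - B * A) ⊗ₖ (1 : Matrix K' K' ℂ) + (1 : Matrix K K ℂ) ⊗ₖ (A' * B' - B' * A') := by
  have h1 : (A * B - B * A) ⊗ₖ (1 : Matrix K' K' ℂ) =
      (A * B) ⊗ₖ (1 : Matrix K' K' ℂ) - (B * A) ⊗ₖ (1 : Matrix K' K' ℂ) := by
    rw [eq_sub_iff_add_eq, ← add_kronecker, sub_add_cancel]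
  have h2 : (1 : Matrix K K ℂ) ⊗ₖ (A' * B' - B' * A') =
      (1 : Matrix K K ℂ) ⊗ₖ (A' * B') - (1 : Matrix K K ℂ) ⊗ₖ (B' * A') := by
    rw [eq_sub_iff_add_eq, ← kronecker_add, sub_add_cancel]
  rw [h1, h2]
  simp only [add_mul, mul_add, ← mul_kronecker_mul, one_mul, mul_one]
  abel

private theorem kr_one (K K' : Type) [Fintype K] [DecidableEq K] [Fintype K'] [DecidableEq K'] :
    (1 : Matrix K K ℂ) ⊗ₖ (1 : Matrix K' K' ℂ) = 1 := one_kronecker_one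

private theorem kr_dzM (hD : RAt D u) (hD' : RAt D' u) :
    dzM (fun s => D s ⊗ₖ (1 : Matrix K' K' ℂ) + (1 : Matrix K K ℂ) ⊗ₖ D' s) u =
      dzM D u ⊗ₖ (1 : Matrix K' K' ℂ) + (1 : Matrix K K ℂ) ⊗ₖ dzM D' u := by
  rw [dzM_add (rat_kron hD (rat_const 1)) (rat_kron (rat_const 1) hD'),
    dzM_kron hD (rat_const 1), dzM_kron (rat_const 1) hD', dzM_const, dzM_const, kronecker_zero,
    zero_kronecker, add_zero, zero_add]

private theorem kr_dzbM (hD : RAt D u) (hD' : RAt D' u) :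
    dzbM (fun s => D s ⊗ₖ (1 : Matrix K' K' ℂ) + (1 : Matrix K K ℂ) ⊗ₖ D' s) u =
      dzbM D u ⊗ₖ (1 : Matrix K' K' ℂ) + (1 : Matrix K K ℂ) ⊗ₖ dzbM D' u := by
  rw [dzbM_add (rat_kron hD (rat_const 1)) (rat_kron (rat_const 1) hD'),
    dzbM_kron hD (rat_const 1), dzbM_kron (rat_const 1) hD', dzbM_const, dzbM_const,
    kronecker_zero, zero_kronecker, add_zero, zero_add]

private theorem kr_smul (c : ℂ) (A : Matrix K K ℂ) (A' : Matrix K' K' ℂ) :
    (c • A) ⊗ₖ (1 : Matrix K' K' ℂ) + (1 : Matrix K K ℂ) ⊗ₖ (c • A') =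
      c • (A ⊗ₖ (1 : Matrix K' K' ℂ) + (1 : Matrix K K ℂ) ⊗ₖ A') := by
  rw [smul_kronecker, kronecker_smul, smul_add]

private theorem kr_neg (A : Matrix K K ℂ) (A' : Matrix K' K' ℂ) :
    (-A) ⊗ₖ (1 : Matrix K' K' ℂ) + (1 : Matrix K K ℂ) ⊗ₖ (-A') =
      -(A ⊗ₖ (1 : Matrix K' K' ℂ) + (1 : Matrix K K ℂ) ⊗ₖ A') := by
  have h := kr_smul (-1) A A'
  rw [neg_one_smul, neg_one_smul, neg_one_smul] at h
  exact h

theorem HV.kron (h : HV N O D H) (h' : HV N' O D' H') :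
    HV (N + N') O (fun s => D s ⊗ₖ (1 : Matrix K' K' ℂ) + (1 : Matrix K K ℂ) ⊗ₖ D' s)
      (fun s => H s ⊗ₖ H' s) := by
  refine ⟨fun s hs => ?_, fun s hs => ?_, fun s hs => ?_, fun s hs => ?_, fun s hs => ?_,
    fun s hs => ?_, fun s hs => ?_, fun s hs => ?_, fun s hs => ?_⟩
  · exact rat_add (rat_kron (h.anD s hs) (rat_const 1)) (rat_kron (rat_const 1) (h'.anD s hs))
  · exact rat_kron (h.anH s hs) (h'.anH s hs)
  · exact (h.pos s hs).kronecker (h'.pos s hs)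
  · simp only [conjTranspose_add, conjTranspose_kronecker, conjTranspose_one, mul_add, add_mul,
      ← mul_kronecker_mul, mul_one, one_mul]
    rw [h.adj s hs, h'.adj s hs]
  · obtain ⟨Q, d, hQ, hD, hd⟩ := h.spec s hs
    obtain ⟨Q', d', hQ', hD', hd'⟩ := h'.spec s hs
    refine ⟨Q ⊗ₖ Q', fun x => d x.1 + d' x.2, ?_, ?_, fun x => ?_⟩
    · rw [det_kronecker]
      exact (hQ.pow _).mul (hQ'.pow _)
    · have h1 : (diagonal fun x : K × K' => ((d x.1 + d' x.2 : ℝ) : ℂ)) =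
          (diagonal fun i => (d i : ℂ)) ⊗ₖ (1 : Matrix K' K' ℂ) +
            (1 : Matrix K K ℂ) ⊗ₖ (diagonal fun i => (d' i : ℂ)) := by
        rw [← diagonal_one, ← diagonal_one, diagonal_kronecker_diagonal,
          diagonal_kronecker_diagonal, diagonal_add]
        congr 1
        funext x
        push_cast
        ring
      have h2 : (Q ⊗ₖ Q')⁻¹ = Q⁻¹ ⊗ₖ Q'⁻¹ := inv_kronecker _ _
      have h3 : Q * Q⁻¹ = 1 := mul_nonsing_inv Q hQ
      have h4 : Q' * Q'⁻¹ = 1 := mul_nonsing_inv Q' hQ'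
      rw [h1, h2, mul_add, add_mul, ← mul_kronecker_mul, ← mul_kronecker_mul,
        ← mul_kronecker_mul, ← mul_kronecker_mul, mul_one, mul_one, h3, h4, ← hD, ← hD']
    · exact (abs_add_le _ _).trans (add_le_add (hd _) (hd' _))
  · rw [kr_dzM (h.anD s hs) (h'.anD s hs), kr_comm, h.brk s hs, h'.brk s hs, kr_smul]
  · rw [kr_dzbM (h.anD s hs) (h'.anD s hs), kr_comm, h.brk' s hs, h'.brk' s hs, kr_neg, kr_smul]
  · rw [kr_dzM (h.anD s hs) (h'.anD s hs), dzM_kron (h.anH s hs) (h'.anH s hs), h.dH s hs,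
      h'.dH s hs, mul_add, ← mul_kronecker_mul, ← mul_kronecker_mul, mul_one, mul_one]
  · rw [kr_dzbM (h.anD s hs) (h'.anD s hs), dzbM_kron (h.anH s hs) (h'.anH s hs), h.dH' s hs,
      h'.dH' s hs, mul_add, ← mul_kronecker_mul, ← mul_kronecker_mul, mul_one, mul_one]
    have h1 : (-(H s * dzbM D s)) ⊗ₖ H' s = -((H s * dzbM D s) ⊗ₖ H' s) := by
      have := smul_kronecker (-1 : ℂ) (H s * dzbM D s) (H' s)
      simpa using this
    have h2 : H s ⊗ₖ (-(H' s * dzbM D' s)) = -(H s ⊗ₖ (H' s * dzbM D' s)) := by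
      have := kronecker_smul (-1 : ℂ) (H s) (H' s * dzbM D' s)
      simpa using this
    rw [h1, h2, neg_add]

private theorem kr_th (hD : RAt D u) (hD' : RAt D' u) :
    th (fun s => D s ⊗ₖ (1 : Matrix K' K' ℂ) + (1 : Matrix K K ℂ) ⊗ₖ D' s) u =
      th D u ⊗ₖ (1 : Matrix K' K' ℂ) + (1 : Matrix K K ℂ) ⊗ₖ th D' u := by
  unfold th
  rw [kr_dzM hD hD', kr_neg, kr_smul]

private theorem kr_et (hD : RAt D u) (hD' : RAt D' u) :
    et (fun s => D s ⊗ₖ (1 : Matrix K' K' ℂ) + (1 : Matrix K K ℂ) ⊗ₖ D' s) u =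
      et D u ⊗ₖ (1 : Matrix K' K' ℂ) + (1 : Matrix K K ℂ) ⊗ₖ et D' u := by
  unfold et
  rw [kr_dzbM hD hD', kr_smul]

private theorem kr_E (c : ℂ) (E0 T : Matrix K K ℂ) (E0' T' : Matrix K' K' ℂ) :
    (c • (E0 * T)) ⊗ₖ E0' + E0 ⊗ₖ (c • (E0' * T')) =
      c • ((E0 ⊗ₖ E0') * (T ⊗ₖ (1 : Matrix K' K' ℂ) + (1 : Matrix K K ℂ) ⊗ₖ T')) := by
  rw [mul_add, ← mul_kronecker_mul, ← mul_kronecker_mul, mul_one, mul_one, smul_add,
    smul_kronecker, kronecker_smul]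

theorem HE.kron (h : HE u O D E) (h' : HE u O D' E') (hD : ∀ s ∈ O, RAt D s) (hD' : ∀ s ∈ O, RAt D' s) :
    HE u O (fun s => D s ⊗ₖ (1 : Matrix K' K' ℂ) + (1 : Matrix K K ℂ) ⊗ₖ D' s)
      (fun s => E s ⊗ₖ E' s) := by
  refine ⟨fun s hs => rat_kron (h.an s hs) (h'.an s hs), fun s hs => ?_, fun s hs => ?_,
    fun s hs => ?_⟩
  · rw [det_kronecker]
    exact ((h.unit s hs).pow _).mul ((h'.unit s hs).pow _)
  · rw [dzM_kron (h.an s hs) (h'.an s hs), h.dE s hs, h'.dE s hs, kr_th (hD s hs) (hD' s hs), kr_E]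
  · rw [dzbM_kron (h.an s hs) (h'.an s hs), h.dE' s hs, h'.dE' s hs, kr_et (hD s hs) (hD' s hs),
      kr_E]

private theorem bl_posDef {A : Matrix K K ℂ} {A' : Matrix K' K' ℂ} (hA : A.PosDef)
    (hA' : A'.PosDef) : (Matrix.fromBlocks A 0 0 A').PosDef := by
  refine PosDef.of_dotProduct_mulVec_pos ?_ fun x hx => ?_
  · rw [IsHermitian, fromBlocks_conjTranspose, conjTranspose_zero, conjTranspose_zero,
      hA.isHermitian.eq, hA'.isHermitian.eq]
  · have h1 : star x ⬝ᵥ (Matrix.fromBlocks A 0 0 A' *ᵥ x) =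
        star (x ∘ Sum.inl) ⬝ᵥ (A *ᵥ (x ∘ Sum.inl)) + star (x ∘ Sum.inr) ⬝ᵥ (A' *ᵥ (x ∘ Sum.inr)) := by
      rw [fromBlocks_mulVec]
      simp only [dotProduct, Fintype.sum_sum_type, Sum.elim_inl, Sum.elim_inr, zero_mulVec,
        add_zero, zero_add, Pi.star_apply, Function.comp_apply]
    rw [h1]
    by_cases h2 : x ∘ Sum.inl = 0
    · have h3 : x ∘ Sum.inr ≠ 0 := by
        intro h3
        apply hx
        funext i
        cases i with
        | inl i => exact congrFun h2 i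
        | inr i => exact congrFun h3 i
      rw [h2]
      simpa using hA'.dotProduct_mulVec_pos h3
    · exact add_pos_of_pos_of_nonneg (hA.dotProduct_mulVec_pos h2)
        (hA'.posSemidef.dotProduct_mulVec_nonneg _)

private theorem bl_zero : Matrix.fromBlocks (0 : Matrix K K ℂ) 0 0 (0 : Matrix K' K' ℂ) = 0 := by
  simp

private theorem bl_dzM : dzM (fun s => Matrix.fromBlocks (D s) 0 0 (D' s)) u =
    Matrix.fromBlocks (dzM D u) 0 0 (dzM D' u) := by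
  rw [dzM_fromBlocks (A := D) (B := fun _ => 0) (C := fun _ => 0) (D := D'), dzM_const, dzM_const]

private theorem bl_dzbM : dzbM (fun s => Matrix.fromBlocks (D s) 0 0 (D' s)) u =
    Matrix.fromBlocks (dzbM D u) 0 0 (dzbM D' u) := by
  rw [dzbM_fromBlocks (A := D) (B := fun _ => 0) (C := fun _ => 0) (D := D'), dzbM_const,
    dzbM_const]

private theorem bl_mul (A B : Matrix K K ℂ) (A' B' : Matrix K' K' ℂ) :
    Matrix.fromBlocks A 0 0 A' * Matrix.fromBlocks B 0 0 B' =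
      Matrix.fromBlocks (A * B) 0 0 (A' * B') := by
  rw [fromBlocks_multiply]
  simp

private theorem bl_smul (c : ℂ) (A : Matrix K K ℂ) (A' : Matrix K' K' ℂ) :
    c • Matrix.fromBlocks A 0 0 A' = Matrix.fromBlocks (c • A) 0 0 (c • A') := by
  rw [fromBlocks_smul, smul_zero, smul_zero]

private theorem bl_neg (A : Matrix K K ℂ) (A' : Matrix K' K' ℂ) :
    -Matrix.fromBlocks A 0 0 A' = Matrix.fromBlocks (-A) 0 0 (-A') := by
  rw [fromBlocks_neg, neg_zero, neg_zero]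

private theorem bl_sub (A B : Matrix K K ℂ) (A' B' : Matrix K' K' ℂ) :
    Matrix.fromBlocks A 0 0 A' - Matrix.fromBlocks B 0 0 B' =
      Matrix.fromBlocks (A - B) 0 0 (A' - B') := by
  rw [sub_eq_add_neg, bl_neg, fromBlocks_add]
  simp [sub_eq_add_neg]

theorem HV.sum (h : HV N O D H) (h' : HV N' O D' H') :
    HV (max N N') O (fun s => Matrix.fromBlocks (D s) 0 0 (D' s))
      (fun s => Matrix.fromBlocks (H s) 0 0 (H' s)) := by
  refine ⟨fun s hs => ?_, fun s hs => ?_, fun s hs => ?_, fun s hs => ?_, fun s hs => ?_,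
    fun s hs => ?_, fun s hs => ?_, fun s hs => ?_, fun s hs => ?_⟩
  · exact rat_fromBlocks (h.anD s hs) (rat_const 0) (rat_const 0) (h'.anD s hs)
  · exact rat_fromBlocks (h.anH s hs) (rat_const 0) (rat_const 0) (h'.anH s hs)
  · exact bl_posDef (h.pos s hs) (h'.pos s hs)
  · rw [bl_mul, fromBlocks_conjTranspose, conjTranspose_zero, conjTranspose_zero, bl_mul,
      h.adj s hs, h'.adj s hs]
  · obtain ⟨Q, d, hQ, hD, hd⟩ := h.spec s hs
    obtain ⟨Q', d', hQ', hD', hd'⟩ := h'.spec s hs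
    have hdet : IsUnit (Matrix.fromBlocks Q 0 0 Q').det := by
      rw [det_fromBlocks_zero₂₁]
      exact hQ.mul hQ'
    refine ⟨Matrix.fromBlocks Q 0 0 Q', Sum.elim d d', hdet, ?_, fun x => ?_⟩
    · have h1 : (diagonal fun x => ((Sum.elim d d' x : ℝ) : ℂ)) =
          Matrix.fromBlocks (diagonal fun i => (d i : ℂ)) 0 0 (diagonal fun i => (d' i : ℂ)) := by
        rw [fromBlocks_diagonal]
        congr 1
        funext x
        cases x <;> rfl
      have h2 : (Matrix.fromBlocks Q 0 0 Q')⁻¹ = Matrix.fromBlocks Q⁻¹ 0 0 Q'⁻¹ := by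
        apply inv_eq_right_inv
        rw [bl_mul, mul_nonsing_inv Q hQ, mul_nonsing_inv Q' hQ', fromBlocks_one]
      rw [h1, h2, bl_mul, bl_mul, ← hD, ← hD']
    · cases x with
      | inl i => exact (hd i).trans (le_max_left _ _)
      | inr i => exact (hd' i).trans (le_max_right _ _)
  · rw [bl_dzM, bl_mul, bl_mul, bl_sub, bl_smul, h.brk s hs, h'.brk s hs]
  · rw [bl_dzbM, bl_mul, bl_mul, bl_sub, bl_smul, bl_neg, h.brk' s hs, h'.brk' s hs]
  · rw [bl_dzM, bl_dzM, bl_mul, h.dH s hs, h'.dH s hs]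
  · rw [bl_dzbM, bl_dzbM, bl_mul, bl_neg, h.dH' s hs, h'.dH' s hs]

theorem HE.sum (h : HE u O D E) (h' : HE u O D' E') :
    HE u O (fun s => Matrix.fromBlocks (D s) 0 0 (D' s)) (fun s => Matrix.fromBlocks (E s) 0 0 (E' s)) := by
  refine ⟨fun s hs => rat_fromBlocks (h.an s hs) (rat_const 0) (rat_const 0) (h'.an s hs),
    fun s hs => ?_, fun s hs => ?_, fun s hs => ?_⟩
  · rw [det_fromBlocks_zero₂₁]
    exact (h.unit s hs).mul (h'.unit s hs)
  · have h1 : th (fun s => Matrix.fromBlocks (D s) 0 0 (D' s)) s =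
        Matrix.fromBlocks (th D s) 0 0 (th D' s) := by
      unfold th
      rw [bl_dzM, bl_smul, bl_neg]
    rw [bl_dzM, h1, bl_mul, bl_smul, h.dE s hs, h'.dE s hs]
  · have h1 : et (fun s => Matrix.fromBlocks (D s) 0 0 (D' s)) s =
        Matrix.fromBlocks (et D s) 0 0 (et D' s) := by
      unfold et
      rw [bl_dzbM, bl_smul]
    rw [bl_dzbM, h1, bl_mul, bl_smul, h.dE' s hs, h'.dE' s hs]

theorem HV.triv (K : Type) [Fintype K] [DecidableEq K] (O : Set ℂ) :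
    HV 0 O (fun _ => (0 : Matrix K K ℂ)) (fun _ => 1) := by
  refine ⟨fun s _ => rat_const 0, fun s _ => rat_const 1, fun s _ => PosDef.one, fun s _ => ?_,
    fun s _ => ⟨1, fun _ => 0, ?_, ?_, fun _ => ?_⟩, fun s _ => ?_, fun s _ => ?_, fun s _ => ?_,
    fun s _ => ?_⟩
  · simp
  · simp
  · simp
  · simp
  · simp [dzM_const]
  · simp [dzbM_const]
  · simp [dzM_const]
  · simp [dzbM_const]

theorem HE.triv (K : Type) [Fintype K] [DecidableEq K] (O : Set ℂ) (u : ℂ) :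
    HE u O (fun _ => (0 : Matrix K K ℂ)) (fun _ => 1) := by
  refine ⟨fun s _ => rat_const 1, fun s _ => ?_, fun s _ => ?_, fun s _ => ?_⟩
  · simp
  · simp [dzM_const, th]
  · simp [dzbM_const, et]

end Pool.Agent.Helper79.FX
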