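import Pool.Agent.Helper79.FX.Gro

/-!
# FX-15: the theorem of Liouville for families of branches over `ℂ` minus a finite set

Let `Ω = {s | s ∉ Σ}`. It suffices: `Mu F s ≤ Mu F s₀` for `s, s₀ ∈ Ω`, `s ≠ s₀`. Let `h x = ∑_(a ∈ Σ) log |x - a| - (card Σ + 1) log |x - s₀| + (1/4) log (1 + |x|²)`.
By `lap_log_norm`, `lap_log_one_add`: analytic on `Ω \ {s₀}` with `Lap h x = 1 / (4 (1 + |x|²)²) > 0`.
* `h → -∞` at the points of `Σ`: `log |x - a| → -∞`, the rest is bounded; with `growth` (`C₂ log log (R/|x-a|) = o(log |x - a|)`): `Mu F + ε h → -∞` there, for `ε > 0`.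
* At infinity `h x ≤ -(1/4) log |x| + const` for `|x|` large (`log |x - a| - log |x| → 0` and `(1/4) log (1 + |x|²) ≤ (1/2) log |x| + 1`), so with `growth_inf` `Mu F + ε h → -∞`.
* Let `δ > 0` be small (`closedBall s₀ δ ⊆ Ω`, `δ < |s - s₀|`), `m = max over the circle |x - s₀| = δ of Mu F + ε h`. Claim `Mu F s + ε h s ≤ m`. The set `{x ∈ Ω : |x - s₀| ≥ δ}` minus small discs about `Σ` and
  minus a neighbourhood of infinity (where `Mu F + ε h < min m (value at s)`) is compact; let `x*` be a maximum of `Mu F + ε h` on it. If the value at `x*` is `> m`,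
  then `|x* - s₀| > δ` and `x*` is a local maximum of `Mu F + ε h` in `Ω \ {s₀}`; take `e` with `Mu F x* = e.2.2 x*` (`Mu_eq`): `e.2.2 + ε h ≤ Mu F + ε h` near `x*`, with equality at `x*`, so a local
  maximum, but `Lap (e.2.2 + ε h) x* ≥ ε Lap h x* > 0`: contradiction to `lap_nonpos`.
* So `Mu F s ≤ max_(|x - s₀| = δ) Mu F + ε (max_(|x-s₀|=δ) h - h s)`. `ε → 0`: `Mu F s ≤ max_(|x-s₀|=δ) Mu F`; `δ → 0` and `continuousOn_Mu`: `Mu F s ≤ Mu F s₀`.
-/

namespace Pool.Agent.Helper79.FX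

open Filter Topology

variable {κ C : ℝ} {F : Set (Set ℂ × (ℂ → ℝ) × (ℂ → ℝ))} {Sg : Finset ℂ}

/-- The comparison function. -/
private noncomputable def hh (Sg : Finset ℂ) (s₀ : ℂ) (x : ℂ) : ℝ :=
  ((∑ a ∈ Sg, Real.log ‖x - a‖) - ((Sg.card : ℝ) + 1) * Real.log ‖x - s₀‖) +
    (1 / 4) * Real.log (1 + ‖x‖ ^ 2)

private theorem lap_sum_log (S : Finset ℂ) {s : ℂ} (hs : s ∉ S) :
    AnalyticAt ℝ (fun x : ℂ => ∑ a ∈ S, Real.log ‖x - a‖) s ∧
      Lap (fun x : ℂ => ∑ a ∈ S, Real.log ‖x - a‖) s = 0 := by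
  classical
  induction S using Finset.induction_on with
  | empty =>
    refine ⟨?_, ?_⟩
    · simpa using (analyticAt_const (𝕜 := ℝ) (v := (0 : ℝ)) (x := s))
    · simpa using lap_const (s := s) 0
  | insert a S ha ih =>
    have h1 : s ≠ a := fun h => hs (by simp [h])
    have h2 : s ∉ S := fun h => hs (by simp [h])
    obtain ⟨i1, i2⟩ := ih h2
    obtain ⟨j1, j2, _⟩ := lap_log_norm h1
    have e : (fun x : ℂ => ∑ b ∈ insert a S, Real.log ‖x - b‖) =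
        fun x => Real.log ‖x - a‖ + ∑ b ∈ S, Real.log ‖x - b‖ := by
      funext x
      rw [Finset.sum_insert ha]
    rw [e]
    refine ⟨j1.add i1, ?_⟩
    rw [lap_add j1 i1, i2, j2]
    simp

private theorem lap_hh {s₀ s : ℂ} (hs : s ∉ Sg) (h0 : s ≠ s₀) :
    AnalyticAt ℝ (hh Sg s₀) s ∧ 0 < Lap (hh Sg s₀) s := by
  obtain ⟨i1, i2⟩ := lap_sum_log Sg hs
  obtain ⟨j1, j2, _⟩ := lap_log_norm h0
  obtain ⟨k1, k2⟩ := lap_log_one_add s
  have j3 : AnalyticAt ℝ (fun x => ((Sg.card : ℝ) + 1) * Real.log ‖x - s₀‖) s := analyticAt_const.mul j1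
  have k3 : AnalyticAt ℝ (fun x : ℂ => (1 / 4 : ℝ) * Real.log (1 + ‖x‖ ^ 2)) s := analyticAt_const.mul k1
  have l1 : AnalyticAt ℝ (fun x : ℂ => (∑ a ∈ Sg, Real.log ‖x - a‖) -
      ((Sg.card : ℝ) + 1) * Real.log ‖x - s₀‖) s := i1.sub j3
  refine ⟨l1.add k3, ?_⟩
  have e : Lap (hh Sg s₀) s = 1 / 4 * (1 / (1 + ‖s‖ ^ 2) ^ 2) := by
    unfold hh
    rw [lap_add l1 k3, lap_sub i1 j3, lap_const_mul _ j1, lap_const_mul _ k1, i2, j2, k2]
    ring
  rw [e]
  positivity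

private theorem tendsto_aux (C₂ : ℝ) {ε : ℝ} (hε : 0 < ε) :
    Tendsto (fun y : ℝ => C₂ * Real.log y - ε * y) atTop atBot := by
  have h1 : ∀ᶠ y : ℝ in atTop, |C₂ * Real.log y| ≤ (ε / 2) * y := by
    have h2 := (Real.isLittleO_log_id_atTop.const_mul_left C₂).def (half_pos hε)
    filter_upwards [h2, eventually_ge_atTop 0] with y hy hy0
    simpa [abs_of_nonneg hy0] using hy
  have h3 : Tendsto (fun y : ℝ => -(ε / 2 * y)) atTop atBot :=
    tendsto_neg_atTop_atBot.comp (tendsto_id.const_mul_atTop (half_pos hε))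
  refine tendsto_atBot_mono' _ ?_ h3
  filter_upwards [h1] with y hy
  have := le_abs_self (C₂ * Real.log y)
  linarith

private theorem isOpen_compl_fin : IsOpen {s : ℂ | s ∉ Sg} :=
  Sg.finite_toSet.isClosed.isOpen_compl

private theorem near_pt (h : Br κ C {s : ℂ | s ∉ Sg} F) (hκ : 0 < κ) {s₀ : ℂ} (h0 : s₀ ∉ Sg) {a : ℂ}
    (ha : a ∈ Sg) {ε : ℝ} (hε : 0 < ε) :
    Tendsto (fun x => Mu F x + ε * hh Sg s₀ x) (𝓝[≠] a) atBot := by
  classical
  obtain ⟨R, hR, hsub⟩ : ∃ R : ℝ, 0 < R ∧ ∀ s, 0 < ‖s - a‖ → ‖s - a‖ < R → s ∈ {s : ℂ | s ∉ Sg} := by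
    have h1 : IsOpen {s : ℂ | s ∉ Sg.erase a} := isOpen_compl_fin
    obtain ⟨R, hR, h2⟩ := Metric.isOpen_iff.1 h1 a (by simp)
    refine ⟨R, hR, fun s hs hs' => ?_⟩
    have h3 : s ∈ {s : ℂ | s ∉ Sg.erase a} := h2 (by simpa [dist_eq_norm] using hs')
    intro h4
    exact h3 (Finset.mem_erase.2 ⟨fun h5 => by simp [h5] at hs, h4⟩)
  obtain ⟨C₁, C₂, hg⟩ := h.growth isOpen_compl_fin hκ hR hsub
  -- the rest
  have hrest : ∃ B : ℝ, ∀ᶠ x in 𝓝[≠] a, hh Sg s₀ x ≤ Real.log ‖x - a‖ + B := by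
    let r : ℂ → ℝ := fun x => ((∑ b ∈ Sg.erase a, Real.log ‖x - b‖) -
      ((Sg.card : ℝ) + 1) * Real.log ‖x - s₀‖) + (1 / 4) * Real.log (1 + ‖x‖ ^ 2)
    have hr : ContinuousAt r a := by
      have i1 := (lap_sum_log (Sg.erase a) (s := a) (by simp)).1.continuousAt
      have j1 := (lap_log_norm (s := a) (a := s₀) (fun h5 => h0 (h5 ▸ ha))).1.continuousAt
      have k1 := (lap_log_one_add a).1.continuousAt
      exact (i1.sub (j1.const_mul _)).add (k1.const_mul _)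
    refine ⟨r a + 1, ?_⟩
    have h1 : ∀ᶠ x in 𝓝[≠] a, r x < r a + 1 :=
      (hr.eventually (eventually_lt_nhds (lt_add_one (r a)))).filter_mono nhdsWithin_le_nhds
    filter_upwards [h1] with x hx
    have h2 : hh Sg s₀ x = Real.log ‖x - a‖ + r x := by
      unfold hh
      rw [← Finset.add_sum_erase _ _ ha]
      simp only [r]
      ring
    rw [h2]
    linarith
  obtain ⟨B, hB⟩ := hrest
  have ht : Tendsto (fun x : ℂ => ‖x - a‖) (𝓝[≠] a) (𝓝[>] 0) := tendsto_norm_sub_self_nhdsNE a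
  have ht2 : Tendsto (fun x : ℂ => Real.log (R / ‖x - a‖)) (𝓝[≠] a) atTop := by
    refine Real.tendsto_log_atTop.comp ?_
    simp only [div_eq_mul_inv]
    exact (tendsto_inv_nhdsGT_zero.comp ht).const_mul_atTop hR
  have ht3 := (tendsto_aux C₂ hε).comp ht2
  have ht4 : Tendsto (fun x : ℂ => (C₂ * Real.log (Real.log (R / ‖x - a‖)) - ε * Real.log (R / ‖x - a‖)) +
      (C₁ + ε * (Real.log R + B))) (𝓝[≠] a) atBot := tendsto_atBot_add_const_right _ _ ht3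
  refine tendsto_atBot_mono' _ ?_ ht4
  have hsm : ∀ᶠ x in 𝓝[≠] a, ‖x - a‖ < R / Real.exp 1 := by
    have h1 : Tendsto (fun x : ℂ => ‖x - a‖) (𝓝[≠] a) (𝓝 0) := ht.mono_right nhdsWithin_le_nhds
    exact h1.eventually (eventually_lt_nhds (by positivity))
  have hne : ∀ᶠ x in 𝓝[≠] a, x ≠ a := eventually_mem_nhdsWithin
  filter_upwards [hsm, hne, hB] with x h1 h2 h3
  have h4 : 0 < ‖x - a‖ := norm_pos_iff.2 (sub_ne_zero.2 h2)
  have h5 := hg x h4 h1.le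
  have h6 : Real.log (R / ‖x - a‖) = Real.log R - Real.log ‖x - a‖ := Real.log_div hR.ne' h4.ne'
  have h7 : ε * hh Sg s₀ x ≤ ε * (Real.log ‖x - a‖ + B) := mul_le_mul_of_nonneg_left h3 hε.le
  have h8 : ε * Real.log (R / ‖x - a‖) = ε * Real.log R - ε * Real.log ‖x - a‖ := by rw [h6]; ring
  rw [h8]
  nlinarith [h5, h7]

private theorem log_sub_bound (a : ℂ) : ∀ᶠ x : ℂ in cocompact ℂ,
    |Real.log ‖x - a‖ - Real.log ‖x‖| ≤ Real.log 2 := by
  have h1 : ∀ᶠ x : ℂ in cocompact ℂ, 2 * ‖a‖ + 1 ≤ ‖x‖ :=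
    (tendsto_norm_cocompact_atTop (E := ℂ)).eventually (eventually_ge_atTop _)
  filter_upwards [h1] with x hx
  have h2 : ‖x - a‖ ≤ ‖x‖ + ‖a‖ := norm_sub_le _ _
  have h3 : ‖x‖ ≤ ‖x - a‖ + ‖a‖ := by
    have := norm_add_le (x - a) a
    simpa using this
  have h0 : 0 ≤ ‖a‖ := norm_nonneg a
  have hx0 : 0 < ‖x‖ := by linarith
  have hxa : 0 < ‖x - a‖ := by linarith
  rw [abs_le]
  constructor
  · have h4 : Real.log ‖x‖ ≤ Real.log (2 * ‖x - a‖) := Real.log_le_log hx0 (by linarith)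
    rw [Real.log_mul (by norm_num) hxa.ne'] at h4
    linarith
  · have h4 : Real.log ‖x - a‖ ≤ Real.log (2 * ‖x‖) := Real.log_le_log hxa (by linarith)
    rw [Real.log_mul (by norm_num) hx0.ne'] at h4
    linarith

private theorem sum_log_bound (S : Finset ℂ) : ∃ B : ℝ, ∀ᶠ x : ℂ in cocompact ℂ,
    (∑ a ∈ S, Real.log ‖x - a‖) ≤ (S.card : ℝ) * Real.log ‖x‖ + B := by
  classical
  induction S using Finset.induction_on with
  | empty => exact ⟨0, by simp⟩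
  | insert a S ha ih =>
    obtain ⟨B, hB⟩ := ih
    refine ⟨B + Real.log 2, ?_⟩
    filter_upwards [hB, log_sub_bound a] with x h1 h2
    rw [Finset.sum_insert ha, Finset.card_insert_of_notMem ha]
    push_cast
    have := (abs_le.1 h2).2
    linarith

private theorem near_inf (h : Br κ C {s : ℂ | s ∉ Sg} F) (hκ : 0 < κ) (s₀ : ℂ) {ε : ℝ} (hε : 0 < ε) :
    Tendsto (fun x => Mu F x + ε * hh Sg s₀ x) (cocompact ℂ) atBot := by
  obtain ⟨R, hR, hsub⟩ : ∃ R : ℝ, 0 < R ∧ ∀ s : ℂ, R < ‖s‖ → s ∈ {s : ℂ | s ∉ Sg} := by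
    obtain ⟨R, hR⟩ := (Sg.finite_toSet.isBounded).exists_norm_le
    refine ⟨max R 1, by positivity, fun s hs hs' => ?_⟩
    have h1 := hR s hs'
    have h2 := le_max_left R 1
    linarith
  obtain ⟨C₁, C₂, hg⟩ := h.growth_inf isOpen_compl_fin hκ hR hsub
  obtain ⟨B, hB⟩ := sum_log_bound Sg
  have hn := tendsto_norm_cocompact_atTop (E := ℂ)
  have ht2 : Tendsto (fun x : ℂ => Real.log (‖x‖ / R)) (cocompact ℂ) atTop :=
    Real.tendsto_log_atTop.comp (hn.atTop_div_const hR)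
  have ht3 := (tendsto_aux C₂ (half_pos hε)).comp ht2
  let D : ℝ := C₁ + ε * (B + ((Sg.card : ℝ) + 1) * Real.log 2 + 1 / 4 * Real.log 2 - 1 / 2 * Real.log R)
  have ht4 : Tendsto (fun x : ℂ => (C₂ * Real.log (Real.log (‖x‖ / R)) - ε / 2 * Real.log (‖x‖ / R)) + D)
      (cocompact ℂ) atBot := tendsto_atBot_add_const_right _ _ ht3
  refine tendsto_atBot_mono' _ ?_ ht4
  have hl : ∀ᶠ x : ℂ in cocompact ℂ, R * Real.exp 1 ≤ ‖x‖ := hn.eventually (eventually_ge_atTop _)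
  have hl1 : ∀ᶠ x : ℂ in cocompact ℂ, 1 ≤ ‖x‖ := hn.eventually (eventually_ge_atTop _)
  filter_upwards [hl, hl1, hB, log_sub_bound s₀] with x h1 h2 h3 h4
  have h5 := hg x h1
  have hx0 : 0 < ‖x‖ := by linarith
  have h6 : Real.log (‖x‖ / R) = Real.log ‖x‖ - Real.log R := Real.log_div hx0.ne' hR.ne'
  have h7 : Real.log (1 + ‖x‖ ^ 2) ≤ Real.log 2 + 2 * Real.log ‖x‖ := by
    have h8 : Real.log (1 + ‖x‖ ^ 2) ≤ Real.log (2 * ‖x‖ ^ 2) :=
      Real.log_le_log (by positivity) (by nlinarith)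
    rw [Real.log_mul (by norm_num) (by positivity), Real.log_pow] at h8
    push_cast at h8
    linarith
  have h9 := (abs_le.1 h4).1
  have h10 : ((Sg.card : ℝ) + 1) * (Real.log ‖x‖ - Real.log 2) ≤ ((Sg.card : ℝ) + 1) * Real.log ‖x - s₀‖ :=
    mul_le_mul_of_nonneg_left (by linarith) (by positivity)
  have h11 : hh Sg s₀ x ≤ (B + ((Sg.card : ℝ) + 1) * Real.log 2 + 1 / 4 * Real.log 2) -
      1 / 2 * Real.log ‖x‖ := by
    unfold hh
    nlinarith
  have h12 := mul_le_mul_of_nonneg_left h11 hε.le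
  have h13 : ε / 2 * Real.log (‖x‖ / R) = ε / 2 * Real.log ‖x‖ - ε / 2 * Real.log R := by rw [h6]; ring
  rw [h13]
  simp only [D]
  nlinarith [h5, h12]

private theorem max_principle (h : Br κ C {s : ℂ | s ∉ Sg} F) (hκ : 0 < κ) {s₀ s : ℂ} (h0 : s₀ ∉ Sg)
    (hs : s ∉ Sg) {ε δ m : ℝ} (hε : 0 < ε) (hδ : 0 < δ) (hδs : δ ≤ ‖s - s₀‖)
    (hm : ∀ x : ℂ, ‖x - s₀‖ = δ → Mu F x + ε * hh Sg s₀ x ≤ m) :
    Mu F s + ε * hh Sg s₀ s ≤ m := by
  by_contra hcon
  push Not at hcon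
  set g : ℂ → ℝ := fun x => Mu F x + ε * hh Sg s₀ x with hgdef
  have hΩ : IsOpen {s : ℂ | s ∉ Sg} := isOpen_compl_fin
  have hcont : ∀ x : ℂ, x ∉ Sg → x ≠ s₀ → ContinuousAt g x := by
    intro x hx hx0
    have h1 : ContinuousAt (Mu F) x := (h.continuousOn_Mu hΩ).continuousAt (hΩ.mem_nhds hx)
    exact h1.add (((lap_hh hx hx0).1.continuousAt).const_mul ε)
  set K : Set ℂ := {x | δ ≤ ‖x - s₀‖ ∧ x ∉ Sg ∧ g s ≤ g x} with hK
  have hsK : s ∈ K := ⟨hδs, hs, le_rfl⟩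
  have hne : ∀ x : ℂ, δ ≤ ‖x - s₀‖ → x ≠ s₀ := by
    intro x hx hx'
    rw [hx', sub_self, norm_zero] at hx
    linarith
  have hKc : IsClosed K := by
    rw [← isOpen_compl_iff, isOpen_iff_eventually]
    intro x hx
    by_cases h1 : δ ≤ ‖x - s₀‖
    · by_cases h2 : x ∈ Sg
      · -- near a point of Sg
        have h3 := (near_pt h hκ h0 h2 hε).eventually (eventually_lt_atBot (g s))
        rw [eventually_nhdsWithin_iff] at h3
        filter_upwards [h3] with y hy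
        rintro ⟨_, hy2, hy3⟩
        have h4 : y ≠ x := fun h5 => hy2 (h5 ▸ h2)
        have h5 : g y < g s := hy h4
        linarith
      · have h3 : g x < g s := by
          by_contra h4
          exact hx ⟨h1, h2, not_lt.1 h4⟩
        have h4 := (hcont x h2 (hne x h1)).eventually (eventually_lt_nhds h3)
        filter_upwards [h4] with y hy
        rintro ⟨_, _, hy3⟩
        linarith
    · have h2 : ContinuousAt (fun y : ℂ => ‖y - s₀‖) x := by fun_prop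
      have h3 := h2.eventually (eventually_lt_nhds (not_le.1 h1))
      filter_upwards [h3] with y hy
      rintro ⟨hy1, _, _⟩
      linarith
  have hKcomp : IsCompact K := by
    have h1 := (near_inf h hκ s₀ hε).eventually (eventually_lt_atBot (g s))
    rw [Filter.eventually_iff, Filter.mem_cocompact] at h1
    obtain ⟨T, hT, hT2⟩ := h1
    refine hT.of_isClosed_subset hKc (fun x hx => ?_)
    by_contra hxT
    have h2 : g x < g s := hT2 hxT
    have h3 := hx.2.2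
    linarith
  have hKcont : ContinuousOn g K := fun x hx => (hcont x hx.2.1 (hne x hx.1)).continuousWithinAt
  obtain ⟨y, hyK, hymax⟩ := hKcomp.exists_isMaxOn ⟨s, hsK⟩ hKcont
  have hy1 : g s ≤ g y := hyK.2.2
  have hgs : m < g s := hcon
  have hyδ : δ < ‖y - s₀‖ := by
    refine lt_of_le_of_ne hyK.1 (fun h1 => ?_)
    have h2 := hm y h1.symm
    have h3 : g y ≤ m := h2
    linarith
  have hyS : y ∉ Sg := hyK.2.1
  have hy0 : y ≠ s₀ := hne y hyK.1
  obtain ⟨e, he, hye, hMe⟩ := h.Mu_eq (s := y) hyS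
  have hloc : IsLocalMax (fun x => e.2.2 x + ε * hh Sg s₀ x) y := by
    have h1 : ∀ᶠ x in 𝓝 y, x ∈ e.1 := (h.isOpen e he).mem_nhds hye
    have h2 : ContinuousAt (fun x : ℂ => ‖x - s₀‖) y := by fun_prop
    have h3 : ∀ᶠ x in 𝓝 y, δ < ‖x - s₀‖ := h2.eventually (eventually_gt_nhds hyδ)
    have h4 : ∀ᶠ x in 𝓝 y, x ∈ {s : ℂ | s ∉ Sg} := hΩ.mem_nhds hyS
    filter_upwards [h1, h3, h4] with x hx1 hx3 hx4
    have h5 : g x ≤ g y := by
      by_cases h6 : g s ≤ g x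
      · exact hymax (show x ∈ K from ⟨hx3.le, hx4, h6⟩)
      · exact (not_le.1 h6).le.trans hy1
    have h6 : e.2.2 x ≤ Mu F x := h.le_Mu he hx1
    have h7 : g x = Mu F x + ε * hh Sg s₀ x := rfl
    have h8 : g y = Mu F y + ε * hh Sg s₀ y := rfl
    rw [← hMe]
    linarith
  have hl := lap_hh hyS hy0
  have hau := h.anu e he y hye
  have hah : AnalyticAt ℝ (fun x => ε * hh Sg s₀ x) y := analyticAt_const.mul hl.1
  have h1 := lap_nonpos (hau.add hah) hloc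
  have h2 : Lap (fun x => e.2.2 x + ε * hh Sg s₀ x) y = Lap e.2.2 y + ε * Lap (hh Sg s₀) y := by
    rw [lap_add hau hah, lap_const_mul ε hl.1]
  have h3 := h.sh e he y hye
  have h4 := mul_pos hε hl.2
  have h5 : Lap (fun x => e.2.2 x + ε * hh Sg s₀ x) y ≤ 0 := h1
  linarith

private theorem le_of_ne (h : Br κ C {s : ℂ | s ∉ Sg} F) (hκ : 0 < κ) {s₀ s : ℂ} (h0 : s₀ ∉ Sg)
    (hs : s ∉ Sg) (hne : s ≠ s₀) : Mu F s ≤ Mu F s₀ := by
  have hΩ : IsOpen {s : ℂ | s ∉ Sg} := isOpen_compl_fin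
  apply le_of_forall_pos_le_add
  intro η hη
  have hc : ContinuousAt (Mu F) s₀ := (h.continuousOn_Mu hΩ).continuousAt (hΩ.mem_nhds h0)
  have h1 : ∀ᶠ x in 𝓝 s₀, Mu F x < Mu F s₀ + η / 2 ∧ x ∈ {s : ℂ | s ∉ Sg} :=
    (hc.eventually (eventually_lt_nhds (by linarith))).and (hΩ.mem_nhds h0)
  obtain ⟨r, hr, h2⟩ := Metric.eventually_nhds_iff.1 h1
  have hd : 0 < ‖s - s₀‖ := norm_pos_iff.2 (sub_ne_zero.2 hne)
  set δ : ℝ := min (r / 2) ‖s - s₀‖ with hδdef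
  have hδ : 0 < δ := lt_min (half_pos hr) hd
  have hδr : δ < r := (min_le_left _ _).trans_lt (half_lt_self hr)
  have hsph : ∀ x : ℂ, ‖x - s₀‖ = δ → Mu F x < Mu F s₀ + η / 2 ∧ x ∉ Sg := by
    intro x hx
    exact h2 (by rw [dist_eq_norm, hx]; exact hδr)
  have hcomp : IsCompact {x : ℂ | ‖x - s₀‖ = δ} := by
    have h3 : {x : ℂ | ‖x - s₀‖ = δ} = Metric.sphere s₀ δ := by
      ext x
      simp
    rw [h3]
    exact isCompact_sphere s₀ δ
  have hcon : ContinuousOn (hh Sg s₀) {x : ℂ | ‖x - s₀‖ = δ} := by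
    intro x hx
    have hx0 : x ≠ s₀ := by
      intro h4
      have h5 : ‖x - s₀‖ = δ := hx
      rw [h4, sub_self, norm_zero] at h5
      linarith
    exact (lap_hh (hsph x hx).2 hx0).1.continuousAt.continuousWithinAt
  obtain ⟨H, hH⟩ := (hcomp.image_of_continuousOn hcon).bddAbove
  have hH' : ∀ x : ℂ, ‖x - s₀‖ = δ → hh Sg s₀ x ≤ H := fun x hx => hH ⟨x, hx, rfl⟩
  set A : ℝ := |H - hh Sg s₀ s| + 1 with hA
  have hA0 : 0 < A := by positivity
  set ε : ℝ := η / 2 / A with hεdef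
  have hε : 0 < ε := by positivity
  have h3 := max_principle h hκ h0 hs hε hδ (min_le_right _ _) (m := Mu F s₀ + η / 2 + ε * H) (by
    intro x hx
    have h4 := (hsph x hx).1
    have h5 := mul_le_mul_of_nonneg_left (hH' x hx) hε.le
    linarith)
  have h4 : ε * (H - hh Sg s₀ s) ≤ ε * A := by
    apply mul_le_mul_of_nonneg_left _ hε.le
    have := le_abs_self (H - hh Sg s₀ s)
    linarith
  have h5 : ε * A = η / 2 := div_mul_cancel₀ _ hA0.ne'
  nlinarith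

theorem Br.const (h : Br κ C {s : ℂ | s ∉ Sg} F) (hκ : 0 < κ) {s s' : ℂ} (hs : s ∉ Sg) (hs' : s' ∉ Sg) :
    Mu F s = Mu F s' := by
  rcases eq_or_ne s s' with h1 | h1
  · rw [h1]
  · exact le_antisymm (le_of_ne h hκ hs' hs h1) (le_of_ne h hκ hs hs' h1.symm)

end Pool.Agent.Helper79.FX
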