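import Pool.Agent.Helper79.FX.Unif
import Pool.Agent.Helper79.FX.Liou
import Pool.Agent.Helper79.FX.HodgeHV

/-!
# FX-20: the branches over a complex line

`Fam` is the family of the functions `ρ` (energy density of the tensor construction along the line `s ↦ t₀ + s v`) and `u = lg B (RR n (Hm P))`, for all reached elements.
* `vh_line`: for a reached `b` the function `s ↦ b.P (t₀ + s • v)` satisfies `VH` over `{s | t₀ + s • v ∈ b.U}`: chain rule `deriv (fun s => b.P (t₀ + s • v) x y) s = ∑ i, v i * pd i (b.P · x y) (t₀ + s • v)`,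
  so `trans` follows from `IsVHS.trans` by linearity.
* `isOpen`, `sub`, `anr`, `anu`, `nn`, `curv`, `sh`, `grad`: from `VH.hv`, `HV.TP` and `HV.rho_an`, `HV.ug_an`, `HV.rho_nonneg`, `HV.lap_rho`, `HV.lap_ug` (`nsq_nonneg`), `HV.grad_ug`.
* `ext`: the image of `K` under `s ↦ t₀ + s • v` is compact and convex in the open set `S ≠ 0`; it has a convex open neighbourhood `D` there (`IsCompact.exists_thickening_subset_open`, `Convex.thickening`);
  `reach_ext` at `t₀ + s • v`. If `b.P = c.P` near `t₀ + s • v` then the two functions of `s` agree near `s`, and so do their `ρ` (`dzM_congr`, `eventually_eventually_nhds`) and `u`.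
* `fin`: a ball `D` about `t₀ + s • v` in `S ≠ 0`, `finite_branches`, `O = {s' | t₀ + s' • v ∈ D}`. If `b.P = e.P * zc γ` near the point, `γ ∈ Γ`, then with `g = zc γ`:
  `Dm (P g) = g⁻¹ Dm(P) g` (`Dm_mul_right`), `dRR n` of it is `(RR n g)⁻¹ (dRR n (Dm P)) (RR n g)` (`dRR_conj`), so `th` and `et` are conjugated by the constant matrix `RR n g` and `ρ` (a trace) is the same;
  `Hm (P g) = gᴴ Hm(P) g`, `RR n (gᴴ H g) = (RR n g)ᴴ (RR n H) (RR n g)`, `RR n g * B = B * β`, so the Gram matrix becomes `βᴴ G β`, with the same determinant (`‖det β‖ = 1`).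
  (`γ` is an isometry by `hΓ`: the definition of `MM`.)
-/

namespace Pool.Agent.Helper79.FX

open Matrix Pool.Agent.Helper79.BB Pool.Agent.Helper79.HH Pool.Agent.Helper79.HJ
  Pool.Agent.Helper64.Per Pool.Agent.Helper79.DD

variable {m r μ : ℕ} {S : MvPolynomial (Fin m) ℂ} {a : Element m (Fin r)} {lev : Fin r → ℤ} {j : ℤ}
  {ψ : Matrix (Fin r) (Fin r) ℚ} {k : Type} [Field k] [Algebra k ℂ]

/-- The family of branches over the line `s ↦ t₀ + s • v`. -/
noncomputable def Fam (S : MvPolynomial (Fin m) ℂ) (a : Element m (Fin r)) (lev : Fin r → ℤ) (j : ℤ)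
    (ψ : Matrix (Fin r) (Fin r) ℚ) (n : ℕ) {d : ℕ} (B : Matrix (TP (X2 r) n) (Fin d) ℂ)
    (t₀ v : Fin m → ℂ) : Set (Set ℂ × (ℂ → ℝ) × (ℂ → ℝ)) :=
  {e | ∃ b, Reach S a b ∧ e = ({s : ℂ | t₀ + s • v ∈ b.U},
    rho (fun s => dRR n (Dm lev j ψ (b.P (t₀ + s • v)))),
    fun s => lg B (RR n (Hm lev j ψ (b.P (t₀ + s • v)))))}

private theorem lineCont (t₀ v : Fin m → ℂ) : Continuous fun s : ℂ => t₀ + s • v := by fun_prop

private theorem lineAn (t₀ v : Fin m → ℂ) (s : ℂ) : AnalyticAt ℂ (fun s : ℂ => t₀ + s • v) s := by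
  fun_prop

private theorem deriv_line (F : (Fin m → ℂ) → ℂ) (t₀ v : Fin m → ℂ) (s : ℂ)
    (hF : DifferentiableAt ℂ F (t₀ + s • v)) :
    deriv (fun z : ℂ => F (t₀ + z • v)) s = ∑ i, v i * pd i F (t₀ + s • v) := by
  have h1 : HasDerivAt (fun z : ℂ => t₀ + z • v) v s := by
    have := ((hasDerivAt_id s).smul_const v).const_add t₀
    simpa using this
  have h2 : HasDerivAt (fun z : ℂ => F (t₀ + z • v)) (fderiv ℂ F (t₀ + s • v) v) s :=
    hF.hasFDerivAt.comp_hasDerivAt s h1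
  rw [h2.deriv]
  have hv : v = ∑ i, v i • (Pi.single i (1 : ℂ) : Fin m → ℂ) := by
    funext k
    simp [Finset.sum_apply, Pi.single_apply]
  have hL : ∀ L : (Fin m → ℂ) →L[ℂ] ℂ, L v = ∑ i, v i * L (Pi.single i 1) := by
    intro L
    conv_lhs => rw [hv, map_sum]
    refine Finset.sum_congr rfl fun i _ => ?_
    rw [map_smul, smul_eq_mul]
  exact hL _

theorem vh_line (h : IsVHS S a lev j ψ) {b : Element m (Fin r)} (hb : Reach S a b) (t₀ v : Fin m → ℂ) :
    VH lev j ψ {s : ℂ | t₀ + s • v ∈ b.U} (fun s => b.P (t₀ + s • v)) := by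
  have han := reach_analytic h.analytic hb
  refine ⟨fun s hs x y => ?_, fun s hs => h.det b hb _ hs, fun s hs => h.pol b hb _ hs,
    fun s hs x y hxy => ?_⟩
  · exact (han.2.2.2 x y _ hs).comp (f := fun s : ℂ => t₀ + s • v) (lineAn t₀ v s)
  · have h1 : (Matrix.of fun x y => deriv (fun z : ℂ => b.P (t₀ + z • v) x y) s) =
        ∑ i, v i • (Matrix.of fun x y => pd i (fun s => b.P s x y) (t₀ + s • v)) := by
      ext x y
      rw [Matrix.of_apply, Matrix.sum_apply]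
      simp only [Matrix.smul_apply, Matrix.of_apply, smul_eq_mul]
      exact deriv_line (fun t => b.P t x y) t₀ v s (han.2.2.2 x y _ hs).differentiableAt
    rw [h1, Finset.sum_mul, Matrix.sum_apply]
    refine Finset.sum_eq_zero fun i _ => ?_
    rw [Matrix.smul_mul, Matrix.smul_apply, h.trans b hb _ hs i x y hxy, smul_zero]

private theorem rho_congr {K : Type} [Fintype K] {D D' : ℂ → Matrix K K ℂ} {s : ℂ}
    (h : D =ᶠ[nhds s] D') : rho D s = rho D' s := by
  unfold rho th et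
  rw [dzM_congr h, dzbM_congr h]

private theorem dzM_conj {K : Type} [Fintype K] [DecidableEq K] {D : ℂ → Matrix K K ℂ} {s : ℂ}
    (hD : RAt D s) (R R' : Matrix K K ℂ) :
    dzM (fun x => R' * D x * R) s = R' * dzM D s * R := by
  rw [dzM_mul (rat_mul (rat_const R') hD) (rat_const R), dzM_mul (rat_const R') hD, dzM_const,
    dzM_const, Matrix.zero_mul, Matrix.mul_zero, zero_add, add_zero]

private theorem dzbM_conj {K : Type} [Fintype K] [DecidableEq K] {D : ℂ → Matrix K K ℂ} {s : ℂ}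
    (hD : RAt D s) (R R' : Matrix K K ℂ) :
    dzbM (fun x => R' * D x * R) s = R' * dzbM D s * R := by
  rw [dzbM_mul (rat_mul (rat_const R') hD) (rat_const R), dzbM_mul (rat_const R') hD, dzbM_const,
    dzbM_const, Matrix.zero_mul, Matrix.mul_zero, zero_add, add_zero]

private theorem rho_conj {K : Type} [Fintype K] [DecidableEq K] {D : ℂ → Matrix K K ℂ} {s : ℂ}
    (hD : RAt D s) {R : Matrix K K ℂ} (hR : IsUnit R.det) :
    rho (fun x => R⁻¹ * D x * R) s = rho D s := by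
  unfold rho th et
  rw [dzM_conj hD, dzbM_conj hD]
  have h1 : -((1 / 2 : ℂ) • (R⁻¹ * dzM D s * R)) * ((1 / 2 : ℂ) • (R⁻¹ * dzbM D s * R)) =
      R⁻¹ * (-((1 / 2 : ℂ) • dzM D s) * ((1 / 2 : ℂ) • dzbM D s)) * R := by
    simp only [Matrix.neg_mul, Matrix.mul_neg, Matrix.smul_mul, Matrix.mul_smul, Matrix.mul_assoc,
      Matrix.mul_nonsing_inv_cancel_left _ _ hR]
  rw [h1, Matrix.trace_mul_comm, ← Matrix.mul_assoc, Matrix.mul_nonsing_inv _ hR, Matrix.one_mul]

private theorem det_gram_eq {K : Type} [Fintype K] [DecidableEq K] {d : ℕ} {B : Matrix K (Fin d) ℂ}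
    {H R : Matrix K K ℂ} {β : Matrix (Fin d) (Fin d) ℂ} (hβ : R * B = B * β) (h1 : ‖β.det‖ = 1) :
    lg B (Rᴴ * H * R) = lg B H := by
  unfold lg
  have h2 : Bᴴ * (Rᴴ * H * R) * B = βᴴ * (Bᴴ * H * B) * β := by
    calc Bᴴ * (Rᴴ * H * R) * B = (R * B)ᴴ * H * (R * B) := by
          rw [Matrix.conjTranspose_mul]; simp only [Matrix.mul_assoc]
      _ = (B * β)ᴴ * H * (B * β) := by rw [hβ]
      _ = _ := by rw [Matrix.conjTranspose_mul]; simp only [Matrix.mul_assoc]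
  rw [h2, Matrix.det_mul, Matrix.det_mul, Matrix.det_conjTranspose]
  have h3 : star β.det * (Bᴴ * H * B).det * β.det = (Bᴴ * H * B).det := by
    have : star β.det * β.det = 1 := by
      rw [Complex.star_def, mul_comm, Complex.mul_conj, Complex.normSq_eq_norm_sq, h1]
      norm_num
    calc _ = (star β.det * β.det) * (Bᴴ * H * B).det := by ring
      _ = _ := by rw [this, one_mul]
  rw [h3]

private theorem hv_line (h : IsVHS S a lev j ψ) {b : Element m (Fin r)} (hb : Reach S a b)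
    (t₀ v : Fin m → ℂ) (n : ℕ) :
    IsOpen {s : ℂ | t₀ + s • v ∈ b.U} ∧
    HV (n * ((2 * Nb lev + |j| : ℤ) : ℝ)) {s : ℂ | t₀ + s • v ∈ b.U}
      (fun s => dRR n (Dm lev j ψ (b.P (t₀ + s • v)))) (fun s => RR n (Hm lev j ψ (b.P (t₀ + s • v)))) := by
  have han := reach_analytic h.analytic hb
  have hO : IsOpen {s : ℂ | t₀ + s • v ∈ b.U} := han.1.preimage (lineCont t₀ v)
  refine ⟨hO, ?_⟩
  have hN : (0 : ℝ) ≤ ((2 * Nb lev + |j| : ℤ) : ℝ) := by
    have h1 : 0 ≤ Nb lev := by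
      unfold Nb
      have : 0 ≤ ∑ x, |lev x| := Finset.sum_nonneg fun x _ => abs_nonneg _
      omega
    have h2 : 0 ≤ |j| := abs_nonneg _
    exact_mod_cast (by omega : (0 : ℤ) ≤ 2 * Nb lev + |j|)
  exact ((vh_line h hb t₀ v).hv hO).TP hN n

private theorem isOpen_S (S : MvPolynomial (Fin m) ℂ) :
    IsOpen {t : Fin m → ℂ | MvPolynomial.eval t S ≠ 0} := by
  have : Continuous fun t : Fin m → ℂ => MvPolynomial.eval t S := MvPolynomial.continuous_eval S
  exact isOpen_ne.preimage this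

theorem br_line (h : IsVHS S a lev j ψ) (hne : a.U.Nonempty) (hw : IsBranchM k a.U μ a.w)
    {Γ : Subgroup (GL (Fin r) ℤ)} (hΓ : Γ ≤ MM S a ψ h.dom) (hfin : Γ.relIndex (MM S a ψ h.dom) ≠ 0)
    {n d : ℕ} {B : Matrix (TP (X2 r) n) (Fin d) ℂ} (hB : ∀ v : Fin d → ℂ, B *ᵥ v = 0 → v = 0)
    (hBΓ : ∀ γ ∈ Γ, ∃ β : Matrix (Fin d) (Fin d) ℂ,
      RR n (zc (γ : Matrix (Fin r) (Fin r) ℤ)) * B = B * β ∧ ‖β.det‖ = 1) (t₀ v : Fin m → ℂ) :
    Br (4 / (Fintype.card (TP (X2 r) n) * (n * ((2 * Nb lev + |j| : ℤ) : ℝ)) ^ 2 + 1)) (4 * d)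
      {s : ℂ | MvPolynomial.eval (t₀ + s • v) S ≠ 0} (Fam S a lev j ψ n B t₀ v) := by
  constructor
  · rintro e ⟨b, hb, rfl⟩
    exact (hv_line h hb t₀ v n).1
  · rintro e ⟨b, hb, rfl⟩ s hs
    exact reach_dom h.dom hb _ hs
  · rintro e ⟨b, hb, rfl⟩ s hs
    exact (hv_line h hb t₀ v n).2.rho_an hs
  · rintro e ⟨b, hb, rfl⟩ s hs
    exact (hv_line h hb t₀ v n).2.ug_an hB hs
  · rintro e ⟨b, hb, rfl⟩ s hs
    exact (hv_line h hb t₀ v n).2.rho_nonneg (hv_line h hb t₀ v n).1 hs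
  · rintro e ⟨b, hb, rfl⟩ s hs hpos
    exact (hv_line h hb t₀ v n).2.lap_rho (hv_line h hb t₀ v n).1 hs hpos
  · rintro e ⟨b, hb, rfl⟩ s hs
    have hp := (hv_line h hb t₀ v n).2.pos s hs
    have h1 := (hv_line h hb t₀ v n).2.lap_ug (hv_line h hb t₀ v n).1 hB hs
    show 0 ≤ Lap (fun s => lg B (RR n (Hm lev j ψ (b.P (t₀ + s • v))))) s
    rw [h1]
    have h2 := nsq_nonneg (X := PiM B (RR n (Hm lev j ψ (b.P (t₀ + s • v)))) *
      th (fun s => dRR n (Dm lev j ψ (b.P (t₀ + s • v)))) s *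
        (1 - PiM B (RR n (Hm lev j ψ (b.P (t₀ + s • v)))))) hp
    have h3 := nsq_nonneg (X := (1 - PiM B (RR n (Hm lev j ψ (b.P (t₀ + s • v))))) *
      th (fun s => dRR n (Dm lev j ψ (b.P (t₀ + s • v)))) s *
        PiM B (RR n (Hm lev j ψ (b.P (t₀ + s • v))))) hp
    linarith
  · rintro e ⟨b, hb, rfl⟩ s hs
    exact (hv_line h hb t₀ v n).2.grad_ug (hv_line h hb t₀ v n).1 hB hs
  · rintro K hK hKc hKx e ⟨b, hb, rfl⟩ s ⟨hs, hsK⟩
    have hK' : IsCompact ((fun s : ℂ => t₀ + s • v) '' K) := hKc.image (lineCont t₀ v)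
    have hsub : (fun s : ℂ => t₀ + s • v) '' K ⊆ {t : Fin m → ℂ | MvPolynomial.eval t S ≠ 0} := by
      rintro _ ⟨s, hs, rfl⟩
      exact hK hs
    obtain ⟨δ, hδ, hδs⟩ := hK'.exists_thickening_subset_open (isOpen_S S) hsub
    have hconv : Convex ℝ ((fun s : ℂ => t₀ + s • v) '' K) := by
      rintro _ ⟨x, hx, rfl⟩ _ ⟨y, hy, rfl⟩ p q hp hq hpq
      refine ⟨p • x + q • y, hKx hx hy hp hq hpq, ?_⟩
      have : t₀ = p • t₀ + q • t₀ := by rw [← add_smul, hpq, one_smul]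
      show t₀ + (p • x + q • y) • v = p • (t₀ + x • v) + q • (t₀ + y • v)
      conv_lhs => rw [this]
      rw [add_smul, smul_add, smul_add, smul_assoc, smul_assoc]
      abel
    obtain ⟨c, hc, hcU, hcE⟩ := h.reach_ext hb (t := t₀ + s • v) Metric.isOpen_thickening
      (hconv.thickening δ) (fun t ht => hδs ht) hs
      (Metric.self_subset_thickening hδ _ ⟨s, hsK, rfl⟩)
    have hE : ∀ᶠ x in nhds s, b.P (t₀ + x • v) = c.P (t₀ + x • v) :=
      ((lineCont t₀ v).continuousAt.eventually hcE).mono fun x hx => hx.2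
    refine ⟨_, ⟨c, hc, rfl⟩, ?_, ?_, ?_⟩
    · intro x hx
      show t₀ + x • v ∈ c.U
      rw [hcU]
      exact Metric.self_subset_thickening hδ _ ⟨x, hx, rfl⟩
    · filter_upwards [hE.eventually_nhds] with x hx
      refine rho_congr ?_
      filter_upwards [hx] with y hy
      rw [hy]
    · filter_upwards [hE] with x hx
      show lg B (RR n (Hm lev j ψ (b.P (t₀ + x • v)))) = lg B (RR n (Hm lev j ψ (c.P (t₀ + x • v))))
      rw [hx]
  · intro s hs
    obtain ⟨ε, hε, hεs⟩ := Metric.isOpen_iff.1 (isOpen_S S) (t₀ + s • v) hs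
    obtain ⟨G, hGf, hGne, hG, hGb⟩ := h.finite_branches hne hw hΓ hfin (D := Metric.ball (t₀ + s • v) ε)
      Metric.isOpen_ball (convex_ball _ _) (fun t ht => hεs ht) ⟨_, Metric.mem_ball_self hε⟩
    let f : Element m (Fin r) → Set ℂ × (ℂ → ℝ) × (ℂ → ℝ) := fun b => ({s : ℂ | t₀ + s • v ∈ b.U},
      rho (fun s => dRR n (Dm lev j ψ (b.P (t₀ + s • v)))),
      fun s => lg B (RR n (Hm lev j ψ (b.P (t₀ + s • v)))))
    refine ⟨{x : ℂ | t₀ + x • v ∈ Metric.ball (t₀ + s • v) ε}, f '' G,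
      Metric.isOpen_ball.preimage (lineCont t₀ v), Metric.mem_ball_self hε, hGf.image f, hGne.image f,
      ?_, ?_, ?_⟩
    · rintro _ ⟨b, hb, rfl⟩
      exact ⟨b, (hG b hb).1, rfl⟩
    · rintro _ ⟨b, hb, rfl⟩ x hx
      show t₀ + x • v ∈ b.U
      rw [(hG b hb).2]
      exact hx
    · rintro _ ⟨b, hb, rfl⟩ x ⟨hx, hxb⟩
      obtain ⟨e, he, γ, hγ, hev⟩ := hGb b hb (t₀ + x • v) ⟨hx, hxb⟩
      obtain ⟨β, hβ, hβ1⟩ := hBΓ γ hγ
      have hiso := (hΓ hγ).1
      have hdet : IsUnit (γ : Matrix (Fin r) (Fin r) ℤ).det := (Matrix.isUnit_iff_isUnit_det _).1 γ.isUnit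
      have hg : IsUnit (zc (γ : Matrix (Fin r) (Fin r) ℤ)).det := by
        have h1 : (zc (γ : Matrix (Fin r) (Fin r) ℤ)).det =
            (Int.castRingHom ℂ) (γ : Matrix (Fin r) (Fin r) ℤ).det := by
          rw [RingHom.map_det]; rfl
        rw [h1]
        exact hdet.map _
      have hRe := (hG e he).1
      have hxe : t₀ + x • v ∈ e.U := by rw [(hG e he).2]; exact hx
      have hopen := (hv_line h hRe t₀ v n).1
      refine ⟨f e, ⟨e, he, rfl⟩, ?_, ?_⟩
      · have hE : ∀ᶠ y in nhds x, b.P (t₀ + y • v) = e.P (t₀ + y • v) *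
            zc (γ : Matrix (Fin r) (Fin r) ℤ) := (lineCont t₀ v).continuousAt.eventually hev
        have h1 : (fun y => dRR n (Dm lev j ψ (b.P (t₀ + y • v)))) =ᶠ[nhds x]
            fun y => (RR n (zc (γ : Matrix (Fin r) (Fin r) ℤ)))⁻¹ * dRR n (Dm lev j ψ (e.P (t₀ + y • v))) *
              RR n (zc (γ : Matrix (Fin r) (Fin r) ℤ)) := by
          filter_upwards [hE, hopen.mem_nhds hxe] with y hy hye
          rw [hy, Dm_mul_right (h.pol e hRe _ hye) (h.det e hRe _ hye) hdet hiso, dRR_conj n hg]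
        show rho (fun y => dRR n (Dm lev j ψ (b.P (t₀ + y • v)))) x =
          rho (fun y => dRR n (Dm lev j ψ (e.P (t₀ + y • v)))) x
        rw [rho_congr h1]
        exact rho_conj ((hv_line h hRe t₀ v n).2.anD x hxe) (RR_det n hg)
      · have h1 := hev.self_of_nhds
        show lg B (RR n (Hm lev j ψ (b.P (t₀ + x • v)))) = lg B (RR n (Hm lev j ψ (e.P (t₀ + x • v))))
        rw [h1, Hm_mul_right (h.pol e hRe _ hxe) (h.det e hRe _ hxe) hdet hiso, RR_mul, RR_mul,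
          RR_conjTranspose]
        exact det_gram_eq hβ hβ1

end Pool.Agent.Helper79.FX
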