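import Pool.Agent.Helper79.FX.Wir

/-!
# FX-02: the derivatives `∂` and `∂̄` of matrices of functions

Entry by entry from `Wir`. `RAt`: all entries are real analytic at the point.
* `rat_inv`: the entries of the inverse are `det⁻¹` times the entries of the adjugate (`Matrix.inv_def`, `Matrix.adjugate_apply`), polynomials in the entries.
* `dzM_inv`: derivative of `F * F⁻¹ = 1` (the determinant is a unit near `s`).
* `dz_det`: Jacobi's formula. One way: for `i` fixed expand; or: `det (F x) = ∑_σ sign σ ∏_i F (σ i) i`, product rule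
  `∂ ∏_i = ∑_k (∂ F (σ k) k) ∏_(i ≠ k)`, and `∑_σ sign σ (∂F (σ k) k) ∏_(i≠k) F (σ i) i = det (updateCol F k (∂F col k))`
  `= ∑_l adjugate F k l * ∂F l k` (`Matrix.cramer`), and the sum over `k` is `trace (adjugate F * ∂F)`; `adjugate F = det F • F⁻¹`.
-/

namespace Pool.Agent.Helper79.FX

open Matrix
open scoped Kronecker

variable {K L M : Type}

/-- `∂F/∂s` for a matrix of functions. -/
noncomputable def dzM (F : ℂ → Matrix K L ℂ) (s : ℂ) : Matrix K L ℂ :=
  Matrix.of fun i k => dz (fun x => F x i k) s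

/-- `∂F/∂s̄` for a matrix of functions. -/
noncomputable def dzbM (F : ℂ → Matrix K L ℂ) (s : ℂ) : Matrix K L ℂ :=
  Matrix.of fun i k => dzb (fun x => F x i k) s

/-- The entries are real analytic at `s`. -/
def RAt {E : Type} [NormedAddCommGroup E] [NormedSpace ℝ E] (F : E → Matrix K L ℂ) (s : E) : Prop :=
  ∀ i k, AnalyticAt ℝ (fun x => F x i k) s

section RAt

variable {E : Type} [NormedAddCommGroup E] [NormedSpace ℝ E] {s : E}

theorem rat_const (A : Matrix K L ℂ) : RAt (fun _ : E => A) s := fun _ _ => analyticAt_const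

theorem rat_add {F G : E → Matrix K L ℂ} (hF : RAt F s) (hG : RAt G s) :
    RAt (fun x => F x + G x) s := fun i k => (hF i k).fun_add (hG i k)

theorem rat_sub {F G : E → Matrix K L ℂ} (hF : RAt F s) (hG : RAt G s) :
    RAt (fun x => F x - G x) s := fun i k => (hF i k).fun_sub (hG i k)

theorem rat_neg {F : E → Matrix K L ℂ} (hF : RAt F s) : RAt (fun x => -F x) s := fun i k => (hF i k).fun_neg

theorem rat_smul {F : E → Matrix K L ℂ} (c : ℂ) (hF : RAt F s) : RAt (fun x => c • F x) s := fun i k => analyticAt_const.fun_mul (hF i k)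

theorem rat_sum {J : Type} {u : Finset J} {F : J → E → Matrix K L ℂ} (hF : ∀ j ∈ u, RAt (F j) s) :
    RAt (fun x => ∑ j ∈ u, F j x) s := by
  intro i k
  simp only [Matrix.sum_apply]
  exact Finset.analyticAt_fun_sum _ fun j hj => hF j hj i k

theorem rat_mul [Fintype L] {F : E → Matrix K L ℂ} {G : E → Matrix L M ℂ} (hF : RAt F s)
    (hG : RAt G s) : RAt (fun x => F x * G x) s := by
  intro i k
  simp only [Matrix.mul_apply]
  exact Finset.analyticAt_fun_sum _ fun j _ => (hF i j).fun_mul (hG j k)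

theorem rat_conjTranspose {F : E → Matrix K L ℂ} (hF : RAt F s) : RAt (fun x => (F x)ᴴ) s := by
  intro i k
  have h1 : AnalyticAt ℝ (fun x => (Complex.conjCLE : ℂ →L[ℝ] ℂ) (F x k i)) s :=
    ((Complex.conjCLE : ℂ →L[ℝ] ℂ).analyticAt _).fun_comp (hF k i)
  exact h1

theorem rat_submatrix {F : E → Matrix K L ℂ} (hF : RAt F s) {K' L' : Type} (f : K' → K)
    (g : L' → L) : RAt (fun x => (F x).submatrix f g) s := fun i k => hF (f i) (g k)

theorem rat_kron {K' L' : Type} {F : E → Matrix K L ℂ} {G : E → Matrix K' L' ℂ} (hF : RAt F s)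
    (hG : RAt G s) : RAt (fun x => F x ⊗ₖ G x) s := fun i k => (hF i.1 k.1).fun_mul (hG i.2 k.2)

theorem rat_fromBlocks {K' L' : Type} {A : E → Matrix K L ℂ} {B : E → Matrix K L' ℂ}
    {C : E → Matrix K' L ℂ} {D : E → Matrix K' L' ℂ} (hA : RAt A s) (hB : RAt B s) (hC : RAt C s)
    (hD : RAt D s) : RAt (fun x => Matrix.fromBlocks (A x) (B x) (C x) (D x)) s := by
  rintro (i | i) (k | k)
  · exact hA i k
  · exact hB i k
  · exact hC i k
  · exact hD i k

theorem analyticAt_det [Fintype K] [DecidableEq K] {F : E → Matrix K K ℂ} (hF : RAt F s) :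
    AnalyticAt ℝ (fun x => (F x).det) s := by
  simp only [Matrix.det_apply']
  refine Finset.analyticAt_fun_sum _ fun σ _ => ?_
  exact analyticAt_const.fun_mul (Finset.analyticAt_fun_prod _ fun i _ => hF (σ i) i)

theorem analyticAt_trace [Fintype K] {F : E → Matrix K K ℂ} (hF : RAt F s) :
    AnalyticAt ℝ (fun x => (F x).trace) s := by
  simp only [Matrix.trace, Matrix.diag_apply]
  exact Finset.analyticAt_fun_sum _ fun i _ => hF i i

theorem rat_inv [Fintype K] [DecidableEq K] {F : E → Matrix K K ℂ} (hF : RAt F s)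
    (h0 : IsUnit (F s).det) : RAt (fun x => (F x)⁻¹) s := by
  intro i k
  have h1 : AnalyticAt ℝ (fun x => ((F x).det)⁻¹) s :=
    (analyticAt_det hF).fun_inv h0.ne_zero
  have h2 : AnalyticAt ℝ (fun x => ((F x).updateRow k (Pi.single i 1)).det) s := by
    refine analyticAt_det fun a c => ?_
    by_cases hak : a = k
    · subst hak
      simp only [Matrix.updateRow_self]
      exact analyticAt_const
    · simp only [Matrix.updateRow_ne hak]
      exact hF a c
  have h3 : (fun x => (F x)⁻¹ i k) =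
      fun x => ((F x).det)⁻¹ * ((F x).updateRow k (Pi.single i 1)).det := by
    funext x
    rw [Matrix.inv_def, Ring.inverse_eq_inv', Matrix.smul_apply, Matrix.adjugate_apply,
      smul_eq_mul]
  rw [h3]
  exact h1.fun_mul h2

theorem rat_comp {E' : Type} [NormedAddCommGroup E'] [NormedSpace ℝ E'] {F : E → Matrix K L ℂ}
    {f : E' → E} {x : E'} (hF : RAt F (f x)) (hf : AnalyticAt ℝ f x) : RAt (fun y => F (f y)) x := fun i k => (hF i k).fun_comp hf

/-- Holomorphic matrices are real analytic. -/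
theorem rat_of_hol {F : (ℂ) → Matrix K L ℂ} {s : ℂ} (h : ∀ i k, AnalyticAt ℂ (fun x => F x i k) s) :
    RAt F s := fun i k => (h i k).restrictScalars

end RAt

section Der

variable {s : ℂ}

theorem rat_dzM {F : ℂ → Matrix K L ℂ} (hF : RAt F s) : RAt (dzM F) s := fun i k => analyticAt_dz (hF i k)

theorem rat_dzbM {F : ℂ → Matrix K L ℂ} (hF : RAt F s) : RAt (dzbM F) s := fun i k => analyticAt_dzb (hF i k)

theorem dzM_congr {F G : ℂ → Matrix K L ℂ} (h : F =ᶠ[nhds s] G) : dzM F s = dzM G s := by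
  ext i k
  exact dz_congr (h.mono fun x hx => congrFun (congrFun hx i) k)

theorem dzbM_congr {F G : ℂ → Matrix K L ℂ} (h : F =ᶠ[nhds s] G) : dzbM F s = dzbM G s := by
  ext i k
  exact dzb_congr (h.mono fun x hx => congrFun (congrFun hx i) k)

theorem dzM_const (A : Matrix K L ℂ) : dzM (fun _ => A) s = 0 := by
  ext i k
  exact dz_const _

theorem dzbM_const (A : Matrix K L ℂ) : dzbM (fun _ => A) s = 0 := by
  ext i k
  exact dzb_const _

theorem dzM_add {F G : ℂ → Matrix K L ℂ} (hF : RAt F s) (hG : RAt G s) :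
    dzM (fun x => F x + G x) s = dzM F s + dzM G s := by
  ext i k
  exact dz_add (hF i k).differentiableAt (hG i k).differentiableAt

theorem dzbM_add {F G : ℂ → Matrix K L ℂ} (hF : RAt F s) (hG : RAt G s) :
    dzbM (fun x => F x + G x) s = dzbM F s + dzbM G s := by
  ext i k
  exact dzb_add (hF i k).differentiableAt (hG i k).differentiableAt

theorem dzM_sub {F G : ℂ → Matrix K L ℂ} (hF : RAt F s) (hG : RAt G s) :
    dzM (fun x => F x - G x) s = dzM F s - dzM G s := by
  ext i k
  exact dz_sub (hF i k).differentiableAt (hG i k).differentiableAt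

theorem dzbM_sub {F G : ℂ → Matrix K L ℂ} (hF : RAt F s) (hG : RAt G s) :
    dzbM (fun x => F x - G x) s = dzbM F s - dzbM G s := by
  ext i k
  exact dzb_sub (hF i k).differentiableAt (hG i k).differentiableAt

theorem dzM_neg {F : ℂ → Matrix K L ℂ} (hF : RAt F s) : dzM (fun x => -F x) s = -dzM F s := by
  ext i k
  have h1 : dz (fun x => (0 : ℂ) - F x i k) s = dz (fun _ => (0 : ℂ)) s - dz (fun x => F x i k) s :=
    dz_sub (differentiableAt_const _) (hF i k).differentiableAt
  rw [dz_const, zero_sub] at h1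
  simp only [zero_sub] at h1
  exact h1

theorem dzbM_neg {F : ℂ → Matrix K L ℂ} (hF : RAt F s) : dzbM (fun x => -F x) s = -dzbM F s := by
  ext i k
  have h1 : dzb (fun x => (0 : ℂ) - F x i k) s = dzb (fun _ => (0 : ℂ)) s - dzb (fun x => F x i k) s :=
    dzb_sub (differentiableAt_const _) (hF i k).differentiableAt
  rw [dzb_const, zero_sub] at h1
  simp only [zero_sub] at h1
  exact h1

theorem dzM_smul {F : ℂ → Matrix K L ℂ} (c : ℂ) (hF : RAt F s) :
    dzM (fun x => c • F x) s = c • dzM F s := by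
  ext i k
  have h1 : dz (fun x => c * F x i k) s =
      dz (fun _ => c) s * F s i k + c * dz (fun x => F x i k) s :=
    dz_mul (differentiableAt_const _) (hF i k).differentiableAt
  rw [dz_const, zero_mul, zero_add] at h1
  exact h1

theorem dzbM_smul {F : ℂ → Matrix K L ℂ} (c : ℂ) (hF : RAt F s) :
    dzbM (fun x => c • F x) s = c • dzbM F s := by
  ext i k
  have h1 : dzb (fun x => c * F x i k) s =
      dzb (fun _ => c) s * F s i k + c * dzb (fun x => F x i k) s :=
    dzb_mul (differentiableAt_const _) (hF i k).differentiableAt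
  rw [dzb_const, zero_mul, zero_add] at h1
  exact h1

theorem dzM_sum {J : Type} {u : Finset J} {F : J → ℂ → Matrix K L ℂ} (hF : ∀ j ∈ u, RAt (F j) s) :
    dzM (fun x => ∑ j ∈ u, F j x) s = ∑ j ∈ u, dzM (F j) s := by
  ext i k
  have h1 : dz (fun x => ∑ j ∈ u, F j x i k) s = ∑ j ∈ u, dz (fun x => F j x i k) s :=
    dz_sum fun j hj => (hF j hj i k).differentiableAt
  simp only [dzM, Matrix.sum_apply, Matrix.of_apply]
  exact h1

theorem dzbM_sum {J : Type} {u : Finset J} {F : J → ℂ → Matrix K L ℂ} (hF : ∀ j ∈ u, RAt (F j) s) :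
    dzbM (fun x => ∑ j ∈ u, F j x) s = ∑ j ∈ u, dzbM (F j) s := by
  ext i k
  have h1 : dzb (fun x => ∑ j ∈ u, F j x i k) s = ∑ j ∈ u, dzb (fun x => F j x i k) s :=
    dzb_sum fun j hj => (hF j hj i k).differentiableAt
  simp only [dzbM, Matrix.sum_apply, Matrix.of_apply]
  exact h1

theorem dzM_mul [Fintype L] {F : ℂ → Matrix K L ℂ} {G : ℂ → Matrix L M ℂ} (hF : RAt F s)
    (hG : RAt G s) : dzM (fun x => F x * G x) s = dzM F s * G s + F s * dzM G s := by
  ext i k
  have h1 : dz (fun x => ∑ j, F x i j * G x j k) s = ∑ j, dz (fun x => F x i j * G x j k) s :=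
    dz_sum fun j _ => ((hF i j).fun_mul (hG j k)).differentiableAt
  simp only [dzM, Matrix.add_apply, Matrix.mul_apply, Matrix.of_apply]
  rw [h1, ← Finset.sum_add_distrib]
  exact Finset.sum_congr rfl fun j _ =>
    dz_mul (hF i j).differentiableAt (hG j k).differentiableAt

theorem dzbM_mul [Fintype L] {F : ℂ → Matrix K L ℂ} {G : ℂ → Matrix L M ℂ} (hF : RAt F s)
    (hG : RAt G s) : dzbM (fun x => F x * G x) s = dzbM F s * G s + F s * dzbM G s := by
  ext i k
  have h1 : dzb (fun x => ∑ j, F x i j * G x j k) s = ∑ j, dzb (fun x => F x i j * G x j k) s :=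
    dzb_sum fun j _ => ((hF i j).fun_mul (hG j k)).differentiableAt
  simp only [dzbM, Matrix.add_apply, Matrix.mul_apply, Matrix.of_apply]
  rw [h1, ← Finset.sum_add_distrib]
  exact Finset.sum_congr rfl fun j _ =>
    dzb_mul (hF i j).differentiableAt (hG j k).differentiableAt

theorem dzM_conjTranspose {F : ℂ → Matrix K L ℂ} : dzM (fun x => (F x)ᴴ) s = (dzbM F s)ᴴ := by
  ext i k
  exact dz_star

theorem dzbM_conjTranspose {F : ℂ → Matrix K L ℂ} : dzbM (fun x => (F x)ᴴ) s = (dzM F s)ᴴ := by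
  ext i k
  exact dzb_star

theorem dzM_submatrix {F : ℂ → Matrix K L ℂ} {K' L' : Type} (f : K' → K) (g : L' → L) :
    dzM (fun x => (F x).submatrix f g) s = (dzM F s).submatrix f g := rfl

theorem dzbM_submatrix {F : ℂ → Matrix K L ℂ} {K' L' : Type} (f : K' → K) (g : L' → L) :
    dzbM (fun x => (F x).submatrix f g) s = (dzbM F s).submatrix f g := rfl

theorem dzM_kron {K' L' : Type} {F : ℂ → Matrix K L ℂ} {G : ℂ → Matrix K' L' ℂ} (hF : RAt F s)
    (hG : RAt G s) : dzM (fun x => F x ⊗ₖ G x) s = dzM F s ⊗ₖ G s + F s ⊗ₖ dzM G s := by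
  ext i k
  exact dz_mul (hF i.1 k.1).differentiableAt (hG i.2 k.2).differentiableAt

theorem dzbM_kron {K' L' : Type} {F : ℂ → Matrix K L ℂ} {G : ℂ → Matrix K' L' ℂ} (hF : RAt F s)
    (hG : RAt G s) : dzbM (fun x => F x ⊗ₖ G x) s = dzbM F s ⊗ₖ G s + F s ⊗ₖ dzbM G s := by
  ext i k
  exact dzb_mul (hF i.1 k.1).differentiableAt (hG i.2 k.2).differentiableAt

theorem dzM_fromBlocks {K' L' : Type} {A : ℂ → Matrix K L ℂ} {B : ℂ → Matrix K L' ℂ}
    {C : ℂ → Matrix K' L ℂ} {D : ℂ → Matrix K' L' ℂ} :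
    dzM (fun x => Matrix.fromBlocks (A x) (B x) (C x) (D x)) s =
      Matrix.fromBlocks (dzM A s) (dzM B s) (dzM C s) (dzM D s) := by
  ext (i | i) (k | k) <;> rfl

theorem dzbM_fromBlocks {K' L' : Type} {A : ℂ → Matrix K L ℂ} {B : ℂ → Matrix K L' ℂ}
    {C : ℂ → Matrix K' L ℂ} {D : ℂ → Matrix K' L' ℂ} :
    dzbM (fun x => Matrix.fromBlocks (A x) (B x) (C x) (D x)) s =
      Matrix.fromBlocks (dzbM A s) (dzbM B s) (dzbM C s) (dzbM D s) := by
  ext (i | i) (k | k) <;> rfl

theorem dz_trace [Fintype K] {F : ℂ → Matrix K K ℂ} (hF : RAt F s) :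
    dz (fun x => (F x).trace) s = (dzM F s).trace := by
  simp only [Matrix.trace, Matrix.diag_apply]
  exact dz_sum fun i _ => (hF i i).differentiableAt

theorem dzb_trace [Fintype K] {F : ℂ → Matrix K K ℂ} (hF : RAt F s) :
    dzb (fun x => (F x).trace) s = (dzbM F s).trace := by
  simp only [Matrix.trace, Matrix.diag_apply]
  exact dzb_sum fun i _ => (hF i i).differentiableAt

theorem dzM_inv [Fintype K] [DecidableEq K] {F : ℂ → Matrix K K ℂ} (hF : RAt F s)
    (h0 : IsUnit (F s).det) : dzM (fun x => (F x)⁻¹) s = -((F s)⁻¹ * dzM F s * (F s)⁻¹) := by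
  have hne : ∀ᶠ x in nhds s, (F x).det ≠ 0 :=
    (analyticAt_det hF).continuousAt.eventually_ne h0.ne_zero
  have h1 : dzM (fun x => F x * (F x)⁻¹) s = 0 := by
    rw [dzM_congr (G := fun _ => (1 : Matrix K K ℂ)) (hne.mono fun x hx =>
      Matrix.mul_nonsing_inv _ (Ne.isUnit hx)), dzM_const]
  rw [dzM_mul hF (rat_inv hF h0)] at h1
  have h2 : F s * dzM (fun x => (F x)⁻¹) s = -(dzM F s * (F s)⁻¹) :=
    eq_neg_of_add_eq_zero_right h1
  calc dzM (fun x => (F x)⁻¹) s = (F s)⁻¹ * (F s * dzM (fun x => (F x)⁻¹) s) := by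
        rw [← Matrix.mul_assoc, Matrix.nonsing_inv_mul _ h0, Matrix.one_mul]
    _ = -((F s)⁻¹ * dzM F s * (F s)⁻¹) := by
        rw [h2, Matrix.mul_neg, Matrix.mul_assoc]

theorem dzbM_inv [Fintype K] [DecidableEq K] {F : ℂ → Matrix K K ℂ} (hF : RAt F s)
    (h0 : IsUnit (F s).det) : dzbM (fun x => (F x)⁻¹) s = -((F s)⁻¹ * dzbM F s * (F s)⁻¹) := by
  have hne : ∀ᶠ x in nhds s, (F x).det ≠ 0 :=
    (analyticAt_det hF).continuousAt.eventually_ne h0.ne_zero
  have h1 : dzbM (fun x => F x * (F x)⁻¹) s = 0 := by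
    rw [dzbM_congr (G := fun _ => (1 : Matrix K K ℂ)) (hne.mono fun x hx =>
      Matrix.mul_nonsing_inv _ (Ne.isUnit hx)), dzbM_const]
  rw [dzbM_mul hF (rat_inv hF h0)] at h1
  have h2 : F s * dzbM (fun x => (F x)⁻¹) s = -(dzbM F s * (F s)⁻¹) :=
    eq_neg_of_add_eq_zero_right h1
  calc dzbM (fun x => (F x)⁻¹) s = (F s)⁻¹ * (F s * dzbM (fun x => (F x)⁻¹) s) := by
        rw [← Matrix.mul_assoc, Matrix.nonsing_inv_mul _ h0, Matrix.one_mul]
    _ = -((F s)⁻¹ * dzbM F s * (F s)⁻¹) := by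
        rw [h2, Matrix.mul_neg, Matrix.mul_assoc]

/-- The product rule. -/
private theorem mw_dz_prod {J : Type} [DecidableEq J] {u : Finset J} {f : J → ℂ → ℂ}
    (hf : ∀ j, AnalyticAt ℝ (f j) s) : dz (fun x => ∏ j ∈ u, f j x) s =
      ∑ k ∈ u, dz (f k) s * ∏ j ∈ u.erase k, f j s := by
  induction u using Finset.induction_on with
  | empty =>
    simp only [Finset.prod_empty, Finset.sum_empty]
    exact dz_const _
  | insert a u ha ih =>
    have h1 : (fun x => ∏ j ∈ insert a u, f j x) = fun x => f a x * ∏ j ∈ u, f j x := by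
      funext x
      rw [Finset.prod_insert ha]
    rw [h1, dz_mul (hf a).differentiableAt
      (Finset.analyticAt_fun_prod u fun j _ => hf j).differentiableAt, ih,
      Finset.sum_insert ha, Finset.erase_insert ha, Finset.mul_sum]
    congr 1
    refine Finset.sum_congr rfl fun k hk => ?_
    have hka : k ≠ a := by
      rintro rfl
      exact ha hk
    have h2 : a ∉ u.erase k := fun h => ha (Finset.mem_of_mem_erase h)
    rw [Finset.erase_insert_of_ne hka.symm, Finset.prod_insert h2]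
    ring

private theorem mw_dz_det_aux [Fintype K] [DecidableEq K] {F : ℂ → Matrix K K ℂ} (hF : RAt F s) :
    dz (fun x => (F x).det) s = ((F s).adjugate * dzM F s).trace := by
  have h1 : dz (fun x => (F x).det) s = ∑ σ : Equiv.Perm K, ((Equiv.Perm.sign σ : ℤ) : ℂ) *
      ∑ k, dzM F s (σ k) k * ∏ j ∈ Finset.univ.erase k, F s (σ j) j := by
    simp only [Matrix.det_apply']
    rw [dz_sum fun σ _ => (analyticAt_const.fun_mul
      (Finset.analyticAt_fun_prod _ fun i _ => hF (σ i) i)).differentiableAt]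
    refine Finset.sum_congr rfl fun σ _ => ?_
    rw [dz_mul (differentiableAt_const _)
      (Finset.analyticAt_fun_prod _ fun i _ => hF (σ i) i).differentiableAt, dz_const, zero_mul,
      zero_add, mw_dz_prod fun j => hF (σ j) j]
    rfl
  have h2 : ∀ k, (F s).adjugate.mulVec (fun l => dzM F s l k) k = ∑ σ : Equiv.Perm K,
      ((Equiv.Perm.sign σ : ℤ) : ℂ) * (dzM F s (σ k) k *
        ∏ j ∈ Finset.univ.erase k, F s (σ j) j) := by
    intro k
    rw [← Matrix.cramer_eq_adjugate_mulVec, Matrix.cramer_apply, Matrix.det_apply']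
    refine Finset.sum_congr rfl fun σ _ => ?_
    rw [← Finset.mul_prod_erase Finset.univ _ (Finset.mem_univ k)]
    congr 2
    · rw [Matrix.updateCol_self]
    · refine Finset.prod_congr rfl fun j hj => ?_
      rw [Matrix.updateCol_ne (Finset.ne_of_mem_erase hj)]
  have h3 : ((F s).adjugate * dzM F s).trace =
      ∑ k, (F s).adjugate.mulVec (fun l => dzM F s l k) k := rfl
  rw [h1, h3, Finset.sum_congr rfl fun k _ => h2 k, Finset.sum_comm]
  exact Finset.sum_congr rfl fun σ _ => Finset.mul_sum _ _ _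

/-- Jacobi's formula. -/
theorem dz_det [Fintype K] [DecidableEq K] {F : ℂ → Matrix K K ℂ} (hF : RAt F s)
    (h0 : IsUnit (F s).det) : dz (fun x => (F x).det) s = (F s).det * ((F s)⁻¹ * dzM F s).trace := by
  have h1 := mw_dz_det_aux hF
  have h2 : (F s).adjugate = (F s).det • (F s)⁻¹ := by
    rw [Matrix.inv_def, Ring.inverse_eq_inv', smul_smul, mul_inv_cancel₀ h0.ne_zero, one_smul]
  rw [h1, h2, Matrix.smul_mul, Matrix.trace_smul, smul_eq_mul]

theorem dzM_hol {F : ℂ → Matrix K L ℂ} (h : ∀ i k, DifferentiableAt ℂ (fun x => F x i k) s) :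
    dzM F s = Matrix.of fun i k => deriv (fun x => F x i k) s := by
  ext i k
  exact dz_hol (h i k)

theorem dzbM_hol {F : ℂ → Matrix K L ℂ} (h : ∀ i k, DifferentiableAt ℂ (fun x => F x i k) s) :
    dzbM F s = 0 := by
  ext i k
  exact dzb_hol (h i k)

/-- The derivatives commute. -/
theorem dzM_dzbM {F : ℂ → Matrix K L ℂ} (hF : RAt F s) : dzM (dzbM F) s = dzbM (dzM F) s := by
  ext i k
  exact dz_dzb (hF i k)

end Der

end Pool.Agent.Helper79.FX
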