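import Pool.Agent.Helper79.FX.Defs

/-!
# FX: the exceptional set of the theorem on Hodge generic points: definition
-/

namespace Pool.Agent.Helper79.FX

open Matrix Pool.Agent.Helper79.BB Pool.Agent.Helper79.HH Pool.Agent.Helper79.HJ
  Pool.Agent.Helper64.Per Pool.Agent.Helper79.DD

variable {m r : ℕ}

/-- The point `t` of the domain of `a` is Hodge generic: its Hodge group contains the Hodge groups at all points of all
analytic continuations of `a` in the complement of `S = 0`. -/
def IsGeneric (S : MvPolynomial (Fin m) ℂ) (a : Element m (Fin r)) (lev : Fin r → ℤ) (j : ℤ)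
    (t : Fin m → ℂ) : Prop :=
  ∀ b, Reach S a b → ∀ t₁ ∈ b.U, HodgeGroup lev j (b.P t₁) ≤ HodgeGroup lev j (a.P t)

/-- The integer parameters `x` with coordinates of absolute value at most `X` such that for an algebraic root `θ` of
`F_x` with `G_0(θ) ≠ 0` the point `t = (G_1(θ) / G_0(θ), …, G_m(θ) / G_0(θ))` is in `V` and not Hodge generic. -/
def NotGeneric {κ : IntermediateField ℚ Qbar} {J : Type} [Fintype J] (ω : Module.Basis J ℚ κ)
    (N : Finset (ℕ × J)) (S : MvPolynomial (Fin m) ℂ) (a : Element m (Fin r)) (V : Set (Fin m → ℂ))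
    (lev : Fin r → ℤ) (j : ℤ) (D e X : ℕ) : Set (DD.Px m D e J N → ℤ) :=
  {x | (∀ p, |x p| ≤ X) ∧ ∃ θ : ℂ, polyU ω N x θ = 0 ∧ denU ω N x θ ≠ 0 ∧
    pointU ω N x θ ∈ V ∧ ¬ IsGeneric S a lev j (pointU ω N x θ)}

end Pool.Agent.Helper79.FX
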