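import Pool.Agent.Helper79.FX.Fixed
import Pool.Agent.Helper79.FX.Kro
import Pool.Agent.Helper79.FX.Stat
import Pool.Agent.Helper79.HJ.Main

/-!
# FX: most algebraic points are Hodge generic

(helper79)
-/

set_option linter.unusedSectionVars false

namespace Pool.Agent.Helper79.FX

open Matrix Module Pool.Agent.Helper79.BB Pool.Agent.Helper79.HH Pool.Agent.Helper79.HG
  Pool.Agent.Helper79.HI Pool.Agent.Helper79.HJ Pool.Agent.Helper64.Per Pool.Agent.Helper88.MT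
  Pool.Agent.Helper46.GG Pool.Agent.Helper79.DD

variable {m r μ : ℕ} {S : MvPolynomial (Fin m) ℂ} {a : Element m (Fin r)} {lev : Fin r → ℤ} {j : ℤ}
  {ψ : Matrix (Fin r) (Fin r) ℚ} {k : Type} [Field k] [Algebra k ℂ]

theorem map_injective' {M N : Matrix (Fin r) (Fin r) ℚ}
    (h : M.map (Rat.cast : ℚ → ℂ) = N.map (Rat.cast : ℚ → ℂ)) : M = N := by
  ext i j
  have h2 := congrFun (congrFun h i) j
  rw [Matrix.map_apply, Matrix.map_apply] at h2
  exact_mod_cast h2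

theorem map_mul' (M N : Matrix (Fin r) (Fin r) ℚ) : (M * N).map (Rat.cast : ℚ → ℂ) =
    M.map (Rat.cast : ℚ → ℂ) * N.map (Rat.cast : ℚ → ℂ) :=
  Matrix.map_mul (f := Rat.castHom ℂ)

theorem isom_qp {Γ : Subgroup (GL (Fin r) ℤ)} (hd : ∀ t ∈ a.U, MvPolynomial.eval t S ≠ 0)
    (hΓ : Γ ≤ MM S a ψ hd) : ∀ γ ∈ qp Γ, (γ : Matrix (Fin r) (Fin r) ℚ)ᵀ * ψ * γ = ψ := by
  rintro _ ⟨γ, hγ, rfl⟩
  have h1 := (hΓ hγ).1
  apply map_injective'
  rw [map_mul', map_mul', Matrix.transpose_map, qp_map]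
  exact h1

theorem tangent_qp {Γ : Subgroup (GL (Fin r) ℤ)} (hd : ∀ t ∈ a.U, MvPolynomial.eval t S ≠ 0)
    (hΓ : Γ ≤ MM S a ψ hd) : ∀ x ∈ lieS (qp Γ),
    x.map (Rat.cast : ℚ → ℂ) ∈ HH.tangent (Mono ψ a.U a.w a.P) := by
  intro x hx q hq
  refine map_mem_tangent hx q ?_
  rintro _ ⟨_, ⟨γ, hγ, rfl⟩, rfl⟩
  have h2 := hq _ (mem_Mono hd (hΓ hγ))
  rw [← qp_map] at h2
  exact h2

/-- The Lie algebra of the monodromy group is stable under the Hodge circle. -/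
theorem adStable (h : IsVHS S a lev j ψ) (hw : IsBranchM k a.U μ a.w) {t : Fin m → ℂ} (ht : t ∈ a.U)
    {Γ : Subgroup (GL (Fin r) ℤ)} (hΓ : Γ ≤ MM S a ψ h.dom) (hfin : Γ.relIndex (MM S a ψ h.dom) ≠ 0)
    (hdet : ∀ γ ∈ qp Γ, (γ : Matrix (Fin r) (Fin r) ℚ).det = 1) :
    AdStable lev j ψ (a.P t) (qp Γ) := by
  have hpol := h.pol a Relation.ReflTransGen.refl t ht
  have hPu := h.det a Relation.ReflTransGen.refl t ht
  intro u hu x hx
  have h1 : Em lev j ψ u (a.P t) * Em lev j ψ u⁻¹ (a.P t) = 1 := by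
    rw [Em_mul hpol hPu hu (inv_ne_zero hu), mul_inv_cancel₀ hu, Em_one hpol hPu]
  have h2 : Em lev j ψ u⁻¹ (a.P t) * Em lev j ψ u (a.P t) = 1 := by
    rw [Em_mul hpol hPu (inv_ne_zero hu) hu, inv_mul_cancel₀ hu, Em_one hpol hPu]
  set g : GL (Fin r) ℂ := ⟨Em lev j ψ u (a.P t), Em lev j ψ u⁻¹ (a.P t), h1, h2⟩ with hg
  have hn := normal h ⟨t, ht⟩ hw hΓ hfin hdet (b := a) Relation.ReflTransGen.refl ht hu (g := g) rfl
  have hn' := normal h ⟨t, ht⟩ hw hΓ hfin hdet (b := a) Relation.ReflTransGen.refl ht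
    (inv_ne_zero hu) (g := g⁻¹) rfl
  have h3 := ad_stable (Γ := qp Γ) (g := g) (by
    intro γ hγ
    have h4 := hn' γ hγ
    rwa [inv_inv] at h4) hn hx
  have h5 : (Em lev j ψ u (a.P t))⁻¹ = ((g⁻¹ : GL (Fin r) ℂ) : Matrix (Fin r) (Fin r) ℂ) :=
    Matrix.inv_eq_right_inv h1
  rw [h5]
  exact h3

/-- The semisimple group of the monodromy matrices in the identity component. -/
theorem exists_group (h : IsVHS S a lev j ψ) (hw : IsBranchM k a.U μ a.w) {t : Fin m → ℂ} (ht : t ∈ a.U) :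
    ∃ Γ : Subgroup (GL (Fin r) ℤ), Γ ≤ MM S a ψ h.dom ∧ Γ.relIndex (MM S a ψ h.dom) ≠ 0 ∧
      DenseG (qp Γ) ∧ (∀ γ ∈ qp Γ, (γ : Matrix (Fin r) (Fin r) ℚ).det = 1) ∧
      ∀ L : Submodule ℚ (Matrix (Fin r) (Fin r) ℚ),
        (∀ x ∈ lieS (qp Γ), ∀ y ∈ lieS (qp Γ), x * y - y * x ∈ L) → lieS (qp Γ) ≤ L := by
  have hpol := h.pol a Relation.ReflTransGen.refl t ht
  have hPu := h.det a Relation.ReflTransGen.refl t ht
  obtain ⟨Γ, hΓ, hfin, hdense⟩ := exists_dense (MM S a ψ h.dom)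
  have hiso := isom_qp h.dom hΓ
  have hψ := det_psi_ne hpol
  have hdet1 := hdense.det fun g hg => det_isom hψ (hiso g hg)
  have hAd := adStable h hw ht hΓ hfin hdet1
  exact ⟨Γ, hΓ, hfin, hdense, hdet1, perfect hpol hPu hAd hiso fun z hz hcen =>
    center_zero hpol hPu hAd hdense hiso hz hcen⟩

/-- The proof at a point. -/
theorem generic_of (h : IsVHS S a lev j ψ) (hw : IsBranchM k a.U μ a.w) {t : Fin m → ℂ} (ht : t ∈ a.U)
    (hMT : MTContains lev j (a.P t) (HH.tangent (Mono ψ a.U a.w a.P))) :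
    IsGeneric S a lev j t := by
  have hne : a.U.Nonempty := ⟨t, ht⟩
  have hpol := h.pol a Relation.ReflTransGen.refl t ht
  have hPu := h.det a Relation.ReflTransGen.refl t ht
  obtain ⟨Γ, hΓ, hfin, hdense, hdet1, hperf⟩ := exists_group h hw ht
  have hΓT := hdense.le_HodgeGroup hpol hdet1 (by
    intro 𝔤 hLie hD𝔤
    refine hperf 𝔤 ?_
    intro x hx y hy
    have h1 := hMT 𝔤 hLie hD𝔤 _ (tangent_qp h.dom hΓ x hx) _ (tangent_qp h.dom hΓ y hy)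
    refine mem_of_map_mem_mspan (K := ℂ) ?_
    have h2 : (x * y - y * x).map (algebraMap ℚ ℂ) =
        x.map (Rat.cast : ℚ → ℂ) * y.map (Rat.cast : ℚ → ℂ) -
        y.map (Rat.cast : ℚ → ℂ) * x.map (Rat.cast : ℚ → ℂ) := by
      have h3 : (Rat.cast : ℚ → ℂ) = algebraMap ℚ ℂ := by
        funext q
        simp
      rw [h3, ← Matrix.map_mul, ← Matrix.map_mul]
      ext i j
      simp only [Matrix.map_apply, Matrix.sub_apply, map_sub]
    rw [h2]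
    exact h1)
  intro b hb t₁ ht₁
  have hpol₁ := h.pol b hb t₁ ht₁
  have hPu₁ := h.det b hb t₁ ht₁
  refine HodgeGroup_le HodgeGroup_closed ?_
  intro u a₁ ha₁
  have hu0 : u ≠ 0 := by
    intro h0
    have h1 := ha₁.1
    rw [h0, norm_zero] at h1
    exact zero_ne_one h1
  obtain ⟨g, hg⟩ := exists_circleElt hpol ha₁.1
  have h1 := (circle_iff hpol hPu hg.1 g).1 hg
  have h2 := (circle_iff hpol₁ hPu₁ ha₁.1 a₁).1 ha₁
  have h3 := fixed_part h hne hw hΓ hfin hdet1 (b := a) Relation.ReflTransGen.refl hb ht ht₁ hu0 h1 h2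
  have h4 := zar_le_closed HodgeGroup_closed hΓT h3
  have h5 := (HodgeGroup lev j (a.P t)).mul_mem (isCircleElt_mem hg) h4
  rwa [mul_inv_cancel_left] at h5

theorem generic_count {κ : IntermediateField ℚ Qbar} [FiniteDimensional ℚ κ] {m : ℕ} (hm : 1 ≤ m)
    {F : FamiliesM κ m} {μ r₀ r : ℕ} (E : F.Sub μ r₀ (Fin r)) {S : MvPolynomial (Fin m) ℂ}
    {a : Element m (Fin r)} {lev : Fin r → ℤ} {j : ℤ} {ψ : Matrix (Fin r) (Fin r) ℚ}
    (h : IsVHS S a lev j ψ) (hw : IsBranchM κ a.U μ a.w) (hP : E.IsPeriod a.U a.w a.P)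
    {V : Set (Fin m → ℂ)} (hV : DeepW F.T a.U V ∨ IsCompact V ∧ V ⊆ a.U)
    {J : Type} [Fintype J] (ω : Module.Basis J ℚ κ)
    {D : ℕ} (hD : 1 ≤ D) (e : ℕ) (N : Finset (ℕ × J)) (hN : ∃ j, (0, j) ∈ N) :
    ∃ C θ₀ : ℝ, 0 < θ₀ ∧ ∀ X : ℕ, 1 ≤ X →
      ((NotGeneric ω N S a V lev j D e X).ncard : ℝ) ≤
        C * (X : ℝ) ^ ((((D + 1 + m * (e + 1)) * Module.finrank ℚ κ + N.card : ℕ) : ℝ) - θ₀) := by
  classical
  have hVU : V ⊆ a.U := by
    rcases hV with h1 | ⟨-, h1⟩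
    · exact deepW_sub h1
    · exact h1
  have hdet : ∀ t ∈ V, IsUnit (a.P t).det := fun t ht =>
    h.det a Relation.ReflTransGen.refl t (hVU ht)
  have hpol : ∀ t ∈ V, IsPolarized lev j ψ (a.P t) := fun t ht =>
    h.pol a Relation.ReflTransGen.refl t (hVU ht)
  obtain ⟨C, θ₀, hθ₀, hC⟩ : ∃ C θ₀ : ℝ, 0 < θ₀ ∧ ∀ X : ℕ, 1 ≤ X →
      ((SmallMT ω N a.U V a.w a.P lev j ψ D e X).ncard : ℝ) ≤
      C * (X : ℝ) ^ ((((D + 1 + m * (e + 1)) * Module.finrank ℚ κ + N.card : ℕ) : ℝ) - θ₀) := by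
    rcases Nat.eq_zero_or_pos r with hr | hr
    · subst hr
      refine ⟨0, 1, one_pos, fun X _ => ?_⟩
      have : SmallMT ω N a.U V a.w a.P lev j ψ D e X = ∅ := by
        rw [Set.eq_empty_iff_forall_notMem]
        rintro b ⟨_, θ, _, _, _, h3⟩
        apply h3
        intro g _ _ x _ y _
        have h4 : x * y - y * x = 0 := Subsingleton.elim _ _
        rw [h4]
        exact Submodule.zero_mem _
      rw [this, Set.ncard_empty, Nat.cast_zero, zero_mul]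
    · have : Nonempty (Fin r) := ⟨⟨0, hr⟩⟩
      exact small_count hm E h.analytic.1 h.analytic.2.1 hw hP hV hdet hpol ω hD e N hN
  refine ⟨C, θ₀, hθ₀, fun X hX => le_trans ?_ (hC X hX)⟩
  have hfin : (SmallMT ω N a.U V a.w a.P lev j ψ D e X).Finite := (AA.box_card X _ fun a ha => ha.1).1
  have hsub : NotGeneric ω N S a V lev j D e X ⊆ SmallMT ω N a.U V a.w a.P lev j ψ D e X := by
    rintro b ⟨hb, θ, hθ, hq, hθV, hne⟩
    refine ⟨hb, θ, hθ, hq, hθV, fun hMT => hne ?_⟩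
    exact generic_of h hw (hVU hθV) hMT
  exact_mod_cast Set.ncard_le_ncard hsub hfin

end Pool.Agent.Helper79.FX
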