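import Pool.Agent.Helper79.FX.TP
import Pool.Agent.Helper79.HI.ZarGroup
import Pool.Agent.Helper79.HI.Descend

/-!
# FX-23: the closure of a group is the stabiliser of a space of tensors

`mon n I` is the polynomial of the basis tensor `I`, `phi n v = ∑ v_I mon n I`.
* `evM_phi_RR`: by induction on `n` for basis tensors, or: `evM M (phi n v) = ∑_I v_I (value of mon n I at M)`; the row vector `e_n M I = evM M (mon n I)` satisfies `e_n M ᵥ* RR n g = e_n (M * g)`: for `n + 1` the
  row vector is the tensor product of `e_1 M = (1, M i k)` and `e_n M`, and `e_1 M ᵥ* g2 g = (1, ∑_k M i k g k l) = e_1 (M * g)`.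
* `exists_tensor`: every monomial of degree `≤ n` is `mon n I` for some `I` (pad with `1`); linear combinations.
* `WW_stable`: `evM γ' (phi n (RR n γ *ᵥ v)) = evM (γ' * γ) (phi n v) = 0`.
* `exists_deg`: the ideal of the polynomials over `ℚ` in the entries which vanish on `Γ` is generated by finitely many polynomials; let `n` be a bound for their degrees. Let `g` stabilise the complex span of `WW n Γ`. For `v ∈ WW n Γ`
  `RR n g *ᵥ v` is a complex combination of elements of `WW n Γ`, whose polynomials vanish at `1 ∈ Γ`; so `0 = evM 1 (phi n (RR n g *ᵥ v)) = evM g (phi n v)`. So the generators and the whole ideal vanish at `g`. `det - 1` is in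
  the ideal, so `det g = 1`; for `f ∈ vanGL ℚ Γ` the polynomial `f₁ = f` with `X none` replaced by `1` is in the ideal (`det γ = 1`) and `evGL g f = evM g f₁ = 0` (`Pool.Agent.Helper88.MT.evGL_of_det`, `toLin`, `evM_toLin`).
-/

namespace Pool.Agent.Helper79.FX

open Matrix Pool.Agent.Helper88.MT Pool.Agent.Helper79.HI

section

variable {r : ℕ} {F : Type} [Field F]

/-- The polynomial of a basis tensor. -/
noncomputable def mon : ∀ n : ℕ, TP (X2 r) n → MvPolynomial (Fin r × Fin r) F
  | 0, _ => 1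
  | n + 1, I => (Sum.elim (fun _ => (1 : MvPolynomial (Fin r × Fin r) F)) MvPolynomial.X
      (I : X2 r × TP (X2 r) n).1) * mon n (I : X2 r × TP (X2 r) n).2

/-- The polynomial of a tensor. -/
noncomputable def phi (n : ℕ) (v : TP (X2 r) n → F) : MvPolynomial (Fin r × Fin r) F :=
  ∑ I, MvPolynomial.C (v I) * mon n I

/-- The value of the basis tensor at a matrix. -/
private def ps_en {R : Type} [CommRing R] : ∀ (n : ℕ), Matrix (Fin r) (Fin r) R → TP (X2 r) n → R
  | 0, _, _ => 1
  | n + 1, M, I => (Sum.elim (fun _ => (1 : R)) (fun p => M p.1 p.2)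
      (I : X2 r × TP (X2 r) n).1) * ps_en n M (I : X2 r × TP (X2 r) n).2

private theorem ps_en_map {R R' : Type} [CommRing R] [CommRing R'] (f : R →+* R')
    (M : Matrix (Fin r) (Fin r) R) :
    ∀ (n : ℕ) (I : TP (X2 r) n), f (ps_en n M I) = ps_en n (M.map f) I
  | 0, _ => map_one f
  | n + 1, (x, I) => by
    show f (Sum.elim (fun _ => (1 : R)) (fun p => M p.1 p.2) x * ps_en n M I) =
      Sum.elim (fun _ => (1 : R')) (fun p => (M.map f) p.1 p.2) x * ps_en n (M.map f) I
    rw [map_mul, ps_en_map f M n I]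
    congr 1
    rcases x with u | p
    · exact map_one f
    · rfl

private theorem ps_evM_mon {R : Type} [CommRing R] [Algebra F R] (M : Matrix (Fin r) (Fin r) R) :
    ∀ (n : ℕ) (I : TP (X2 r) n), evM (F := F) M (mon n I) = ps_en n M I
  | 0, _ => by
    show evM M (1 : MvPolynomial (Fin r × Fin r) F) = 1
    rw [map_one]
  | n + 1, (x, I) => by
    show evM M (Sum.elim (fun _ => (1 : MvPolynomial (Fin r × Fin r) F)) MvPolynomial.X x *
      mon n I) = Sum.elim (fun _ => (1 : R)) (fun p => M p.1 p.2) x * ps_en n M I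
    rw [map_mul, ps_evM_mon M n I]
    congr 1
    rcases x with u | p
    · show evM M (1 : MvPolynomial (Fin r × Fin r) F) = 1
      rw [map_one]
    · show evM M (MvPolynomial.X p : MvPolynomial (Fin r × Fin r) F) = M p.1 p.2
      rw [evM_X]

private theorem ps_evM_phi {R : Type} [CommRing R] [Algebra F R] (M : Matrix (Fin r) (Fin r) R)
    (n : ℕ) (v : TP (X2 r) n → F) :
    evM M (phi n v) = ∑ I, algebraMap F R (v I) * ps_en n M I := by
  unfold phi
  rw [map_sum]
  refine Finset.sum_congr rfl fun I _ => ?_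
  rw [map_mul, evM_C, ps_evM_mon]

private theorem ps_e1 {R : Type} [CommRing R] (g M : Matrix (Fin r) (Fin r) R) (y : X2 r) :
    ∑ x : X2 r, Sum.elim (fun _ => (1 : R)) (fun p => M p.1 p.2) x * g2 g x y =
      Sum.elim (fun _ => (1 : R)) (fun p => (M * g) p.1 p.2) y := by
  rw [Fintype.sum_sum_type]
  rcases y with u | ⟨i, l⟩
  · simp [g2, Matrix.fromBlocks_apply₁₁, Matrix.fromBlocks_apply₂₁]
  · rw [show (Sum.elim (fun _ => (1 : R)) (fun p => (M * g) p.1 p.2) (Sum.inr (i, l)) : R) =
      (M * g) i l from rfl, Matrix.mul_apply, Fintype.sum_prod_type]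
    simp only [g2, Matrix.fromBlocks_apply₁₂, Matrix.fromBlocks_apply₂₂, Sum.elim_inl, Sum.elim_inr,
      Matrix.zero_apply, mul_zero, Finset.sum_const_zero, zero_add, Matrix.kroneckerMap_apply,
      Matrix.one_apply]
    rw [Finset.sum_eq_single i]
    · refine Finset.sum_congr rfl fun k _ => ?_
      rw [if_pos rfl, one_mul]
    · intro b _ hb
      refine Finset.sum_eq_zero fun k _ => ?_
      rw [if_neg hb, zero_mul, mul_zero]
    · intro h
      exact absurd (Finset.mem_univ i) h

private theorem ps_en_RR {R : Type} [CommRing R] (g M : Matrix (Fin r) (Fin r) R) :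
    ∀ (n : ℕ) (J : TP (X2 r) n), ∑ I, ps_en n M I * RR n g I J = ps_en n (M * g) J
  | 0, J => by
    rcases J with ⟨⟩
    show ∑ I : Unit, (1 : R) * (1 : Matrix Unit Unit R) I () = 1
    rw [Fintype.sum_unique, one_mul]
    exact Matrix.one_apply_eq _
  | n + 1, (y, J) => by
    show ∑ I : X2 r × TP (X2 r) n, (Sum.elim (fun _ => (1 : R)) (fun p => M p.1 p.2) I.1 *
        ps_en n M I.2) * (g2 g I.1 y * RR n g I.2 J) =
      Sum.elim (fun _ => (1 : R)) (fun p => (M * g) p.1 p.2) y * ps_en n (M * g) J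
    rw [← ps_e1 g M y, ← ps_en_RR g M n J, Finset.sum_mul_sum, Fintype.sum_prod_type]
    refine Finset.sum_congr rfl fun x _ => Finset.sum_congr rfl fun I _ => ?_
    ring

private theorem ps_lin_RR {R : Type} [CommRing R] (n : ℕ) (g M : Matrix (Fin r) (Fin r) R)
    (v : TP (X2 r) n → R) :
    ∑ I, (RR n g *ᵥ v) I * ps_en n M I = ∑ J, v J * ps_en n (M * g) J := by
  simp only [Matrix.mulVec, dotProduct, Finset.sum_mul]
  rw [Finset.sum_comm]
  refine Finset.sum_congr rfl fun J _ => ?_
  rw [← ps_en_RR g M n J, Finset.mul_sum]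
  refine Finset.sum_congr rfl fun I _ => ?_
  ring

theorem evM_phi_RR (n : ℕ) (g M : Matrix (Fin r) (Fin r) F) (v : TP (X2 r) n → F) :
    evM M (phi n (RR n g *ᵥ v)) = evM (M * g) (phi n v) := by
  rw [ps_evM_phi, ps_evM_phi]
  simp only [Algebra.algebraMap_self, RingHom.id_apply]
  exact ps_lin_RR n g M v

private theorem ps_mon_exists : ∀ (n : ℕ) (s : (Fin r × Fin r) →₀ ℕ), s.sum (fun _ e => e) ≤ n →
    ∃ I : TP (X2 r) n, (mon n I : MvPolynomial (Fin r × Fin r) F) = MvPolynomial.monomial s 1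
  | 0, s, hs => by
    refine ⟨(), ?_⟩
    have h0 : s = 0 := by
      ext p
      by_contra hp
      have hp' : s p ≠ 0 := hp
      have h1 : s p ≤ s.sum (fun _ e => e) := by
        rw [Finsupp.sum]
        exact Finset.single_le_sum (f := fun q => s q) (fun _ _ => Nat.zero_le _)
          (Finsupp.mem_support_iff.2 hp')
      omega
    rw [h0]
    rfl
  | n + 1, s, hs => by
    by_cases h0 : s = 0
    · obtain ⟨I, hI⟩ := ps_mon_exists n 0 (by simp)
      refine ⟨((Sum.inl (), I) : X2 r × TP (X2 r) n), ?_⟩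
      show (1 : MvPolynomial (Fin r × Fin r) F) * mon n I = _
      rw [hI, one_mul, h0]
    · obtain ⟨p, hp⟩ : ∃ p, s p ≠ 0 := by
        by_contra hcon
        push Not at hcon
        exact h0 (Finsupp.ext hcon)
      have hle : Finsupp.single p 1 ≤ s := by
        rw [Finsupp.single_le_iff]
        omega
      have hadd : Finsupp.single p 1 + (s - Finsupp.single p 1) = s := add_tsub_cancel_of_le hle
      have hsum : (s - Finsupp.single p 1).sum (fun _ e => e) ≤ n := by
        have h1 : s.sum (fun _ e => e) = (Finsupp.single p 1).sum (fun _ e => e) +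
            (s - Finsupp.single p 1).sum (fun _ e => e) := by
          conv_lhs => rw [← hadd]
          exact Finsupp.sum_add_index' (fun _ => rfl) (fun _ _ _ => rfl)
        rw [Finsupp.sum_single_index rfl] at h1
        omega
      obtain ⟨I, hI⟩ := ps_mon_exists n _ hsum
      refine ⟨((Sum.inr p, I) : X2 r × TP (X2 r) n), ?_⟩
      show (MvPolynomial.X p : MvPolynomial (Fin r × Fin r) F) * mon n I = _
      rw [hI, MvPolynomial.X, MvPolynomial.monomial_mul, mul_one, hadd]

private theorem ps_phi_add (n : ℕ) (v w : TP (X2 r) n → F) :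
    phi n (v + w) = phi n v + phi n w := by
  unfold phi
  rw [← Finset.sum_add_distrib]
  refine Finset.sum_congr rfl fun I _ => ?_
  rw [Pi.add_apply, map_add, add_mul]

private theorem ps_phi_smul (n : ℕ) (c : F) (v : TP (X2 r) n → F) :
    phi n (c • v) = MvPolynomial.C c * phi n v := by
  unfold phi
  rw [Finset.mul_sum]
  refine Finset.sum_congr rfl fun I _ => ?_
  rw [Pi.smul_apply, smul_eq_mul, map_mul, mul_assoc]

private theorem ps_phi_zero (n : ℕ) : phi n (0 : TP (X2 r) n → F) = 0 := by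
  unfold phi
  refine Finset.sum_eq_zero fun I _ => ?_
  rw [Pi.zero_apply, map_zero, zero_mul]

private theorem ps_phi_single (n : ℕ) (I : TP (X2 r) n) :
    phi n (Pi.single I (1 : F)) = mon n I := by
  unfold phi
  rw [Finset.sum_eq_single I]
  · rw [Pi.single_eq_same, map_one, one_mul]
  · intro J _ hJ
    rw [Pi.single_eq_of_ne hJ, map_zero, zero_mul]
  · intro h
    exact absurd (Finset.mem_univ I) h

theorem exists_tensor (n : ℕ) {f : MvPolynomial (Fin r × Fin r) F} (hf : f.totalDegree ≤ n) :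
    ∃ v, phi n v = f := by
  classical
  have key : ∀ T : Finset ((Fin r × Fin r) →₀ ℕ), (∀ s ∈ T, s.sum (fun _ e => e) ≤ n) →
      ∃ v : TP (X2 r) n → F, phi n v = ∑ s ∈ T, MvPolynomial.monomial s (f.coeff s) := by
    intro T
    induction T using Finset.induction_on with
    | empty =>
      intro _
      exact ⟨0, by rw [ps_phi_zero, Finset.sum_empty]⟩
    | insert s T hs ih =>
      intro h
      obtain ⟨v, hv⟩ := ih fun t ht => h t (Finset.mem_insert_of_mem ht)
      obtain ⟨I, hI⟩ := ps_mon_exists (F := F) n s (h s (Finset.mem_insert_self s T))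
      refine ⟨f.coeff s • Pi.single I 1 + v, ?_⟩
      rw [ps_phi_add, ps_phi_smul, ps_phi_single, hI, hv, Finset.sum_insert hs,
        MvPolynomial.C_mul_monomial, mul_one]
  obtain ⟨v, hv⟩ := key f.support fun s hs => (MvPolynomial.le_totalDegree hs).trans hf
  exact ⟨v, by rw [hv, ← MvPolynomial.as_sum]⟩

end

variable {r : ℕ}

/-- The rational tensors whose polynomials vanish on `Γ`. -/
noncomputable def WW (n : ℕ) (Γ : Subgroup (GL (Fin r) ℚ)) : Submodule ℚ (TP (X2 r) n → ℚ) where
  carrier := {v | ∀ γ ∈ Γ, evM (γ : Matrix (Fin r) (Fin r) ℚ) (phi n v) = 0}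
  add_mem' := by
    intro v w hv hw γ hγ
    rw [ps_phi_add, map_add, hv γ hγ, hw γ hγ, add_zero]
  zero_mem' := by
    intro γ _
    rw [ps_phi_zero, map_zero]
  smul_mem' := by
    intro c v hv γ hγ
    rw [ps_phi_smul, map_mul, hv γ hγ, mul_zero]

theorem WW_stable {n : ℕ} {Γ : Subgroup (GL (Fin r) ℚ)} {γ : GL (Fin r) ℚ} (hγ : γ ∈ Γ)
    {v : TP (X2 r) n → ℚ} (hv : v ∈ WW n Γ) : RR n (γ : Matrix (Fin r) (Fin r) ℚ) *ᵥ v ∈ WW n Γ := by
  intro γ' hγ'
  rw [evM_phi_RR]
  exact hv (γ' * γ) (Γ.mul_mem hγ' hγ)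

theorem exists_deg {Γ : Subgroup (GL (Fin r) ℚ)}
    (hdet : ∀ γ ∈ Γ, (γ : Matrix (Fin r) (Fin r) ℚ).det = 1) :
    ∃ n : ℕ, ∀ g : GL (Fin r) ℂ, (∀ v ∈ WW n Γ, RR n (g : Matrix (Fin r) (Fin r) ℂ) *ᵥ
      (fun i => ((v i : ℚ) : ℂ)) ∈ Submodule.span ℂ ((fun (v : TP (X2 r) n → ℚ) i => ((v i : ℚ) : ℂ)) ''
        (WW n Γ : Set (TP (X2 r) n → ℚ)))) → g ∈ zar ℂ (Γ : Set (GL (Fin r) ℚ)) := by
  classical
  let I : Ideal (MvPolynomial (Fin r × Fin r) ℚ) :=
    { carrier := {f | ∀ γ ∈ Γ, evM (γ : Matrix (Fin r) (Fin r) ℚ) f = 0}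
      add_mem' := by
        intro f g hf hg γ hγ
        rw [map_add, hf γ hγ, hg γ hγ, add_zero]
      zero_mem' := by
        intro γ _
        rw [map_zero]
      smul_mem' := by
        intro c f hf γ hγ
        rw [smul_eq_mul, map_mul, hf γ hγ, mul_zero] }
  have hI : ∀ f, f ∈ I ↔ ∀ γ ∈ Γ, evM (γ : Matrix (Fin r) (Fin r) ℚ) f = 0 := fun f => Iff.rfl
  obtain ⟨S, hS⟩ : I.FG := IsNoetherian.noetherian I
  refine ⟨S.sup MvPolynomial.totalDegree, fun g hg => ?_⟩
  set n := S.sup MvPolynomial.totalDegree with hn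
  -- the polynomials of small degree vanish at `g`
  have h1 : ∀ v ∈ WW n Γ, evM (g : Matrix (Fin r) (Fin r) ℂ) (phi n v) = 0 := by
    intro v hv
    let L : (TP (X2 r) n → ℂ) →ₗ[ℂ] ℂ :=
      { toFun := fun u => ∑ J, u J * ps_en n (1 : Matrix (Fin r) (Fin r) ℂ) J
        map_add' := by
          intro u w
          rw [← Finset.sum_add_distrib]
          refine Finset.sum_congr rfl fun J _ => ?_
          rw [Pi.add_apply, add_mul]
        map_smul' := by
          intro c u
          rw [RingHom.id_apply, smul_eq_mul, Finset.mul_sum]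
          refine Finset.sum_congr rfl fun J _ => ?_
          rw [Pi.smul_apply, smul_eq_mul, mul_assoc] }
    have hL : ∀ u, L u = ∑ J, u J * ps_en n (1 : Matrix (Fin r) (Fin r) ℂ) J := fun u => rfl
    have hker : Submodule.span ℂ ((fun (v : TP (X2 r) n → ℚ) i => ((v i : ℚ) : ℂ)) ''
        (WW n Γ : Set (TP (X2 r) n → ℚ))) ≤ LinearMap.ker L := by
      rw [Submodule.span_le]
      rintro _ ⟨w, hw, rfl⟩
      rw [SetLike.mem_coe, LinearMap.mem_ker, hL]
      have h2 := hw 1 Γ.one_mem
      rw [Units.val_one] at h2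
      have h3 : evM (1 : Matrix (Fin r) (Fin r) ℂ) (phi n w) = 0 := by
        rw [ps_evM_phi]
        rw [ps_evM_phi] at h2
        have h4 := congrArg (algebraMap ℚ ℂ) h2
        rw [map_sum, map_zero] at h4
        rw [← h4]
        refine Finset.sum_congr rfl fun J _ => ?_
        rw [map_mul, Algebra.algebraMap_self, RingHom.id_apply, ps_en_map]
        congr 2
        rw [Matrix.map_one _ (map_zero _) (map_one _)]
      rw [ps_evM_phi] at h3
      exact h3
    have h5 := LinearMap.mem_ker.1 (hker (hg v hv))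
    rw [hL, ps_lin_RR, one_mul] at h5
    rw [ps_evM_phi]
    exact h5
  have h2 : ∀ f ∈ I, evM (g : Matrix (Fin r) (Fin r) ℂ) f = 0 := by
    have h3 : I ≤ RingHom.ker (evM (F := ℚ) (g : Matrix (Fin r) (Fin r) ℂ)) := by
      rw [← hS, Ideal.span_le]
      intro f hf
      obtain ⟨v, hv⟩ := exists_tensor (F := ℚ) n (f := f) (Finset.le_sup (f := MvPolynomial.totalDegree) hf)
      rw [SetLike.mem_coe, RingHom.mem_ker, ← hv]
      refine h1 v ?_
      intro γ hγ
      rw [hv]
      have h4 : f ∈ I := by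
        rw [← hS]
        exact Ideal.subset_span hf
      exact (hI f).1 h4 γ hγ
    intro f hf
    exact h3 hf
  -- the determinant
  have hdg : (g : Matrix (Fin r) (Fin r) ℂ).det = 1 := by
    let dp : MvPolynomial (Fin r × Fin r) ℚ :=
      Matrix.det (Matrix.of fun i j => (MvPolynomial.X (i, j) : MvPolynomial (Fin r × Fin r) ℚ))
    have hdp : ∀ {R : Type} [CommRing R] [Algebra ℚ R] (M : Matrix (Fin r) (Fin r) R),
        evM M dp = M.det := by
      intro R _ _ M
      show evM M (Matrix.det _) = _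
      rw [AlgHom.map_det]
      congr 1
      ext i j
      show evM M (MvPolynomial.X (i, j)) = M i j
      rw [evM_X]
    have h3 := h2 (dp - 1) ((hI _).2 fun γ hγ => by
      rw [map_sub, map_one, hdp, hdet γ hγ, sub_self])
    rw [map_sub, map_one, hdp, sub_eq_zero] at h3
    exact h3
  intro f hf
  have h4 : toLin f ∈ I := (hI _).2 fun γ hγ => by
    rw [evM_toLin, ← evGL_of_det (hdet γ hγ)]
    exact hf γ hγ
  rw [evGL_of_det hdg, ← evM_toLin]
  exact h2 _ h4

end Pool.Agent.Helper79.FX
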