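import Pool.Agent.Helper79.FX.Kron

/-!
# FX-09: the tensor representation

`X2 r` indexes the basis `1, X_(i,k)` of the polynomials of degree at most one in the entries of an `r × r` matrix; `g2 g` is the action of `g`:
`1 ↦ 1`, `X_(i,l) ↦ ∑_k g_(k,l) X_(i,k)`. `RR n g` is the action on the tensors of degree `n`, `dRR n` its derivative.
`HV.TP`: induction on `n`, `HV.kron`, `HV.sum`, `HV.triv`: `D2 = fromBlocks 0 0 0 (1 ⊗ D)` is `D₁ ⊗ 1 + 1 ⊗ D₂` with `D₁ = 0`. The function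
`fun s => 0 ⊗ₖ 1 + 1 ⊗ₖ D s` is `fun s => 1 ⊗ₖ D s`. For `n = 0`: `HV.triv Unit`.
-/

namespace Pool.Agent.Helper79.FX

open Matrix
open scoped ComplexOrder Kronecker

/-- The indices of the basis `1, X_(i,k)`. -/
abbrev X2 (r : ℕ) : Type := Unit ⊕ (Fin r × Fin r)

/-- The indices of the tensors of degree `n`. -/
def TP (X : Type) : ℕ → Type
  | 0 => Unit
  | n + 1 => X × TP X n

instance TP.fintype (X : Type) [Fintype X] : ∀ n, Fintype (TP X n)
  | 0 => inferInstanceAs (Fintype Unit)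
  | n + 1 => @instFintypeProd X (TP X n) _ (TP.fintype X n)

instance TP.decEq (X : Type) [DecidableEq X] : ∀ n, DecidableEq (TP X n)
  | 0 => inferInstanceAs (DecidableEq Unit)
  | n + 1 => @instDecidableEqProd X (TP X n) _ (TP.decEq X n)

section

variable {r : ℕ} {R : Type} [CommRing R]

/-- The action on the polynomials of degree at most one. -/
def g2 (g : Matrix (Fin r) (Fin r) R) : Matrix (X2 r) (X2 r) R :=
  Matrix.fromBlocks 1 0 0 ((1 : Matrix (Fin r) (Fin r) R) ⊗ₖ g)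

/-- The derivative of `g2`. -/
def d2 (x : Matrix (Fin r) (Fin r) R) : Matrix (X2 r) (X2 r) R :=
  Matrix.fromBlocks 0 0 0 ((1 : Matrix (Fin r) (Fin r) R) ⊗ₖ x)

/-- The action on the tensors. -/
def RR : ∀ (n : ℕ), Matrix (Fin r) (Fin r) R → Matrix (TP (X2 r) n) (TP (X2 r) n) R
  | 0, _ => (1 : Matrix Unit Unit R)
  | n + 1, g => (g2 g ⊗ₖ RR n g : Matrix (X2 r × TP (X2 r) n) (X2 r × TP (X2 r) n) R)

/-- The derivative of `RR`. -/
def dRR : ∀ (n : ℕ), Matrix (Fin r) (Fin r) R → Matrix (TP (X2 r) n) (TP (X2 r) n) R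
  | 0, _ => (0 : Matrix Unit Unit R)
  | n + 1, x => (d2 x ⊗ₖ (1 : Matrix (TP (X2 r) n) (TP (X2 r) n) R) +
      (1 : Matrix (X2 r) (X2 r) R) ⊗ₖ dRR n x : Matrix (X2 r × TP (X2 r) n) (X2 r × TP (X2 r) n) R)

private theorem g2_mul (g h : Matrix (Fin r) (Fin r) R) : g2 (g * h) = g2 g * g2 h := by
  unfold g2
  rw [Matrix.fromBlocks_multiply, ← Matrix.mul_kronecker_mul]
  simp

private theorem g2_one : g2 (1 : Matrix (Fin r) (Fin r) R) = 1 := by
  unfold g2
  rw [Matrix.one_kronecker_one, Matrix.fromBlocks_one]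

private theorem RR_succ (n : ℕ) (g : Matrix (Fin r) (Fin r) R) :
    (RR (n + 1) g : Matrix (X2 r × TP (X2 r) n) (X2 r × TP (X2 r) n) R) = g2 g ⊗ₖ RR n g := rfl

private theorem dRR_succ (n : ℕ) (x : Matrix (Fin r) (Fin r) R) :
    (dRR (n + 1) x : Matrix (X2 r × TP (X2 r) n) (X2 r × TP (X2 r) n) R) =
      d2 x ⊗ₖ (1 : Matrix (TP (X2 r) n) (TP (X2 r) n) R) +
        (1 : Matrix (X2 r) (X2 r) R) ⊗ₖ dRR n x := rfl

theorem RR_mul (n : ℕ) (g h : Matrix (Fin r) (Fin r) R) : RR n (g * h) = RR n g * RR n h := by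
  induction n with
  | zero => exact (Matrix.mul_one (1 : Matrix Unit Unit R)).symm
  | succ n ih =>
    have h1 : g2 (g * h) ⊗ₖ RR n (g * h) = (g2 g ⊗ₖ RR n g) * (g2 h ⊗ₖ RR n h) := by
      rw [← Matrix.mul_kronecker_mul, g2_mul, ih]
    exact h1

theorem RR_one (n : ℕ) : RR n (1 : Matrix (Fin r) (Fin r) R) = 1 := by
  induction n with
  | zero => rfl
  | succ n ih =>
    have h1 : g2 (1 : Matrix (Fin r) (Fin r) R) ⊗ₖ RR n (1 : Matrix (Fin r) (Fin r) R) = 1 := by
      rw [g2_one, ih, Matrix.one_kronecker_one]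
    exact h1

theorem RR_map {R' : Type} [CommRing R'] (f : R →+* R') (n : ℕ) (g : Matrix (Fin r) (Fin r) R) :
    RR n (g.map f) = (RR n g).map f := by
  induction n with
  | zero =>
    have h1 : (1 : Matrix Unit Unit R') = (1 : Matrix Unit Unit R).map f := by
      rw [Matrix.map_one f (map_zero f) (map_one f)]
    exact h1
  | succ n ih =>
    have h2 : g2 (g.map f) = (g2 g).map f := by
      unfold g2
      rw [Matrix.fromBlocks_map, Matrix.map_one f (map_zero f) (map_one f),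
        Matrix.map_zero f (map_zero f), Matrix.map_zero f (map_zero f)]
      congr 1
      ext ⟨a, b⟩ ⟨c, d⟩
      simp only [Matrix.kronecker_apply, Matrix.map_apply, map_mul]
      congr 1
      by_cases hac : a = c
      · rw [hac, Matrix.one_apply_eq, Matrix.one_apply_eq, map_one]
      · rw [Matrix.one_apply_ne hac, Matrix.one_apply_ne hac, map_zero]
    have h1 : g2 (g.map f) ⊗ₖ RR n (g.map f) = (g2 g ⊗ₖ RR n g).map f := by
      rw [h2, ih]
      ext ⟨a, b⟩ ⟨c, d⟩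
      simp only [Matrix.kronecker_apply, Matrix.map_apply, map_mul]
    exact h1

private theorem RR_mul_inv (n : ℕ) {g : Matrix (Fin r) (Fin r) R} (h : IsUnit g.det) :
    RR n g * RR n g⁻¹ = 1 := by
  rw [← RR_mul, Matrix.mul_nonsing_inv g h, RR_one]

theorem RR_det (n : ℕ) {g : Matrix (Fin r) (Fin r) R} (h : IsUnit g.det) : IsUnit (RR n g).det :=
  Matrix.isUnit_det_of_right_inverse (RR_mul_inv n h)

theorem RR_inv (n : ℕ) {g : Matrix (Fin r) (Fin r) R} (h : IsUnit g.det) : RR n g⁻¹ = (RR n g)⁻¹ :=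
  (Matrix.inv_eq_right_inv (RR_mul_inv n h)).symm

theorem dRR_conj (n : ℕ) {g : Matrix (Fin r) (Fin r) R} (h : IsUnit g.det) (x : Matrix (Fin r) (Fin r) R) :
    dRR n (g⁻¹ * x * g) = (RR n g)⁻¹ * dRR n x * RR n g := by
  rw [← RR_inv n h]
  induction n with
  | zero =>
    have h1 : (0 : Matrix Unit Unit R) = (1 : Matrix Unit Unit R) * (0 : Matrix Unit Unit R) *
        (1 : Matrix Unit Unit R) := by
      rw [Matrix.mul_zero, Matrix.zero_mul]
    exact h1
  | succ n ih =>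
    have h2 : g2 g⁻¹ * d2 x * g2 g = d2 (g⁻¹ * x * g) := by
      unfold g2 d2
      rw [Matrix.fromBlocks_multiply, Matrix.fromBlocks_multiply]
      simp only [Matrix.mul_zero, Matrix.zero_mul, add_zero, zero_add,
        ← Matrix.mul_kronecker_mul, Matrix.one_mul]
    have h3 : g2 g⁻¹ * g2 g = 1 := by
      rw [← g2_mul, Matrix.nonsing_inv_mul g h, g2_one]
    have h4 : RR n g⁻¹ * RR n g = 1 := by
      rw [← RR_mul, Matrix.nonsing_inv_mul g h, RR_one]
    have h1 : d2 (g⁻¹ * x * g) ⊗ₖ (1 : Matrix (TP (X2 r) n) (TP (X2 r) n) R) +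
        (1 : Matrix (X2 r) (X2 r) R) ⊗ₖ dRR n (g⁻¹ * x * g) =
        (g2 g⁻¹ ⊗ₖ RR n g⁻¹) * (d2 x ⊗ₖ (1 : Matrix (TP (X2 r) n) (TP (X2 r) n) R) +
          (1 : Matrix (X2 r) (X2 r) R) ⊗ₖ dRR n x) * (g2 g ⊗ₖ RR n g) := by
      rw [Matrix.mul_add, Matrix.add_mul, ← Matrix.mul_kronecker_mul, ← Matrix.mul_kronecker_mul,
        ← Matrix.mul_kronecker_mul, ← Matrix.mul_kronecker_mul, h2, Matrix.mul_one, Matrix.mul_one,
        h3, h4, ih]
    exact h1

end

variable {r : ℕ}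

theorem RR_conjTranspose (n : ℕ) (g : Matrix (Fin r) (Fin r) ℂ) : RR n gᴴ = (RR n g)ᴴ := by
  induction n with
  | zero => exact (Matrix.conjTranspose_one (n := Unit) (α := ℂ)).symm
  | succ n ih =>
    have h2 : g2 gᴴ = (g2 g)ᴴ := by
      unfold g2
      rw [Matrix.fromBlocks_conjTranspose, Matrix.conjTranspose_one, Matrix.conjTranspose_zero,
        Matrix.conjTranspose_zero, Matrix.conjTranspose_kronecker, Matrix.conjTranspose_one]
    have h1 : g2 gᴴ ⊗ₖ RR n gᴴ = (g2 g ⊗ₖ RR n g)ᴴ := by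
      rw [Matrix.conjTranspose_kronecker, h2, ih]
    exact h1

theorem rat_RR {E : Type} [NormedAddCommGroup E] [NormedSpace ℝ E] {F : E → Matrix (Fin r) (Fin r) ℂ}
    {x : E} (n : ℕ) (h : RAt F x) : RAt (fun y => RR n (F y)) x := by
  induction n with
  | zero =>
    have h1 : RAt (fun _ : E => (1 : Matrix Unit Unit ℂ)) x := rat_const _
    exact h1
  | succ n ih =>
    have h2 : RAt (fun y => g2 (F y)) x :=
      rat_fromBlocks (rat_const _) (rat_const _) (rat_const _) (rat_kron (rat_const _) h)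
    have h1 : RAt (fun y => g2 (F y) ⊗ₖ RR n (F y)) x := rat_kron h2 ih
    exact h1

theorem rat_dRR {E : Type} [NormedAddCommGroup E] [NormedSpace ℝ E] {F : E → Matrix (Fin r) (Fin r) ℂ}
    {x : E} (n : ℕ) (h : RAt F x) : RAt (fun y => dRR n (F y)) x := by
  induction n with
  | zero =>
    have h1 : RAt (fun _ : E => (0 : Matrix Unit Unit ℂ)) x := rat_const _
    exact h1
  | succ n ih =>
    have h2 : RAt (fun y => d2 (F y)) x :=
      rat_fromBlocks (rat_const _) (rat_const _) (rat_const _) (rat_kron (rat_const _) h)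
    have h1 : RAt (fun y => d2 (F y) ⊗ₖ (1 : Matrix (TP (X2 r) n) (TP (X2 r) n) ℂ) +
        (1 : Matrix (X2 r) (X2 r) ℂ) ⊗ₖ dRR n (F y)) x :=
      rat_add (rat_kron h2 (rat_const _)) (rat_kron (rat_const _) ih)
    exact h1

open scoped MatrixOrder in
private theorem posDef_factor' {J : Type} [Fintype J] [DecidableEq J] {M : Matrix J J ℂ}
    (hM : M.PosDef) : ∃ B : Matrix J J ℂ, IsUnit B.det ∧ M = Bᴴ * B := by
  obtain ⟨B, hB⟩ := CStarAlgebra.nonneg_iff_eq_star_mul_self.mp hM.posSemidef.nonneg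
  refine ⟨B, ?_, hB⟩
  have h1 := hM.isUnit
  rw [hB, Matrix.isUnit_iff_isUnit_det, Matrix.det_mul] at h1
  exact isUnit_of_mul_isUnit_right h1

theorem posDef_RR (n : ℕ) {H : Matrix (Fin r) (Fin r) ℂ} (h : H.PosDef) : (RR n H).PosDef := by
  obtain ⟨B, hB, hH⟩ := posDef_factor' h
  rw [hH, RR_mul, RR_conjTranspose]
  refine Matrix.PosDef.conjTranspose_mul_self _ ?_
  exact Matrix.mulVec_injective_of_isUnit ((Matrix.isUnit_iff_isUnit_det _).2 (RR_det n hB))

theorem HV.TP {N : ℝ} {O : Set ℂ} {D H : ℂ → Matrix (Fin r) (Fin r) ℂ} (h : HV N O D H) (hN : 0 ≤ N)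
    (n : ℕ) : HV (n * N) O (fun s => dRR n (D s)) (fun s => RR n (H s)) := by
  have h1 : HV N O (fun s => d2 (D s)) (fun s => g2 (H s)) := by
    have h2 := (HV.triv Unit O).sum ((HV.triv (Fin r) O).kron h)
    simp only [Matrix.zero_kronecker, zero_add, max_eq_right hN] at h2
    exact h2
  induction n with
  | zero =>
    have h2 := HV.triv Unit O
    rw [Nat.cast_zero, zero_mul]
    exact h2
  | succ n ih =>
    have h2 := h1.kron ih
    have h3 : N + n * N = ((n + 1 : ℕ) : ℝ) * N := by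
      push_cast
      ring
    rw [h3] at h2
    exact h2

theorem HE.TP {u : ℂ} {O : Set ℂ} {D E : ℂ → Matrix (Fin r) (Fin r) ℂ} (h : HE u O D E)
    (hD : ∀ s ∈ O, RAt D s) (n : ℕ) : HE u O (fun s => dRR n (D s)) (fun s => RR n (E s)) := by
  have h1 : HE u O (fun s => d2 (D s)) (fun s => g2 (E s)) := by
    have h2 := (HE.triv Unit O u).sum
      ((HE.triv (Fin r) O u).kron h (fun s _ => rat_const _) hD)
    simp only [Matrix.zero_kronecker, zero_add] at h2
    exact h2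
  induction n with
  | zero =>
    have h2 := HE.triv Unit O u
    exact h2
  | succ n ih =>
    have h2 := h1.kron ih (fun s hs => rat_fromBlocks (rat_const _) (rat_const _) (rat_const _)
      (rat_kron (rat_const _) (hD s hs))) (fun s hs => rat_dRR n (hD s hs))
    exact h2

end Pool.Agent.Helper79.FX
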