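import Pool.Agent.Helper79.FX.HodgePt
import Pool.Agent.Helper79.FX.Dense

/-!
# FX-27: the trace form on the Lie algebra of the monodromy group

* `ad_stable`: `lieS (zarG ℂ Γ) = mspan ℂ (lieS Γ)` (`HI.lieS_zarG`) and `Helper46.GG.lieS_conj_normal`; `g a g⁻¹ ∈ zarG` for all `a ∈ zarG` follows from the case `a = map γ`, `γ ∈ Γ`: for `f ∈ vanGL ℚ Γ` the function `a ↦ evGL (g a g⁻¹) f` is a polynomial `f'` over `ℂ`
  (`exists_left`, `exists_right` over `ℂ`) which vanishes at the `map γ`, so at the points of `zar` (`HI.evGL_zero_of_zar`).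
* `skew`: the polynomials `(Xᵀ ψ X - ψ) i k` vanish on `Γ`; the derivative at `1` in the direction `x` is `(xᵀ ψ + ψ x) i k` (`mem_lieS`, dual numbers; a lemma of this kind may be in `Pool/Agent/Helper79/HI/GroupBig.lean` or `Helper46/GG`).
* `adj_skew`: `C = Em I P`, `Ψ = (qc ψ)ᵀ`, `H = Ψ C`, `x` rational with `xᵀ ψ + ψ x = 0`. Transposing, `ψᵀ x + xᵀ ψᵀ = 0`, so `xᴴ Ψ = -Ψ x` (`x` is real) and
  `adjH H x = C⁻¹ Ψ⁻¹ xᴴ Ψ C = -C⁻¹ x C`.
* `trace_nondeg`: `y = C⁻¹ x C ∈ mspan ℂ (lieS Γ)` by `ad_stable` (`hAd`), the linear form `trace (x * ·)` vanishes on `mspan ℂ (lieS Γ)`; `0 = trace (x C⁻¹ x C) = -nsq H x`, so `x = 0` (`nsq_eq_zero`).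
* `perfect`: suppose `L` contains all brackets, `x₀ ∈ lieS Γ`, `x₀ ∉ L`. There is a linear form on `lieS Γ` which vanishes on `L ⊓ lieS Γ` and not at `x₀`; by `trace_nondeg` (finite dimension) it is `y ↦ trace (z y)`, `z ∈ lieS Γ`. For `x, y ∈ lieS Γ`
  `0 = trace (z (x y - y x)) = trace ((z x - x z) y)`, `z x - x z ∈ lieS Γ` (`HI.lieS_lie`), so `z x = x z` (`trace_nondeg`): `z = 0` by `hcen`, contradiction.
-/

namespace Pool.Agent.Helper79.FX

open Matrix Module Pool.Agent.Helper88.MT Pool.Agent.Helper46.GG Pool.Agent.Helper79.HG Pool.Agent.Helper79.HH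
  Pool.Agent.Helper79.HI Pool.Agent.Helper79.HJ
open scoped ComplexOrder

variable {r : ℕ} {lev : Fin r → ℤ} {j : ℤ} {ψ : Matrix (Fin r) (Fin r) ℚ} {P : Matrix (Fin r) (Fin r) ℂ}
  {Γ : Subgroup (GL (Fin r) ℚ)}

private theorem tr_map_self {A : Type} [CommRing A] (g : GL (Fin r) A) :
    Matrix.GeneralLinearGroup.map (algebraMap A A) g = g := by
  rw [Algebra.algebraMap_self]
  exact congrFun (congrArg DFunLike.coe (Matrix.GeneralLinearGroup.map_id (n := Fin r) (R := A))) g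

private theorem tr_conj_zar {g : GL (Fin r) ℂ}
    (h : ∀ γ ∈ Γ, g * Matrix.GeneralLinearGroup.map (algebraMap ℚ ℂ) γ * g⁻¹ ∈
      zar ℂ (Γ : Set (GL (Fin r) ℚ))) {a : GL (Fin r) ℂ} (ha : a ∈ zar ℂ (Γ : Set (GL (Fin r) ℚ))) :
    g * a * g⁻¹ ∈ zar ℂ (Γ : Set (GL (Fin r) ℚ)) := by
  intro f hf
  obtain ⟨f₁, hf₁⟩ := exists_left g (MvPolynomial.map (algebraMap ℚ ℂ) f)
  obtain ⟨f₂, hf₂⟩ := exists_right g⁻¹ f₁
  have key : ∀ b : GL (Fin r) ℂ, evGL b f₂ = evGL (g * b * g⁻¹) f := by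
    intro b
    rw [hf₂ b, tr_map_self, hf₁, tr_map_self, evGL_mapPoly, mul_assoc]
  rw [← key a]
  refine evGL_zero_of_zar (S := (Γ : Set (GL (Fin r) ℚ))) (fun γ hγ => ?_) ha
  rw [key]
  exact h γ hγ f hf

theorem ad_stable {g : GL (Fin r) ℂ}
    (h : ∀ γ ∈ Γ, g * Matrix.GeneralLinearGroup.map (algebraMap ℚ ℂ) γ * g⁻¹ ∈
      zar ℂ (Γ : Set (GL (Fin r) ℚ)))
    (h' : ∀ γ ∈ Γ, g⁻¹ * Matrix.GeneralLinearGroup.map (algebraMap ℚ ℂ) γ * g ∈
      zar ℂ (Γ : Set (GL (Fin r) ℚ))) {x : Matrix (Fin r) (Fin r) ℂ} (hx : x ∈ mspan ℂ (lieS Γ)) :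
    (g : Matrix (Fin r) (Fin r) ℂ) * x * ((g⁻¹ : GL (Fin r) ℂ) : Matrix (Fin r) (Fin r) ℂ) ∈
      mspan ℂ (lieS Γ) := by
  rw [← lieS_zarG] at hx ⊢
  refine lieS_conj_normal hx (fun a ha => tr_conj_zar h ha) (fun a ha => ?_)
  have h2 : ∀ γ ∈ Γ, g⁻¹ * Matrix.GeneralLinearGroup.map (algebraMap ℚ ℂ) γ * (g⁻¹)⁻¹ ∈
      zar ℂ (Γ : Set (GL (Fin r) ℚ)) := by
    intro γ hγ
    rw [inv_inv]
    exact h' γ hγ
  have h3 := tr_conj_zar h2 ha
  rw [inv_inv] at h3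
  exact h3

theorem skew (hiso : ∀ γ ∈ Γ, (γ : Matrix (Fin r) (Fin r) ℚ)ᵀ * ψ * γ = ψ)
    {x : Matrix (Fin r) (Fin r) ℚ} (hx : x ∈ lieS Γ) : xᵀ * ψ + ψ * x = 0 := by
  have h : x ∈ soT ψ (∅ : Set (Fin r → ℚ)) := by
    refine mem_soT_of_tangent (R := ℚ) (S := mats Γ) ?_ ?_ ?_
    · rintro _ ⟨g, hg, rfl⟩
      have hid : ψ.map (algebraMap ℚ ℚ) = ψ := by ext i j; simp
      rw [hid]
      exact hiso g hg
    · rintro _ ⟨g, hg, rfl⟩ w hw
      exact absurd hw (Set.notMem_empty _)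
    · intro f hf
      exact mem_van_self.mp (hx f (mem_van_self.mpr hf)) 1 ⟨1, Γ.one_mem, rfl⟩
  exact h.1

private theorem tr_qc_mul (a b : Matrix (Fin r) (Fin r) ℚ) : qc (a * b) = qc a * qc b :=
  Matrix.map_mul (f := Rat.castHom ℂ)

private theorem tr_qc_conjT (a : Matrix (Fin r) (Fin r) ℚ) : (qc a)ᴴ = qc aᵀ := by
  ext i j
  simp [Matrix.conjTranspose_apply]

theorem adj_skew (hpol : IsPolarized lev j ψ P) (hP : IsUnit P.det) {x : Matrix (Fin r) (Fin r) ℚ}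
    (hx : xᵀ * ψ + ψ * x = 0) :
    adjH (Hm lev j ψ P) (qc x) = -((Em lev j ψ Complex.I P)⁻¹ * qc x * Em lev j ψ Complex.I P) := by
  have hH := Hm_pos hpol hP
  have hdet : (Hm lev j ψ P).det ≠ 0 := hH.det_pos.ne'
  have hΨ : IsUnit ((qc ψ)ᵀ).det := by
    rw [isUnit_iff_ne_zero]
    intro h0
    apply hdet
    rw [Hm, det_mul, h0, zero_mul]
  have h1 : (qc x)ᴴ * (qc ψ)ᵀ = -((qc ψ)ᵀ * qc x) := by
    have h2 := congrArg (fun M => (qc M)ᵀ) hx
    have h3 : (qc (xᵀ * ψ + ψ * x))ᵀ = (qc ψ)ᵀ * qc x + (qc xᵀ) * (qc ψ)ᵀ := by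
      have : qc (xᵀ * ψ + ψ * x) = qc (xᵀ * ψ) + qc (ψ * x) := by
        ext i j
        simp
      rw [this, tr_qc_mul, tr_qc_mul, transpose_add, transpose_mul, transpose_mul]
      have h4 : (qc xᵀ)ᵀ = qc x := by ext i j; simp
      have h5 : (qc x)ᵀ = qc xᵀ := by ext i j; simp
      rw [h4, h5]
    have h0 : (qc (0 : Matrix (Fin r) (Fin r) ℚ))ᵀ = 0 := by ext i j; simp
    rw [h3, h0] at h2
    rw [tr_qc_conjT]
    rw [eq_neg_iff_add_eq_zero, add_comm]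
    exact h2
  unfold adjH
  have hHdef : Hm lev j ψ P = (qc ψ)ᵀ * Em lev j ψ Complex.I P := rfl
  rw [hHdef, Matrix.mul_inv_rev]
  calc (Em lev j ψ Complex.I P)⁻¹ * ((qc ψ)ᵀ)⁻¹ * (qc x)ᴴ * ((qc ψ)ᵀ * Em lev j ψ Complex.I P)
      = (Em lev j ψ Complex.I P)⁻¹ * ((qc ψ)ᵀ)⁻¹ * ((qc x)ᴴ * (qc ψ)ᵀ) * Em lev j ψ Complex.I P := by
        simp only [Matrix.mul_assoc]
    _ = -((Em lev j ψ Complex.I P)⁻¹ * (((qc ψ)ᵀ)⁻¹ * (qc ψ)ᵀ) * qc x * Em lev j ψ Complex.I P) := by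
        rw [h1]
        simp only [Matrix.mul_assoc, Matrix.mul_neg, Matrix.neg_mul]
    _ = _ := by
        rw [Matrix.nonsing_inv_mul _ hΨ, Matrix.mul_one]

/-- The Lie algebra is stable under the Hodge circle. -/
def AdStable (lev : Fin r → ℤ) (j : ℤ) (ψ : Matrix (Fin r) (Fin r) ℚ) (P : Matrix (Fin r) (Fin r) ℂ)
    (Γ : Subgroup (GL (Fin r) ℚ)) : Prop :=
  ∀ u : ℂ, u ≠ 0 → ∀ x ∈ mspan ℂ (lieS Γ), Em lev j ψ u P * x * (Em lev j ψ u P)⁻¹ ∈ mspan ℂ (lieS Γ)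

theorem trace_nondeg (hpol : IsPolarized lev j ψ P) (hP : IsUnit P.det) (hAd : AdStable lev j ψ P Γ)
    (hiso : ∀ γ ∈ Γ, (γ : Matrix (Fin r) (Fin r) ℚ)ᵀ * ψ * γ = ψ) {x : Matrix (Fin r) (Fin r) ℚ}
    (hx : x ∈ lieS Γ) (h0 : ∀ y ∈ lieS Γ, (x * y).trace = 0) : x = 0 := by
  have hH := Hm_pos hpol hP
  have hI : Complex.I ≠ 0 := Complex.I_ne_zero
  have hI' : (-Complex.I) ≠ 0 := neg_ne_zero.2 hI
  have hmul : Em lev j ψ Complex.I P * Em lev j ψ (-Complex.I) P = 1 := by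
    rw [Em_mul hpol hP hI hI', mul_neg, Complex.I_mul_I, neg_neg, Em_one hpol hP]
  have hinv : (Em lev j ψ Complex.I P)⁻¹ = Em lev j ψ (-Complex.I) P := Matrix.inv_eq_right_inv hmul
  have hinv' : (Em lev j ψ (-Complex.I) P)⁻¹ = Em lev j ψ Complex.I P := Matrix.inv_eq_left_inv hmul
  have hlin : ∀ Y ∈ mspan ℂ (lieS Γ), (qc x * Y).trace = 0 := by
    intro Y hY
    induction hY using Submodule.span_induction with
    | mem Y hY =>
      obtain ⟨y, hy, rfl⟩ := hY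
      have h1 : qc x * (y.map (algebraMap ℚ ℂ)) = qc (x * y) := by
        rw [tr_qc_mul]
        congr 1
      show (qc x * (y.map (algebraMap ℚ ℂ))).trace = 0
      rw [h1]
      have h2 : (qc (x * y)).trace = (((x * y).trace : ℚ) : ℂ) := by
        simp [Matrix.trace]
      rw [h2, h0 y hy, Rat.cast_zero]
    | zero => rw [Matrix.mul_zero, Matrix.trace_zero]
    | add Y Z _ _ h1 h2 => rw [Matrix.mul_add, Matrix.trace_add, h1, h2, add_zero]
    | smul c Y _ h1 => rw [Matrix.mul_smul, Matrix.trace_smul, h1, smul_zero]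
  have hmem : qc x ∈ mspan ℂ (lieS Γ) := map_mem_mspan hx
  have h2 := hAd (-Complex.I) hI' (qc x) hmem
  rw [hinv', ← hinv] at h2
  have h3 := hlin _ h2
  have h4 := adj_skew hpol hP (skew hiso hx)
  have h5 : (nsq (Hm lev j ψ P) (qc x) : ℂ) = 0 := by
    rw [← nsq_coe hH, h4, Matrix.mul_neg, Matrix.trace_neg, h3, neg_zero]
  have h6 := nsq_eq_zero hH (by exact_mod_cast h5)
  ext i k
  have := congrFun (congrFun h6 i) k
  simpa using this

theorem perfect (hpol : IsPolarized lev j ψ P) (hP : IsUnit P.det) (hAd : AdStable lev j ψ P Γ)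
    (hiso : ∀ γ ∈ Γ, (γ : Matrix (Fin r) (Fin r) ℚ)ᵀ * ψ * γ = ψ)
    (hcen : ∀ z ∈ lieS Γ, (∀ x ∈ lieS Γ, x * z = z * x) → z = 0)
    (L : Submodule ℚ (Matrix (Fin r) (Fin r) ℚ))
    (hL : ∀ x ∈ lieS Γ, ∀ y ∈ lieS Γ, x * y - y * x ∈ L) : lieS Γ ≤ L := by
  intro x₀ hx₀
  by_contra hnot
  obtain ⟨φ, hφ0, hφL⟩ := Submodule.exists_le_ker_of_notMem hnot
  -- the trace form on the Lie algebra
  let B : lieS Γ →ₗ[ℚ] Module.Dual ℚ (lieS Γ) :=
    { toFun := fun z =>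
        { toFun := fun y => ((z : Matrix (Fin r) (Fin r) ℚ) * y).trace
          map_add' := by
            intro a b
            rw [Submodule.coe_add, Matrix.mul_add, Matrix.trace_add]
          map_smul' := by
            intro c a
            rw [Submodule.coe_smul, Matrix.mul_smul, Matrix.trace_smul, RingHom.id_apply] }
      map_add' := by
        intro a b
        ext y
        show ((((a + b : lieS Γ)) : Matrix (Fin r) (Fin r) ℚ) * y).trace = (a.1 * y.1).trace + (b.1 * y.1).trace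
        rw [Submodule.coe_add, Matrix.add_mul, Matrix.trace_add]
      map_smul' := by
        intro c a
        ext y
        show ((((c • a : lieS Γ)) : Matrix (Fin r) (Fin r) ℚ) * y).trace = c • (a.1 * y.1).trace
        rw [Submodule.coe_smul, Matrix.smul_mul, Matrix.trace_smul] }
  have hBapp : ∀ z y : lieS Γ, B z y = (z.1 * y.1).trace := fun _ _ => rfl
  have hBinj : Function.Injective B := by
    rw [injective_iff_map_eq_zero]
    intro z hz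
    apply Subtype.ext
    refine trace_nondeg hpol hP hAd hiso z.2 (fun y hy => ?_)
    have := LinearMap.congr_fun hz ⟨y, hy⟩
    rw [hBapp] at this
    simpa using this
  have hBsurj : Function.Surjective B :=
    (LinearMap.injective_iff_surjective_of_finrank_eq_finrank
      (Subspace.dual_finrank_eq (K := ℚ) (V := lieS Γ)).symm).1 hBinj
  obtain ⟨z, hz⟩ := hBsurj (φ.comp (lieS Γ).subtype)
  have hzφ : ∀ y ∈ lieS Γ, (z.1 * y).trace = φ y := by
    intro y hy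
    have := LinearMap.congr_fun hz ⟨y, hy⟩
    rw [hBapp] at this
    simpa using this
  have hz0 : z.1 = 0 := by
    apply hcen z.1 z.2
    intro x hx
    have hmem : z.1 * x - x * z.1 ∈ lieS Γ := lieS_lie z.1 z.2 x hx
    have := trace_nondeg hpol hP hAd hiso hmem (fun y hy => by
      have h1 := hzφ _ (lieS_lie x hx y hy)
      have h2 : φ (x * y - y * x) = 0 := hφL (hL x hx y hy)
      rw [h2] at h1
      have h3 : ((z.1 * x - x * z.1) * y).trace = (z.1 * (x * y - y * x)).trace := by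
        rw [Matrix.sub_mul, Matrix.mul_sub, Matrix.trace_sub, Matrix.trace_sub]
        congr 1
        · rw [Matrix.mul_assoc]
        · rw [Matrix.mul_assoc, Matrix.trace_mul_comm, Matrix.mul_assoc]
      rw [h3, h1])
    exact (sub_eq_zero.1 this).symm
  apply hφ0
  rw [← hzφ x₀ hx₀, hz0, Matrix.zero_mul, Matrix.trace_zero]

end Pool.Agent.Helper79.FX
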