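import Pool.Agent.Helper79.FX.FinW
import Pool.Agent.Helper79.FX.Conn

/-!
# FX-19: finitely many branches, up to the subgroup `Γ` of finite index of the monodromy group

Let `D` be convex, open, not empty, in `S ≠ 0`. For each `i` in `finite_w` for which there is a reached element over `D` with `w = f i` choose one, `b_i`; let `γ_j` be representatives of the finitely many
cosets `γ Γ` of `Γ` in `MM`; `G` = the elements `rmul b_i γ_j` (`reach_rmul`). It is not empty (`exists_over`). Let `b` be reached and `x ∈ D ∩ b.U`. `reach_ext`: there is `c` reached over `D`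
which agrees with `b` near `x`. `c.w = f i = b_i.w` on `D` for some `i`; by `int` `c.P = b_i.P γ` on `D` with `γ ∈ MM` (`mem_MM`), `γ = γ_j δ`, `δ ∈ Γ`: `b.P = c.P = (b_i.P γ_j) δ` near `x`.
-/

namespace Pool.Agent.Helper79.FX

open Matrix Pool.Agent.Helper79.BB Pool.Agent.Helper79.HH Pool.Agent.Helper79.HJ
  Pool.Agent.Helper64.Per Pool.Agent.Helper79.DD

variable {m r μ : ℕ} {S : MvPolynomial (Fin m) ℂ} {a : Element m (Fin r)} {lev : Fin r → ℤ} {j : ℤ}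
  {ψ : Matrix (Fin r) (Fin r) ℚ} {k : Type} [Field k] [Algebra k ℂ]

private theorem iso_cast {γ : GL (Fin r) ℤ}
    (h : ((γ : Matrix (Fin r) (Fin r) ℤ).map (Int.cast : ℤ → ℚ))ᵀ * ψ *
        (γ : Matrix (Fin r) (Fin r) ℤ).map (Int.cast : ℤ → ℚ) = ψ) :
    (zc (γ : Matrix (Fin r) (Fin r) ℤ))ᵀ * qc ψ * zc (γ : Matrix (Fin r) (Fin r) ℤ) = qc ψ := by
  have h1 := congrArg (fun M : Matrix (Fin r) (Fin r) ℚ => M.map (Rat.castHom ℂ)) h
  simp only [Matrix.map_mul] at h1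
  have h2 : (((γ : Matrix (Fin r) (Fin r) ℤ).map (Int.cast : ℤ → ℚ)).map (Rat.castHom ℂ)) =
      zc (γ : Matrix (Fin r) (Fin r) ℤ) := by
    ext x y
    simp [zc]
  have h3 : ((((γ : Matrix (Fin r) (Fin r) ℤ).map (Int.cast : ℤ → ℚ))ᵀ).map (Rat.castHom ℂ)) =
      (zc (γ : Matrix (Fin r) (Fin r) ℤ))ᵀ := by
    rw [← h2]
    ext x y
    simp
  rw [h2, h3] at h1
  exact h1

theorem IsVHS.finite_branches (h : IsVHS S a lev j ψ) (hne : a.U.Nonempty) (hw : IsBranchM k a.U μ a.w)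
    {Γ : Subgroup (GL (Fin r) ℤ)} (hΓ : Γ ≤ MM S a ψ h.dom) (hfin : Γ.relIndex (MM S a ψ h.dom) ≠ 0)
    {D : Set (Fin m → ℂ)} (hD : IsOpen D) (hD' : Convex ℝ D) (hDS : ∀ t ∈ D, MvPolynomial.eval t S ≠ 0)
    (hDne : D.Nonempty) :
    ∃ G : Set (Element m (Fin r)), G.Finite ∧ G.Nonempty ∧ (∀ e ∈ G, Reach S a e ∧ e.U = D) ∧
      ∀ b, Reach S a b → ∀ x ∈ D ∩ b.U, ∃ e ∈ G, ∃ γ ∈ Γ, ∀ᶠ y in nhds x,
        b.P y = e.P y * zc (γ : Matrix (Fin r) (Fin r) ℤ) := by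
  classical
  obtain ⟨n, f, hf⟩ := finite_w (S := S) hne h.analytic hw hDne
  obtain ⟨b₀, hb₀, hb₀D⟩ := h.exists_over hne hD hD' hDS hDne
  set M := MM S a ψ h.dom with hM
  haveI hfinQ : Finite (M ⧸ Γ.subgroupOf M) := by
    apply Nat.finite_of_card_ne_zero
    exact hfin
  let pr : Fin n → Prop := fun i => ∃ b, Reach S a b ∧ b.U = D ∧ ∀ t ∈ D, b.w t = f i t
  let F : Fin n × (M ⧸ Γ.subgroupOf M) → Element m (Fin r) := fun p =>
    if hi : pr p.1 then rmul hi.choose (zc ((p.2.out : M) : GL (Fin r) ℤ).val) else b₀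
  refine ⟨insert b₀ (Set.range F), (Set.finite_range F).insert b₀, ⟨b₀, Set.mem_insert _ _⟩, ?_, ?_⟩
  · intro e he
    rcases he with rfl | ⟨⟨i, q⟩, rfl⟩
    · exact ⟨hb₀, hb₀D⟩
    · by_cases hi : pr i
      · have hF : F (i, q) = rmul hi.choose (zc ((q.out : M) : GL (Fin r) ℤ).val) := dif_pos hi
        rw [hF]
        exact ⟨reach_rmul h.dom (q.out : M).2 hi.choose_spec.1, hi.choose_spec.2.1⟩
      · have hF : F (i, q) = b₀ := dif_neg hi
        rw [hF]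
        exact ⟨hb₀, hb₀D⟩
  · intro b hb x hx
    obtain ⟨c, hc, hcD, hcx⟩ := h.reach_ext hb hD hD' hDS hx.2 hx.1
    obtain ⟨i, hi⟩ := hf c hc hcD
    have hpi : pr i := ⟨c, hc, hcD, hi⟩
    obtain ⟨hb1, hb2, hb3⟩ := hpi.choose_spec
    set bi := hpi.choose with hbi
    have hU : bi.U = c.U := by rw [hb2, hcD]
    have hww : ∀ t ∈ bi.U, bi.w t = c.w t := by
      intro t ht
      rw [hb2] at ht
      rw [hb3 t ht, hi t ht]
    obtain ⟨γ, hγ, hP⟩ := h.int bi c hb1 hc hU hww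
    have hne' : bi.U.Nonempty := by rw [hb2]; exact hDne
    have hγM : γ ∈ M := mem_MM h.dom h.analytic hb1 hc hne' hU hww (iso_cast hγ) hP
    set q : M ⧸ Γ.subgroupOf M := QuotientGroup.mk (⟨γ, hγM⟩ : M) with hq
    have hδ : (q.out : M)⁻¹ * (⟨γ, hγM⟩ : M) ∈ Γ.subgroupOf M := by
      rw [← QuotientGroup.eq]
      rw [QuotientGroup.out_eq']
    have hδ' : ((q.out : M) : GL (Fin r) ℤ)⁻¹ * γ ∈ Γ := Subgroup.mem_subgroupOf.mp hδ
    refine ⟨F (i, q), Set.mem_insert_of_mem _ ⟨(i, q), rfl⟩, _, hδ', ?_⟩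
    have hF : F (i, q) = rmul bi (zc ((q.out : M) : GL (Fin r) ℤ).val) := dif_pos hpi
    rw [hF]
    have hDx : ∀ᶠ y in nhds x, y ∈ D := hD.mem_nhds hx.1
    filter_upwards [hcx, hDx] with y hy hyD
    rw [hy.2, hP y (by rw [hb2]; exact hyD)]
    change bi.P y * zc (γ : Matrix (Fin r) (Fin r) ℤ) =
      bi.P y * zc ((q.out : M) : GL (Fin r) ℤ).val *
        zc ((((q.out : M) : GL (Fin r) ℤ)⁻¹ * γ : GL (Fin r) ℤ) : Matrix (Fin r) (Fin r) ℤ)
    rw [Matrix.mul_assoc, ← zc_mul, ← Units.val_mul, mul_inv_cancel_left]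

end Pool.Agent.Helper79.FX
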