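import Mathlib

/-!
# FX-01: the derivatives `∂` and `∂̄` of functions on `ℂ`

Everything from the rules for `fderiv ℝ`.
* `dz_star`: `fderiv` of `star ∘ F` is `starL' ∘ fderiv F` (no differentiability needed: `ContinuousLinearEquiv.comp_fderiv`, or by cases).
* `dz_dzb`: symmetry of the second derivative: `AnalyticAt.contDiffAt`, `ContDiffAt.isSymmSndFDerivAt`
  (`fderiv ℝ (fun x => fderiv ℝ F x v) s w = fderiv ℝ (fderiv ℝ F) s w v`).
* `lap_nonpos`: `g` has a local maximum at `s`; the functions `x ↦ g (s + x)` and `x ↦ g (s + x I)` of the real variable `x` have a local maximum at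
  `0`, so their second derivatives are `≤ 0` (otherwise `isLocalMin_of_deriv_deriv_pos`: also a local minimum, so constant near `0`, and
  the second derivative is `0`); the sum of the second derivatives is `4 Lap g s`.
-/

namespace Pool.Agent.Helper79.FX

open Complex

/-- `∂F/∂s`. -/
noncomputable def dz (F : ℂ → ℂ) (s : ℂ) : ℂ := (fderiv ℝ F s 1 - I * fderiv ℝ F s I) / 2

/-- `∂F/∂s̄`. -/
noncomputable def dzb (F : ℂ → ℂ) (s : ℂ) : ℂ := (fderiv ℝ F s 1 + I * fderiv ℝ F s I) / 2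

/-- `∂g/∂s` for a real function `g`. -/
noncomputable def rdz (g : ℂ → ℝ) (s : ℂ) : ℂ := dz (fun x => (g x : ℂ)) s

/-- `∂̄∂g` for a real function `g`: one fourth of the Laplacian. -/
noncomputable def Lap (g : ℂ → ℝ) (s : ℂ) : ℝ := (dzb (rdz g) s).re

variable {F G : ℂ → ℂ} {g g' : ℂ → ℝ} {s : ℂ}

theorem dz_congr (h : F =ᶠ[nhds s] G) : dz F s = dz G s := by
  simp only [dz, h.fderiv_eq]

theorem dzb_congr (h : F =ᶠ[nhds s] G) : dzb F s = dzb G s := by
  simp only [dzb, h.fderiv_eq]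

theorem dz_const (c : ℂ) : dz (fun _ => c) s = 0 := by
  simp [dz]

theorem dzb_const (c : ℂ) : dzb (fun _ => c) s = 0 := by
  simp [dzb]

theorem dz_add (hF : DifferentiableAt ℝ F s) (hG : DifferentiableAt ℝ G s) :
    dz (fun x => F x + G x) s = dz F s + dz G s := by
  simp only [dz, fderiv_fun_add hF hG, add_apply]
  ring

theorem dzb_add (hF : DifferentiableAt ℝ F s) (hG : DifferentiableAt ℝ G s) :
    dzb (fun x => F x + G x) s = dzb F s + dzb G s := by
  simp only [dzb, fderiv_fun_add hF hG, add_apply]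
  ring

theorem dz_sub (hF : DifferentiableAt ℝ F s) (hG : DifferentiableAt ℝ G s) :
    dz (fun x => F x - G x) s = dz F s - dz G s := by
  simp only [dz, fderiv_fun_sub hF hG, sub_apply]
  ring

theorem dzb_sub (hF : DifferentiableAt ℝ F s) (hG : DifferentiableAt ℝ G s) :
    dzb (fun x => F x - G x) s = dzb F s - dzb G s := by
  simp only [dzb, fderiv_fun_sub hF hG, sub_apply]
  ring

theorem dz_sum {J : Type} {u : Finset J} {F : J → ℂ → ℂ} (hF : ∀ j ∈ u, DifferentiableAt ℝ (F j) s) :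
    dz (fun x => ∑ j ∈ u, F j x) s = ∑ j ∈ u, dz (F j) s := by
  simp only [dz, fderiv_fun_sum hF, sum_apply, Finset.mul_sum]
  rw [← Finset.sum_sub_distrib, Finset.sum_div]

theorem dzb_sum {J : Type} {u : Finset J} {F : J → ℂ → ℂ} (hF : ∀ j ∈ u, DifferentiableAt ℝ (F j) s) :
    dzb (fun x => ∑ j ∈ u, F j x) s = ∑ j ∈ u, dzb (F j) s := by
  simp only [dzb, fderiv_fun_sum hF, sum_apply, Finset.mul_sum]
  rw [← Finset.sum_add_distrib, Finset.sum_div]

theorem dz_mul (hF : DifferentiableAt ℝ F s) (hG : DifferentiableAt ℝ G s) :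
    dz (fun x => F x * G x) s = dz F s * G s + F s * dz G s := by
  simp only [dz, fderiv_fun_mul hF hG, add_apply, smul_apply,
    smul_eq_mul]
  ring

theorem dzb_mul (hF : DifferentiableAt ℝ F s) (hG : DifferentiableAt ℝ G s) :
    dzb (fun x => F x * G x) s = dzb F s * G s + F s * dzb G s := by
  simp only [dzb, fderiv_fun_mul hF hG, add_apply, smul_apply,
    smul_eq_mul]
  ring

private theorem fderiv_inv_apply (hF : DifferentiableAt ℝ F s) (h0 : F s ≠ 0) (v : ℂ) :
    fderiv ℝ (fun x => (F x)⁻¹) s v = -(fderiv ℝ F s v / (F s) ^ 2) := by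
  have h1 : HasFDerivAt (fun x => (F x)⁻¹) _ s := (hasFDerivAt_inv' h0).comp s hF.hasFDerivAt
  rw [h1.fderiv]
  simp
  field_simp

theorem dz_inv (hF : DifferentiableAt ℝ F s) (h0 : F s ≠ 0) :
    dz (fun x => (F x)⁻¹) s = -(dz F s / (F s) ^ 2) := by
  simp only [dz, fderiv_inv_apply hF h0]
  field_simp
  ring

theorem dzb_inv (hF : DifferentiableAt ℝ F s) (h0 : F s ≠ 0) :
    dzb (fun x => (F x)⁻¹) s = -(dzb F s / (F s) ^ 2) := by
  simp only [dzb, fderiv_inv_apply hF h0]
  field_simp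
  ring

private theorem fderiv_star_apply (v : ℂ) :
    fderiv ℝ (fun x => star (F x)) s v = star (fderiv ℝ F s v) := by
  have h : (fun x => star (F x)) = Complex.conjCLE ∘ F := rfl
  rw [h, ContinuousLinearEquiv.comp_fderiv]
  rfl

theorem dz_star : dz (fun x => star (F x)) s = star (dzb F s) := by
  simp only [dz, dzb, fderiv_star_apply]
  simp [sub_eq_add_neg]

theorem dzb_star : dzb (fun x => star (F x)) s = star (dz F s) := by
  simp only [dz, dzb, fderiv_star_apply]
  simp [sub_eq_add_neg]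

private theorem fderiv_real_of_hol (h : DifferentiableAt ℂ F s) (v : ℂ) :
    fderiv ℝ F s v = v * deriv F s := by
  rw [(h.hasFDerivAt.restrictScalars ℝ).fderiv]
  have h1 : (fderiv ℂ F s) v = v * deriv F s := by
    rw [fderiv_eq_smul_deriv, smul_eq_mul]
  exact h1

theorem dz_hol (h : DifferentiableAt ℂ F s) : dz F s = deriv F s := by
  simp only [dz, fderiv_real_of_hol h]
  linear_combination (-(deriv F s) / 2) * I_mul_I

theorem dzb_hol (h : DifferentiableAt ℂ F s) : dzb F s = 0 := by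
  simp only [dzb, fderiv_real_of_hol h]
  linear_combination ((deriv F s) / 2) * I_mul_I

private theorem analyticAt_fderiv_apply {E : Type} [NormedAddCommGroup E] [NormedSpace ℝ E] [CompleteSpace E]
    {F : ℂ → E} (h : AnalyticAt ℝ F s) (v : ℂ) :
    AnalyticAt ℝ (fun x => fderiv ℝ F x v) s :=
  ((ContinuousLinearMap.apply ℝ E v).analyticAt _).comp h.fderiv

theorem analyticAt_dz (h : AnalyticAt ℝ F s) : AnalyticAt ℝ (dz F) s :=
  ((analyticAt_fderiv_apply h 1).sub
    (analyticAt_const.mul (analyticAt_fderiv_apply h I))).div analyticAt_const two_ne_zero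

theorem analyticAt_dzb (h : AnalyticAt ℝ F s) : AnalyticAt ℝ (dzb F) s :=
  ((analyticAt_fderiv_apply h 1).add
    (analyticAt_const.mul (analyticAt_fderiv_apply h I))).div analyticAt_const two_ne_zero

private theorem fderiv_fderiv_symm {E : Type} [NormedAddCommGroup E] [NormedSpace ℝ E] [CompleteSpace E]
    {F : ℂ → E} (h : AnalyticAt ℝ F s) (v w : ℂ) :
    fderiv ℝ (fun x => fderiv ℝ F x v) s w = fderiv ℝ (fun x => fderiv ℝ F x w) s v := by
  have hd : DifferentiableAt ℝ (fderiv ℝ F) s := h.fderiv.differentiableAt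
  have key : ∀ a b : ℂ, fderiv ℝ (fun x => fderiv ℝ F x a) s b = fderiv ℝ (fderiv ℝ F) s b a := by
    intro a b
    have h1 := hd.hasFDerivAt.clm_apply (hasFDerivAt_const a s)
    rw [h1.fderiv]
    simp
  have hs : IsSymmSndFDerivAt ℝ F s := by
    have hc : ContDiffAt ℝ 2 F s := h.contDiffAt
    exact hc.isSymmSndFDerivAt (by simp)
  rw [key, key]
  exact hs w v

private theorem fderiv_dzb (h : AnalyticAt ℝ F s) (w : ℂ) : fderiv ℝ (dzb F) s w =
    (fderiv ℝ (fun x => fderiv ℝ F x 1) s w + I * fderiv ℝ (fun x => fderiv ℝ F x I) s w) / 2 := by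
  have h1 := (analyticAt_fderiv_apply h 1).differentiableAt
  have h2 := (analyticAt_fderiv_apply h I).differentiableAt
  have h3 := (h1.hasFDerivAt.fun_add (h2.hasFDerivAt.const_mul I)).mul_const ((2 : ℂ)⁻¹)
  have h4 : dzb F = fun y => (fderiv ℝ F y 1 + I * fderiv ℝ F y I) * (2 : ℂ)⁻¹ := by
    funext y; simp only [dzb, div_eq_mul_inv]
  rw [h4, h3.fderiv]
  simp
  ring

private theorem fderiv_dz (h : AnalyticAt ℝ F s) (w : ℂ) : fderiv ℝ (dz F) s w =
    (fderiv ℝ (fun x => fderiv ℝ F x 1) s w - I * fderiv ℝ (fun x => fderiv ℝ F x I) s w) / 2 := by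
  have h1 := (analyticAt_fderiv_apply h 1).differentiableAt
  have h2 := (analyticAt_fderiv_apply h I).differentiableAt
  have h3 := (h1.hasFDerivAt.fun_sub (h2.hasFDerivAt.const_mul I)).mul_const ((2 : ℂ)⁻¹)
  have h4 : dz F = fun y => (fderiv ℝ F y 1 - I * fderiv ℝ F y I) * (2 : ℂ)⁻¹ := by
    funext y; simp only [dz, div_eq_mul_inv]
  rw [h4, h3.fderiv]
  simp
  ring

/-- The derivatives commute. -/
theorem dz_dzb (h : AnalyticAt ℝ F s) : dz (dzb F) s = dzb (dz F) s := by
  rw [dz, dzb, fderiv_dzb h, fderiv_dzb h, fderiv_dz h, fderiv_dz h, fderiv_fderiv_symm h 1 I]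
  ring

/-- The real derivative. -/
theorem fderiv_eq (h : DifferentiableAt ℝ F s) (v : ℂ) :
    fderiv ℝ F s v = v * dz F s + star v * dzb F s := by
  have h0 := h
  have h1 : v = v.re • (1 : ℂ) + v.im • I := by
    rw [real_smul, real_smul, mul_one]
    exact (re_add_im v).symm
  have h2 : fderiv ℝ F s v = v.re * fderiv ℝ F s 1 + v.im * fderiv ℝ F s I := by
    conv_lhs => rw [h1]
    rw [map_add, map_smul, map_smul, real_smul, real_smul]
  have h3 : v = v.re + v.im * I := (re_add_im v).symm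
  have h4 : star v = v.re - v.im * I := by
    apply Complex.ext <;> simp
  rw [h2, h4]
  nth_rewrite 3 [h3]
  simp only [dz, dzb]
  linear_combination ((v.im : ℂ) * fderiv ℝ F s I) * I_mul_I

/-! ### Real functions -/

theorem analyticAt_ofReal (h : AnalyticAt ℝ g s) : AnalyticAt ℝ (fun x => (g x : ℂ)) s :=
  (Complex.ofRealCLM.analyticAt _).comp h

private theorem fderiv_ofReal (h : DifferentiableAt ℝ g s) (v : ℂ) :
    fderiv ℝ (fun x => (g x : ℂ)) s v = ((fderiv ℝ g s v : ℝ) : ℂ) := by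
  have h1 : HasFDerivAt (fun x => (g x : ℂ)) (Complex.ofRealCLM.comp (fderiv ℝ g s)) s :=
    Complex.ofRealCLM.hasFDerivAt.comp s h.hasFDerivAt
  rw [h1.fderiv]
  rfl

private theorem rdz_eq (h : DifferentiableAt ℝ g s) :
    rdz g s = (((fderiv ℝ g s 1 : ℝ) : ℂ) - I * ((fderiv ℝ g s I : ℝ) : ℂ)) / 2 := by
  simp only [rdz, dz, fderiv_ofReal h]

theorem dzb_ofReal (h : DifferentiableAt ℝ g s) : dzb (fun x => (g x : ℂ)) s = star (rdz g s) := by
  rw [rdz_eq h]
  simp only [dzb, fderiv_ofReal h]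
  simp [sub_eq_add_neg]

theorem fderiv_real (h : DifferentiableAt ℝ g s) (v : ℂ) : fderiv ℝ g s v = 2 * (v * rdz g s).re := by
  have h1 := fderiv_eq (Complex.ofRealCLM.differentiableAt.comp s h) v
  have h2 : (Complex.ofRealCLM ∘ g) = fun x => (g x : ℂ) := rfl
  rw [h2, fderiv_ofReal h, dzb_ofReal h] at h1
  have h3 := congrArg Complex.re h1
  rw [ofReal_re] at h3
  rw [h3]
  simp only [rdz, add_re, mul_re, star_def, conj_re, conj_im]
  ring

theorem analyticAt_rdz (h : AnalyticAt ℝ g s) : AnalyticAt ℝ (rdz g) s :=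
  analyticAt_dz (analyticAt_ofReal h)

private theorem fderiv_fderiv_ofReal (h : AnalyticAt ℝ g s) (v w : ℂ) :
    fderiv ℝ (fun x => fderiv ℝ (fun y => (g y : ℂ)) x v) s w =
      ((fderiv ℝ (fun x => fderiv ℝ g x v) s w : ℝ) : ℂ) := by
  have h1 : (fun x => fderiv ℝ (fun y => (g y : ℂ)) x v) =ᶠ[nhds s]
      fun x => ((fderiv ℝ g x v : ℝ) : ℂ) := by
    filter_upwards [h.eventually_analyticAt] with x hx
    exact fderiv_ofReal hx.differentiableAt v
  rw [h1.fderiv_eq]
  exact fderiv_ofReal (analyticAt_fderiv_apply h v).differentiableAt w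

private theorem dzb_rdz (h : AnalyticAt ℝ g s) : dzb (rdz g) s =
    (((fderiv ℝ (fun x => fderiv ℝ g x 1) s 1 + fderiv ℝ (fun x => fderiv ℝ g x I) s I) / 4 : ℝ) : ℂ) := by
  have h1 : rdz g = dz (fun y => (g y : ℂ)) := rfl
  have ha := analyticAt_ofReal h
  rw [h1, dzb, fderiv_dz ha, fderiv_dz ha, fderiv_fderiv_symm ha 1 I,
    fderiv_fderiv_ofReal h, fderiv_fderiv_ofReal h, fderiv_fderiv_ofReal h]
  push_cast
  linear_combination (-((fderiv ℝ (fun x => fderiv ℝ g x I) s I : ℝ) : ℂ) / 4) * I_mul_I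

/-- `∂̄∂g` is real. -/
theorem lap_coe (h : AnalyticAt ℝ g s) : dzb (rdz g) s = (Lap g s : ℂ) := by
  rw [Lap, dzb_rdz h, ofReal_re]

theorem rdz_congr (h : g =ᶠ[nhds s] g') : rdz g s = rdz g' s := by
  apply dz_congr
  filter_upwards [h] with x hx
  rw [hx]

theorem lap_congr (h : g =ᶠ[nhds s] g') : Lap g s = Lap g' s := by
  have h1 : rdz g =ᶠ[nhds s] rdz g' := by
    filter_upwards [eventually_eventually_nhds.mpr h] with x hx
    exact rdz_congr hx
  rw [Lap, Lap, dzb_congr h1]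

theorem lap_const (c : ℝ) : Lap (fun _ => c) s = 0 := by
  have h1 : rdz (fun _ => c) = fun _ => (0 : ℂ) := by
    funext x
    exact dz_const _
  rw [Lap, h1, dzb_const]
  rfl

private theorem rdz_add (h : DifferentiableAt ℝ g s) (h' : DifferentiableAt ℝ g' s) :
    rdz (fun x => g x + g' x) s = rdz g s + rdz g' s := by
  rw [rdz_eq (h.fun_add h'), rdz_eq h, rdz_eq h', fderiv_fun_add h h']
  simp only [add_apply]
  push_cast
  ring

private theorem rdz_sub (h : DifferentiableAt ℝ g s) (h' : DifferentiableAt ℝ g' s) :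
    rdz (fun x => g x - g' x) s = rdz g s - rdz g' s := by
  rw [rdz_eq (h.fun_sub h'), rdz_eq h, rdz_eq h', fderiv_fun_sub h h']
  simp only [sub_apply]
  push_cast
  ring

private theorem rdz_const_mul (c : ℝ) (h : DifferentiableAt ℝ g s) :
    rdz (fun x => c * g x) s = c * rdz g s := by
  rw [rdz_eq (h.const_mul c), rdz_eq h, (h.hasFDerivAt.const_mul c).fderiv]
  simp only [smul_apply, smul_eq_mul]
  push_cast
  ring

theorem lap_add (h : AnalyticAt ℝ g s) (h' : AnalyticAt ℝ g' s) :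
    Lap (fun x => g x + g' x) s = Lap g s + Lap g' s := by
  have h1 : rdz (fun x => g x + g' x) =ᶠ[nhds s] fun x => rdz g x + rdz g' x := by
    filter_upwards [h.eventually_analyticAt, h'.eventually_analyticAt] with x hx hx'
    exact rdz_add hx.differentiableAt hx'.differentiableAt
  rw [Lap, dzb_congr h1, dzb_add (analyticAt_rdz h).differentiableAt (analyticAt_rdz h').differentiableAt,
    add_re]
  rfl

theorem lap_sub (h : AnalyticAt ℝ g s) (h' : AnalyticAt ℝ g' s) :
    Lap (fun x => g x - g' x) s = Lap g s - Lap g' s := by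
  have h1 : rdz (fun x => g x - g' x) =ᶠ[nhds s] fun x => rdz g x - rdz g' x := by
    filter_upwards [h.eventually_analyticAt, h'.eventually_analyticAt] with x hx hx'
    exact rdz_sub hx.differentiableAt hx'.differentiableAt
  rw [Lap, dzb_congr h1, dzb_sub (analyticAt_rdz h).differentiableAt (analyticAt_rdz h').differentiableAt,
    sub_re]
  rfl

theorem lap_const_mul (c : ℝ) (h : AnalyticAt ℝ g s) : Lap (fun x => c * g x) s = c * Lap g s := by
  have h1 : rdz (fun x => c * g x) =ᶠ[nhds s] fun x => (c : ℂ) * rdz g x := by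
    filter_upwards [h.eventually_analyticAt] with x hx
    exact rdz_const_mul c hx.differentiableAt
  rw [Lap, dzb_congr h1, dzb_mul (differentiableAt_const _) (analyticAt_rdz h).differentiableAt,
    dzb_const, zero_mul, zero_add, re_ofReal_mul]
  rfl

private theorem rdz_comp {f : ℝ → ℝ} (h : DifferentiableAt ℝ g s) (hf : DifferentiableAt ℝ f (g s)) :
    rdz (fun x => f (g x)) s = (deriv f (g s) : ℝ) * rdz g s := by
  have h1 : HasFDerivAt (fun x => f (g x)) (deriv f (g s) • fderiv ℝ g s) s :=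
    hf.hasDerivAt.comp_hasFDerivAt s h.hasFDerivAt
  rw [rdz_eq h1.differentiableAt, rdz_eq h, h1.fderiv]
  simp only [smul_apply, smul_eq_mul]
  push_cast
  ring

/-- The composition with a function of one real variable. -/
theorem lap_comp {f : ℝ → ℝ} (h : AnalyticAt ℝ g s) (hf : AnalyticAt ℝ f (g s)) :
    Lap (fun x => f (g x)) s = deriv f (g s) * Lap g s + deriv (deriv f) (g s) * ‖rdz g s‖ ^ 2 := by
  have h1 : rdz (fun x => f (g x)) =ᶠ[nhds s] fun x => ((deriv f (g x) : ℝ) : ℂ) * rdz g x := by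
    filter_upwards [h.eventually_analyticAt,
      h.continuousAt.eventually hf.eventually_analyticAt] with x hx hx'
    exact rdz_comp hx.differentiableAt hx'.differentiableAt
  have hd : AnalyticAt ℝ (fun x => deriv f (g x)) s := hf.deriv.comp h
  have h2 : dzb (rdz (fun x => f (g x))) s =
      ((deriv f (g s) * Lap g s + deriv (deriv f) (g s) * ‖rdz g s‖ ^ 2 : ℝ) : ℂ) := by
    rw [dzb_congr h1, dzb_mul (analyticAt_ofReal hd).differentiableAt (analyticAt_rdz h).differentiableAt,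
      dzb_ofReal hd.differentiableAt, lap_coe h, rdz_comp h.differentiableAt hf.deriv.differentiableAt]
    have h3 : star (rdz g s) * rdz g s = ((‖rdz g s‖ ^ 2 : ℝ) : ℂ) := by
      rw [star_def, conj_mul', ofReal_pow]
    rw [star_mul', star_def, conj_ofReal, ← star_def]
    push_cast
    push_cast at h3
    linear_combination ((deriv (deriv f) (g s) : ℝ) : ℂ) * h3
  rw [Lap, h2, ofReal_re]

private theorem analyticAt_log_comp (h : AnalyticAt ℝ g s) (h0 : 0 < g s) :
    AnalyticAt ℝ (fun x => Real.log (g x)) s :=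
  AnalyticAt.comp (g := Real.log) (f := g) (analyticAt_log h0) h

theorem rdz_log (h : AnalyticAt ℝ g s) (h0 : 0 < g s) :
    rdz (fun x => Real.log (g x)) s = rdz g s / g s := by
  rw [rdz_comp h.differentiableAt (Real.differentiableAt_log h0.ne'), Real.deriv_log]
  push_cast
  ring

theorem lap_log (h : AnalyticAt ℝ g s) (h0 : 0 < g s) :
    Lap (fun x => Real.log (g x)) s = Lap g s / g s - ‖rdz g s‖ ^ 2 / (g s) ^ 2 := by
  rw [lap_comp h (analyticAt_log h0), Real.deriv_log, Real.deriv_log', deriv_inv]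
  ring

private theorem analyticAt_normSq (a : ℂ) : AnalyticAt ℝ (fun x : ℂ => ‖x - a‖ ^ 2) s := by
  have h1 : (fun x : ℂ => ‖x - a‖ ^ 2) = fun x : ℂ => (x.re - a.re) ^ 2 + (x.im - a.im) ^ 2 := by
    funext x
    rw [Complex.sq_norm, normSq_apply, sub_re, sub_im]
    ring
  rw [h1]
  have h2 : AnalyticAt ℝ (fun x : ℂ => x.re) s := Complex.reCLM.analyticAt _
  have h3 : AnalyticAt ℝ (fun x : ℂ => x.im) s := Complex.imCLM.analyticAt _
  exact ((h2.sub analyticAt_const).pow 2).add ((h3.sub analyticAt_const).pow 2)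

private theorem rdz_normSq (a : ℂ) : rdz (fun x : ℂ => ‖x - a‖ ^ 2) s = star (s - a) := by
  have h1 : (fun x : ℂ => ((‖x - a‖ ^ 2 : ℝ) : ℂ)) = fun x => (x - a) * star (x - a) := by
    funext x
    rw [star_def, mul_conj', ofReal_pow]
  have hd : DifferentiableAt ℂ (fun x : ℂ => x - a) s := differentiableAt_id.sub_const a
  have hr : DifferentiableAt ℝ (fun x : ℂ => x - a) s := hd.restrictScalars ℝ
  have hs : DifferentiableAt ℝ (fun x : ℂ => star (x - a)) s :=
    (Complex.conjCLE.differentiableAt).comp s hr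
  rw [rdz, h1, dz_mul hr hs, dz_star, dz_hol hd, dzb_hol hd]
  simp

/-- `log |s - a|` is harmonic. -/
theorem lap_log_norm {a : ℂ} (h : s ≠ a) : AnalyticAt ℝ (fun x => Real.log ‖x - a‖) s ∧
    Lap (fun x => Real.log ‖x - a‖) s = 0 ∧ ‖rdz (fun x => Real.log ‖x - a‖) s‖ = 1 / (2 * ‖s - a‖) := by
  have h1 : (fun x => Real.log ‖x - a‖) = fun x => (2 : ℝ)⁻¹ * Real.log (‖x - a‖ ^ 2) := by
    funext x
    rw [Real.log_pow]
    push_cast
    ring
  have hpos : ∀ x : ℂ, x ≠ a → 0 < ‖x - a‖ ^ 2 := fun x hx => by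
    have := norm_pos_iff.mpr (sub_ne_zero.mpr hx)
    positivity
  have h2 : AnalyticAt ℝ (fun x : ℂ => Real.log (‖x - a‖ ^ 2)) s :=
    analyticAt_log_comp (analyticAt_normSq a) (hpos s h)
  have h3 : ∀ x : ℂ, x ≠ a → rdz (fun x => Real.log ‖x - a‖) x = (2 : ℂ)⁻¹ * (x - a)⁻¹ := by
    intro x hx
    have h4 : AnalyticAt ℝ (fun x : ℂ => Real.log (‖x - a‖ ^ 2)) x :=
      analyticAt_log_comp (analyticAt_normSq a) (hpos x hx)
    rw [h1, rdz_const_mul _ h4.differentiableAt, rdz_log (analyticAt_normSq a) (hpos x hx), rdz_normSq]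
    have h5 : ((‖x - a‖ ^ 2 : ℝ) : ℂ) = (x - a) * star (x - a) := by
      rw [star_def, mul_conj', ofReal_pow]
    have h6 : x - a ≠ 0 := sub_ne_zero.mpr hx
    have h7 : star (x - a) ≠ 0 := star_ne_zero.mpr h6
    rw [h5]
    push_cast
    field_simp
  refine ⟨?_, ?_, ?_⟩
  · rw [h1]
    exact analyticAt_const.mul h2
  · have h4 : rdz (fun x => Real.log ‖x - a‖) =ᶠ[nhds s] fun x => (2 : ℂ)⁻¹ * (x - a)⁻¹ := by
      filter_upwards [isOpen_ne.mem_nhds h] with x hx
      exact h3 x hx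
    have h5 : DifferentiableAt ℂ (fun x : ℂ => (2 : ℂ)⁻¹ * (x - a)⁻¹) s :=
      ((differentiableAt_id.sub_const a).inv (sub_ne_zero.mpr h)).const_mul _
    rw [Lap, dzb_congr h4, dzb_hol h5]
    rfl
  · rw [h3 s h, norm_mul, norm_inv, norm_inv, Complex.norm_two]
    rw [one_div, mul_inv]

/-- `log (1 + |s|²)` is strictly subharmonic. -/
theorem lap_log_one_add (s : ℂ) : AnalyticAt ℝ (fun x : ℂ => Real.log (1 + ‖x‖ ^ 2)) s ∧
    Lap (fun x : ℂ => Real.log (1 + ‖x‖ ^ 2)) s = 1 / (1 + ‖s‖ ^ 2) ^ 2 := by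
  have ha : ∀ x : ℂ, AnalyticAt ℝ (fun x : ℂ => ‖x‖ ^ 2) x := by
    intro x
    have := analyticAt_normSq (s := x) 0
    simpa using this
  have hb : ∀ x : ℂ, AnalyticAt ℝ (fun x : ℂ => 1 + ‖x‖ ^ 2) x := fun x => analyticAt_const.add (ha x)
  have hpos : ∀ x : ℂ, 0 < 1 + ‖x‖ ^ 2 := fun x => by positivity
  have h1 : ∀ x : ℂ, rdz (fun x : ℂ => 1 + ‖x‖ ^ 2) x = star x := by
    intro x
    have h2 := rdz_normSq (s := x) 0
    simp only [sub_zero] at h2
    rw [rdz_add (differentiableAt_const _) (ha x).differentiableAt, h2, rdz]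
    rw [dz_const, zero_add]
  have h2 : Lap (fun x : ℂ => 1 + ‖x‖ ^ 2) s = 1 := by
    have h3 : rdz (fun x : ℂ => 1 + ‖x‖ ^ 2) = fun x => star x := by
      funext x
      exact h1 x
    have h4 : DifferentiableAt ℂ (fun x : ℂ => x) s := differentiableAt_id
    rw [Lap, h3, dzb_star, dz_hol h4]
    simp
  refine ⟨analyticAt_log_comp (hb s) (hpos s), ?_⟩
  rw [lap_log (hb s) (hpos s), h2, h1, norm_star]
  have h3 := (hpos s).ne'
  field_simp
  ring

private theorem second_nonpos (h : AnalyticAt ℝ g s) (hmax : IsLocalMax g s) (v : ℂ) :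
    fderiv ℝ (fun x => fderiv ℝ g x v) s v ≤ 0 := by
  set L : ℝ → ℂ := fun t => s + t • v with hL
  have hL0 : L 0 = s := by simp [hL]
  have hLd : ∀ t, HasDerivAt L v t := by
    intro t
    have h1 := ((hasDerivAt_id t).smul_const v).const_add s
    rw [one_smul] at h1
    exact h1
  have hLc : ContinuousAt L 0 := (hLd 0).continuousAt
  have hLt : Filter.Tendsto L (nhds 0) (nhds s) := by
    have := hLc.tendsto
    rwa [hL0] at this
  have hd1 : deriv (g ∘ L) =ᶠ[nhds 0] fun t => fderiv ℝ g (L t) v := by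
    filter_upwards [hLt.eventually h.eventually_analyticAt] with t ht
    exact (ht.differentiableAt.hasFDerivAt.comp_hasDerivAt t (hLd t)).deriv
  have hd2 : deriv (deriv (g ∘ L)) 0 = fderiv ℝ (fun x => fderiv ℝ g x v) s v := by
    rw [hd1.deriv_eq]
    have h1 : HasFDerivAt (fun x => fderiv ℝ g x v) (fderiv ℝ (fun x => fderiv ℝ g x v) s) (L 0) := by
      rw [hL0]
      exact (analyticAt_fderiv_apply h v).differentiableAt.hasFDerivAt
    exact (h1.comp_hasDerivAt 0 (hLd 0)).deriv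
  have hm : IsLocalMax (g ∘ L) 0 := by
    have h1 : ∀ᶠ x in nhds s, g x ≤ g s := hmax
    have h2 := hLt.eventually h1
    rw [← hL0] at h2
    exact h2
  rw [← hd2]
  by_contra hc
  have hc' : 0 < deriv (deriv (g ∘ L)) 0 := not_le.mp hc
  have hcont : ContinuousAt (g ∘ L) 0 := by
    apply ContinuousAt.comp _ hLc
    rw [hL0]
    exact h.continuousAt
  have hmin := isLocalMin_of_deriv_deriv_pos hc' hm.deriv_eq_zero hcont
  have hconst : (g ∘ L) =ᶠ[nhds 0] fun _ => (g ∘ L) 0 := by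
    have h1 : ∀ᶠ t in nhds 0, (g ∘ L) t ≤ (g ∘ L) 0 := hm
    have h2 : ∀ᶠ t in nhds 0, (g ∘ L) 0 ≤ (g ∘ L) t := hmin
    filter_upwards [h1, h2] with t ht ht'
    exact le_antisymm ht ht'
  have h3 : deriv (g ∘ L) =ᶠ[nhds 0] deriv fun _ => (g ∘ L) 0 := hconst.deriv
  have h4 : deriv (deriv (g ∘ L)) 0 = 0 := by
    rw [h3.deriv_eq]
    simp
  exact hc'.ne' h4

/-- At a local maximum the Laplacian is not positive. -/
theorem lap_nonpos (h : AnalyticAt ℝ g s) (hmax : IsLocalMax g s) : Lap g s ≤ 0 := by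
  rw [Lap, dzb_rdz h, ofReal_re]
  have h1 := second_nonpos h hmax 1
  have h2 := second_nonpos h hmax I
  linarith

end Pool.Agent.Helper79.FX
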